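import Mathlib

/-!
Definitions used in the statement for MP_1f4710_co.
-/

namespace Pool.Agent.Lib.MP_1f4710_co

open Topology Matrix

/-- The normal density with mean `μ` and covariance matrix `S` on `ℝ ^ d`. -/
noncomputable def gaussian {d : ℕ} (μ : Fin d → ℝ) (S : Matrix (Fin d) (Fin d) ℝ)
    (x : Fin d → ℝ) : ℝ :=
  (2 * Real.pi) ^ (-(d : ℝ) / 2) * S.det ^ (-(1 : ℝ) / 2) *
    Real.exp (-(1 / 2) * ((x - μ) ⬝ᵥ (S⁻¹ *ᵥ (x - μ))))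

/-- The set of strict local maxima of `f`. -/
def modes {d : ℕ} (f : (Fin d → ℝ) → ℝ) : Set (Fin d → ℝ) :=
  {x | ∀ᶠ y in 𝓝[≠] x, f y < f x}

/-- The supremum of the number of modes over all mixtures of `k` normal densities on `ℝ ^ d`. -/
noncomputable def maxModes (d k : ℕ) : ℕ∞ :=
  ⨆ (w : Fin k → ℝ) (μ : Fin k → Fin d → ℝ) (S : Fin k → Matrix (Fin d) (Fin d) ℝ)
    (_ : (∀ i, 0 < w i) ∧ ∑ i, w i = 1 ∧ ∀ i, (S i).PosDef),
    (modes fun x => ∑ i, w i * gaussian (μ i) (S i) x).encard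

/-- `extra 0 k = ⌊(k ^ 2 - 3 (k mod 2)) / 6⌋` and `extra (e + 1) k = ∑ j ≤ k, extra e j`. -/
def extra : ℕ → ℕ → ℕ
  | 0, k => (k ^ 2 - 3 * (k % 2)) / 6
  | e + 1, k => ∑ j ∈ Finset.range (k + 1), extra e j

end Pool.Agent.Lib.MP_1f4710_co
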