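import Mathlib
import Pool.Agent.Lib.MP_1f4710_co.Defs

-- part Pool.Agent.Lib.MP_1f4710_co.Peak
section

/-!
Robust peaks, their persistence under perturbation, and the passage to strict local maxima.
-/

namespace Pool.Agent.Lib.MP_1f4710_co

open Topology Filter Matrix

section General

variable {X : Type*} [TopologicalSpace X]

/-- `f` is larger at some point of the compact set `K` than on the whole boundary of `K`. -/
def Peak (f : X → ℝ) (K : Set X) : Prop :=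
  IsCompact K ∧ ∃ c ∈ K, ∀ y ∈ K, y ∉ interior K → f y < f c

def HasPeaks (f : X → ℝ) (N : ℕ) : Prop :=
  ∃ K : Fin N → Set X, Pairwise (Function.onFun Disjoint K) ∧ ∀ a, Peak f (K a)

lemma HasPeaks.of_fintype {f : X → ℝ} {α : Type*} [Fintype α] (K : α → Set X)
    (hd : Pairwise (Function.onFun Disjoint K)) (hp : ∀ a, Peak f (K a)) {N : ℕ}
    (hN : N ≤ Fintype.card α) : HasPeaks f N := by
  obtain ⟨e⟩ : Nonempty (Fin N ↪ α) := Function.Embedding.nonempty_of_card_le (by simpa using hN)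
  exact ⟨K ∘ e, hd.comp_of_injective e.injective, fun a => hp _⟩

lemma HasPeaks.mono {f : X → ℝ} {N M : ℕ} (h : HasPeaks f N) (hM : M ≤ N) : HasPeaks f M := by
  obtain ⟨K, hd, hp⟩ := h
  exact HasPeaks.of_fintype K hd hp (by simpa using hM)

lemma Peak.image {Y : Type*} [TopologicalSpace Y] {f : X → ℝ} {h : Y → X} (hc : Continuous h)
    (ho : IsOpenMap h) {K : Set Y} (hK : Peak (fun y => f (h y)) K) : Peak f (h '' K) := by
  obtain ⟨hK, c, hcK, hlt⟩ := hK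
  refine ⟨hK.image hc, h c, Set.mem_image_of_mem h hcK, ?_⟩
  rintro _ ⟨y, hy, rfl⟩ hy'
  exact hlt y hy fun hint => hy' (ho.image_interior_subset K (Set.mem_image_of_mem h hint))

lemma eventually_forall_compact {P : Type*} {l : Filter P} {K : Set X} (hK : IsCompact K)
    {Q : P → X → Prop} (h : ∀ y ∈ K, ∀ᶠ z in l ×ˢ 𝓝 y, Q z.1 z.2) :
    ∀ᶠ p in l, ∀ y ∈ K, Q p y := by
  have h1 : {z : P × X | Q z.1 z.2} ∈ l ×ˢ 𝓝ˢ K := hK.mem_prod_nhdsSet_of_forall h
  obtain ⟨s, hs, t, ht, hst⟩ := Filter.mem_prod_iff.1 h1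
  filter_upwards [hs] with p hp y hy
  exact hst (Set.mk_mem_prod hp (subset_of_mem_nhdsSet ht hy))

lemma eventually_peak {P : Type*} {l : Filter P} {F : P → X → ℝ} {F0 : X → ℝ} {K : Set X}
    (hK : Peak F0 K)
    (h : ∀ y ∈ K, Tendsto (fun z : P × X => F z.1 z.2) (l ×ˢ 𝓝 y) (𝓝 (F0 y))) :
    ∀ᶠ p in l, Peak (F p) K := by
  obtain ⟨hK, c, hc, hlt⟩ := hK
  have hc' : Tendsto (fun p => F p c) l (𝓝 (F0 c)) :=
    (h c hc).comp (tendsto_id.prodMk tendsto_const_nhds)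
  have := eventually_forall_compact (l := l) (hK.diff isOpen_interior (t := interior K))
    (Q := fun p y => F p y < F p c) fun y hy =>
      (h y hy.1).eventually_lt (hc'.comp tendsto_fst) (hlt y hy.1 hy.2)
  filter_upwards [this] with p hp
  exact ⟨hK, c, hc, fun y hy hy' => hp y ⟨hy, hy'⟩⟩

lemma Peak.of_open {f : X → ℝ} {K O : Set X} (hK : IsCompact K) (hO : IsOpen O) (hOK : O ⊆ K)
    {c : X} (hc : c ∈ K) (h : ∀ y ∈ K, y ∉ O → f y < f c) : Peak f K :=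
  ⟨hK, c, hc, fun y hy hy' => h y hy fun hyO => hy' (interior_maximal hOK hO hyO)⟩

end General

section EQ

variable {X : Type*} [NormedAddCommGroup X] [NormedSpace ℝ X]

/-- Exponential of a quadratic polynomial with negative definite leading part. -/
def IsEQ (φ : X → ℝ) : Prop :=
  Continuous φ ∧ ∃ (Q : QuadraticForm ℝ X) (b : X →ₗ[ℝ] ℝ) (c : ℝ), Q.PosDef ∧
    ∀ x, φ x = Real.exp (-(Q x) / 2 + b x + c)

lemma IsEQ.pos {φ : X → ℝ} (h : IsEQ φ) (x : X) : 0 < φ x := by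
  obtain ⟨-, Q, b, c, -, h⟩ := h
  rw [h]
  exact Real.exp_pos _

variable (X) in
def Good (K : ℕ) (N : ℕ → ℕ) : Prop :=
  ∃ φ : ℕ → X → ℝ, (∀ i < K, IsEQ (φ i)) ∧
    ∀ k ≤ K, HasPeaks (fun x => ∑ i ∈ Finset.range k, φ i x) (N k)

lemma Good.mono {K : ℕ} {N M : ℕ → ℕ} (h : Good X K N) (hM : ∀ k ≤ K, M k ≤ N k) :
    Good X K M := by
  obtain ⟨φ, h1, h2⟩ := h
  exact ⟨φ, h1, fun k hk => (h2 k hk).mono (hM k hk)⟩

lemma Good.transport {Y : Type*} [NormedAddCommGroup Y] [NormedSpace ℝ Y] (e : X ≃L[ℝ] Y)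
    {K : ℕ} {N : ℕ → ℕ} (h : Good X K N) : Good Y K N := by
  obtain ⟨φ, h1, h2⟩ := h
  refine ⟨fun i y => φ i (e.symm y), fun i hi => ?_, fun k hk => ?_⟩
  · obtain ⟨hc, Q, b, c, hQ, hφ⟩ := h1 i hi
    refine ⟨hc.comp e.symm.continuous, Q.comp e.symm.toLinearEquiv.toLinearMap,
      b.comp e.symm.toLinearEquiv.toLinearMap, c, fun y hy => ?_, fun y => ?_⟩
    · exact hQ (e.symm y) (by simpa using hy)
    · simp [hφ]
  · obtain ⟨L, hd, hp⟩ := h2 k hk
    refine ⟨fun a => e '' L a, fun a b hab => ?_, fun a => ?_⟩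
    · exact (Set.disjoint_image_iff e.injective).2 (hd hab)
    · exact Peak.image e.continuous e.toHomeomorph.isOpenMap (by simpa using hp a)

end EQ

section Tilt

variable {d : ℕ}

lemma abs_dot_le (a x : Fin d → ℝ) : |a ⬝ᵥ x| ≤ d * ‖x‖ * ‖a‖ := by
  calc |a ⬝ᵥ x| ≤ ∑ i, |a i * x i| := Finset.abs_sum_le_sum_abs _ _
    _ ≤ ∑ _i : Fin d, ‖x‖ * ‖a‖ := Finset.sum_le_sum fun i _ => by
        rw [abs_mul, mul_comm]
        exact mul_le_mul (norm_le_pi_norm x i) (norm_le_pi_norm a i) (abs_nonneg _)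
          (norm_nonneg _)
    _ = _ := by simp [mul_assoc]

lemma ae_unique_max {h : (Fin d → ℝ) → ℝ} (hc : Continuous h) {K : Set (Fin d → ℝ)}
    (hK : IsCompact K) (hne : K.Nonempty) :
    ∀ᵐ a : Fin d → ℝ, ∃ x ∈ K, ∀ y ∈ K, y ≠ x → h y + a ⬝ᵥ y < h x + a ⬝ᵥ x := by
  have hex : ∀ a : Fin d → ℝ, ∃ x ∈ K, IsMaxOn (fun y => h y + a ⬝ᵥ y) K x := fun a =>
    hK.exists_isMaxOn hne (by fun_prop)
  choose x hxK hx using hex
  let m : (Fin d → ℝ) → ℝ := fun a => h (x a) + a ⬝ᵥ x a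
  have hm : ∀ a, ∀ y ∈ K, h y + a ⬝ᵥ y ≤ m a := fun a y hy => hx a hy
  obtain ⟨R, hR⟩ := hK.isBounded.exists_norm_le
  have hR0 : 0 ≤ R := (norm_nonneg _).trans (hR _ hne.some_mem)
  have hL : LipschitzWith ⟨d * R, by positivity⟩ m := by
    refine LipschitzWith.of_le_add_mul _ fun a a' => ?_
    have h1 := hm a' (x a) (hxK a)
    have h2 := (le_abs_self _).trans (abs_dot_le (a - a') (x a))
    rw [sub_dotProduct] at h2
    have h3 : (d : ℝ) * ‖x a‖ * ‖a - a'‖ ≤ d * R * ‖a - a'‖ := by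
      have := hR _ (hxK a)
      gcongr
    show m a ≤ m a' + d * R * dist a a'
    simp only [m, dist_eq_norm] at h1 ⊢
    linarith
  filter_upwards [hL.ae_differentiableAt (μ := MeasureTheory.volume)] with a ha
  have key : ∀ y ∈ K, h y + a ⬝ᵥ y = m a → ∀ v, fderiv ℝ m a v = v ⬝ᵥ y := by
    intro y hy hya v
    let L : (Fin d → ℝ) →L[ℝ] ℝ := LinearMap.toContinuousLinearMap
      { toFun := fun v => v ⬝ᵥ y
        map_add' := fun u v => add_dotProduct u v y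
        map_smul' := fun c v => smul_dotProduct c v y }
    have hmin : IsLocalMin (fun b => m b - L b) a := by
      refine Filter.Eventually.of_forall fun b => ?_
      have := hm b y hy
      show m a - a ⬝ᵥ y ≤ m b - b ⬝ᵥ y
      linarith
    have h0 := hmin.hasFDerivAt_eq_zero (ha.hasFDerivAt.sub L.hasFDerivAt)
    have := congrArg (fun T : (Fin d → ℝ) →L[ℝ] ℝ => T v) h0
    have h3 : fderiv ℝ m a v = L v := by simpa [sub_eq_zero] using this
    exact h3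
  refine ⟨x a, hxK a, fun y hy hne' => lt_of_le_of_ne (hm a y hy) fun heq => hne' ?_⟩
  funext i
  have h1 := key y hy heq (Pi.single i 1)
  have h2 := key (x a) (hxK a) rfl (Pi.single i 1)
  simpa using h1.symm.trans h2

lemma exists_tilt {f : (Fin d → ℝ) → ℝ} (hc : Continuous f) (hpos : ∀ x, 0 < f x) {N : ℕ}
    (h : HasPeaks f N) :
    ∃ a : Fin d → ℝ, (N : ℕ∞) ≤ (modes fun x => f x * Real.exp (a ⬝ᵥ x)).encard := by
  obtain ⟨K, hd, hp⟩ := h
  have h1 : ∀ᶠ a in 𝓝 (0 : Fin d → ℝ), ∀ j, Peak (fun x => f x * Real.exp (a ⬝ᵥ x)) (K j) := by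
    rw [Filter.eventually_all]
    intro j
    refine eventually_peak (hp j) fun y _ => ?_
    rw [← nhds_prod_eq]
    have : Continuous fun z : (Fin d → ℝ) × (Fin d → ℝ) => f z.2 * Real.exp (z.1 ⬝ᵥ z.2) := by
      fun_prop
    simpa using this.tendsto (0, y)
  have hlog : Continuous fun x => Real.log (f x) := hc.log fun x => (hpos x).ne'
  have h2 : ∀ᵐ a : Fin d → ℝ, ∀ j, ∃ x ∈ K j, ∀ y ∈ K j, y ≠ x →
      Real.log (f y) + a ⬝ᵥ y < Real.log (f x) + a ⬝ᵥ x := by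
    rw [MeasureTheory.ae_all_iff]
    intro j
    obtain ⟨hK, c, hc', -⟩ := hp j
    exact ae_unique_max hlog hK ⟨c, hc'⟩
  obtain ⟨a, ha1, ha2⟩ := (MeasureTheory.Measure.dense_of_ae h2).inter_nhds_nonempty h1
  choose x hxK hx using ha1
  have hx' : ∀ j, ∀ y ∈ K j, y ≠ x j →
      f y * Real.exp (a ⬝ᵥ y) < f (x j) * Real.exp (a ⬝ᵥ x j) := by
    intro j y hy hne
    have := Real.exp_lt_exp.2 (hx j y hy hne)
    rwa [Real.exp_add, Real.exp_add, Real.exp_log (hpos _), Real.exp_log (hpos _)] at this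
  have hint : ∀ j, x j ∈ interior (K j) := by
    intro j
    by_contra hni
    obtain ⟨-, c, hc', hlt⟩ := ha2 j
    have h3 := hlt _ (hxK j) hni
    by_cases hcx : c = x j
    · rw [hcx] at h3
      exact lt_irrefl _ h3
    · exact lt_asymm h3 (hx' j c hc' hcx)
  have hinj : Function.Injective x := by
    intro i j hij
    by_contra hne
    exact Set.disjoint_left.1 (hd hne) (hxK i) (hij ▸ hxK j)
  refine ⟨a, ?_⟩
  have hsub : Set.range x ⊆ modes fun x => f x * Real.exp (a ⬝ᵥ x) := by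
    rintro _ ⟨j, rfl⟩
    have : ∀ᶠ y in 𝓝 (x j), y ∈ K j := mem_interior_iff_mem_nhds.1 (hint j)
    filter_upwards [nhdsWithin_le_nhds this, self_mem_nhdsWithin] with y hy hy'
    exact hx' j y hy hy'
  refine le_trans ?_ (hinj.encard_range.trans (Set.encard_le_encard hsub))
  simp

lemma IsEQ.exists_gaussian {φ : (Fin d → ℝ) → ℝ} (h : IsEQ φ) (a : Fin d → ℝ) :
    ∃ (w : ℝ) (μ : Fin d → ℝ) (S : Matrix (Fin d) (Fin d) ℝ), 0 < w ∧ S.PosDef ∧
      ∀ x, φ x * Real.exp (a ⬝ᵥ x) = w * gaussian μ S x := by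
  obtain ⟨-, Q, b, c, hQ, hφ⟩ := h
  let A := Q.toMatrix'
  have hA : A.PosDef := QuadraticForm.posDef_toMatrix' hQ
  have hAx : ∀ x, x ⬝ᵥ (A *ᵥ x) = Q x := by
    intro x
    have h1 : Matrix.toLinearMap₂' ℝ A = Q.associated :=
      Matrix.toLinearMap₂'_toMatrix' (R := ℝ) Q.associated
    rw [← Matrix.toLinearMap₂'_apply', h1, QuadraticMap.associated_eq_self_apply]
  let β : Fin d → ℝ := (fun i => b (Pi.single i 1)) + a
  have hb : ∀ x, b x + a ⬝ᵥ x = β ⬝ᵥ x := by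
    intro x
    rw [add_dotProduct]
    congr 1
    conv_lhs => rw [pi_eq_sum_univ' x]
    simp [map_sum, dotProduct, mul_comm]
  have hu : IsUnit A.det := (Matrix.isUnit_iff_isUnit_det A).1 hA.isUnit
  let μ := A⁻¹ *ᵥ β
  have hμ : A *ᵥ μ = β := by
    simp only [μ, Matrix.mulVec_mulVec, Matrix.mul_nonsing_inv A hu, Matrix.one_mulVec]
  have hsym : ∀ x y : Fin d → ℝ, x ⬝ᵥ (A *ᵥ y) = y ⬝ᵥ (A *ᵥ x) := by
    intro x y
    have hs : Aᵀ = A := QuadraticForm.isSymm_toMatrix' Q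
    rw [Matrix.dotProduct_mulVec, ← Matrix.mulVec_transpose, hs, dotProduct_comm]
  have hS : (A⁻¹).PosDef := hA.inv
  let C : ℝ := (2 * Real.pi) ^ (-(d : ℝ) / 2) * (A⁻¹).det ^ (-(1 : ℝ) / 2)
  have hC : 0 < C := mul_pos (Real.rpow_pos_of_pos (by positivity) _)
    (Real.rpow_pos_of_pos hS.det_pos _)
  refine ⟨Real.exp (c + (μ ⬝ᵥ β) / 2) / C, μ, A⁻¹, by positivity, hS, fun x => ?_⟩
  unfold gaussian
  rw [Matrix.nonsing_inv_nonsing_inv A hu]
  have h1 : (x - μ) ⬝ᵥ (A *ᵥ (x - μ)) = Q x - 2 * (β ⬝ᵥ x) + μ ⬝ᵥ β := by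
    rw [Matrix.mulVec_sub, sub_dotProduct, dotProduct_sub, dotProduct_sub, hsym μ x, hμ, hAx,
      dotProduct_comm x β]
    ring
  rw [h1, hφ, ← Real.exp_add]
  change _ = Real.exp (c + (μ ⬝ᵥ β) / 2) / C * (C * _)
  rw [← mul_assoc, div_mul_cancel₀ _ hC.ne', ← Real.exp_add, ← hb]
  congr 1
  ring

theorem Good.le_maxModes {k : ℕ} (hk : 1 ≤ k) {N : ℕ → ℕ} (h : Good (Fin d → ℝ) k N) :
    (N k : ℕ∞) ≤ maxModes d k := by
  obtain ⟨φ, h1, h2⟩ := h
  have hc : Continuous fun x => ∑ i ∈ Finset.range k, φ i x :=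
    continuous_finsetSum _ fun i hi => (h1 i (Finset.mem_range.1 hi)).1
  have hpos : ∀ x, 0 < ∑ i ∈ Finset.range k, φ i x := fun x =>
    Finset.sum_pos (fun i hi => (h1 i (Finset.mem_range.1 hi)).pos x) ⟨0, by simp; omega⟩
  obtain ⟨a, ha⟩ := exists_tilt hc hpos (h2 k le_rfl)
  choose w μ S hw hS hg using fun i : Fin k => (h1 i i.2).exists_gaussian a
  have hW : 0 < ∑ i, w i := Finset.sum_pos (fun i _ => hw i) ⟨⟨0, hk⟩, by simp⟩
  refine ha.trans ?_
  unfold maxModes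
  refine le_iSup_of_le (fun i => w i / ∑ i, w i) (le_iSup_of_le μ (le_iSup_of_le S
    (le_iSup_of_le ⟨fun i => div_pos (hw i) hW, ?_, hS⟩ (Set.encard_le_encard ?_))))
  · rw [← Finset.sum_div, div_self hW.ne']
  · have he : ∀ x, ∑ i, w i / (∑ i, w i) * gaussian (μ i) (S i) x =
        (∑ i ∈ Finset.range k, φ i x) * Real.exp (a ⬝ᵥ x) / ∑ i, w i := by
      intro x
      rw [Finset.sum_range (fun i => φ i x), Finset.sum_mul, Finset.sum_div]
      refine Finset.sum_congr rfl fun i _ => ?_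
      rw [hg]
      ring
    intro x hx
    simp only [modes, Set.mem_ofPred_eq, he] at hx ⊢
    exact hx.mono fun y hy => div_lt_div_of_pos_right hy hW

end Tilt

end Pool.Agent.Lib.MP_1f4710_co
end

-- part Pool.Agent.Lib.MP_1f4710_co.Step
section

/-!
Limit lemmas and the dimension raising step.
-/

namespace Pool.Agent.Lib.MP_1f4710_co

open Topology Filter

section Lim

variable {Y : Type*} [TopologicalSpace Y]

lemma prod_le_nhds (y : Y) : (𝓝[>] (0 : ℝ)) ×ˢ 𝓝 y ≤ 𝓝 ((0 : ℝ), y) := by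
  rw [nhds_prod_eq]
  exact Filter.prod_mono_left _ nhdsWithin_le_nhds

lemma eventually_pos (y : Y) : ∀ᶠ z in (𝓝[>] (0 : ℝ)) ×ˢ 𝓝 y, 0 < z.1 :=
  tendsto_fst.eventually (self_mem_nhdsWithin (s := Set.Ioi (0 : ℝ)))

lemma tendsto_conv {f : ℝ → Y → ℝ} {A : ℝ × Y → ℝ} {y : Y} (hA : Continuous A)
    (h : ∀ ε, 0 < ε → ∀ y', f ε y' = A (ε, y')) :
    Tendsto (fun z : ℝ × Y => f z.1 z.2) ((𝓝[>] (0 : ℝ)) ×ˢ 𝓝 y) (𝓝 (A (0, y))) :=
  ((hA.tendsto (0, y)).mono_left (prod_le_nhds y)).congr'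
    ((eventually_pos y).mono fun z hz => (h z.1 hz z.2).symm)

lemma tendsto_div {f : ℝ → Y → ℝ} {A B : ℝ × Y → ℝ} {y : Y} {p : ℕ} (hp : p ≠ 0)
    (hA : Continuous A) (hB : Continuous B) (hB0 : B (0, y) ≠ 0)
    (h : ∀ ε, 0 < ε → ∀ y', f ε y' = A (ε, y') + B (ε, y') * ε⁻¹ ^ p) :
    Tendsto (fun z : ℝ × Y => |f z.1 z.2|) ((𝓝[>] (0 : ℝ)) ×ˢ 𝓝 y) atTop := by
  have h1 : Tendsto (fun z : ℝ × Y => z.1⁻¹ ^ p) ((𝓝[>] (0 : ℝ)) ×ˢ 𝓝 y) atTop :=
    (tendsto_pow_atTop hp).comp (tendsto_inv_nhdsGT_zero.comp tendsto_fst)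
  have h2 : Tendsto (fun z : ℝ × Y => |B z|) ((𝓝[>] (0 : ℝ)) ×ˢ 𝓝 y) (𝓝 |B (0, y)|) :=
    (hB.abs.tendsto (0, y)).mono_left (prod_le_nhds y)
  have h3 : Tendsto (fun z : ℝ × Y => -|A z|) ((𝓝[>] (0 : ℝ)) ×ˢ 𝓝 y) (𝓝 (-|A (0, y)|)) :=
    (hA.abs.neg.tendsto (0, y)).mono_left (prod_le_nhds y)
  have h4 := (h2.pos_mul_atTop (abs_pos.2 hB0) h1).atTop_add h3
  refine tendsto_atTop_mono' _ ?_ h4
  filter_upwards [eventually_pos y] with z hz
  rw [h z.1 hz z.2]
  have h5 : |B z * z.1⁻¹ ^ p| = |B z| * z.1⁻¹ ^ p := by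
    rw [abs_mul, abs_of_pos (pow_pos (inv_pos.2 hz) p)]
  have h6 := abs_add_le (A z + B z * z.1⁻¹ ^ p) (-A z)
  rw [abs_neg, show A z + B z * z.1⁻¹ ^ p + -A z = B z * z.1⁻¹ ^ p by ring, h5] at h6
  linarith

lemma tendsto_gauss_zero {α : Type*} {l : Filter α} {f : α → ℝ} {η : ℝ} (hη : 0 < η)
    (h : Tendsto (fun z => |f z|) l atTop) :
    Tendsto (fun z => Real.exp (-(η * f z ^ 2) / 2)) l (𝓝 0) := by
  refine Real.tendsto_exp_atBot.comp ?_
  have h1 : Tendsto (fun z => |f z| ^ 2) l atTop := (tendsto_pow_atTop two_ne_zero).comp h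
  simp only [sq_abs] at h1
  exact (tendsto_neg_atTop_atBot.comp (h1.const_mul_atTop hη)).atBot_div_const two_pos

end Lim

variable {X : Type*} [NormedAddCommGroup X] [NormedSpace ℝ X]

lemma IsEQ.slab {ψ : X → ℝ} (h : IsEQ ψ) {η s : ℝ} (hη : 0 < η) (hs : s ≠ 0) :
    IsEQ fun p : X × ℝ => ψ p.1 * Real.exp (-(η * (p.2 * s + 2) ^ 2) / 2) := by
  obtain ⟨hc, Q, b, c, hQ, hψ⟩ := h
  refine ⟨by fun_prop, Q.comp (LinearMap.fst ℝ X ℝ) +
      (η * s ^ 2) • QuadraticMap.sq.comp (LinearMap.snd ℝ X ℝ),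
    b.comp (LinearMap.fst ℝ X ℝ) + (-(2 * η * s)) • LinearMap.snd ℝ X ℝ, c - 2 * η, ?_, ?_⟩
  · rintro ⟨x, t⟩ hne
    have h1 : 0 < η * s ^ 2 := by positivity
    simp only [add_apply, QuadraticMap.comp_apply, LinearMap.fst_apply,
      smul_apply, LinearMap.snd_apply, QuadraticMap.sq_apply, smul_eq_mul]
    by_cases hx : x = 0
    · have ht : t ≠ 0 := by
        rintro rfl
        exact hne (by simp [hx])
      have : 0 < t * t := mul_self_pos.2 ht
      rw [hx, map_zero]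
      positivity
    · have := hQ x hx
      have h2 : 0 ≤ t * t := mul_self_nonneg t
      positivity
  · rintro ⟨x, t⟩
    simp only [hψ, ← Real.exp_add, add_apply, QuadraticMap.comp_apply,
      LinearMap.fst_apply, smul_apply, LinearMap.snd_apply, QuadraticMap.sq_apply,
      smul_eq_mul, LinearMap.add_apply, LinearMap.comp_apply, LinearMap.smul_apply]
    congr 1
    ring

omit [NormedSpace ℝ X] in
lemma peak_prod {u v : X → ℝ} (hu : Continuous u) (hv : Continuous v) (hpos : ∀ x, 0 < v x)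
    {L : Set X} (h : Peak (fun x => u x + v x) L) {η : ℝ} (hη : 0 < η) :
    Peak (fun p : X × ℝ => u p.1 + v p.1 * Real.exp (-(η * p.2 ^ 2) / 2))
      (L ×ˢ Set.Icc (-1 : ℝ) 1) := by
  obtain ⟨hL, c, hc, hlt⟩ := h
  obtain ⟨c', hc', hmax⟩ := hL.exists_isMaxOn ⟨c, hc⟩ (hu.add hv).continuousOn
  refine ⟨hL.prod isCompact_Icc, (c', 0), ⟨hc', by simp⟩, ?_⟩
  rintro ⟨x, z⟩ ⟨hx, hz⟩ hni
  rw [interior_prod_eq, interior_Icc] at hni
  have h1 : u x + v x ≤ u c' + v c' := hmax hx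
  have h2 : u c + v c ≤ u c' + v c' := hmax hc
  have h3 : Real.exp (-(η * z ^ 2) / 2) ≤ 1 := Real.exp_le_one_iff.2 (by
    have : 0 ≤ η * z ^ 2 := by positivity
    linarith)
  have h4 := hpos x
  simp only [ne_eq, OfNat.ofNat_ne_zero, not_false_eq_true, zero_pow, mul_zero, neg_zero,
    zero_div, Real.exp_zero, mul_one]
  by_cases hxi : x ∈ interior L
  · have hz0 : z ≠ 0 := by
      rintro rfl
      exact hni ⟨hxi, by simp⟩
    have h5 : Real.exp (-(η * z ^ 2) / 2) < 1 := Real.exp_lt_one_iff.2 (by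
      have : 0 < η * z ^ 2 := by positivity
      linarith)
    nlinarith
  · have h5 := hlt x hx hxi
    nlinarith

theorem Good.step {K : ℕ} {N : ℕ → ℕ} (h : Good X K N) :
    Good (X × ℝ) K fun k => ∑ j ∈ Finset.range k, N (j + 1) := by
  obtain ⟨ψ, hψ, hN⟩ := h
  choose L hLd hLp using fun j : Fin K => hN (j + 1) j.2
  have hcs : ∀ j : Fin K, Continuous fun x => ∑ i ∈ Finset.range j, ψ i x := fun j =>
    continuous_finsetSum _ fun i hi => (hψ i ((Finset.mem_range.1 hi).trans j.2)).1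
  obtain ⟨η, hη, hηp⟩ : ∃ η : ℝ, 0 < η ∧ ∀ (j : Fin K) (a : Fin (N (j + 1))),
      Peak (fun x => (∑ i ∈ Finset.range j, ψ i x) * Real.exp (-(η * 2 ^ 2) / 2) + ψ j x)
        (L j a) := by
    have : ∀ᶠ η in 𝓝[>] (0 : ℝ), ∀ (j : Fin K) (a : Fin (N (j + 1))),
        Peak (fun x => (∑ i ∈ Finset.range j, ψ i x) * Real.exp (-(η * 2 ^ 2) / 2) + ψ j x)
          (L j a) := by
      simp only [Filter.eventually_all]
      intro j a
      refine eventually_peak (hLp j a) fun y _ => ?_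
      have hj := (hψ j j.2).1
      have hs := hcs j
      have := tendsto_conv (y := y) (A := fun z : ℝ × X =>
        (∑ i ∈ Finset.range j, ψ i z.2) * Real.exp (-(z.1 * 2 ^ 2) / 2) + ψ j z.2)
        ((hs.comp continuous_snd).mul (by fun_prop) |>.add (hj.comp continuous_snd))
        (fun _ _ _ => rfl)
      simpa [Finset.sum_range_succ] using this
    exact (this.and self_mem_nhdsWithin).exists.imp fun η h => ⟨h.2, h.1⟩
  let Φ : ℝ → ℕ → X × ℝ → ℝ := fun ε i p =>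
    ψ i p.1 * Real.exp (-(η * (p.2 * ε⁻¹ ^ i + 2) ^ 2) / 2)
  let Θ : ℝ → ℕ → X × ℝ → X × ℝ := fun ε j p => (p.1, ε ^ j * (p.2 - 2))
  have hev : ∀ᶠ ε in 𝓝[>] (0 : ℝ), ∀ (k : Fin (K + 1)) (j : Fin K) (a : Fin (N (j + 1))),
      (j : ℕ) < k → Peak (fun p => ∑ i ∈ Finset.range k, Φ ε i (Θ ε j p))
        (L j a ×ˢ Set.Icc (-1 : ℝ) 1) := by
    simp only [Filter.eventually_all]
    intro k j a hjk
    refine eventually_peak (peak_prod ((hcs j).mul continuous_const) (hψ j j.2).1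
      (hψ j j.2).pos (hηp j a) hη) fun y hy => ?_
    have hlim : (∑ i ∈ Finset.range j, ψ i y.1) * Real.exp (-(η * 2 ^ 2) / 2)
        + ψ j y.1 * Real.exp (-(η * y.2 ^ 2) / 2) = ∑ i ∈ Finset.range k,
          if i < j then ψ i y.1 * Real.exp (-(η * 2 ^ 2) / 2)
          else if i = j then ψ j y.1 * Real.exp (-(η * y.2 ^ 2) / 2) else 0 := by
      obtain ⟨m, hm⟩ := Nat.exists_eq_add_of_lt hjk
      rw [hm, show (j : ℕ) + m + 1 = (j + 1) + m by ring, Finset.sum_range_add,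
        Finset.sum_range_succ, Finset.sum_mul]
      rw [Finset.sum_eq_zero (s := Finset.range m) fun i _ => by
        rw [if_neg (by omega), if_neg (by omega)]]
      simp only [lt_self_iff_false, ↓reduceIte, add_zero, add_left_inj]
      exact Finset.sum_congr rfl fun i hi => by rw [if_pos (Finset.mem_range.1 hi)]
    simp only [Pi.mul_apply]
    rw [hlim]
    refine tendsto_finsetSum _ fun i hi => ?_
    have hiK : i < K := by
      have := Finset.mem_range.1 hi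
      omega
    have hci := (hψ i hiK).1
    rcases lt_trichotomy i j with hij | hij | hij
    · rw [if_pos hij]
      obtain ⟨m, hm⟩ := Nat.exists_eq_add_of_lt hij
      have := tendsto_conv (y := y) (f := fun ε p => Φ ε i (Θ ε j p)) (A := fun z : ℝ × (X × ℝ) =>
        ψ i z.2.1 * Real.exp (-(η * (z.1 ^ (m + 1) * (z.2.2 - 2) + 2) ^ 2) / 2)) (by fun_prop)
        (fun ε hε p => by
          simp only [Φ, Θ, hm, inv_pow]
          congr 6
          field_simp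
          ring)
      simpa using this
    · rw [if_neg (by omega), if_pos hij]
      subst hij
      have := tendsto_conv (y := y) (f := fun ε p => Φ ε j (Θ ε j p)) (A := fun z : ℝ × (X × ℝ) =>
        ψ j z.2.1 * Real.exp (-(η * z.2.2 ^ 2) / 2)) (by fun_prop)
        (fun ε hε p => by
          simp only [Φ, Θ, inv_pow]
          congr 6
          field_simp
          ring)
      simpa using this
    · rw [if_neg (by omega), if_neg (by omega)]
      obtain ⟨m, hm⟩ := Nat.exists_eq_add_of_lt hij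
      have h1 := tendsto_div (y := y) (f := fun ε p => (Θ ε j p).2 * ε⁻¹ ^ i + 2)
        (A := fun _ => 2) (B := fun z : ℝ × (X × ℝ) => z.2.2 - 2) (p := m + 1) (by omega)
        continuous_const (by fun_prop) (by have := hy.2.2; simp only; linarith)
        (fun ε hε p => by
          simp only [Θ, hm, inv_pow]
          field_simp
          ring)
      have h2 := tendsto_gauss_zero hη h1
      have h3 : Tendsto (fun z : ℝ × (X × ℝ) => ψ i z.2.1) ((𝓝[>] (0 : ℝ)) ×ˢ 𝓝 y)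
          (𝓝 (ψ i y.1)) := ((hci.comp continuous_fst).tendsto y).comp tendsto_snd
      have h4 := h3.mul h2
      rw [mul_zero] at h4
      exact h4
  have hsmall : ∀ᶠ ε in 𝓝[>] (0 : ℝ), ε < 1 / 3 :=
    nhdsWithin_le_nhds (Iio_mem_nhds (by norm_num))
  obtain ⟨ε, ⟨hε, hε3⟩, hε0⟩ := ((hev.and hsmall).and self_mem_nhdsWithin).exists
  have hε0 : 0 < ε := hε0
  refine ⟨Φ ε, fun i hi => (hψ i hi).slab hη (pow_pos (inv_pos.2 hε0) i).ne', fun k hk => ?_⟩
  have hΘc : ∀ j, Continuous (Θ ε j) := fun j => by fun_prop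
  have hΘo : ∀ j, IsOpenMap (Θ ε j) := fun j =>
    IsOpenMap.id.prodMap ((Homeomorph.mulLeft₀ _ (pow_pos hε0 j).ne').isOpenMap.comp
      (isOpenMap_sub_right 2))
  have hΘi : ∀ j, Function.Injective (Θ ε j) := by
    rintro j ⟨x, t⟩ ⟨x', t'⟩ h
    simp only [Θ, Prod.mk.injEq, mul_eq_mul_left_iff, sub_left_inj] at h
    obtain ⟨rfl, h | h⟩ := h
    · rw [h]
    · exact absurd h (pow_pos hε0 j).ne'
  have hsep : ∀ i j : ℕ, i < j → ∀ s t : ℝ, s ∈ Set.Icc (-1 : ℝ) 1 → t ∈ Set.Icc (-1 : ℝ) 1 →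
      ε ^ i * (s - 2) ≠ ε ^ j * (t - 2) := by
    intro i j hij s t hs ht heq
    obtain ⟨m, rfl⟩ := Nat.exists_eq_add_of_lt hij
    rw [add_assoc, pow_add, mul_assoc] at heq
    have h1 := mul_left_cancel₀ (pow_pos hε0 i).ne' heq
    have h2 : ε ^ (m + 1) ≤ ε := pow_le_of_le_one hε0.le (by linarith) (by omega)
    have h3 := pow_pos hε0 (m + 1)
    nlinarith [hs.1, hs.2, ht.1, ht.2]
  let J : Fin k → Fin K := fun j => ⟨j, by omega⟩
  refine HasPeaks.of_fintype (α := Σ j : Fin k, Fin (N (j + 1)))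
    (fun s => Θ ε s.1 '' (L (J s.1) s.2 ×ˢ Set.Icc (-1 : ℝ) 1)) ?_ (fun s => ?_) ?_
  · rintro ⟨i, a⟩ ⟨j, b⟩ hne
    by_cases hij : i = j
    · subst hij
      have hab : a ≠ b := fun h => hne (by rw [h])
      exact (Set.disjoint_image_iff (hΘi _)).2 (Set.Disjoint.set_prod_left (hLd (J i) hab) _ _)
    · refine Set.disjoint_left.2 ?_
      rintro _ ⟨p, hp, rfl⟩ ⟨q, hq, hpq⟩
      have h1 : ε ^ (j : ℕ) * (q.2 - 2) = ε ^ (i : ℕ) * (p.2 - 2) := congrArg Prod.snd hpq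
      rcases lt_or_gt_of_ne (Fin.val_ne_of_ne hij) with h | h
      · exact hsep _ _ h _ _ hp.2 hq.2 h1.symm
      · exact hsep _ _ h _ _ hq.2 hp.2 h1
  · exact Peak.image (hΘc _) (hΘo _) (hε ⟨k, by omega⟩ (J s.1) s.2 s.1.2)
  · simp [Finset.sum_range]

end Pool.Agent.Lib.MP_1f4710_co
end

-- part Pool.Agent.Lib.MP_1f4710_co.Num
section

/-!
Numerical facts about the Gaussian profile.
-/

namespace Pool.Agent.Lib.MP_1f4710_co

open Finset

noncomputable def g (t : ℝ) : ℝ := Real.exp (-t ^ 2 / 2)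

lemma g_pos (t : ℝ) : 0 < g t := Real.exp_pos _

@[simp] lemma g_zero : g 0 = 1 := by simp [g]

@[simp] lemma g_neg (t : ℝ) : g (-t) = g t := by simp [g]

lemma g_le_one (t : ℝ) : g t ≤ 1 := Real.exp_le_one_iff.2 (by nlinarith [sq_nonneg t])

lemma g_le_g {s t : ℝ} (hs : 0 ≤ s) (h : s ≤ |t|) : g t ≤ g s := by
  refine Real.exp_le_exp.2 ?_
  have : s ^ 2 ≤ t ^ 2 := by rw [← sq_abs t]; exact pow_le_pow_left₀ hs h 2
  linarith

lemma g_abs (t : ℝ) : g |t| = g t := by simp [g]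

lemma g_add_g_le {u v : ℝ} (h : |u + v| ≤ 2) : g u + g v ≤ 2 * g ((u + v) / 2) := by
  set m := (u + v) / 2
  set k := (u - v) / 2
  have hu : u = m + k := by simp only [m, k]; ring
  have hv : v = m - k := by simp only [m, k]; ring
  have hm : m ^ 2 ≤ 1 := by
    have := abs_le.1 h
    simp only [m]
    nlinarith
  have h1 := Real.cosh_le_exp_half_sq (m * k)
  have h2 : Real.exp ((m * k) ^ 2 / 2) ≤ Real.exp (k ^ 2 / 2) :=
    Real.exp_le_exp.2 (by nlinarith [sq_nonneg k])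
  have h3 : g u + g v = 2 * g m * (Real.exp (-(k ^ 2 / 2)) * Real.cosh (m * k)) := by
    rw [hu, hv, Real.cosh_eq]
    unfold g
    have e1 : Real.exp (-(m + k) ^ 2 / 2) =
        Real.exp (-m ^ 2 / 2) * Real.exp (-(k ^ 2 / 2)) * Real.exp (-(m * k)) := by
      rw [← Real.exp_add, ← Real.exp_add]; congr 1; ring
    have e2 : Real.exp (-(m - k) ^ 2 / 2) =
        Real.exp (-m ^ 2 / 2) * Real.exp (-(k ^ 2 / 2)) * Real.exp (m * k) := by
      rw [← Real.exp_add, ← Real.exp_add]; congr 1; ring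
    rw [e1, e2]
    ring
  have h4 : Real.exp (-(k ^ 2 / 2)) * Real.cosh (m * k) ≤ 1 := by
    rw [Real.exp_neg, inv_mul_le_iff₀ (Real.exp_pos _), mul_one]
    exact h1.trans h2
  rw [h3]
  exact mul_le_of_le_one_right (by have := g_pos m; positivity) h4

lemma exp_neg_le {x b : ℝ} (n : ℕ) (hx : 0 ≤ x) (hb : 0 < b)
    (h : 1 ≤ b * ∑ i ∈ range n, x ^ i / i.factorial) : Real.exp (-x) ≤ b := by
  rw [Real.exp_neg, inv_le_iff_one_le_mul₀ (Real.exp_pos _)]
  exact h.trans (mul_le_mul_of_nonneg_left (Real.sum_le_exp_of_nonneg hx n) hb.le)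

lemma g_one_le : g 1 ≤ 0.60654 := by
  have : g 1 = Real.exp (-(1 / 2)) := by unfold g; congr 1; ring
  rw [this]
  exact exp_neg_le 8 (by norm_num) (by norm_num)
    (by norm_num [Finset.sum_range_succ, Nat.factorial])

lemma g_085_le : g 0.85 ≤ 0.69682 := by
  have : g 0.85 = Real.exp (-0.36125) := by unfold g; congr 1; ring
  rw [this]
  exact exp_neg_le 8 (by norm_num) (by norm_num)
    (by norm_num [Finset.sum_range_succ, Nat.factorial])

lemma g_06_le : g 0.6 ≤ 0.8353 := by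
  have : g 0.6 = Real.exp (-0.18) := by unfold g; congr 1; ring
  rw [this]
  exact exp_neg_le 8 (by norm_num) (by norm_num)
    (by norm_num [Finset.sum_range_succ, Nat.factorial])

lemma g_15_le : g 1.5 ≤ 0.3247 := by
  have : g 1.5 = Real.exp (-1.125) := by unfold g; congr 1; ring
  rw [this]
  exact exp_neg_le 10 (by norm_num) (by norm_num)
    (by norm_num [Finset.sum_range_succ, Nat.factorial])

lemma g_27_le : g 2.7 ≤ 0.03 := by
  have : g 2.7 = Real.exp (-3.645) := by unfold g; congr 1; ring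
  rw [this]
  exact exp_neg_le 10 (by norm_num) (by norm_num)
    (by norm_num [Finset.sum_range_succ, Nat.factorial])

lemma g_39_le : g 3.9 ≤ 0.001 := by
  have : g 3.9 = Real.exp (-7.605) := by unfold g; congr 1; ring
  rw [this]
  exact exp_neg_le 12 (by norm_num) (by norm_num)
    (by norm_num [Finset.sum_range_succ, Nat.factorial])

lemma exp_968_le : Real.exp (-9.68) ≤ 0.00007 :=
  exp_neg_le 18 (by norm_num) (by norm_num) (by norm_num [Finset.sum_range_succ, Nat.factorial])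

lemma exp_3_le : Real.exp (-3) ≤ 1 / 10 :=
  exp_neg_le 5 (by norm_num) (by norm_num) (by norm_num [Finset.sum_range_succ, Nat.factorial])

lemma le_g_09 : 0.66697 ≤ g 0.9 := by
  have : g 0.9 = Real.exp (-0.405) := by unfold g; congr 1; ring
  rw [this, Real.exp_neg, le_inv_comm₀ (by norm_num) (Real.exp_pos _)]
  refine (Real.exp_bound' (n := 7) (by norm_num) (by norm_num) (by norm_num)).trans ?_
  norm_num [Finset.sum_range_succ, Nat.factorial]

lemma g_tail_term {z : ℝ} (m : ℕ) (h : 5.4 * ((m : ℝ) + 1) - 1 ≤ |z|) :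
    g z ≤ 0.00007 * (1 / 10) ^ m := by
  have hm : (0 : ℝ) ≤ m := Nat.cast_nonneg m
  refine (g_le_g (by linarith) h).trans ?_
  have h1 : g (5.4 * ((m : ℝ) + 1) - 1) ≤ Real.exp (-9.68) * Real.exp (-3) ^ m := by
    rw [← Real.exp_nat_mul, ← Real.exp_add]
    exact Real.exp_le_exp.2 (by nlinarith)
  refine h1.trans (mul_le_mul exp_968_le (pow_le_pow_left₀ (Real.exp_pos _).le exp_3_le m)
    (by positivity) (by norm_num))

lemma g_tail {ι : Type*} (S : Finset ι) (ν : ι → ℤ) (z : ι → ℝ) (hinj : Set.InjOn ν S)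
    (h0 : ∀ l ∈ S, ν l ≠ 0) (hz : ∀ l ∈ S, 5.4 * |(ν l : ℝ)| - 1 ≤ |z l|) :
    ∑ l ∈ S, g (z l) ≤ 0.00016 := by
  classical
  let h : ℤ → ℝ := fun m => if m = 0 then 0 else 0.00007 * (1 / 10) ^ (m.natAbs - 1)
  have hgeo : HasSum (fun n : ℕ => (0.00007 : ℝ) * (1 / 10) ^ n) (0.00007 * (1 - 1 / 10)⁻¹) :=
    (hasSum_geometric_of_lt_one (by norm_num) (by norm_num)).mul_left _
  have hs : HasSum h (0.00007 * (1 - 1 / 10)⁻¹ + h 0 + 0.00007 * (1 - 1 / 10)⁻¹) := by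
    refine HasSum.of_add_one_of_neg_add_one ?_ ?_
    · convert hgeo using 2 with n
      have e1 : ((n : ℤ) + 1) ≠ 0 := by omega
      have e2 : ((n : ℤ) + 1).natAbs - 1 = n := by omega
      simp only [h, if_neg e1, e2]
    · convert hgeo using 2 with n
      have e1 : -((n : ℤ) + 1) ≠ 0 := by omega
      have e2 : (-((n : ℤ) + 1)).natAbs - 1 = n := by omega
      simp only [h, if_neg e1, e2]
  have hnn : ∀ m, 0 ≤ h m := fun m => by
    simp only [h]
    split_ifs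
    · exact le_rfl
    · positivity
  calc ∑ l ∈ S, g (z l) ≤ ∑ l ∈ S, h (ν l) := Finset.sum_le_sum fun l hl => by
        simp only [h, if_neg (h0 l hl)]
        refine g_tail_term _ ?_
        have e1 : (((ν l).natAbs - 1 : ℕ) : ℝ) + 1 = |(ν l : ℝ)| := by
          have e2 : (((ν l).natAbs - 1 : ℕ) : ℤ) + 1 = |ν l| := by
            have := h0 l hl
            rw [Int.abs_eq_natAbs]
            omega
          exact_mod_cast e2
        rw [e1]
        exact hz l hl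
    _ = ∑ m ∈ S.image ν, h m := (Finset.sum_image hinj).symm
    _ ≤ _ := sum_le_hasSum _ (fun m _ => hnn m) hs
    _ ≤ 0.00016 := by simp only [h]; norm_num

/-- One family of parallel ridges, near one of its lines. -/
lemma fam_one {ι : Type*} (S : Finset ι) (ν : ι → ℤ) (hinj : Set.InjOn ν S) {t : ℝ}
    (ht : |t| ≤ 1) : ∑ l ∈ S, g (t - 5.4 * ν l) ≤ g t + 0.00016 := by
  classical
  rw [← Finset.sum_filter_add_sum_filter_not S fun l => ν l = 0]
  refine add_le_add ?_ (g_tail _ ν _ (hinj.mono (Finset.coe_subset.2 (Finset.filter_subset _ _))) (by simp) fun l _ => ?_)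
  · have h1 : (S.filter fun l => ν l = 0).card ≤ 1 := Finset.card_le_one.2 fun a ha b hb => by
      simp only [Finset.mem_filter] at ha hb
      exact hinj ha.1 hb.1 (ha.2.trans hb.2.symm)
    calc ∑ l ∈ S.filter fun l => ν l = 0, g (t - 5.4 * ν l)
        = ∑ _l ∈ S.filter fun l => ν l = 0, g t := Finset.sum_congr rfl fun l hl => by
          simp [(Finset.mem_filter.1 hl).2]
      _ ≤ g t := by
          rw [Finset.sum_const, nsmul_eq_mul]
          exact mul_le_of_le_one_left (g_pos t).le (by exact_mod_cast h1)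
  · have h2 := abs_sub_abs_le_abs_sub (5.4 * (ν l : ℝ)) t
    rw [abs_sub_comm, abs_mul, abs_of_pos (by norm_num : (0 : ℝ) < 5.4)] at h2
    linarith

/-- One family of parallel ridges, midway between two of its lines. -/
lemma fam_two {ι : Type*} (S : Finset ι) (ν : ι → ℤ) (hinj : Set.InjOn ν S) {s : ℝ}
    (hs : |s| ≤ 1.2) : ∑ l ∈ S, g (2.7 - s - 5.4 * ν l) ≤ g (2.7 - s) + g (2.7 + s) + 0.00016 := by
  classical
  have hs' := abs_le.1 hs
  have hone : ∀ m : ℤ, ∑ l ∈ S.filter fun l => ν l = m, g (2.7 - s - 5.4 * ν l)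
      ≤ g (2.7 - s - 5.4 * m) := by
    intro m
    have h1 : (S.filter fun l => ν l = m).card ≤ 1 := Finset.card_le_one.2 fun a ha b hb => by
      simp only [Finset.mem_filter] at ha hb
      exact hinj ha.1 hb.1 (ha.2.trans hb.2.symm)
    calc ∑ l ∈ S.filter fun l => ν l = m, g (2.7 - s - 5.4 * ν l)
        = ∑ _l ∈ S.filter fun l => ν l = m, g (2.7 - s - 5.4 * m) :=
          Finset.sum_congr rfl fun l hl => by simp [(Finset.mem_filter.1 hl).2]
      _ ≤ _ := by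
          rw [Finset.sum_const, nsmul_eq_mul]
          exact mul_le_of_le_one_left (g_pos _).le (by exact_mod_cast h1)
  have h0 := hone 0
  have h1 := hone 1
  have e1 : g (2.7 - s - 5.4 * ((1 : ℤ) : ℝ)) = g (2.7 + s) := by
    rw [← g_neg]; congr 1; push_cast; ring
  rw [e1] at h1
  simp only [Int.cast_zero, mul_zero, sub_zero] at h0
  have h2 := g_tail (S.filter fun l => ν l ≠ 0 ∧ ν l ≠ 1) (fun l => if ν l < 0 then ν l else ν l - 1)
    (fun l => 2.7 - s - 5.4 * ν l) (fun a ha b hb hab => by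
      simp only [Finset.coe_filter, Set.mem_ofPred_eq] at ha hb hab
      refine hinj ha.1 hb.1 ?_
      split_ifs at hab <;> omega) (fun l hl => by
      simp only [Finset.mem_filter] at hl
      split_ifs <;> omega) (fun l hl => by
      simp only [Finset.mem_filter] at hl
      split_ifs with h
      · have : (ν l : ℝ) < 0 := by exact_mod_cast h
        rw [abs_of_neg this]
        exact le_trans (by linarith) (le_abs_self _)
      · have : (1 : ℝ) ≤ ν l := by exact_mod_cast (show 1 ≤ ν l by omega)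
        push_cast
        rw [abs_of_nonneg (by linarith)]
        exact le_trans (by linarith) (neg_le_abs _))
  have h3 : ∑ l ∈ S, g (2.7 - s - 5.4 * ν l) =
      ∑ l ∈ S.filter fun l => ν l = 0, g (2.7 - s - 5.4 * ν l)
      + ∑ l ∈ S.filter fun l => ν l = 1, g (2.7 - s - 5.4 * ν l)
      + ∑ l ∈ S.filter fun l => ν l ≠ 0 ∧ ν l ≠ 1, g (2.7 - s - 5.4 * ν l) := by
    simp only [Finset.sum_filter, ← Finset.sum_add_distrib]
    refine Finset.sum_congr rfl fun l _ => ?_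
    by_cases a : ν l = 0
    · simp [a]
    · by_cases b : ν l = 1
      · simp [b]
      · simp [a, b]
  linarith

end Pool.Agent.Lib.MP_1f4710_co
end

-- part Pool.Agent.Lib.MP_1f4710_co.Loc
section

/-!
The planar configuration: three families of nearly parallel ridges.
-/

namespace Pool.Agent.Lib.MP_1f4710_co

open Topology Filter

noncomputable def uL : Fin 3 → (ℝ × ℝ →ₗ[ℝ] ℝ) :=
  ![LinearMap.fst ℝ ℝ ℝ, LinearMap.snd ℝ ℝ ℝ, -LinearMap.fst ℝ ℝ ℝ - LinearMap.snd ℝ ℝ ℝ]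

def PP : Fin 3 → ℝ × ℝ → ℝ × ℝ :=
  ![fun z => (z.1, z.2), fun z => (-z.1 - z.2, z.1), fun z => (z.2, -z.1 - z.2)]

lemma u_PP0 (σ : Fin 3) (z : ℝ × ℝ) : uL σ (PP σ z) = z.1 := by
  fin_cases σ <;> simp [uL, PP]
  ring

lemma u_PP1 (σ : Fin 3) (z : ℝ × ℝ) : uL (σ + 1) (PP σ z) = z.2 := by
  fin_cases σ <;> simp [uL, PP]

lemma u_PP2 (σ : Fin 3) (z : ℝ × ℝ) : uL (σ + 2) (PP σ z) = -z.1 - z.2 := by
  fin_cases σ <;> simp [uL, PP]

lemma fin3_a (σ : Fin 3) : σ + 1 + 1 = σ + 2 := by revert σ; decide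
lemma fin3_b (σ : Fin 3) : σ + 2 + 1 = σ := by revert σ; decide
lemma fin3_c (σ ρ : Fin 3) : ρ = σ ∨ ρ = σ + 1 ∨ ρ = σ + 2 := by revert σ ρ; decide
lemma fin3_d (σ : Fin 3) : σ ≠ σ + 1 ∧ σ ≠ σ + 2 ∧ σ + 1 ≠ σ + 2 := by revert σ; decide

@[fun_prop] lemma continuous_uL (σ : Fin 3) : Continuous (uL σ) :=
  (uL σ).continuous_of_finiteDimensional

@[fun_prop] lemma continuous_PP (σ : Fin 3) : Continuous (PP σ) := by
  fin_cases σ <;> simp [PP] <;> constructor <;> fun_prop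

lemma isOpenMap_aff {p q r s : ℝ} (v w : ℝ) (h : p * s - q * r ≠ 0) :
    IsOpenMap fun z : ℝ × ℝ => (p * z.1 + q * z.2 + v, r * z.1 + s * z.2 + w) := by
  let e : ℝ × ℝ ≃ₜ ℝ × ℝ :=
    { toFun := fun z => (p * z.1 + q * z.2 + v, r * z.1 + s * z.2 + w)
      invFun := fun z => ((s * (z.1 - v) - q * (z.2 - w)) / (p * s - q * r),
        (p * (z.2 - w) - r * (z.1 - v)) / (p * s - q * r))
      left_inv := fun z => by
        ext <;> simp only <;> rw [div_eq_iff h] <;> ring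
      right_inv := fun z => by
        have h1 := mul_inv_cancel₀ h
        ext
        · simp only [div_eq_mul_inv]
          linear_combination (z.1 - v) * h1
        · simp only [div_eq_mul_inv]
          linear_combination (z.2 - w) * h1
      continuous_toFun := by fun_prop
      continuous_invFun := by fun_prop }
  exact e.isOpenMap

lemma isOpenMap_PP (σ : Fin 3) : IsOpenMap (PP σ) := by
  fin_cases σ
  · simpa [PP] using isOpenMap_aff (p := 1) (q := 0) (r := 0) (s := 1) 0 0 (by norm_num)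
  · simpa [PP, sub_eq_add_neg] using
      isOpenMap_aff (p := -1) (q := -1) (r := 1) (s := 0) 0 0 (by norm_num)
  · simpa [PP, sub_eq_add_neg] using
      isOpenMap_aff (p := 0) (q := 1) (r := -1) (s := -1) 0 0 (by norm_num)

lemma eq_zero_of_u (σ : Fin 3) {p : ℝ × ℝ} (h0 : uL σ p = 0) (h1 : uL (σ + 1) p = 0) : p = 0 := by
  obtain ⟨x, y⟩ := p
  fin_cases σ <;> simp [uL] at h0 h1 ⊢ <;> constructor <;> linarith

lemma sum_three {ι : Type*} (S : Finset ι) (τ : ι → Fin 3) (σ : Fin 3) (F : ι → ℝ) :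
    ∑ l ∈ S, F l = ∑ l ∈ S.filter fun l => τ l = σ, F l + ∑ l ∈ S.filter fun l => τ l = σ + 1, F l
      + ∑ l ∈ S.filter fun l => τ l = σ + 2, F l := by
  simp only [Finset.sum_filter, ← Finset.sum_add_distrib]
  refine Finset.sum_congr rfl fun l _ => ?_
  obtain ⟨h1, h2, h3⟩ := fin3_d σ
  rcases fin3_c σ (τ l) with h | h | h <;> simp [h, h1, h2, h3, h1.symm, h2.symm, h3.symm]

variable (τ : ℕ → Fin 3) (n : ℕ → ℤ) (K : ℕ)

noncomputable def ell (ε : ℝ) (i : ℕ) (p : ℝ × ℝ) : ℝ :=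
  uL (τ i) p + 0.9 - 5.4 * n i + ε ^ (i + 1) * uL (τ i + 1) p

noncomputable def env (ε : ℝ) (i : ℕ) (p : ℝ × ℝ) : ℝ :=
  ε ^ (K + 1) * uL (τ i + 1) p - (ε ^ (K + 1) * uL (τ i + 1) p) ^ 2 / 2

noncomputable def comp (ε : ℝ) (i : ℕ) (p : ℝ × ℝ) : ℝ :=
  g (ell τ n ε i p) * Real.exp (env τ K ε i p)

lemma env_le (ε : ℝ) (i : ℕ) (p : ℝ × ℝ) : env τ K ε i p ≤ 1 / 2 := by
  unfold env
  nlinarith [sq_nonneg (ε ^ (K + 1) * uL (τ i + 1) p - 1)]

lemma isEQ_comp {ε : ℝ} (hε : 0 < ε) (i : ℕ) : IsEQ (comp τ n K ε i) := by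
  refine ⟨by unfold comp ell env g; fun_prop,
    QuadraticMap.sq.comp (uL (τ i) + ε ^ (i + 1) • uL (τ i + 1)) +
      QuadraticMap.sq.comp (ε ^ (K + 1) • uL (τ i + 1)),
    (-(0.9 - 5.4 * n i : ℝ)) • (uL (τ i) + ε ^ (i + 1) • uL (τ i + 1)) +
      ε ^ (K + 1) • uL (τ i + 1), -(0.9 - 5.4 * n i : ℝ) ^ 2 / 2, fun p hp => ?_, fun p => ?_⟩
  · simp only [add_apply, QuadraticMap.comp_apply, QuadraticMap.sq_apply, LinearMap.add_apply,
      LinearMap.smul_apply, smul_eq_mul]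
    by_cases h1 : uL (τ i + 1) p = 0
    · have h0 : uL (τ i) p ≠ 0 := fun h0 => hp (eq_zero_of_u _ h0 h1)
      rw [h1]
      simpa using h0
    · have h2 : ε ^ (K + 1) * uL (τ i + 1) p ≠ 0 := mul_ne_zero (pow_pos hε _).ne' h1
      exact add_pos_of_nonneg_of_pos (mul_self_nonneg _) (mul_self_pos.2 h2)
  · simp only [comp, ell, env, g, ← Real.exp_add, add_apply, QuadraticMap.comp_apply,
      QuadraticMap.sq_apply, LinearMap.add_apply, LinearMap.smul_apply, smul_eq_mul]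
    congr 1
    ring

/-- A peak on which exactly the ridges in `a` are active. -/
def Loc (ε : ℝ) (S a : Finset ℕ) : Prop :=
  ∃ K' : Set (ℝ × ℝ), Peak (fun p => ∑ l ∈ S, comp τ n K ε l p) K' ∧
    ∀ p ∈ K', ∀ l ∈ S, (|ell τ n ε l p| < 5 / 4 ↔ l ∈ a)

lemma loc {S a : Finset ℕ} {Θ : ℝ → ℝ × ℝ → ℝ × ℝ}
    (hΘ : ∀ ε, 0 < ε → Continuous (Θ ε) ∧ IsOpenMap (Θ ε)) {Kc : Set (ℝ × ℝ)}
    (C : ℕ → Prop) [DecidablePred C] (lam e : ℕ → ℝ × ℝ → ℝ)
    (hconv : ∀ l ∈ S, C l → ∀ y ∈ Kc,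
      Tendsto (fun z : ℝ × (ℝ × ℝ) => ell τ n z.1 l (Θ z.1 z.2)) ((𝓝[>] (0 : ℝ)) ×ˢ 𝓝 y)
        (𝓝 (lam l y)) ∧
      Tendsto (fun z : ℝ × (ℝ × ℝ) => env τ K z.1 l (Θ z.1 z.2)) ((𝓝[>] (0 : ℝ)) ×ˢ 𝓝 y)
        (𝓝 (e l y)))
    (hdiv : ∀ l ∈ S, ¬ C l → ∀ y ∈ Kc,
      Tendsto (fun z : ℝ × (ℝ × ℝ) => |ell τ n z.1 l (Θ z.1 z.2)|) ((𝓝[>] (0 : ℝ)) ×ˢ 𝓝 y) atTop)
    (hpeak : Peak (fun y => ∑ l ∈ S.filter C, g (lam l y) * Real.exp (e l y)) Kc)
    (hin : ∀ l ∈ S, l ∈ a → C l ∧ ∀ y ∈ Kc, |lam l y| ≤ 1)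
    (hout : ∀ l ∈ S, l ∉ a → C l → ∀ y ∈ Kc, 3 / 2 ≤ |lam l y|) :
    ∀ᶠ ε in 𝓝[>] (0 : ℝ), Loc τ n K ε S a := by
  have h1 : ∀ᶠ ε in 𝓝[>] (0 : ℝ), Peak (fun y => ∑ l ∈ S, comp τ n K ε l (Θ ε y)) Kc := by
    refine eventually_peak hpeak fun y hy => ?_
    rw [Finset.sum_filter]
    refine tendsto_finsetSum _ fun l hl => ?_
    split_ifs with hC
    · obtain ⟨ha, hb⟩ := hconv l hl hC y hy
      have hg : Continuous g := by unfold g; fun_prop
      exact ((hg.tendsto _).comp ha).mul ((Real.continuous_exp.tendsto _).comp hb)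
    · have h2 := (tendsto_gauss_zero one_pos (hdiv l hl hC y hy)).mul_const (Real.exp (1 / 2))
      rw [zero_mul] at h2
      refine squeeze_zero (fun z => mul_nonneg (g_pos _).le (Real.exp_pos _).le) (fun z => ?_) h2
      simp only [comp, g, one_mul]
      exact mul_le_mul_of_nonneg_left (Real.exp_le_exp.2 (env_le τ K _ _ _)) (Real.exp_pos _).le
  have h2 : ∀ᶠ ε in 𝓝[>] (0 : ℝ), ∀ y ∈ Kc, ∀ l ∈ S, (|ell τ n ε l (Θ ε y)| < 5 / 4 ↔ l ∈ a) := by
    refine eventually_forall_compact hpeak.1 fun y hy => ?_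
    rw [Filter.eventually_all_finset]
    intro l hl
    by_cases hla : l ∈ a
    · obtain ⟨hC, hb⟩ := hin l hl hla
      filter_upwards [(hconv l hl hC y hy).1.abs.eventually_lt_const
        (show |lam l y| < 5 / 4 by linarith [hb y hy])] with z hz
      simp [hla, hz]
    · by_cases hC : C l
      · filter_upwards [(hconv l hl hC y hy).1.abs.eventually_const_lt
          (show 5 / 4 < |lam l y| by linarith [hout l hl hla hC y hy])] with z hz
        simp [hla, hz.le]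
      · filter_upwards [(hdiv l hl hC y hy).eventually_ge_atTop (5 / 4)] with z hz
        simp [hla, hz]
  filter_upwards [h1, h2, self_mem_nhdsWithin] with ε hε1 hε2 hε
  refine ⟨Θ ε '' Kc, Peak.image (hΘ ε hε).1 (hΘ ε hε).2 hε1, ?_⟩
  rintro _ ⟨y, hy, rfl⟩
  exact hε2 y hy

lemma loc_near {S a : Finset ℕ} {Θ : ℝ × ℝ → ℝ × ℝ} (hc : Continuous Θ) (ho : IsOpenMap Θ)
    {Kc : Set (ℝ × ℝ)} (lam : ℕ → ℝ × ℝ → ℝ)
    (hlam : ∀ l y, uL (τ l) (Θ y) + 0.9 - 5.4 * n l = lam l y)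
    (hpeak : Peak (fun y => ∑ l ∈ S, g (lam l y)) Kc)
    (hin : ∀ l ∈ S, l ∈ a → ∀ y ∈ Kc, |lam l y| ≤ 1)
    (hout : ∀ l ∈ S, l ∉ a → ∀ y ∈ Kc, 3 / 2 ≤ |lam l y|) :
    ∀ᶠ ε in 𝓝[>] (0 : ℝ), Loc τ n K ε S a := by
  refine loc τ n K (Θ := fun _ => Θ) (fun _ _ => ⟨hc, ho⟩) (fun _ => True) lam (fun _ _ => 0)
    (fun l _ _ y _ => ⟨?_, ?_⟩) (fun _ _ h => absurd trivial h) (by simpa using hpeak)
    (fun l hl hla => ⟨trivial, hin l hl hla⟩) (fun l hl hla _ => hout l hl hla)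
  · have := tendsto_conv (y := y) (f := fun ε p => ell τ n ε l (Θ p))
      (A := fun z : ℝ × (ℝ × ℝ) => ell τ n z.1 l (Θ z.2)) (by unfold ell; fun_prop)
      (fun _ _ _ => rfl)
    simpa [ell, hlam] using this
  · have := tendsto_conv (y := y) (f := fun ε p => env τ K ε l (Θ p))
      (A := fun z : ℝ × (ℝ × ℝ) => env τ K z.1 l (Θ z.2)) (by unfold env; fun_prop)
      (fun _ _ _ => rfl)
    simpa [env] using this

lemma int_far {m : ℤ} (hm : m ≠ 0) {t : ℝ} (ht : |t| ≤ 1) : 3 / 2 ≤ |t - 5.4 * m| := by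
  have ht' := abs_le.1 ht
  rcases lt_or_gt_of_ne hm with h | h
  · have : (m : ℝ) ≤ -1 := by exact_mod_cast (show m ≤ -1 by omega)
    exact le_trans (by linarith) (le_abs_self _)
  · have : (1 : ℝ) ≤ m := by exact_mod_cast (show 1 ≤ m by omega)
    exact le_trans (by linarith) (neg_le_abs _)

lemma int_mid (m : ℤ) {s : ℝ} (hs : |s| ≤ 1.2) : 3 / 2 ≤ |2.7 - s - 5.4 * m| := by
  have hs' := abs_le.1 hs
  rcases le_or_gt m 0 with h | h
  · have : (m : ℝ) ≤ 0 := by exact_mod_cast h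
    exact le_trans (by linarith) (le_abs_self _)
  · have : (1 : ℝ) ≤ m := by exact_mod_cast (show 1 ≤ m by omega)
    exact le_trans (by linarith) (neg_le_abs _)

end Pool.Agent.Lib.MP_1f4710_co
end
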