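import Mathlib
import Pool.Agent.Lib.MP_1f4710_co.Loc

-- part Pool.Agent.Lib.MP_1f4710_co.Cases
section

/-!
The four kinds of peaks of the planar configuration.
-/

namespace Pool.Agent.Lib.MP_1f4710_co

open Topology Filter

variable {τ : ℕ → Fin 3} {n : ℕ → ℤ} {K : ℕ}

lemma inj_fam (hinj : ∀ i j, τ i = τ j → n i = n j → i = j) (S : Finset ℕ) (σ : Fin 3) (c : ℤ) :
    Set.InjOn (fun l => n l + c) (S.filter fun l => τ l = σ) := by
  intro a ha b hb hab
  simp only [Finset.coe_filter, Set.mem_ofPred_eq] at ha hb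
  exact hinj a b (ha.2.trans hb.2.symm) (by simpa using hab)

lemma le_sum_of_subset {S T : Finset ℕ} (h : T ⊆ S) (F : ℕ → ℝ) :
    ∑ l ∈ T, g (F l) ≤ ∑ l ∈ S, g (F l) :=
  Finset.sum_le_sum_of_subset_of_nonneg h fun _ _ _ => (g_pos _).le

lemma closed3 {a b c : ℝ × ℝ → ℝ} (ha : Continuous a) (hb : Continuous b) (hc : Continuous c)
    (p q r : ℝ) : IsClosed {y | a y ≤ p ∧ b y ≤ q ∧ c y ≤ r} :=
  (isClosed_le ha continuous_const).inter ((isClosed_le hb continuous_const).inter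
    (isClosed_le hc continuous_const))

lemma open3 {a b c : ℝ × ℝ → ℝ} (ha : Continuous a) (hb : Continuous b) (hc : Continuous c)
    (p q r : ℝ) : IsOpen {y | a y < p ∧ b y < q ∧ c y < r} :=
  (isOpen_lt ha continuous_const).inter ((isOpen_lt hb continuous_const).inter
    (isOpen_lt hc continuous_const))

lemma loc_vertex (hinj : ∀ i j, τ i = τ j → n i = n j → i = j) {S : Finset ℕ} {i j : ℕ}
    (hi : i ∈ S) (hj : j ∈ S) (hij : τ j = τ i + 1) :
    ∀ᶠ ε in 𝓝[>] (0 : ℝ), Loc τ n K ε S {i, j} := by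
  obtain ⟨d1, d2, d3⟩ := fin3_d (τ i)
  have hne : i ≠ j := by
    rintro rfl
    exact d1 hij
  let Θ : ℝ × ℝ → ℝ × ℝ := fun z =>
    PP (τ i) (1 * z.1 + 0 * z.2 + (5.4 * n i - 0.9), 0 * z.1 + 1 * z.2 + (5.4 * n j - 0.9))
  let lam : ℕ → ℝ × ℝ → ℝ := fun l y => uL (τ l) (Θ y) + 0.9 - 5.4 * n l
  have h0 : ∀ l y, τ l = τ i → lam l y = y.1 - 5.4 * ((n l + -n i : ℤ) : ℝ) := by
    intro l y h
    simp only [lam, Θ, h, u_PP0]
    push_cast
    ring
  have h1 : ∀ l y, τ l = τ i + 1 → lam l y = y.2 - 5.4 * ((n l + -n j : ℤ) : ℝ) := by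
    intro l y h
    simp only [lam, Θ, h, u_PP1]
    push_cast
    ring
  have h2 : ∀ l y, τ l = τ i + 2 →
      lam l y = 2.7 - (y.1 + y.2) - 5.4 * ((n l + (n i + n j) : ℤ) : ℝ) := by
    intro l y h
    simp only [lam, Θ, h, u_PP2]
    push_cast
    ring
  let Kc : Set (ℝ × ℝ) := {y | |y.1| ≤ 1 ∧ |y.2| ≤ 1 ∧ |y.1 + y.2| ≤ 1.2}
  have hKc : IsCompact Kc := by
    refine ((isCompact_Icc (a := (-1 : ℝ)) (b := 1)).prod
      (isCompact_Icc (a := (-1 : ℝ)) (b := 1))).of_isClosed_subset ?_ ?_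
    · apply closed3 <;> fun_prop
    · exact fun y hy => ⟨abs_le.1 hy.1, abs_le.1 hy.2.1⟩
  refine loc_near τ n K (Θ := Θ) (Kc := Kc) (by fun_prop)
    ((isOpenMap_PP _).comp (isOpenMap_aff _ _ (by norm_num))) lam (fun _ _ => rfl) ?_ ?_ ?_
  · refine Peak.of_open hKc (O := {y | |y.1| < 1 ∧ |y.2| < 1 ∧ |y.1 + y.2| < 1.2})
      (by apply open3 <;> fun_prop)
      (fun y hy => ⟨hy.1.le, hy.2.1.le, hy.2.2.le⟩) (c := (0, 0)) (by simp [Kc]; norm_num) ?_
    intro y hy hyO
    have hc : (2 : ℝ) ≤ ∑ l ∈ S, g (lam l (0, 0)) := by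
      refine le_trans ?_ (le_sum_of_subset (T := {i, j}) (by
        simp [Finset.insert_subset_iff, hi, hj]) _)
      rw [Finset.sum_pair hne, h0 i _ rfl, h1 j _ hij]
      norm_num
    refine lt_of_lt_of_le ?_ hc
    rw [sum_three S τ (τ i), Finset.sum_congr rfl fun l hl => congrArg g
        (h0 l y (Finset.mem_filter.1 hl).2), Finset.sum_congr rfl fun l hl => congrArg g
        (h1 l y (Finset.mem_filter.1 hl).2), Finset.sum_congr rfl fun l hl => congrArg g
        (h2 l y (Finset.mem_filter.1 hl).2)]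
    have b0 := fam_one _ _ (inj_fam hinj S (τ i) (-n i)) hy.1
    have b1 := fam_one _ _ (inj_fam hinj S (τ i + 1) (-n j)) hy.2.1
    have b2 := fam_two _ _ (inj_fam hinj S (τ i + 2) (n i + n j)) hy.2.2
    have hs := abs_le.1 hy.2.2
    have c1 : g (2.7 - (y.1 + y.2)) + g (2.7 + (y.1 + y.2)) ≤ g 1.5 + g 2.7 := by
      rcases le_total 0 (y.1 + y.2) with h | h
      · exact add_le_add (g_le_g (by norm_num) (le_trans (by linarith) (le_abs_self _)))
          (g_le_g (by norm_num) (le_trans (by linarith) (le_abs_self _)))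
      · rw [add_comm]
        exact add_le_add (g_le_g (by norm_num) (le_trans (by linarith) (le_abs_self _)))
          (g_le_g (by norm_num) (le_trans (by linarith) (le_abs_self _)))
    have n1 := g_one_le
    have n2 := g_15_le
    have n3 := g_27_le
    have n4 := g_39_le
    have n5 := g_06_le
    have l1 := g_le_one y.1
    have l2 := g_le_one y.2
    by_cases e1 : |y.1| < 1
    · by_cases e2 : |y.2| < 1
      · have e3 : |y.1 + y.2| = 1.2 := le_antisymm hy.2.2 (not_lt.1 fun h => hyO ⟨e1, e2, h⟩)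
        have c2 := g_add_g_le (u := y.1) (v := y.2) (by rw [e3]; norm_num)
        rcases (abs_eq (by norm_num)).1 e3 with h | h
        · have q1 : g (2.7 - (y.1 + y.2)) = g 1.5 := by rw [h]; congr 1; norm_num
          have q2 : g (2.7 + (y.1 + y.2)) = g 3.9 := by rw [h]; congr 1; norm_num
          have q3 : g ((y.1 + y.2) / 2) = g 0.6 := by rw [h]; congr 1; norm_num
          linarith
        · have q1 : g (2.7 - (y.1 + y.2)) = g 3.9 := by rw [h]; congr 1; norm_num
          have q2 : g (2.7 + (y.1 + y.2)) = g 1.5 := by rw [h]; congr 1; norm_num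
          have q3 : g ((y.1 + y.2) / 2) = g 0.6 := by rw [h, ← g_neg]; congr 1; norm_num
          linarith
      · have := g_le_g zero_le_one (not_lt.1 e2)
        linarith
    · have := g_le_g zero_le_one (not_lt.1 e1)
      linarith
  · intro l _ hl y hy
    rcases Finset.mem_insert.1 hl with rfl | hl
    · rw [h0 _ _ rfl]
      simpa using hy.1
    · rw [Finset.mem_singleton.1 hl, h1 _ _ hij]
      simpa using hy.2.1
  · intro l _ hl y hy
    simp only [Finset.mem_insert, Finset.mem_singleton, not_or] at hl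
    rcases fin3_c (τ i) (τ l) with h | h | h
    · rw [h0 _ _ h]
      exact int_far (fun h' => hl.1 (hinj _ _ h (by omega))) hy.1
    · rw [h1 _ _ h]
      exact int_far (fun h' => hl.2 (hinj _ _ (h.trans hij.symm) (by omega))) hy.2.1
    · rw [h2 _ _ h]
      exact int_mid _ hy.2.2

lemma loc_triangle (hinj : ∀ i j, τ i = τ j → n i = n j → i = j) {S : Finset ℕ} {i j m : ℕ}
    (hi : i ∈ S) (hj : j ∈ S) (hm : m ∈ S) (hij : τ j = τ i + 1) (him : τ m = τ i + 2)
    (hs : n i + n j + n m = 0 ∨ n i + n j + n m = 1) :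
    ∀ᶠ ε in 𝓝[>] (0 : ℝ), Loc τ n K ε S {i, j, m} := by
  obtain ⟨d1, d2, d3⟩ := fin3_d (τ i)
  have hne1 : i ≠ j := by
    rintro rfl
    exact d1 hij
  have hne2 : i ≠ m := by
    rintro rfl
    exact d2 him
  have hne3 : j ≠ m := by
    rintro rfl
    exact d3 (hij.symm.trans him)
  obtain ⟨σ, hσ, hσn⟩ : ∃ σ : ℝ, (σ = 1 ∨ σ = -1) ∧
      5.4 * ((n i : ℝ) + n j + n m) = 2.7 - 2.7 * σ := by
    rcases hs with h | h
    · have : (n i : ℝ) + n j + n m = 0 := by exact_mod_cast h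
      exact ⟨1, Or.inl rfl, by rw [this]; norm_num⟩
    · have : (n i : ℝ) + n j + n m = 1 := by exact_mod_cast h
      exact ⟨-1, Or.inr rfl, by rw [this]; norm_num⟩
  have hσa : ∀ t, |σ * t| = |t| := fun t => by rcases hσ with rfl | rfl <;> simp
  have hσg : ∀ t, g (σ * t) = g t := fun t => by rcases hσ with rfl | rfl <;> simp
  let Θ : ℝ × ℝ → ℝ × ℝ := fun z =>
    PP (τ i) (σ * z.1 + 0 * z.2 + (5.4 * n i - 0.9), 0 * z.1 + σ * z.2 + (5.4 * n j - 0.9))
  let lam : ℕ → ℝ × ℝ → ℝ := fun l y => uL (τ l) (Θ y) + 0.9 - 5.4 * n l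
  have h0 : ∀ l y, τ l = τ i → lam l y = σ * y.1 - 5.4 * ((n l + -n i : ℤ) : ℝ) := by
    intro l y h
    simp only [lam, Θ, h, u_PP0]
    push_cast
    ring
  have h1 : ∀ l y, τ l = τ i + 1 → lam l y = σ * y.2 - 5.4 * ((n l + -n j : ℤ) : ℝ) := by
    intro l y h
    simp only [lam, Θ, h, u_PP1]
    push_cast
    ring
  have h2 : ∀ l y, τ l = τ i + 2 →
      lam l y = σ * (2.7 - y.1 - y.2) - 5.4 * ((n l + -n m : ℤ) : ℝ) := by
    intro l y h
    simp only [lam, Θ, h, u_PP2]
    push_cast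
    linear_combination -hσn
  let Kc : Set (ℝ × ℝ) := {y | y.1 ≤ 1 ∧ y.2 ≤ 1 ∧ 2.7 - y.1 - y.2 ≤ 1}
  have hKc : IsCompact Kc := by
    refine ((isCompact_Icc (a := (0 : ℝ)) (b := 1)).prod
      (isCompact_Icc (a := (0 : ℝ)) (b := 1))).of_isClosed_subset ?_ ?_
    · apply closed3 <;> fun_prop
    · rintro y ⟨a1, a2, a3⟩
      exact ⟨⟨by linarith, a1⟩, ⟨by linarith, a2⟩⟩
  have hab : ∀ y ∈ Kc, |σ * y.1| ≤ 1 ∧ |σ * y.2| ≤ 1 ∧ |σ * (2.7 - y.1 - y.2)| ≤ 1 := by
    rintro y ⟨a1, a2, a3⟩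
    simp only [hσa, abs_le]
    refine ⟨⟨?_, a1⟩, ⟨?_, a2⟩, ⟨?_, a3⟩⟩ <;> linarith
  refine loc_near τ n K (Θ := Θ) (Kc := Kc) (by fun_prop)
    ((isOpenMap_PP _).comp (isOpenMap_aff _ _ (by rcases hσ with rfl | rfl <;> norm_num))) lam
    (fun _ _ => rfl) ?_ ?_ ?_
  · refine Peak.of_open hKc (O := {y | y.1 < 1 ∧ y.2 < 1 ∧ 2.7 - y.1 - y.2 < 1})
      (by apply open3 <;> fun_prop)
      (fun y hy => ⟨hy.1.le, hy.2.1.le, hy.2.2.le⟩) (c := (0.9, 0.9))
      (by simp only [Kc, Set.mem_ofPred_eq]; norm_num) ?_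
    intro y hy hyO
    have hc : 3 * g 0.9 ≤ ∑ l ∈ S, g (lam l (0.9, 0.9)) := by
      refine le_trans ?_ (le_sum_of_subset (T := {i, j, m}) (by
        simp [Finset.insert_subset_iff, hi, hj, hm]) _)
      rw [Finset.sum_insert (by simp [hne1, hne2]), Finset.sum_pair hne3, h0 i _ rfl, h1 j _ hij,
        h2 m _ him]
      simp only [add_neg_cancel, Int.cast_zero, mul_zero, sub_zero, hσg]
      rw [show (2.7 - 0.9 - 0.9 : ℝ) = 0.9 by norm_num]
      linarith
    refine lt_of_lt_of_le ?_ hc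
    rw [sum_three S τ (τ i), Finset.sum_congr rfl fun l hl => congrArg g
        (h0 l y (Finset.mem_filter.1 hl).2), Finset.sum_congr rfl fun l hl => congrArg g
        (h1 l y (Finset.mem_filter.1 hl).2), Finset.sum_congr rfl fun l hl => congrArg g
        (h2 l y (Finset.mem_filter.1 hl).2)]
    obtain ⟨a1, a2, a3⟩ := hab y hy
    have b0 := fam_one _ _ (inj_fam hinj S (τ i) (-n i)) a1
    have b1 := fam_one _ _ (inj_fam hinj S (τ i + 1) (-n j)) a2
    have b2 := fam_one _ _ (inj_fam hinj S (τ i + 2) (-n m)) a3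
    rw [hσg] at b0 b1 b2
    have n1 := g_one_le
    have n2 := g_085_le
    have n3 := le_g_09
    have key : ∀ p q r : ℝ, p + q + r = 2.7 → p = 1 → g p + g q + g r ≤ g 1 + 2 * g 0.85 := by
      intro p q r hpqr hp
      have e : q + r = 1.7 := by linarith
      have := g_add_g_le (u := q) (v := r) (by rw [e]; norm_num [abs_le])
      rw [e, show (1.7 / 2 : ℝ) = 0.85 by norm_num] at this
      rw [hp]
      linarith
    by_cases e1 : y.1 < 1
    · by_cases e2 : y.2 < 1
      · have e3 : 2.7 - y.1 - y.2 = 1 := le_antisymm hy.2.2 (not_lt.1 fun h => hyO ⟨e1, e2, h⟩)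
        have := key (2.7 - y.1 - y.2) y.1 y.2 (by ring) e3
        linarith
      · have := key y.2 y.1 (2.7 - y.1 - y.2) (by ring) (le_antisymm hy.2.1 (not_lt.1 e2))
        linarith
    · have := key y.1 y.2 (2.7 - y.1 - y.2) (by ring) (le_antisymm hy.1 (not_lt.1 e1))
      linarith
  · intro l _ hl y hy
    obtain ⟨a1, a2, a3⟩ := hab y hy
    simp only [Finset.mem_insert, Finset.mem_singleton] at hl
    rcases hl with rfl | rfl | rfl
    · rw [h0 _ _ rfl]
      simpa using a1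
    · rw [h1 _ _ hij]
      simpa using a2
    · rw [h2 _ _ him]
      simpa using a3
  · intro l _ hl y hy
    obtain ⟨a1, a2, a3⟩ := hab y hy
    simp only [Finset.mem_insert, Finset.mem_singleton, not_or] at hl
    rcases fin3_c (τ i) (τ l) with h | h | h
    · rw [h0 _ _ h]
      exact int_far (fun h' => hl.1 (hinj _ _ h (by omega))) a1
    · rw [h1 _ _ h]
      exact int_far (fun h' => hl.2.1 (hinj _ _ (h.trans hij.symm) (by omega))) a2
    · rw [h2 _ _ h]
      exact int_far (fun h' => hl.2.2 (hinj _ _ (h.trans him.symm) (by omega))) a3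

lemma loc_far (hinj : ∀ i j, τ i = τ j → n i = n j → i = j) {S : Finset ℕ} {i j : ℕ}
    (hi : i ∈ S) (hj : j ∈ S) (hij : τ j = τ i) (hlt : i < j) (hK : i < K) :
    ∀ᶠ ε in 𝓝[>] (0 : ℝ), Loc τ n K ε S {i, j} := by
  obtain ⟨d1, d2, d3⟩ := fin3_d (τ i)
  let W : ℝ × ℝ → ℝ := fun z => 5.4 * ((n i : ℝ) - n j) + z.2 - z.1
  have hWc : Continuous W := by fun_prop
  let Θ : ℝ → ℝ × ℝ → ℝ × ℝ := fun ε z => PP (τ i) (z.1 + (5.4 * n j - 0.9), W z * ε⁻¹ ^ (i + 1))
  let Kc : Set (ℝ × ℝ) := Set.Icc (-1 : ℝ) 1 ×ˢ Set.Icc (-1 : ℝ) 1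
  have hW : ∀ y ∈ Kc, W y ≠ 0 := by
    rintro y ⟨⟨a1, a2⟩, ⟨a3, a4⟩⟩
    have hn : n i - n j ≠ 0 := fun h => hlt.ne (hinj _ _ hij.symm (by omega))
    simp only [W]
    rcases lt_or_gt_of_ne hn with h | h
    · have : (n i : ℝ) - n j ≤ -1 := by exact_mod_cast (show n i - n j ≤ -1 by omega)
      linarith
    · have : (1 : ℝ) ≤ (n i : ℝ) - n j := by exact_mod_cast (show 1 ≤ n i - n j by omega)
      linarith
  let lam : ℕ → ℝ × ℝ → ℝ := fun l y => if l = i then y.2 else y.1 - 5.4 * ((n l + -n j : ℤ) : ℝ)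
  refine loc τ n K (Θ := Θ) (Kc := Kc) (fun ε hε => ⟨by fun_prop, ?_⟩)
    (fun l => τ l = τ i ∧ i ≤ l) lam (fun _ _ => 0) ?_ ?_ ?_ ?_ ?_
  · have hρ : ε⁻¹ ^ (i + 1) ≠ 0 := (pow_pos (inv_pos.2 hε) _).ne'
    have := (isOpenMap_PP (τ i)).comp (isOpenMap_aff (p := 1) (q := 0) (r := -ε⁻¹ ^ (i + 1))
      (s := ε⁻¹ ^ (i + 1)) (5.4 * n j - 0.9) (5.4 * ((n i : ℝ) - n j) * ε⁻¹ ^ (i + 1))
      (by simpa using hε.ne'))
    convert this using 1
    funext z
    simp only [Θ, W, Function.comp]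
    congr 2 <;> ring
  · rintro l _ ⟨hl, hil⟩ y _
    constructor
    · rcases hil.eq_or_lt with rfl | h
      · have := tendsto_conv (y := y) (f := fun ε p => ell τ n ε i (Θ ε p))
          (A := fun z : ℝ × (ℝ × ℝ) => z.2.2) (by fun_prop) (fun ε hε p => by
            simp only [ell, Θ, W, u_PP0, u_PP1, inv_pow]
            field_simp
            ring)
        simpa [lam] using this
      · obtain ⟨m, hm⟩ := Nat.exists_eq_add_of_lt h
        have := tendsto_conv (y := y) (f := fun ε p => ell τ n ε l (Θ ε p))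
          (A := fun z : ℝ × (ℝ × ℝ) => z.2.1 - 5.4 * ((n l + -n j : ℤ) : ℝ) + z.1 ^ (m + 1) * W z.2)
          (by fun_prop) (fun ε hε p => by
            simp only [ell, Θ, hl, u_PP0, u_PP1, inv_pow]
            rw [show ε ^ (l + 1) = ε ^ (i + 1) * ε ^ (m + 1) by rw [hm]; ring]
            push_cast
            field_simp
            ring)
        simpa [lam, h.ne'] using this
    · obtain ⟨m, hm⟩ := Nat.exists_eq_add_of_lt hK
      have := tendsto_conv (y := y) (f := fun ε p => env τ K ε l (Θ ε p))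
        (A := fun z : ℝ × (ℝ × ℝ) => z.1 ^ (m + 1) * W z.2 - (z.1 ^ (m + 1) * W z.2) ^ 2 / 2)
        (by fun_prop) (fun ε hε p => by
          simp only [env, Θ, hl, u_PP1, inv_pow]
          rw [show ε ^ (K + 1) = ε ^ (i + 1) * ε ^ (m + 1) by rw [hm]; ring]
          field_simp)
      simpa using this
  · intro l _ hC y hy
    rcases fin3_c (τ i) (τ l) with h | h | h
    · have hli : l < i := not_le.1 fun h' => hC ⟨h, h'⟩
      obtain ⟨m, hm⟩ := Nat.exists_eq_add_of_lt hli
      exact tendsto_div (f := fun ε p => ell τ n ε l (Θ ε p)) (p := m + 1)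
        (A := fun z : ℝ × (ℝ × ℝ) => z.2.1 + 5.4 * n j - 5.4 * n l)
        (B := fun z : ℝ × (ℝ × ℝ) => W z.2) (by omega) (by fun_prop) (by fun_prop) (hW y hy)
        (fun ε hε p => by
          simp only [ell, Θ, h, u_PP0, u_PP1, inv_pow]
          rw [show ε ^ (i + 1) = ε ^ (l + 1) * ε ^ (m + 1) by rw [hm]; ring]
          field_simp
          ring)
    · exact tendsto_div (f := fun ε p => ell τ n ε l (Θ ε p)) (p := i + 1)
        (A := fun z : ℝ × (ℝ × ℝ) => 0.9 - 5.4 * n l - z.1 ^ (l + 1) * (z.2.1 + (5.4 * n j - 0.9)))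
        (B := fun z : ℝ × (ℝ × ℝ) => W z.2 * (1 - z.1 ^ (l + 1))) (by omega) (by fun_prop)
        (by fun_prop) (by simpa using hW y hy) (fun ε hε p => by
          simp only [ell, Θ, h, fin3_a, u_PP1, u_PP2]
          ring)
    · exact tendsto_div (f := fun ε p => ell τ n ε l (Θ ε p)) (p := i + 1)
        (A := fun z : ℝ × (ℝ × ℝ) => 0.9 - 5.4 * n l
          + (z.1 ^ (l + 1) - 1) * (z.2.1 + (5.4 * n j - 0.9)))
        (B := fun z : ℝ × (ℝ × ℝ) => -W z.2) (by omega) (by fun_prop)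
        (by fun_prop) (by simpa using hW y hy) (fun ε hε p => by
          simp only [ell, Θ, h, fin3_b, u_PP0, u_PP2]
          ring)
  · simp only [Real.exp_zero, mul_one]
    refine Peak.of_open (isCompact_Icc.prod isCompact_Icc)
      (O := Set.Ioo (-1 : ℝ) 1 ×ˢ Set.Ioo (-1 : ℝ) 1) (isOpen_Ioo.prod isOpen_Ioo)
      (Set.prod_mono Set.Ioo_subset_Icc_self Set.Ioo_subset_Icc_self) (c := (0, 0))
      (by simp [Kc]) ?_
    intro y hy hyO
    have hiC : i ∈ S.filter fun l => τ l = τ i ∧ i ≤ l := by simp [hi]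
    have hc : (2 : ℝ) ≤ ∑ l ∈ S.filter fun l => τ l = τ i ∧ i ≤ l, g (lam l (0, 0)) := by
      refine le_trans ?_ (le_sum_of_subset (T := {i, j}) (by
        simp [Finset.insert_subset_iff, hi, hj, hij, hlt.le]) _)
      rw [Finset.sum_pair hlt.ne]
      simp only [lam, if_neg hlt.ne']
      norm_num
    refine lt_of_lt_of_le ?_ hc
    rw [← Finset.add_sum_erase _ _ hiC, Finset.sum_congr rfl (g := fun l =>
      g (y.1 - 5.4 * ((n l + -n j : ℤ) : ℝ))) fun l hl => by
        simp only [lam, if_neg (Finset.ne_of_mem_erase hl)]]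
    have a1 : |y.1| ≤ 1 := abs_le.2 hy.1
    have b0 := fam_one ((S.filter fun l => τ l = τ i ∧ i ≤ l).erase i) _
      ((inj_fam hinj S (τ i) (-n j)).mono fun l hl => by
        simp only [Finset.coe_erase, Finset.coe_filter, Set.mem_sdiff, Set.mem_ofPred_eq] at hl ⊢
        exact ⟨hl.1.1, hl.1.2.1⟩) a1
    have n1 := g_one_le
    have l1 := g_le_one y.1
    have l2 := g_le_one y.2
    simp only [lam, if_true]
    by_cases e1 : |y.1| < 1
    · have e2 : ¬ |y.2| < 1 := fun h => hyO ⟨abs_lt.1 e1, abs_lt.1 h⟩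
      have := g_le_g zero_le_one (not_lt.1 e2)
      linarith
    · have := g_le_g zero_le_one (not_lt.1 e1)
      linarith
  · intro l _ hl
    rcases Finset.mem_insert.1 hl with rfl | hl
    · exact ⟨⟨rfl, le_rfl⟩, fun y hy => by simpa [lam] using abs_le.2 hy.2⟩
    · rw [Finset.mem_singleton.1 hl]
      exact ⟨⟨hij, hlt.le⟩, fun y hy => by simpa [lam, hlt.ne'] using abs_le.2 hy.1⟩
  · intro l _ hl hC y hy
    simp only [Finset.mem_insert, Finset.mem_singleton, not_or] at hl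
    simp only [lam, if_neg hl.1]
    exact int_far (fun h' => hl.2 (hinj _ _ (hC.1.trans hij.symm) (by omega))) (abs_le.2 hy.1)

lemma loc_mean {S : Finset ℕ} {i : ℕ} (hi : i ∈ S) (hS : ∀ l ∈ S, l < K) :
    ∀ᶠ ε in 𝓝[>] (0 : ℝ), Loc τ n K ε S {i} := by
  let Θ : ℝ → ℝ × ℝ → ℝ × ℝ := fun ε z => PP (τ i)
    (z.1 + (5.4 * n i - 0.9) - ε ^ (i + 1) * (z.2 * ε⁻¹ ^ (K + 1)), z.2 * ε⁻¹ ^ (K + 1))
  let Kc : Set (ℝ × ℝ) := Set.Icc (-1 : ℝ) 1 ×ˢ Set.Icc (1 / 2 : ℝ) (3 / 2)
  have hW : ∀ y ∈ Kc, y.2 ≠ 0 := by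
    rintro y ⟨-, ⟨a3, a4⟩⟩
    linarith
  refine loc τ n K (Θ := Θ) (Kc := Kc) (fun ε hε => ⟨by fun_prop, ?_⟩)
    (fun l => l = i) (fun _ y => y.1) (fun _ y => y.2 - y.2 ^ 2 / 2) ?_ ?_ ?_ ?_ ?_
  · have := (isOpenMap_PP (τ i)).comp (isOpenMap_aff (p := 1) (q := -(ε ^ (i + 1) * ε⁻¹ ^ (K + 1)))
      (r := 0) (s := ε⁻¹ ^ (K + 1)) (5.4 * n i - 0.9) 0 (by simpa using hε.ne'))
    convert this using 1
    funext z
    simp only [Θ, Function.comp]
    congr 2 <;> ring
  · rintro l _ rfl y _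
    constructor
    · exact tendsto_conv (y := y) (f := fun ε p => ell τ n ε l (Θ ε p))
        (A := fun z : ℝ × (ℝ × ℝ) => z.2.1) (by fun_prop) (fun ε hε p => by
          simp only [ell, Θ, u_PP0, u_PP1]
          ring)
    · exact tendsto_conv (y := y) (f := fun ε p => env τ K ε l (Θ ε p))
        (A := fun z : ℝ × (ℝ × ℝ) => z.2.2 - z.2.2 ^ 2 / 2) (by fun_prop) (fun ε hε p => by
          simp only [env, Θ, u_PP1, inv_pow]
          field_simp)
  · intro l hl hC y hy
    rcases fin3_c (τ i) (τ l) with h | h | h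
    · rcases lt_or_gt_of_ne hC with hli | hli
      · obtain ⟨m, hm⟩ := Nat.exists_eq_add_of_lt hli
        obtain ⟨q, hq⟩ := Nat.exists_eq_add_of_lt (hS l hl)
        exact tendsto_div (f := fun ε p => ell τ n ε l (Θ ε p)) (p := q + 1)
          (A := fun z : ℝ × (ℝ × ℝ) => z.2.1 + 5.4 * n i - 5.4 * n l)
          (B := fun z : ℝ × (ℝ × ℝ) => z.2.2 * (1 - z.1 ^ (m + 1))) (by omega) (by fun_prop)
          (by fun_prop) (by simpa using hW y hy) (fun ε hε p => by
            simp only [ell, Θ, h, u_PP0, u_PP1, inv_pow]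
            rw [show ε ^ (i + 1) = ε ^ (l + 1) * ε ^ (m + 1) by rw [hm]; ring,
              show ε ^ (K + 1) = ε ^ (l + 1) * ε ^ (q + 1) by rw [hq]; ring]
            field_simp
            ring)
      · obtain ⟨m, hm⟩ := Nat.exists_eq_add_of_lt hli
        obtain ⟨q, hq⟩ := Nat.exists_eq_add_of_lt (hS i hi)
        exact tendsto_div (f := fun ε p => ell τ n ε l (Θ ε p)) (p := q + 1)
          (A := fun z : ℝ × (ℝ × ℝ) => z.2.1 + 5.4 * n i - 5.4 * n l)
          (B := fun z : ℝ × (ℝ × ℝ) => z.2.2 * (z.1 ^ (m + 1) - 1)) (by omega) (by fun_prop)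
          (by fun_prop) (by simpa using hW y hy) (fun ε hε p => by
            simp only [ell, Θ, h, u_PP0, u_PP1, inv_pow]
            rw [show ε ^ (l + 1) = ε ^ (i + 1) * ε ^ (m + 1) by rw [hm]; ring,
              show ε ^ (K + 1) = ε ^ (i + 1) * ε ^ (q + 1) by rw [hq]; ring]
            field_simp
            ring)
    · exact tendsto_div (f := fun ε p => ell τ n ε l (Θ ε p)) (p := K + 1)
        (A := fun z : ℝ × (ℝ × ℝ) => 0.9 - 5.4 * n l - z.1 ^ (l + 1) * (z.2.1 + (5.4 * n i - 0.9)))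
        (B := fun z : ℝ × (ℝ × ℝ) => z.2.2 * (1 + z.1 ^ (l + 1) * z.1 ^ (i + 1) - z.1 ^ (l + 1)))
        (by omega) (by fun_prop) (by fun_prop) (by simpa using hW y hy) (fun ε hε p => by
          simp only [ell, Θ, h, fin3_a, u_PP1, u_PP2]
          ring)
    · exact tendsto_div (f := fun ε p => ell τ n ε l (Θ ε p)) (p := K + 1)
        (A := fun z : ℝ × (ℝ × ℝ) => 0.9 - 5.4 * n l
          + (z.1 ^ (l + 1) - 1) * (z.2.1 + (5.4 * n i - 0.9)))
        (B := fun z : ℝ × (ℝ × ℝ) => z.2.2 * (z.1 ^ (i + 1) - 1 - z.1 ^ (l + 1) * z.1 ^ (i + 1)))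
        (by omega) (by fun_prop) (by fun_prop) (by simpa using hW y hy) (fun ε hε p => by
          simp only [ell, Θ, h, fin3_b, u_PP0, u_PP2]
          ring)
  · rw [Finset.filter_eq' S i, if_pos hi]
    simp only [Finset.sum_singleton]
    refine Peak.of_open (isCompact_Icc.prod isCompact_Icc)
      (O := Set.Ioo (-1 : ℝ) 1 ×ˢ Set.Ioo (1 / 2 : ℝ) (3 / 2)) (isOpen_Ioo.prod isOpen_Ioo)
      (Set.prod_mono Set.Ioo_subset_Icc_self Set.Ioo_subset_Icc_self) (c := (0, 1))
      (by simp only [Kc, Set.mem_prod, Set.mem_Icc]; norm_num) ?_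
    intro y hy hyO
    simp only [g, ← Real.exp_add]
    refine Real.exp_lt_exp.2 ?_
    have : y.1 ≠ 0 ∨ y.2 - 1 ≠ 0 := by
      by_contra hcon
      push Not at hcon
      refine hyO ⟨?_, ?_⟩
      · rw [hcon.1]; norm_num
      · rw [show y.2 = 1 by linarith [hcon.2]]; norm_num
    rcases this with h | h
    · nlinarith [sq_pos_of_ne_zero h, sq_nonneg (y.2 - 1)]
    · nlinarith [sq_pos_of_ne_zero h, sq_nonneg y.1]
  · intro l _ hl
    exact ⟨Finset.mem_singleton.1 hl, fun y hy => abs_le.2 hy.1⟩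
  · intro l _ hl hC
    exact absurd (Finset.mem_singleton.2 hC) hl

end Pool.Agent.Lib.MP_1f4710_co
end

-- part Pool.Agent.Lib.MP_1f4710_co.Base
section

/-!
The planar lower bound and the count of triangles.
-/

namespace Pool.Agent.Lib.MP_1f4710_co

open Topology Filter Finset

def triples (τ : ℕ → Fin 3) (n : ℕ → ℤ) (k : ℕ) : Finset (ℕ × ℕ × ℕ) :=
  (range k ×ˢ range k ×ˢ range k).filter fun t => τ t.1 = 0 ∧ τ t.2.1 = 1 ∧ τ t.2.2 = 2 ∧
    (n t.1 + n t.2.1 + n t.2.2 = 0 ∨ n t.1 + n t.2.1 + n t.2.2 = 1)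

def labels (τ : ℕ → Fin 3) (n : ℕ → ℤ) (k : ℕ) : Finset (Finset ℕ) :=
  powersetCard 1 (range k) ∪ powersetCard 2 (range k) ∪
    (triples τ n k).image fun t => {t.1, t.2.1, t.2.2}

lemma card_labels (τ : ℕ → Fin 3) (n : ℕ → ℤ) (k : ℕ) :
    (labels τ n k).card = k + k.choose 2 + (triples τ n k).card := by
  have hc3 : ∀ a ∈ (triples τ n k).image fun t => ({t.1, t.2.1, t.2.2} : Finset ℕ), a.card = 3 := by
    intro a ha
    obtain ⟨t, ht, rfl⟩ := Finset.mem_image.1 ha
    obtain ⟨-, h0, h1, h2, -⟩ := Finset.mem_filter.1 ht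
    refine Finset.card_eq_three.2 ⟨_, _, _, ?_, ?_, ?_, rfl⟩
    · intro h; rw [h, h1] at h0; exact absurd h0 (by decide)
    · intro h; rw [h, h2] at h0; exact absurd h0 (by decide)
    · intro h; rw [h, h2] at h1; exact absurd h1 (by decide)
  unfold labels
  rw [Finset.card_union_of_disjoint, Finset.card_union_of_disjoint, Finset.card_powersetCard,
    Finset.card_powersetCard, Finset.card_range, Nat.choose_one_right, Finset.card_image_of_injOn]
  · rintro ⟨a, b, c⟩ ht ⟨a', b', c'⟩ ht' h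
    obtain ⟨-, h0, h1, h2, -⟩ := Finset.mem_filter.1 (Finset.mem_coe.1 ht)
    obtain ⟨-, h0', h1', h2', -⟩ := Finset.mem_filter.1 (Finset.mem_coe.1 ht')
    simp only at h h0 h1 h2 h0' h1' h2'
    have ma : a ∈ ({a', b', c'} : Finset ℕ) := h ▸ by simp
    have mb : b ∈ ({a', b', c'} : Finset ℕ) := h ▸ by simp
    have mc : c ∈ ({a', b', c'} : Finset ℕ) := h ▸ by simp
    simp only [Finset.mem_insert, Finset.mem_singleton] at ma mb mc
    have ea : a = a' := by
      rcases ma with h | h | h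
      · exact h
      · rw [h, h1'] at h0; exact absurd h0 (by decide)
      · rw [h, h2'] at h0; exact absurd h0 (by decide)
    have eb : b = b' := by
      rcases mb with h | h | h
      · rw [h, h0'] at h1; exact absurd h1 (by decide)
      · exact h
      · rw [h, h2'] at h1; exact absurd h1 (by decide)
    have ec : c = c' := by
      rcases mc with h | h | h
      · rw [h, h0'] at h2; exact absurd h2 (by decide)
      · rw [h, h1'] at h2; exact absurd h2 (by decide)
      · exact h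
    rw [ea, eb, ec]
  · refine Finset.disjoint_left.2 fun a h1 h2 => ?_
    have := (Finset.mem_powersetCard.1 h1).2
    have := (Finset.mem_powersetCard.1 h2).2
    omega
  · refine Finset.disjoint_left.2 fun a h1 h2 => ?_
    have := hc3 a h2
    rcases Finset.mem_union.1 h1 with h | h
    · have := (Finset.mem_powersetCard.1 h).2
      omega
    · have := (Finset.mem_powersetCard.1 h).2
      omega

lemma labels_subset {τ : ℕ → Fin 3} {n : ℕ → ℤ} {k : ℕ} {a : Finset ℕ} (ha : a ∈ labels τ n k) :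
    a ⊆ range k := by
  simp only [labels, Finset.mem_union] at ha
  rcases ha with (h | h) | h
  · exact (Finset.mem_powersetCard.1 h).1
  · exact (Finset.mem_powersetCard.1 h).1
  · obtain ⟨t, ht, rfl⟩ := Finset.mem_image.1 h
    have := (Finset.mem_filter.1 ht).1
    simp only [Finset.mem_product] at this
    simp only [Finset.insert_subset_iff, Finset.singleton_subset_iff]
    exact this

lemma loc_label {τ : ℕ → Fin 3} {n : ℕ → ℤ} (hinj : ∀ i j, τ i = τ j → n i = n j → i = j)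
    {K k : ℕ} (hk : k ≤ K) {a : Finset ℕ} (ha : a ∈ labels τ n k) :
    ∀ᶠ ε in 𝓝[>] (0 : ℝ), Loc τ n K ε (range k) a := by
  have hsub := labels_subset ha
  simp only [labels, Finset.mem_union] at ha
  rcases ha with (h | h) | h
  · obtain ⟨i, rfl⟩ := Finset.card_eq_one.1 (Finset.mem_powersetCard.1 h).2
    exact loc_mean (hsub (by simp)) fun l hl => (Finset.mem_range.1 hl).trans_le hk
  · obtain ⟨i, j, hij, rfl⟩ := Finset.card_eq_two.1 (Finset.mem_powersetCard.1 h).2
    have hi : i ∈ range k := hsub (by simp)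
    have hj : j ∈ range k := hsub (by simp)
    rcases fin3_c (τ i) (τ j) with h | h | h
    · rcases lt_or_gt_of_ne hij with h' | h'
      · exact loc_far hinj hi hj h h' ((Finset.mem_range.1 hi).trans_le hk)
      · rw [Finset.pair_comm]
        exact loc_far hinj hj hi h.symm h' ((Finset.mem_range.1 hj).trans_le hk)
    · exact loc_vertex hinj hi hj h
    · rw [Finset.pair_comm]
      exact loc_vertex hinj hj hi (by rw [h, fin3_b])
  · obtain ⟨t, ht, rfl⟩ := Finset.mem_image.1 h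
    obtain ⟨-, h0, h1, h2, hs⟩ := Finset.mem_filter.1 ht
    exact loc_triangle hinj (hsub (by simp)) (hsub (by simp)) (hsub (by simp))
      (by rw [h0, h1]; rfl) (by rw [h0, h2]; rfl) hs

theorem good_plane {τ : ℕ → Fin 3} {n : ℕ → ℤ} (hinj : ∀ i j, τ i = τ j → n i = n j → i = j)
    (K : ℕ) : Good (ℝ × ℝ) K fun k => k + k.choose 2 + (triples τ n k).card := by
  have hev : ∀ᶠ ε in 𝓝[>] (0 : ℝ), ∀ k ∈ range (K + 1), ∀ a ∈ labels τ n k,
      Loc τ n K ε (range k) a := by
    simp only [Filter.eventually_all_finset]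
    intro k hk a ha
    exact loc_label hinj (by simpa [Nat.lt_succ_iff] using hk) ha
  obtain ⟨ε, hε, hε0⟩ := (hev.and self_mem_nhdsWithin).exists
  refine ⟨comp τ n K ε, fun i _ => isEQ_comp τ n K hε0 i, fun k hk => ?_⟩
  choose L hL1 hL2 using fun a : labels τ n k => hε k (by simp; omega) a.1 a.2
  refine HasPeaks.of_fintype L ?_ hL1 (by simp [card_labels])
  intro a b hab
  refine Set.disjoint_left.2 fun p hpa hpb => hab (Subtype.ext ?_)
  ext l
  constructor
  · intro hl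
    have hl' := labels_subset a.2 hl
    exact (hL2 b p hpb l hl').1 ((hL2 a p hpa l hl').2 hl)
  · intro hl
    have hl' := labels_subset b.2 hl
    exact (hL2 a p hpa l hl').1 ((hL2 b p hpb l hl').2 hl)

lemma two_mul_card_le {s : Finset (ℕ × ℕ)} {x : ℕ} (h : ∀ p ∈ s, p.1 + p.2 < x) :
    2 * s.card ≤ x * (x + 1) := by
  have h1 : s ⊆ (range x).biUnion fun i => antidiagonal i := fun p hp => by
    simp only [Finset.mem_biUnion, Finset.mem_range]
    exact ⟨p.1 + p.2, h p hp, by simp⟩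
  have h2 := (Finset.card_le_card h1).trans Finset.card_biUnion_le
  simp only [Finset.Nat.card_antidiagonal] at h2
  have h3 : 2 * ∑ i ∈ range x, (i + 1) = x * (x + 1) := by
    clear h h1 h2
    induction x with
    | zero => simp
    | succ x ih => rw [Finset.sum_range_succ, mul_add, ih]; ring
  omega

def hexa (m0 m1 m2 c : ℕ) : Finset (ℕ × ℕ) :=
  (range m0 ×ˢ range m1).filter fun p => p.1 + p.2 ≤ c ∧ c < p.1 + p.2 + m2

lemma card_hexa (m0 m1 m2 c x y : ℕ) (hx : m0 + m1 ≤ x + c + 2) (hy : c + 1 ≤ y + m2) :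
    2 * (m0 * m1) ≤ 2 * (hexa m0 m1 m2 c).card + x * (x + 1) + y * (y + 1) := by
  let B := range m0 ×ˢ range m1
  have h1 : B ⊆ hexa m0 m1 m2 c ∪ B.filter (fun p => c < p.1 + p.2) ∪
      B.filter (fun p => p.1 + p.2 + m2 ≤ c) := by
    intro p hp
    simp only [hexa, Finset.mem_union, Finset.mem_filter]
    have : p ∈ range m0 ×ˢ range m1 := hp
    simp only [hp, this, true_and]
    omega
  have h2 := (Finset.card_le_card h1).trans ((Finset.card_union_le _ _).trans
    (Nat.add_le_add_right (Finset.card_union_le _ _) _))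
  have h3 : 2 * (B.filter (fun p => p.1 + p.2 + m2 ≤ c)).card ≤ y * (y + 1) :=
    two_mul_card_le fun p hp => by
      have := (Finset.mem_filter.1 hp).2
      omega
  have h4 : 2 * (B.filter (fun p => c < p.1 + p.2)).card ≤ x * (x + 1) := by
    rw [← Finset.card_image_of_injOn (f := fun p => (m0 - 1 - p.1, m1 - 1 - p.2))]
    · refine two_mul_card_le fun p hp => ?_
      obtain ⟨q, hq, rfl⟩ := Finset.mem_image.1 hp
      simp only [B, Finset.mem_filter, Finset.mem_product, Finset.mem_range] at hq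
      simp only
      omega
    · rintro ⟨a, b⟩ ha ⟨a', b'⟩ ha' h
      simp only [B, Finset.coe_filter, Finset.mem_product, Finset.mem_range, Set.mem_ofPred_eq,
        Prod.mk.injEq] at ha ha' h ⊢
      omega
  have h5 : B.card = m0 * m1 := by simp [B]
  omega

def zig (r : ℕ) : ℤ := if r % 2 = 1 then (r + 1) / 2 else -(r / 2)

def unzig (a : ℤ) : ℕ := if 0 < a then (2 * a - 1).toNat else (-2 * a).toNat

lemma zig_unzig (a : ℤ) : zig (unzig a) = a := by
  unfold zig unzig
  split_ifs <;> omega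

lemma zig_inj {r s : ℕ} (h : zig r = zig s) : r = s := by
  unfold zig at h
  split_ifs at h <;> omega

def tau (i : ℕ) : Fin 3 := ⟨i % 3, Nat.mod_lt _ (by norm_num)⟩

def off (i : ℕ) : ℤ := if i % 3 = 1 then -zig (i / 3) else zig (i / 3)

lemma tau_off_inj (i j : ℕ) (h1 : tau i = tau j) (h2 : off i = off j) : i = j := by
  have h3 : i % 3 = j % 3 := congrArg Fin.val h1
  have h4 : i / 3 = j / 3 := by
    unfold off at h2
    rw [h3] at h2
    split_ifs at h2
    · exact zig_inj (neg_injective h2)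
    · exact zig_inj h2
  omega

lemma hexa_le_triples (k m0 m1 m2 A0 A1 A2 : ℕ) (h0 : 3 * m0 ≤ k + 2) (h1 : 3 * m1 ≤ k + 1)
    (h2 : 3 * m2 ≤ k) (e0 : A0 = (m0 - 1) / 2) (e1 : A1 = m1 / 2) (e2 : A2 = (m2 - 1) / 2) :
    (hexa m0 m1 m2 (A0 + A1 + A2)).card + (hexa m0 m1 m2 (A0 + A1 + A2 + 1)).card
      ≤ (triples tau off k).card := by
  rw [← Finset.card_disjSum]
  let F : ℕ → ℕ × ℕ → ℕ × ℕ × ℕ := fun s p => (3 * unzig ((p.1 : ℤ) - A0),
    3 * unzig (A1 - (p.2 : ℤ)) + 1, 3 * unzig ((s : ℤ) + A0 + A1 - p.1 - p.2) + 2)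
  have o0 : ∀ a, off (3 * unzig a) = a := fun a => by
    unfold off
    rw [if_neg (by omega), show 3 * unzig a / 3 = unzig a by omega, zig_unzig]
  have o1 : ∀ a, off (3 * unzig a + 1) = -a := fun a => by
    unfold off
    rw [if_pos (by omega), show (3 * unzig a + 1) / 3 = unzig a by omega, zig_unzig]
  have o2 : ∀ a, off (3 * unzig a + 2) = a := fun a => by
    unfold off
    rw [if_neg (by omega), show (3 * unzig a + 2) / 3 = unzig a by omega, zig_unzig]
  have hF : ∀ s, s ≤ 1 → ∀ p ∈ hexa m0 m1 m2 (A0 + A1 + A2 + s), F s p ∈ triples tau off k := by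
    intro s hs p hp
    simp only [hexa, Finset.mem_filter, Finset.mem_product, Finset.mem_range] at hp
    simp only [triples, F, Finset.mem_filter, Finset.mem_product, Finset.mem_range, o0, o1, o2]
    refine ⟨⟨?_, ?_, ?_⟩, ?_, ?_, ?_, ?_⟩
    · unfold unzig; split_ifs <;> omega
    · unfold unzig; split_ifs <;> omega
    · unfold unzig; split_ifs <;> omega
    · exact Fin.ext (by simp [tau])
    · exact Fin.ext (by simp [tau])
    · exact Fin.ext (by simp [tau])
    · omega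
  have hFi : ∀ s s' p p', F s p = F s' p' → s = s' ∧ p = p' := by
    rintro s s' ⟨p, q⟩ ⟨p', q'⟩ h
    simp only [F, Prod.mk.injEq] at h ⊢
    have a0 := congrArg off h.1
    have a1 := congrArg off h.2.1
    have a2 := congrArg off h.2.2
    simp only [o0, o1, o2] at a0 a1 a2
    omega
  refine Finset.card_le_card_of_injOn (Sum.elim (F 0) (F 1)) ?_ ?_
  · rintro (p | p) hp
    · exact hF 0 (by norm_num) p (by simpa using hp)
    · exact hF 1 le_rfl p (by simpa using hp)
  · rintro (p | p) _ (q | q) _ h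
    · rw [(hFi _ _ _ _ h).2]
    · exact absurd (hFi _ _ _ _ h).1 (by norm_num)
    · exact absurd (hFi _ _ _ _ h).1 (by norm_num)
    · rw [(hFi _ _ _ _ h).2]

theorem extra_zero_le (k : ℕ) : extra 0 k ≤ (triples tau off k).card := by
  unfold extra
  refine Nat.le_of_lt_succ ((Nat.div_lt_iff_lt_mul (by norm_num)).2 ?_)
  suffices h : k ^ 2 < ((triples tau off k).card + 1) * 6 + 3 * (k % 2) by omega
  by_cases hk : k < 3
  · interval_cases k <;> omega
  obtain ⟨q, r, hr, rfl⟩ : ∃ q r, r < 6 ∧ k = 6 * q + 3 + r :=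
    ⟨(k - 3) / 6, (k - 3) % 6, by omega, by omega⟩
  interval_cases r
  · have t := hexa_le_triples (6 * q + 3 + 0) (2 * q + 1) (2 * q + 1) (2 * q + 1) q q q
      (by omega) (by omega) (by omega) (by omega) (by omega) (by omega)
    have a := card_hexa (2 * q + 1) (2 * q + 1) (2 * q + 1) (q + q + q) q q (by omega) (by omega)
    have b := card_hexa (2 * q + 1) (2 * q + 1) (2 * q + 1) (q + q + q + 1) (q - 1) (q + 1)
      (by omega) (by omega)
    rw [show (6 * q + 3 + 0) % 2 = 1 by omega]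
    rcases q with _ | q
    · omega
    · simp only [Nat.add_sub_cancel] at b
      nlinarith
  · have t := hexa_le_triples (6 * q + 3 + 1) (2 * q + 2) (2 * q + 1) (2 * q + 1) q q q
      (by omega) (by omega) (by omega) (by omega) (by omega) (by omega)
    have a := card_hexa (2 * q + 2) (2 * q + 1) (2 * q + 1) (q + q + q) (q + 1) q
      (by omega) (by omega)
    have b := card_hexa (2 * q + 2) (2 * q + 1) (2 * q + 1) (q + q + q + 1) q (q + 1)
      (by omega) (by omega)
    rw [show (6 * q + 3 + 1) % 2 = 0 by omega]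
    nlinarith
  · have t := hexa_le_triples (6 * q + 3 + 2) (2 * q + 2) (2 * q + 2) (2 * q + 1) q (q + 1) q
      (by omega) (by omega) (by omega) (by omega) (by omega) (by omega)
    have a := card_hexa (2 * q + 2) (2 * q + 2) (2 * q + 1) (q + (q + 1) + q) (q + 1) (q + 1)
      (by omega) (by omega)
    have b := card_hexa (2 * q + 2) (2 * q + 2) (2 * q + 1) (q + (q + 1) + q + 1) q (q + 2)
      (by omega) (by omega)
    rw [show (6 * q + 3 + 2) % 2 = 1 by omega]
    nlinarith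
  · have t := hexa_le_triples (6 * q + 3 + 3) (2 * q + 2) (2 * q + 2) (2 * q + 2) q (q + 1) q
      (by omega) (by omega) (by omega) (by omega) (by omega) (by omega)
    have a := card_hexa (2 * q + 2) (2 * q + 2) (2 * q + 2) (q + (q + 1) + q) (q + 1) q
      (by omega) (by omega)
    have b := card_hexa (2 * q + 2) (2 * q + 2) (2 * q + 2) (q + (q + 1) + q + 1) q (q + 1)
      (by omega) (by omega)
    rw [show (6 * q + 3 + 3) % 2 = 0 by omega]
    nlinarith
  · have t := hexa_le_triples (6 * q + 3 + 4) (2 * q + 3) (2 * q + 2) (2 * q + 2) (q + 1) (q + 1) q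
      (by omega) (by omega) (by omega) (by omega) (by omega) (by omega)
    have a := card_hexa (2 * q + 3) (2 * q + 2) (2 * q + 2) (q + 1 + (q + 1) + q) (q + 1) (q + 1)
      (by omega) (by omega)
    have b := card_hexa (2 * q + 3) (2 * q + 2) (2 * q + 2) (q + 1 + (q + 1) + q + 1) q (q + 2)
      (by omega) (by omega)
    rw [show (6 * q + 3 + 4) % 2 = 1 by omega]
    nlinarith
  · have t := hexa_le_triples (6 * q + 3 + 5) (2 * q + 3) (2 * q + 3) (2 * q + 2) (q + 1) (q + 1) q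
      (by omega) (by omega) (by omega) (by omega) (by omega) (by omega)
    have a := card_hexa (2 * q + 3) (2 * q + 3) (2 * q + 2) (q + 1 + (q + 1) + q) (q + 2) (q + 1)
      (by omega) (by omega)
    have b := card_hexa (2 * q + 3) (2 * q + 3) (2 * q + 2) (q + 1 + (q + 1) + q + 1) (q + 1)
      (q + 2) (by omega) (by omega)
    rw [show (6 * q + 3 + 5) % 2 = 0 by omega]
    nlinarith

end Pool.Agent.Lib.MP_1f4710_co
end
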