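import Pool.Agent.Lib.MP_1f4710_co.Base
-- merged into that module to save build time
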