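import Mathlib
import Pool.Agent.Lib.MP_1f4710_co.Defs

-- part Pool.Agent.Lib.MP_1f4710_co.UPoly
section

/-!
Polynomial functions with a degree bound, their derivatives, and persistence of nondegenerate
solutions.
-/

namespace Pool.Agent.Lib.MP_1f4710_co.Upper

open Topology Filter Finset

variable {l : ℕ}

/-- The linear form with coefficient vector `v`. -/
noncomputable def rowCLM (v : Fin l → ℝ) : (Fin l → ℝ) →L[ℝ] ℝ :=
  ∑ n, v n • ContinuousLinearMap.proj (R := ℝ) (φ := fun _ : Fin l => ℝ) n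

@[simp] lemma rowCLM_apply (v x : Fin l → ℝ) : rowCLM v x = ∑ n, v n * x n := by
  simp [rowCLM]

lemma sd_congr {f : (Fin l → ℝ) → ℝ} {A B : (Fin l → ℝ) →L[ℝ] ℝ} {x : Fin l → ℝ}
    (h : HasStrictFDerivAt f A x) (e : ∀ v, B v = A v) : HasStrictFDerivAt f B x := by
  rwa [show B = A from ContinuousLinearMap.ext e]

/-- The linear map with matrix `M`. -/
noncomputable def matCLM (M : Matrix (Fin l) (Fin l) ℝ) : (Fin l → ℝ) →L[ℝ] (Fin l → ℝ) :=
  LinearMap.toContinuousLinearMap (Matrix.toLin' M)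

lemma matCLM_det (M : Matrix (Fin l) (Fin l) ℝ) : (matCLM M).det = M.det := by
  simp [matCLM, ContinuousLinearMap.det]

lemma hasStrictFDerivAt_mat {Φ : Fin l → (Fin l → ℝ) → ℝ} {M : Matrix (Fin l) (Fin l) ℝ}
    {x : Fin l → ℝ} (h : ∀ i, HasStrictFDerivAt (Φ i) (rowCLM (M i)) x) :
    HasStrictFDerivAt (fun y i => Φ i y) (matCLM M) x := by
  rw [hasStrictFDerivAt_pi']
  intro i
  exact sd_congr (h i) fun v => by simp [matCLM, Matrix.mulVec, dotProduct]

lemma nhds_le_map {Φ : (Fin l → ℝ) → (Fin l → ℝ)} {M : Matrix (Fin l) (Fin l) ℝ}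
    {x : Fin l → ℝ} (h : HasStrictFDerivAt Φ (matCLM M) x) (hM : M.det ≠ 0) :
    𝓝 (Φ x) ≤ map Φ (𝓝 x) := by
  have hd : (matCLM M).det ≠ 0 := by rwa [matCLM_det]
  have h2 : HasStrictFDerivAt Φ
      (((matCLM M).toContinuousLinearEquivOfDetNeZero hd : (Fin l → ℝ) ≃L[ℝ] (Fin l → ℝ)) :
        (Fin l → ℝ) →L[ℝ] (Fin l → ℝ)) x := by
    simpa using h
  exact h2.map_nhds_eq_of_equiv.ge

/-- Persistence of finitely many solutions at which the map is open. -/
lemma persist {E F Z : Type*} [TopologicalSpace E] [TopologicalSpace F] [TopologicalSpace Z]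
    [T2Space Z] {Φ : E → F} {y₀ : F} (s : Finset E)
    (hs : ∀ x ∈ s, Φ x = y₀ ∧ 𝓝 (Φ x) ≤ map Φ (𝓝 x)) {lam : E → Z} (hc : Continuous lam)
    (hinj : Set.InjOn lam s) {O : Set E} (hO : ∀ x ∈ s, O ∈ 𝓝 x) :
    ∀ᶠ y in 𝓝 y₀, ∃ t : Finset E, t.card = s.card ∧ (∀ x ∈ t, Φ x = y ∧ x ∈ O) ∧
      Set.InjOn lam t := by
  classical
  obtain ⟨U, hU, hdisj⟩ := (s.finite_toSet.image lam).t2_separation
  have h1 : ∀ᶠ y in 𝓝 y₀, ∀ x ∈ s, ∃ x', x' ∈ O ∧ lam x' ∈ U (lam x) ∧ Φ x' = y := by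
    rw [Filter.eventually_all_finset]
    intro x hx
    have hV : O ∩ lam ⁻¹' U (lam x) ∈ 𝓝 x :=
      inter_mem (hO x hx) (hc.continuousAt.preimage_mem_nhds ((hU _).2.mem_nhds (hU _).1))
    have := (hs x hx).2 (image_mem_map hV)
    rw [(hs x hx).1] at this
    filter_upwards [this] with y ⟨x', hx', h⟩
    exact ⟨x', hx'.1, hx'.2, h⟩
  filter_upwards [h1] with y hy
  choose! e he using hy
  have key : ∀ x ∈ s, ∀ x' ∈ s, lam (e x) = lam (e x') → x = x' := by
    intro x hx x' hx' h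
    by_contra hne
    have hne' : lam x ≠ lam x' := fun h' => hne (hinj hx hx' h')
    exact Set.disjoint_left.1 (hdisj ⟨x, hx, rfl⟩ ⟨x', hx', rfl⟩ hne') (he x hx).2.1
      (h ▸ (he x' hx').2.1)
  refine ⟨s.image e, Finset.card_image_of_injOn fun x hx x' hx' h => key x hx x' hx' (by rw [h]),
    ?_, ?_⟩
  · intro x' hx'
    obtain ⟨x, hx, rfl⟩ := Finset.mem_image.1 hx'
    exact ⟨(he x hx).2.2, (he x hx).1⟩
  · intro a ha b hb h
    obtain ⟨x, hx, rfl⟩ := Finset.mem_image.1 ha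
    obtain ⟨x', hx', rfl⟩ := Finset.mem_image.1 hb
    rw [key x hx x' hx' h]

/-- Polynomial functions of degree at most `D`. -/
inductive PF : ℕ → ((Fin l → ℝ) → ℝ) → Prop
  | const (c : ℝ) : PF 0 fun _ => c
  | coord (i : Fin l) : PF 1 fun x => x i
  | add {D : ℕ} {f g : (Fin l → ℝ) → ℝ} : PF D f → PF D g → PF D fun x => f x + g x
  | mul {D D' : ℕ} {f g : (Fin l → ℝ) → ℝ} : PF D f → PF D' g → PF (D + D') fun x => f x * g x
  | mono {D D' : ℕ} {f : (Fin l → ℝ) → ℝ} : PF D f → D ≤ D' → PF D' f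

namespace PF

variable {D D' : ℕ} {f g : (Fin l → ℝ) → ℝ}

lemma const' (c : ℝ) : PF D fun _ : Fin l → ℝ => c := (const c).mono (Nat.zero_le _)

lemma congr (h : PF D f) (e : ∀ x, g x = f x) : PF D g := by
  rwa [show g = f from funext e]

lemma cmul (c : ℝ) (h : PF D f) : PF D fun x => c * f x := by
  simpa using (const c).mul h

lemma neg (h : PF D f) : PF D fun x => -f x := (h.cmul (-1)).congr (by simp)

lemma sub (h : PF D f) (h' : PF D g) : PF D fun x => f x - g x :=
  (h.add h'.neg).congr fun _ => sub_eq_add_neg _ _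

lemma mul' {D'' : ℕ} (h : PF D f) (h' : PF D' g) (hD : D + D' ≤ D'') :
    PF D'' fun x => f x * g x := (h.mul h').mono hD

lemma sum {ι : Type*} (s : Finset ι) {F : ι → (Fin l → ℝ) → ℝ} (h : ∀ i ∈ s, PF D (F i)) :
    PF D fun x => ∑ i ∈ s, F i x := by
  classical
  induction s using Finset.induction_on with
  | empty => simpa using const' 0
  | insert a s ha ih =>
    refine ((h a (mem_insert_self _ _)).add (ih fun i hi => h i (mem_insert_of_mem hi))).congr ?_
    intro x; rw [Finset.sum_insert ha]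

lemma prod {ι : Type*} (s : Finset ι) {F : ι → (Fin l → ℝ) → ℝ} {Dg : ι → ℕ}
    (h : ∀ i ∈ s, PF (Dg i) (F i)) : PF (∑ i ∈ s, Dg i) fun x => ∏ i ∈ s, F i x := by
  classical
  induction s using Finset.induction_on with
  | empty => simpa using const 1
  | insert a s ha ih =>
    rw [Finset.sum_insert ha]
    refine ((h a (mem_insert_self _ _)).mul (ih fun i hi => h i (mem_insert_of_mem hi))).congr ?_
    intro x; rw [Finset.prod_insert ha]

lemma pow (h : PF D f) (n : ℕ) : PF (n * D) fun x => f x ^ n := by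
  simpa using prod (range n) (F := fun _ => f) (Dg := fun _ => D) fun _ _ => h

lemma det {ι : Type*} [Fintype ι] [DecidableEq ι] {M : (Fin l → ℝ) → Matrix ι ι ℝ} {Dg : ι → ℕ}
    (h : ∀ i j, PF (Dg i) fun x => M x i j) : PF (∑ i, Dg i) fun x => (M x).det := by
  refine PF.congr (f := fun x => ∑ σ : Equiv.Perm ι,
    ((Equiv.Perm.sign σ : ℤ) : ℝ) * ∏ i, M x i (σ i)) ?_ ?_
  · exact sum _ fun σ _ => cmul _ (prod _ fun i _ => h i (σ i))
  · intro x
    rw [← Matrix.det_transpose, Matrix.det_apply']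
    simp [Matrix.transpose_apply]

lemma exists_poly (h : PF D f) :
    ∃ p : MvPolynomial (Fin l) ℝ, p.totalDegree ≤ D ∧ ∀ x, f x = MvPolynomial.eval x p := by
  induction h with
  | const c => exact ⟨MvPolynomial.C c, by simp, by simp⟩
  | coord i => exact ⟨MvPolynomial.X i, by simp, by simp⟩
  | add _ _ ih ih' =>
    obtain ⟨p, hp, e⟩ := ih
    obtain ⟨q, hq, e'⟩ := ih'
    exact ⟨p + q, (MvPolynomial.totalDegree_add p q).trans (max_le hp hq), by simp [e, e']⟩
  | mul _ _ ih ih' =>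
    obtain ⟨p, hp, e⟩ := ih
    obtain ⟨q, hq, e'⟩ := ih'
    exact ⟨p * q, (MvPolynomial.totalDegree_mul p q).trans (add_le_add hp hq), by simp [e, e']⟩
  | mono _ hD ih =>
    obtain ⟨p, hp, e⟩ := ih
    exact ⟨p, hp.trans hD, e⟩

lemma contDiff (h : PF D f) : ContDiff ℝ 1 f := by
  induction h with
  | const c => exact contDiff_const
  | coord i => exact contDiff_apply ℝ ℝ i
  | add _ _ ih ih' => exact ih.add ih'
  | mul _ _ ih ih' => exact ih.mul ih'
  | mono _ _ ih => exact ih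

lemma continuous (h : PF D f) : Continuous f := h.contDiff.continuous

lemma exists_deriv_aux (h : PF D f) :
    ∃ G : Fin l → (Fin l → ℝ) → ℝ, (∀ n, (D = 0 → ∀ x, G n x = 0) ∧ PF (D - 1) (G n)) ∧
      ∀ x, HasStrictFDerivAt f (rowCLM fun n => G n x) x := by
  classical
  induction h with
  | const c =>
    refine ⟨fun _ _ => 0, fun n => ⟨fun _ _ => rfl, const 0⟩, fun x => ?_⟩
    exact sd_congr (hasStrictFDerivAt_const c x) fun v => by simp
  | coord i =>
    refine ⟨fun n _ => if n = i then 1 else 0, fun n => ⟨fun h => absurd h one_ne_zero, const _⟩,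
      fun x => ?_⟩
    exact sd_congr (hasStrictFDerivAt_apply (𝕜 := ℝ) i x) fun v => by simp
  | add _ _ ih ih' =>
    obtain ⟨G, hG, e⟩ := ih
    obtain ⟨G', hG', e'⟩ := ih'
    refine ⟨fun n x => G n x + G' n x, fun n => ⟨fun h x => by simp [(hG n).1 h, (hG' n).1 h],
      (hG n).2.add (hG' n).2⟩, fun x => ?_⟩
    exact sd_congr ((e x).fun_add (e' x)) fun v => by simp [add_mul, Finset.sum_add_distrib]
  | @mul D D' f g hf hg ih ih' =>
    obtain ⟨G, hG, e⟩ := ih
    obtain ⟨G', hG', e'⟩ := ih'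
    refine ⟨fun n x => f x * G' n x + g x * G n x, fun n => ⟨fun h x => ?_, PF.add ?_ ?_⟩,
      fun x => ?_⟩
    · simp [(hG n).1 (by omega), (hG' n).1 (by omega)]
    · rcases Nat.eq_zero_or_pos D' with h0 | h0
      · exact (const' 0).congr fun x => by simp [(hG' n).1 h0]
      · exact hf.mul' (hG' n).2 (by omega)
    · rcases Nat.eq_zero_or_pos D with h0 | h0
      · exact (const' 0).congr fun x => by simp [(hG n).1 h0]
      · exact hg.mul' (hG n).2 (by omega)
    · exact sd_congr ((e x).fun_mul (e' x)) fun v => by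
        simp [add_mul, Finset.sum_add_distrib, Finset.mul_sum, mul_assoc]
  | mono _ hD ih =>
    obtain ⟨G, hG, e⟩ := ih
    exact ⟨G, fun n => ⟨fun h => (hG n).1 (by omega), (hG n).2.mono (by omega)⟩, e⟩

lemma exists_deriv (h : PF D f) :
    ∃ G : Fin l → (Fin l → ℝ) → ℝ, (∀ n, PF (D - 1) (G n)) ∧
      ∀ x, HasStrictFDerivAt f (rowCLM fun n => G n x) x := by
  obtain ⟨G, hG, e⟩ := h.exists_deriv_aux
  exact ⟨G, fun n => (hG n).2, e⟩

end PF

end Pool.Agent.Lib.MP_1f4710_co.Upper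
end

-- part Pool.Agent.Lib.MP_1f4710_co.UBez
section

/-!
The Bezout inequality for nondegenerate real solutions of a square polynomial system.
-/

namespace Pool.Agent.Lib.MP_1f4710_co.Upper

open Topology Filter Finset

variable {l : ℕ}

/-- Exponent vectors of weighted degree at most `T`. -/
def wt (D : Fin l → ℕ) (T : ℕ) : Finset (Fin l → ℕ) :=
  (Fintype.piFinset fun _ => range (T + 1)).filter fun a => ∑ i, a i * D i ≤ T

lemma mem_wt {D : Fin l → ℕ} (hD : ∀ i, 0 < D i) {T : ℕ} {a : Fin l → ℕ} :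
    a ∈ wt D T ↔ ∑ i, a i * D i ≤ T := by
  simp only [wt, mem_filter, Fintype.mem_piFinset, mem_range, and_iff_right_iff_imp]
  intro h i
  have h1 : a i * D i ≤ ∑ i, a i * D i :=
    single_le_sum (f := fun i => a i * D i) (fun _ _ => Nat.zero_le _) (mem_univ i)
  have h2 : a i ≤ a i * D i := Nat.le_mul_of_pos_right _ (hD i)
  omega

lemma card_wt_one_le {D : Fin l → ℕ} (hD : ∀ i, 0 < D i) (T : ℕ) :
    (wt (fun _ : Fin l => 1) T).card ≤ (∏ i, D i) * (wt D T).card := by
  refine card_le_mul_card_image_of_maps_to (f := fun b i => b i / D i) ?_ _ ?_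
  · intro b hb
    rw [mem_wt fun _ => one_pos] at hb
    rw [mem_wt hD]
    refine le_trans (sum_le_sum fun i _ => ?_) hb
    simpa using Nat.div_mul_le_self (b i) (D i)
  · intro a _
    have : (Fintype.piFinset fun i => range (D i)).card = ∏ i, D i := by simp
    rw [← this]
    refine card_le_card_of_injOn (fun b i => b i % D i) ?_ ?_
    · intro b _
      simp only [mem_coe, Fintype.mem_piFinset, mem_range]
      exact fun i => Nat.mod_lt _ (hD i)
    · intro b hb b' hb' h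
      have e := (mem_filter.1 (mem_coe.1 hb)).2
      have e' := (mem_filter.1 (mem_coe.1 hb')).2
      funext i
      have h1 : b i / D i = b' i / D i := by rw [congrFun e i, congrFun e' i]
      have h2 : b i % D i = b' i % D i := congrFun h i
      rw [← Nat.div_add_mod (b i) (D i), ← Nat.div_add_mod (b' i) (D i), h1, h2]

lemma card_wt_le (D : Fin l → ℕ) (T : ℕ) : (wt D T).card ≤ (T + 1) ^ l := by
  refine (card_filter_le _ _).trans (le_of_eq ?_)
  simp

lemma exists_slow (l : ℕ) {B : ℕ} (hB : 0 < B) :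
    ∃ T, B * (wt (fun _ : Fin l => 1) (T + B)).card < (B + 1) * (wt (fun _ : Fin l => 1) T).card := by
  by_contra hcon
  push Not at hcon
  set S : ℕ → ℕ := fun T => (wt (fun _ : Fin l => 1) T).card with hS
  have hB' : (0 : ℝ) < B := by exact_mod_cast hB
  set r : ℝ := (B + 1) / B with hr
  have hr1 : 1 < r := by rw [hr, lt_div_iff₀ hB']; linarith
  have h1 : ∀ n : ℕ, r ^ n ≤ S (n * B) := by
    intro n
    induction n with
    | zero =>
      have : 0 < S 0 := card_pos.2 ⟨0, by rw [mem_wt fun _ => one_pos]; simp⟩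
      have h : 1 ≤ S 0 := this
      simpa using h
    | succ n ih =>
      have h := hcon (n * B)
      have h' : ((B : ℝ) + 1) * S (n * B) ≤ B * S (n * B + B) := by exact_mod_cast h
      rw [pow_succ, Nat.succ_mul]
      calc r ^ n * r ≤ S (n * B) * r := by gcongr
        _ = ((B : ℝ) + 1) * S (n * B) / B := by rw [hr]; ring
        _ ≤ S (n * B + B) := by rw [div_le_iff₀ hB']; linarith
  have h2 := tendsto_pow_const_div_const_pow_of_one_lt l hr1
  have h3 : ∀ᶠ n : ℕ in atTop, (n : ℝ) ^ l / r ^ n < 1 / ((B : ℝ) + 1) ^ l :=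
    h2.eventually (gt_mem_nhds (by positivity))
  obtain ⟨n, hn, hn1⟩ := (h3.and (eventually_ge_atTop 1)).exists
  have h4 : (S (n * B) : ℝ) ≤ ((n : ℝ) * B + 1) ^ l := by exact_mod_cast card_wt_le _ (n * B)
  have hn1' : (1 : ℝ) ≤ n := by exact_mod_cast hn1
  have h5 : ((n : ℝ) * B + 1) ^ l ≤ (n : ℝ) ^ l * ((B : ℝ) + 1) ^ l := by
    rw [← mul_pow]
    gcongr
    nlinarith
  rw [div_lt_div_iff₀ (by positivity) (by positivity)] at hn
  linarith [h1 n]

/-- An algebraic relation between `F 1, …, F l` and a linear form, of controlled degree. -/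
lemma exists_relation {F : Fin l → (Fin l → ℝ) → ℝ} {D : Fin l → ℕ} (hD : ∀ i, 0 < D i)
    (hF : ∀ i, PF (D i) (F i)) {L : (Fin l → ℝ) → ℝ} (hL : PF 1 L) :
    ∃ P : Fin (∏ i, D i + 1) → MvPolynomial (Fin l) ℝ, (∃ j, P j ≠ 0) ∧
      ∀ x, ∑ j, MvPolynomial.eval (fun i => F i x) (P j) * L x ^ (j : ℕ) = 0 := by
  classical
  set B := ∏ i, D i with hB
  have hBpos : 0 < B := prod_pos fun i _ => hD i
  obtain ⟨T, hT⟩ := exists_slow l hBpos
  have hcard : (wt (fun _ : Fin l => 1) (T + B)).card < (wt D T).card * (B + 1) := by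
    have h := card_wt_one_le hD T
    rw [← hB] at h
    have : B * (wt (fun _ : Fin l => 1) (T + B)).card < B * ((wt D T).card * (B + 1)) := by
      calc _ < _ := hT
        _ ≤ (B + 1) * (B * (wt D T).card) := by gcongr
        _ = _ := by ring
    exact lt_of_mul_lt_mul_left this (Nat.zero_le _)
  have hv : ∀ z : wt D T × Fin (B + 1), ∃ p : MvPolynomial (Fin l) ℝ, p.totalDegree ≤ T + B ∧
      ∀ x, (∏ i, F i x ^ z.1.1 i) * L x ^ (z.2 : ℕ) = MvPolynomial.eval x p := by
    rintro ⟨⟨a, ha⟩, j⟩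
    refine PF.exists_poly (PF.mul' (PF.prod univ fun i _ => (hF i).pow (a i)) (hL.pow j) ?_)
    rw [mem_wt hD] at ha
    have := j.2
    omega
  choose v hv1 hv2 using hv
  let φ : (wt D T × Fin (B + 1) → ℝ) →ₗ[ℝ] (wt (fun _ : Fin l => 1) (T + B) → ℝ) :=
    { toFun := fun c b => ∑ z, c z * MvPolynomial.coeff (Finsupp.equivFunOnFinite.symm b.1) (v z)
      map_add' := fun c c' => by ext b; simp [add_mul, sum_add_distrib]
      map_smul' := fun r c => by ext b; simp [mul_sum, mul_assoc] }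
  have hker : LinearMap.ker φ ≠ ⊥ := LinearMap.ker_ne_bot_of_finrank_lt (by simpa using hcard)
  obtain ⟨c, hc, hc0⟩ := (Submodule.ne_bot_iff _).1 hker
  have hsum : ∑ z, c z • v z = 0 := by
    ext b
    rw [MvPolynomial.coeff_sum, MvPolynomial.coeff_zero]
    simp only [MvPolynomial.coeff_smul, smul_eq_mul]
    by_cases hb : (b : Fin l → ℕ) ∈ wt (fun _ : Fin l => 1) (T + B)
    · have := congrFun (LinearMap.mem_ker.1 hc) ⟨b, hb⟩
      simpa [φ] using this
    · refine sum_eq_zero fun z _ => ?_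
      rw [MvPolynomial.coeff_eq_zero_of_totalDegree_lt, mul_zero]
      rw [mem_wt fun _ => one_pos] at hb
      have e : ∑ i ∈ b.support, b i = ∑ i, b i * 1 := by
        rw [sum_subset (subset_univ _) fun i _ hi => by simpa using hi]
        simp
      rw [e]
      have := hv1 z
      omega
  refine ⟨fun j => ∑ a : wt D T, MvPolynomial.monomial (Finsupp.equivFunOnFinite.symm a.1)
    (c (a, j)), ?_, ?_⟩
  · obtain ⟨⟨a, j⟩, hz⟩ := Function.ne_iff.1 hc0
    refine ⟨j, fun h => hz ?_⟩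
    have := congrArg (MvPolynomial.coeff (Finsupp.equivFunOnFinite.symm a.1)) h
    rw [MvPolynomial.coeff_sum, sum_eq_single a] at this
    · simpa using this
    · intro a' _ ha'
      rw [MvPolynomial.coeff_monomial, if_neg]
      intro h'
      exact ha' (Subtype.ext (Finsupp.equivFunOnFinite.symm.injective h'))
    · simp
  · intro x
    have := congrArg (MvPolynomial.eval x) hsum
    rw [map_sum, map_zero, Fintype.sum_prod_type, sum_comm] at this
    rw [← this]
    refine sum_congr rfl fun j _ => ?_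
    rw [map_sum, sum_mul]
    refine sum_congr rfl fun a _ => ?_
    rw [MvPolynomial.eval_monomial, Finsupp.prod_fintype _ _ (by simp), MvPolynomial.smul_eval,
      ← hv2]
    simp [mul_assoc]

lemma exists_separating (s : Finset (Fin l → ℝ)) :
    ∃ L : (Fin l → ℝ) → ℝ, PF 1 L ∧ Set.InjOn L s := by
  classical
  have hfin : (⋃ z ∈ s.offDiag, {t : ℝ | ∑ i, (z.1 i - z.2 i) * t ^ (i : ℕ) = 0}).Finite := by
    refine Set.Finite.biUnion s.offDiag.finite_toSet fun z hz => ?_
    have hne : z.1 ≠ z.2 := (mem_offDiag.1 hz).2.2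
    let q : Polynomial ℝ := ∑ i : Fin l, Polynomial.monomial i (z.1 i - z.2 i)
    have hq : q ≠ 0 := by
      intro h
      obtain ⟨i, hi⟩ := Function.ne_iff.1 hne
      have := congrArg (fun p => Polynomial.coeff p i) h
      simp only [q, Polynomial.finsetSum_coeff, Polynomial.coeff_monomial,
        Polynomial.coeff_zero] at this
      rw [sum_eq_single i] at this
      · simp at this; exact hi (by linarith)
      · intro j _ hj
        rw [if_neg fun h => hj (Fin.ext h)]
      · simp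
    refine (q.roots.toFinset.finite_toSet).subset fun t ht => ?_
    simp only [mem_coe, Multiset.mem_toFinset, Polynomial.mem_roots hq, Polynomial.IsRoot.def]
    simp only [q, Polynomial.eval_finsetSum, Polynomial.eval_monomial]
    exact ht
  obtain ⟨t, ht⟩ := hfin.exists_notMem
  refine ⟨fun x => ∑ i : Fin l, t ^ (i : ℕ) * x i, PF.sum _ fun i _ => (PF.coord i).cmul _, ?_⟩
  intro x hx y hy h
  by_contra hne
  apply ht
  simp only [Set.mem_iUnion]
  refine ⟨(x, y), mem_offDiag.2 ⟨hx, hy, hne⟩, ?_⟩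
  simp only [Set.mem_ofPred_eq, sub_mul, sum_sub_distrib]
  simp only at h
  rw [sub_eq_zero]
  simpa [mul_comm] using h

lemma exists_eval_ne {p : MvPolynomial (Fin l) ℝ} (hp : p ≠ 0) {y₀ : Fin l → ℝ}
    {V : Set (Fin l → ℝ)} (hV : V ∈ 𝓝 y₀) : ∃ y ∈ V, MvPolynomial.eval y p ≠ 0 := by
  by_contra hcon
  push Not at hcon
  obtain ⟨ε, hε, h⟩ := Metric.mem_nhds_iff.1 hV
  apply hp
  refine MvPolynomial.funext_set (fun i => Set.Ioo (y₀ i - ε) (y₀ i + ε))
    (fun i => Set.Ioo_infinite (by linarith)) fun x hx => ?_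
  rw [map_zero]
  refine hcon x (h ?_)
  rw [ball_pi _ hε]
  intro i hi
  simpa only [Real.ball_eq_Ioo] using hx i hi

/-- Bezout inequality. -/
theorem bezout {F : Fin l → (Fin l → ℝ) → ℝ} {D : Fin l → ℕ} (hD : ∀ i, 0 < D i)
    (hF : ∀ i, PF (D i) (F i)) {y₀ : Fin l → ℝ} (s : Finset (Fin l → ℝ))
    (hs : ∀ x ∈ s, (fun i => F i x) = y₀ ∧
      𝓝 (fun i => F i x) ≤ map (fun x i => F i x) (𝓝 x)) : s.card ≤ ∏ i, D i := by
  classical
  obtain ⟨L, hL, hinj⟩ := exists_separating s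
  obtain ⟨P, ⟨j₀, hj₀⟩, hP⟩ := exists_relation hD hF hL
  have hper := persist (Φ := fun x i => F i x) s hs hL.continuous hinj
    (O := Set.univ) fun _ _ => univ_mem
  obtain ⟨y, ⟨t, ht, ht1, ht2⟩, hy⟩ := exists_eval_ne hj₀ hper
  let q : Polynomial ℝ := ∑ j : Fin (∏ i, D i + 1), Polynomial.monomial j (MvPolynomial.eval y (P j))
  have hq : q ≠ 0 := by
    intro h
    have := congrArg (fun p => Polynomial.coeff p j₀) h
    simp only [q, Polynomial.finsetSum_coeff, Polynomial.coeff_monomial,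
      Polynomial.coeff_zero] at this
    rw [sum_eq_single j₀] at this
    · simp at this; exact hy this
    · intro j _ hj
      rw [if_neg fun h => hj (Fin.ext h)]
    · simp
  have hdeg : q.natDegree ≤ ∏ i, D i := by
    refine Polynomial.natDegree_sum_le_of_forall_le _ _ fun j _ => ?_
    exact (Polynomial.natDegree_monomial_le _).trans (Nat.lt_succ_iff.1 j.2)
  rw [← ht, ← card_image_of_injOn ht2]
  refine (Polynomial.card_le_degree_of_subset_roots fun r hr => ?_).trans hdeg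
  obtain ⟨x, hx, rfl⟩ := mem_image.1 hr
  rw [Polynomial.mem_roots hq, Polynomial.IsRoot.def]
  have := hP x
  rw [(ht1 x hx).1] at this
  simpa [q, Polynomial.eval_finsetSum] using this

end Pool.Agent.Lib.MP_1f4710_co.Upper
end

-- part Pool.Agent.Lib.MP_1f4710_co.UFlow
section

/-!
Following a vector field until it leaves an open set (the Rolle step of Khovanskii's method).
-/

namespace Pool.Agent.Lib.MP_1f4710_co.Upper

open Topology Filter Set Metric
open scoped NNReal

variable {E F : Type*} [NormedAddCommGroup E] [NormedSpace ℝ E] [NormedAddCommGroup F]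
  [NormedSpace ℝ F]

lemma exists_curve [CompleteSpace E] {v : E → E} {Kl L : ℝ≥0} (hv : LipschitzWith Kl v)
    (hL : ∀ x, ‖v x‖ ≤ L) {T : ℝ} (hT : 0 ≤ T) (x : E) :
    ∃ γ : ℝ → E, γ 0 = x ∧ ∀ t ∈ Icc 0 T, HasDerivAt γ (v (γ t)) t := by
  have h0 : (0 : ℝ) ∈ Icc (-1) (T + 1) := ⟨by norm_num, by linarith⟩
  have hPL : IsPicardLindelof (fun _ => v) (⟨0, h0⟩ : Icc (-1 : ℝ) (T + 1)) x
      (L * ⟨T + 1, by linarith⟩) 0 L Kl :=
    { lipschitzOnWith := fun _ _ => hv.lipschitzOnWith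
      continuousOn := fun _ _ => continuousOn_const
      norm_le := fun _ _ y _ => hL y
      mul_max_le := by
        have : max (T + 1 - 0) (0 - (-1 : ℝ)) = T + 1 := by
          rw [max_eq_left (by linarith)]; ring
        change (L : ℝ) * max (T + 1 - 0) (0 - (-1 : ℝ)) ≤ (L : ℝ) * (T + 1) - 0
        rw [this, sub_zero] }
  obtain ⟨γ, hγ0, hγ⟩ := hPL.exists_eq_forall_mem_Icc_hasDerivWithinAt₀
  refine ⟨γ, hγ0, fun t ht => ?_⟩
  exact (hγ t ⟨by linarith [ht.1], by linarith [ht.2]⟩).hasDerivAt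
    (Icc_mem_nhds (by linarith [ht.1]) (by linarith [ht.2]))

lemma growth {v : E → E} {K : Set E} {g : E → ℝ} {g' : E → E →L[ℝ] ℝ} {η : ℝ}
    (hg : ∀ x ∈ K, HasFDerivAt g (g' x) x ∧ η ≤ g' x (v x)) {γ : ℝ → E} {a b : ℝ} (hab : a < b)
    (hγ : ∀ t ∈ Icc a b, HasDerivAt γ (v (γ t)) t ∧ γ t ∈ K) :
    η * (b - a) ≤ g (γ b) - g (γ a) := by
  have hd : ∀ t ∈ Icc a b, HasDerivAt (fun t => g (γ t)) (g' (γ t) (v (γ t))) t := fun t ht =>
    (hg _ (hγ t ht).2).1.comp_hasDerivAt t (hγ t ht).1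
  obtain ⟨c, hc, e⟩ := exists_hasDerivAt_eq_slope (fun t => g (γ t)) (fun t => g' (γ t) (v (γ t)))
    hab (fun t ht => (hd t ht).continuousAt.continuousWithinAt)
    (fun t ht => hd t (Ioo_subset_Icc_self ht))
  have := (hg _ (hγ c (Ioo_subset_Icc_self hc)).2).2
  rw [e, le_div_iff₀ (by linarith)] at this
  exact this

theorem flow_lemma [CompleteSpace E] {v : E → E} {Kl L : ℝ≥0} (hv : LipschitzWith Kl v)
    (hL : ∀ x, ‖v x‖ ≤ L) {O K : Set E} (hO : IsOpen O) (hK : IsClosed K) (hOK : O ⊆ K)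
    {g : E → ℝ} {g' : E → E →L[ℝ] ℝ} {η M : ℝ} (hη : 0 < η)
    (hg : ∀ x ∈ K, HasFDerivAt g (g' x) x ∧ η ≤ g' x (v x)) (hM : ∀ x ∈ K, |g x| ≤ M)
    {P : E → F} {P' : E → E →L[ℝ] F} (hP : ∀ x ∈ K, HasFDerivAt P (P' x) x ∧ P' x (v x) = 0) :
    ∃ e : E → E, ∀ x ∈ O, e x ∈ K ∧ e x ∉ O ∧ P (e x) = P x ∧ g x < g (e x) ∧
      ∀ x' ∈ O, e x = e x' → g x = g x' → x = x' := by
  set T : ℝ := 2 * |M| / η + 1 with hT
  have hTpos : 0 < T := by positivity
  choose γ hγ0 hγ using exists_curve hv hL hTpos.le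
  have key : ∀ x ∈ O, ∃ τ, 0 < τ ∧ τ ≤ T ∧ γ x τ ∉ O ∧ ∀ t ∈ Icc 0 τ, γ x t ∈ K := by
    intro x hx
    have hcont : ContinuousOn (γ x) (Icc 0 T) := fun t ht =>
      (hγ x t ht).continuousAt.continuousWithinAt
    set A := Icc 0 T ∩ γ x ⁻¹' Oᶜ with hA
    have hAc : IsClosed A := hcont.preimage_isClosed_of_isClosed isClosed_Icc hO.isClosed_compl
    have hAn : A.Nonempty := by
      by_contra hne
      have hin : ∀ t ∈ Icc 0 T, γ x t ∈ K := by
        intro t ht
        by_contra h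
        exact hne ⟨t, ht, fun h' => h (hOK h')⟩
      have h1 := growth hg hTpos fun t ht => ⟨hγ x t ht, hin t ht⟩
      have h2 := hM _ (hin 0 ⟨le_rfl, hTpos.le⟩)
      have h3 := hM _ (hin T ⟨hTpos.le, le_rfl⟩)
      have h4 : η * (T - 0) = 2 * |M| + η := by rw [hT]; field_simp; ring
      have := le_abs_self M
      have := abs_le.1 h2
      have := abs_le.1 h3
      linarith
    have hbd : BddBelow A := ⟨0, fun t ht => ht.1.1⟩
    have hτ := hAc.csInf_mem hAn hbd
    have hτ0 : 0 < sInf A := by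
      rcases hτ.1.1.eq_or_lt with h | h
      · exact absurd (by rw [← h, hγ0]; exact hx) hτ.2
      · exact h
    have hlt : ∀ t ∈ Ico 0 (sInf A), γ x t ∈ O := by
      intro t ht
      by_contra h
      exact absurd (csInf_le hbd ⟨⟨ht.1, ht.2.le.trans hτ.1.2⟩, h⟩) (not_le.2 ht.2)
    refine ⟨sInf A, hτ0, hτ.1.2, hτ.2, fun t ht => ?_⟩
    rcases ht.2.eq_or_lt with h | h
    · have hc : ContinuousWithinAt (γ x) (Ico 0 (sInf A)) t :=
        (hγ x t ⟨ht.1, ht.2.trans hτ.1.2⟩).continuousAt.continuousWithinAt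
      have hcl : t ∈ closure (Ico 0 (sInf A)) := by
        rw [closure_Ico hτ0.ne]; exact ht
      have hsub : γ x '' Ico 0 (sInf A) ⊆ K := by
        rintro y ⟨s, hs, rfl⟩
        exact hOK (hlt s hs)
      exact hK.closure_subset_iff.2 hsub (hc.mem_closure_image hcl)
    · exact hOK (hlt t ⟨ht.1, h⟩)
  choose! τ hτ0 hτT hτO hτK using key
  have hinj : ∀ x ∈ O, ∀ x' ∈ O, τ x ≤ τ x' → γ x (τ x) = γ x' (τ x') → g x = g x' → x = x' := by
    intro x hx x' hx' hle he hgg
    set δ := τ x' - τ x with hδ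
    have hd2 : ∀ t ∈ Icc 0 (τ x), HasDerivAt (fun t => γ x' (t + δ)) (v (γ x' (t + δ))) t := by
      intro t ht
      exact (hγ x' (t + δ) ⟨by linarith [ht.1], by linarith [ht.2, hτT x' hx']⟩).comp_add_const t δ
    have hd1 : ∀ t ∈ Icc 0 (τ x), HasDerivAt (γ x) (v (γ x t)) t := fun t ht =>
      hγ x t ⟨ht.1, ht.2.trans (hτT x hx)⟩
    have heq : EqOn (γ x) (fun t => γ x' (t + δ)) (Icc 0 (τ x)) := by
      refine ODE_solution_unique_of_mem_Icc_left (v := fun _ => v) (s := fun _ => univ) (K := Kl)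
        (fun _ _ => hv.lipschitzOnWith)
        (fun t ht => (hd1 t ht).continuousAt.continuousWithinAt)
        (fun t ht => (hd1 t (Ioc_subset_Icc_self ht)).hasDerivWithinAt) (fun _ _ => trivial)
        (fun t ht => (hd2 t ht).continuousAt.continuousWithinAt)
        (fun t ht => (hd2 t (Ioc_subset_Icc_self ht)).hasDerivWithinAt) (fun _ _ => trivial) ?_
      rw [he, hδ]; congr 1; ring
    have h0 : x = γ x' δ := by
      have := heq ⟨le_rfl, (hτ0 x hx).le⟩
      simpa [hγ0] using this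
    rcases (show 0 ≤ δ by linarith).eq_or_lt with h | h
    · rw [h0, ← h, hγ0]
    · exfalso
      have hδle : δ ≤ τ x' := by linarith [hτ0 x hx]
      have h1 := growth hg h fun t ht => ⟨hγ x' t ⟨ht.1, ht.2.trans (hδle.trans (hτT x' hx'))⟩,
        hτK x' hx' t ⟨ht.1, ht.2.trans hδle⟩⟩
      rw [← h0, hγ0, hgg] at h1
      have : 0 < η * (δ - 0) := mul_pos hη (by linarith)
      linarith
  refine ⟨fun x => γ x (τ x), fun x hx => ⟨hτK x hx _ ⟨(hτ0 x hx).le, le_rfl⟩, hτO x hx, ?_, ?_,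
    fun x' hx' he hgg => ?_⟩⟩
  · have hd : ∀ t ∈ Icc 0 (τ x), HasDerivAt (fun t => P (γ x t)) 0 t := by
      intro t ht
      have := (hP _ (hτK x hx t ht)).1.comp_hasDerivAt t (hγ x t ⟨ht.1, ht.2.trans (hτT x hx)⟩)
      rwa [(hP _ (hτK x hx t ht)).2] at this
    have := constant_of_has_deriv_right_zero (f := fun t => P (γ x t))
      (fun t ht => (hd t ht).continuousAt.continuousWithinAt)
      (fun t ht => (hd t (Ico_subset_Icc_self ht)).hasDerivWithinAt) (τ x) ⟨(hτ0 x hx).le, le_rfl⟩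
    simpa [hγ0] using this
  · have h1 := growth hg (hτ0 x hx) fun t ht => ⟨hγ x t ⟨ht.1, ht.2.trans (hτT x hx)⟩,
      hτK x hx t ht⟩
    rw [hγ0] at h1
    have : 0 < η * (τ x - 0) := mul_pos hη (by linarith [hτ0 x hx])
    linarith
  · rcases le_total (τ x) (τ x') with h | h
    · exact hinj x hx x' hx' h he hgg
    · exact (hinj x' hx' x hx h he.symm hgg.symm).symm

end Pool.Agent.Lib.MP_1f4710_co.Upper
end

-- part Pool.Agent.Lib.MP_1f4710_co.UKhov
section

/-!
A Khovanskii Rolle bound on the open simplex.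
-/

namespace Pool.Agent.Lib.MP_1f4710_co.Upper

open Topology Filter Finset
open scoped NNReal

variable {l : ℕ}

/-- The open simplex. -/
def US (l : ℕ) : Set (Fin l → ℝ) := {p | (∀ i, 0 < p i) ∧ ∑ i, p i < 1}

/-- The closed simplex. -/
def UC (l : ℕ) : Set (Fin l → ℝ) := {p | (∀ i, 0 ≤ p i) ∧ ∑ i, p i ≤ 1}

/-- The product of the barycentric coordinates. -/
def beta (p : Fin l → ℝ) : ℝ := (∏ i, p i) * (1 - ∑ i, p i)

lemma isOpen_US : IsOpen (US l) := by
  have : US l = (⋂ i, {p : Fin l → ℝ | 0 < p i}) ∩ {p | ∑ i, p i < 1} := by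
    ext p; simp [US]
  rw [this]
  exact (isOpen_iInter_of_finite fun i => isOpen_lt continuous_const (continuous_apply i)).inter
    (isOpen_lt (by fun_prop) continuous_const)

lemma isClosed_UC : IsClosed (UC l) := by
  have : UC l = (⋂ i, {p : Fin l → ℝ | 0 ≤ p i}) ∩ {p | ∑ i, p i ≤ 1} := by
    ext p; simp [UC]
  rw [this]
  exact (isClosed_iInter fun i => isClosed_le continuous_const (continuous_apply i)).inter
    (isClosed_le (by fun_prop) continuous_const)

lemma UC_subset_cube : UC l ⊆ Set.Icc 0 1 := by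
  intro p hp
  refine ⟨fun i => hp.1 i, fun i => ?_⟩
  exact (single_le_sum (f := p) (fun j _ => hp.1 j) (mem_univ i)).trans hp.2

lemma isCompact_UC : IsCompact (UC l) :=
  isCompact_Icc.of_isClosed_subset isClosed_UC UC_subset_cube

lemma US_subset_UC : US l ⊆ UC l := fun _ hp => ⟨fun i => (hp.1 i).le, hp.2.le⟩

lemma beta_pos {p : Fin l → ℝ} (hp : p ∈ US l) : 0 < beta p :=
  mul_pos (prod_pos fun i _ => hp.1 i) (sub_pos.2 hp.2)

lemma mem_US_of_beta {p : Fin l → ℝ} (hp : p ∈ UC l) (h : beta p ≠ 0) : p ∈ US l := by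
  have h1 := mul_ne_zero_iff.1 h
  refine ⟨fun i => lt_of_le_of_ne (hp.1 i) (prod_ne_zero_iff.1 h1.1 i (mem_univ i)).symm,
    lt_of_le_of_ne hp.2 fun e => h1.2 (by rw [e, sub_self])⟩

lemma pf_last : PF 1 fun p : Fin l → ℝ => 1 - ∑ i, p i :=
  (PF.const' 1).sub (PF.sum _ fun i _ => PF.coord i)

lemma pf_beta : PF (l + 1) (beta : (Fin l → ℝ) → ℝ) := by
  have := (PF.prod (univ : Finset (Fin l)) (Dg := fun _ => 1) fun i _ => PF.coord i).mul pf_last
  simp only [sum_const, card_univ, Fintype.card_fin, smul_eq_mul, mul_one] at this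
  exact this

/-- Functions whose gradient on the open simplex is a positive multiple of a polynomial vector
of degree at most `E`. -/
def GP (E : ℕ) (φ : (Fin l → ℝ) → ℝ) : Prop :=
  ∃ (ρ : (Fin l → ℝ) → ℝ) (G : Fin l → (Fin l → ℝ) → ℝ), ContinuousOn ρ (US l) ∧
    (∀ x ∈ US l, 0 < ρ x) ∧ (∀ n, PF E (G n)) ∧
    ∀ x ∈ US l, HasStrictFDerivAt φ (rowCLM fun n => ρ x * G n x) x

lemma PF.gp {D : ℕ} {φ : (Fin l → ℝ) → ℝ} (h : PF D φ) : GP D φ := by
  obtain ⟨G, hG, e⟩ := h.exists_deriv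
  exact ⟨fun _ => 1, G, continuousOn_const, fun _ _ => one_pos,
    fun n => (hG n).mono (Nat.sub_le _ _), fun x _ => by simpa using e x⟩

/-- Nondegeneracy. -/
def ND (Φ : Fin l → (Fin l → ℝ) → ℝ) (x : Fin l → ℝ) : Prop :=
  ∃ M : Matrix (Fin l) (Fin l) ℝ, M.det ≠ 0 ∧ ∀ i, HasStrictFDerivAt (Φ i) (rowCLM (M i)) x

/-- Every fibre has at most `B` nondegenerate points in the open simplex. -/
def Bd (Φ : Fin l → (Fin l → ℝ) → ℝ) (B : ℕ) : Prop :=
  ∀ (y : Fin l → ℝ) (s : Finset (Fin l → ℝ)),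
    (∀ x ∈ s, x ∈ US l ∧ (fun i => Φ i x) = y ∧ ND Φ x) → s.card ≤ B

lemma ND.nhds_le {Φ : Fin l → (Fin l → ℝ) → ℝ} {x : Fin l → ℝ} (h : ND Φ x) :
    𝓝 (fun i => Φ i x) ≤ map (fun x i => Φ i x) (𝓝 x) := by
  obtain ⟨M, hM, h⟩ := h
  exact nhds_le_map (Φ := fun x i => Φ i x) (hasStrictFDerivAt_mat h) hM

lemma sard {Φ : Fin l → (Fin l → ℝ) → ℝ} {E : Fin l → ℕ} (h : ∀ i, GP (E i) (Φ i))
    {V : Set (Fin l → ℝ)} {y₀ : Fin l → ℝ} (hV : V ∈ 𝓝 y₀) :
    ∃ z ∈ V, ∀ x ∈ US l, (fun i => Φ i x) = z → ND Φ x := by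
  choose ρ G _ _ _ hd using h
  let M : (Fin l → ℝ) → Matrix (Fin l) (Fin l) ℝ := fun x => Matrix.of fun i n => ρ i x * G i n x
  have h0 : MeasureTheory.volume ((fun x i => Φ i x) '' {x | x ∈ US l ∧ (M x).det = 0}) = 0 :=
    MeasureTheory.addHaar_image_eq_zero_of_det_fderivWithin_eq_zero MeasureTheory.volume
      (f' := fun x => matCLM (M x))
      (fun x hx => (hasStrictFDerivAt_mat (M := M x)
        fun i => hd i x hx.1).hasFDerivAt.hasFDerivWithinAt)
      (fun x hx => by rw [matCLM_det]; exact hx.2)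
  have hpos := MeasureTheory.Measure.measure_pos_of_mem_nhds MeasureTheory.volume hV
  have : ¬ V ⊆ (fun x i => Φ i x) '' {x | x ∈ US l ∧ (M x).det = 0} := fun hsub =>
    hpos.ne' (MeasureTheory.measure_mono_null hsub h0)
  obtain ⟨z, hz, hz'⟩ := Set.not_subset.1 this
  exact ⟨z, hz, fun x hx e => ⟨M x, fun hM => hz' ⟨x, ⟨hx, hM⟩, e⟩, fun i => hd i x hx⟩⟩

lemma rowCLM_inj {v w : Fin l → ℝ} (h : rowCLM v = rowCLM w) : v = w := by
  classical
  funext n
  have := congrArg (fun A : (Fin l → ℝ) →L[ℝ] ℝ => A (Pi.single n 1)) h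
  simpa [Pi.single_apply] using this

lemma exists_extension {ξ : (Fin l → ℝ) → (Fin l → ℝ)} (hξ : ContDiff ℝ 1 ξ) :
    ∃ (v : (Fin l → ℝ) → (Fin l → ℝ)) (Kl L : ℝ≥0), LipschitzWith Kl v ∧ (∀ x, ‖v x‖ ≤ L) ∧
      ∀ x ∈ UC l, v x = ξ x := by
  let π : (Fin l → ℝ) → (Fin l → ℝ) := fun x i => max 0 (min 1 (x i))
  have hπ : LipschitzWith 1 π := by
    refine LipschitzWith.of_dist_le_mul fun x y => ?_
    rw [NNReal.coe_one, one_mul, dist_pi_le_iff dist_nonneg]
    intro i
    refine le_trans ?_ (dist_le_pi_dist x y i)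
    simpa using ((LipschitzWith.id.const_min (1 : ℝ)).const_max (0 : ℝ)).dist_le_mul (x i) (y i)
  have hπm : ∀ x, π x ∈ Set.Icc (0 : Fin l → ℝ) 1 := fun x =>
    ⟨fun i => le_max_left _ _, fun i => max_le zero_le_one (min_le_left _ _)⟩
  obtain ⟨Kl, hK⟩ := (hξ.locallyLipschitz.locallyLipschitzOn
    (s := Set.Icc (0 : Fin l → ℝ) 1)).exists_lipschitzOnWith_of_compact isCompact_Icc
  obtain ⟨C, hC⟩ := (isCompact_Icc (a := (0 : Fin l → ℝ)) (b := 1)).exists_bound_of_continuousOn
    hξ.continuous.continuousOn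
  refine ⟨ξ ∘ π, Kl * 1, ⟨max C 0, le_max_right _ _⟩, ?_,
    fun x => (hC _ (hπm x)).trans (le_max_left _ _), fun x hx => ?_⟩
  · rw [← lipschitzOnWith_univ]
    exact hK.comp hπ.lipschitzOnWith fun x _ => hπm x
  · have : π x = x := by
      funext i
      have h := UC_subset_cube hx
      have h1 : x i ≤ 1 := h.2 i
      have h0 : 0 ≤ x i := h.1 i
      simp only [π]
      rw [min_eq_right h1, max_eq_right h0]
    simp [this]

theorem step {Φ : Fin l → (Fin l → ℝ) → ℝ} {E : Fin l → ℕ} (h : ∀ i, GP (E i) (Φ i)) (m : Fin l)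
    {B : ℕ} (hB : ∀ W, PF (∑ i, E i + (l + 1)) W → Bd (Function.update Φ m W) B) : Bd Φ B := by
  classical
  have h' := h
  choose ρ G hρc hρ hG hd using h'
  let Gm : (Fin l → ℝ) → Matrix (Fin l) (Fin l) ℝ := fun x => Matrix.of fun i n => G i n x
  have hJ : PF (∑ i, E i) fun x => (Gm x).det := PF.det fun i n => hG i n
  have hadj : ∀ n, ContDiff ℝ 1 fun x => (Gm x).adjugate n m := by
    intro n
    simp only [Matrix.adjugate_apply]
    refine PF.contDiff (PF.det (Dg := E) fun i j => ?_)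
    by_cases hi : i = m
    · subst hi
      simpa using PF.const' _
    · simpa [Matrix.updateRow_ne hi, Gm] using hG i j
  have hmul : ∀ x i, ∑ n, G i n x * (Gm x).adjugate n m = if i = m then (Gm x).det else 0 := by
    intro x i
    have := congrFun (congrFun (Matrix.mul_adjugate (Gm x)) i) m
    rw [Matrix.mul_apply] at this
    simpa [Gm, Matrix.one_apply] using this
  have claim : ∀ σ : ℝ, ∀ (y₀ : Fin l → ℝ) (s : Finset (Fin l → ℝ)),
      (∀ x ∈ s, x ∈ US l ∧ (fun i => Φ i x) = y₀ ∧ ND Φ x ∧ 0 < σ * (Gm x).det) →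
      2 * s.card ≤ B := by
    intro σ y₀ s hs
    set W : (Fin l → ℝ) → ℝ := fun x => σ * (Gm x).det * beta x with hW
    have hWpf : PF (∑ i, E i + (l + 1)) W := (hJ.cmul σ).mul pf_beta
    obtain ⟨s₀, hs₀, hs₀'⟩ : ∃ s₀, 0 < s₀ ∧ ∀ x ∈ s, s₀ < W x := by
      obtain ⟨a, ha, ha'⟩ := s.finite_toSet.isCompact.exists_forall_le'
        hWpf.continuous.continuousOn (a := 0)
        fun x hx => mul_pos (hs x hx).2.2.2 (beta_pos (hs x hx).1)
      exact ⟨a / 2, by linarith, fun x hx => by linarith [ha' x hx]⟩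
    have hopen : ∀ c : ℝ, IsOpen (US l ∩ {x | c < W x}) := fun c =>
      isOpen_US.inter (isOpen_lt continuous_const hWpf.continuous)
    have hper := persist (Φ := fun x i => Φ i x) (y₀ := y₀) s
      (fun x hx => ⟨(hs x hx).2.1, (hs x hx).2.2.1.nhds_le⟩) continuous_id (Set.injOn_id _)
      (O := US l ∩ {x | s₀ < W x}) fun x hx => (hopen s₀).mem_nhds ⟨(hs x hx).1, hs₀' x hx⟩
    have hgp : ∀ i, GP (Function.update E m (∑ i, E i + (l + 1)) i) (Function.update Φ m W i) := by
      intro i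
      by_cases hi : i = m
      · subst hi; simpa using hWpf.gp
      · simpa [Function.update_of_ne hi] using h i
    have hc1 : Continuous fun z : Fin l → ℝ => Function.update z m (y₀ m) :=
      continuous_id.update m continuous_const
    have hV1 := hc1.continuousAt (x := Function.update y₀ m (s₀ / 2))
    have hV2 : (fun z : Fin l → ℝ => z m) ⁻¹' Set.Ioo 0 s₀ ∈ 𝓝 (Function.update y₀ m (s₀ / 2)) :=
      (continuous_apply m).continuousAt.preimage_mem_nhds
        (Ioo_mem_nhds (by simp; linarith) (by simp; linarith))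
    rw [ContinuousAt, Function.update_idem, Function.update_eq_self] at hV1
    obtain ⟨z, ⟨⟨t, ht, ht1, -⟩, hz⟩, hzND⟩ := sard hgp (inter_mem (hV1 hper) hV2)
    set c := z m with hc
    have hc0 : 0 < c := hz.1
    have hcs : c < s₀ := hz.2
    set K : Set (Fin l → ℝ) := UC l ∩ {x | c ≤ W x} with hK
    have hKc : IsClosed K := isClosed_UC.inter (isClosed_le continuous_const hWpf.continuous)
    have hKcomp : IsCompact K := isCompact_UC.of_isClosed_subset hKc Set.inter_subset_left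
    have hKU : K ⊆ US l := by
      intro x hx
      refine mem_US_of_beta hx.1 fun h0 => ?_
      have : c ≤ W x := hx.2
      simp only [hW, h0, mul_zero] at this
      linarith
    have hOK : US l ∩ {x | c < W x} ⊆ K := fun x hx =>
      ⟨US_subset_UC hx.1, show c ≤ W x from le_of_lt hx.2⟩
    obtain ⟨v, Kl, L, hv, hL, hvξ⟩ := exists_extension (ξ := fun x n => σ * (Gm x).adjugate n m)
      (contDiff_pi.2 fun n => contDiff_const.mul (hadj n))
    have hrow : ∀ x ∈ K, ∀ i, rowCLM (fun n => ρ i x * G i n x) (v x) =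
        if i = m then ρ i x * (σ * (Gm x).det) else 0 := by
      intro x hx i
      rw [hvξ x hx.1, rowCLM_apply]
      have : ∑ n, ρ i x * G i n x * (σ * (Gm x).adjugate n m) =
          ρ i x * σ * ∑ n, G i n x * (Gm x).adjugate n m := by
        rw [mul_sum]; exact sum_congr rfl fun n _ => by ring
      rw [this, hmul]
      split_ifs <;> ring
    obtain ⟨η, hη, hη'⟩ := hKcomp.exists_forall_le' (f := fun x => ρ m x * (σ * (Gm x).det))
      (((hρc m).mono hKU).mul (hJ.cmul σ).continuous.continuousOn) (a := 0) fun x hx => by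
        refine mul_pos (hρ m x (hKU hx)) ?_
        have h1 : c ≤ σ * (Gm x).det * beta x := hx.2
        exact (mul_pos_iff_of_pos_right (beta_pos (hKU hx))).1 (lt_of_lt_of_le hc0 h1)
    obtain ⟨Mg, hMg⟩ := hKcomp.exists_bound_of_continuousOn (f := Φ m)
      fun x hx => (hd m x (hKU hx)).continuousAt.continuousWithinAt
    let P : (Fin l → ℝ) → (Fin l → ℝ) := fun x i => if i = m then 0 else Φ i x
    let P' : (Fin l → ℝ) → (Fin l → ℝ) →L[ℝ] (Fin l → ℝ) := fun x =>
      matCLM (Matrix.of fun i n => if i = m then 0 else ρ i x * G i n x)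
    have hP : ∀ x ∈ K, HasFDerivAt P (P' x) x ∧ P' x (v x) = 0 := by
      intro x hx
      constructor
      · refine (hasStrictFDerivAt_mat (Φ := fun i x => if i = m then 0 else Φ i x)
          fun i => ?_).hasFDerivAt
        by_cases hi : i = m
        · simp only [hi, if_true]
          exact sd_congr (hasStrictFDerivAt_const 0 x) fun w => by simp
        · simp only [hi, if_false]
          exact sd_congr (hd i x (hKU hx)) fun w => by simp [hi]
      · funext i
        by_cases hi : i = m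
        · simp [P', matCLM, Matrix.mulVec, dotProduct, hi]
        · have := hrow x hx i
          rw [if_neg hi, rowCLM_apply] at this
          simpa [P', matCLM, Matrix.mulVec, dotProduct, hi] using this
    obtain ⟨e₁, he₁⟩ := flow_lemma hv hL (hopen c) hKc hOK (g := Φ m)
      (g' := fun x => rowCLM fun n => ρ m x * G m n x) hη
      (fun x hx => ⟨(hd m x (hKU hx)).hasFDerivAt, by rw [hrow x hx, if_pos rfl]; exact hη' x hx⟩)
      (M := Mg) (fun x hx => hMg x hx) hP
    obtain ⟨e₂, he₂⟩ := flow_lemma (v := fun x => -v x) hv.neg (fun x => by simpa using hL x)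
      (hopen c) hKc hOK (g := fun x => -Φ m x)
      (g' := fun x => -rowCLM fun n => ρ m x * G m n x) hη
      (fun x hx => ⟨(hd m x (hKU hx)).hasFDerivAt.neg, by
        rw [neg_apply, map_neg, neg_neg, hrow x hx, if_pos rfl]
        exact hη' x hx⟩)
      (M := Mg) (fun x hx => by simpa using hMg x hx) (P := P) (P' := P')
      (fun x hx => ⟨(hP x hx).1, by rw [map_neg, (hP x hx).2, neg_zero]⟩)
    have htO : ∀ x ∈ t, x ∈ US l ∩ {x | c < W x} := fun x hx =>
      ⟨(ht1 x hx).2.1, hcs.trans (ht1 x hx).2.2⟩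
    have htm : ∀ x ∈ t, Φ m x = y₀ m := fun x hx => by
      simpa using congrFun (ht1 x hx).1 m
    have hsol : ∀ x ∈ t, ∀ q, q ∈ K → q ∉ US l ∩ {x | c < W x} → P q = P x →
        q ∈ US l ∧ (fun i => Function.update Φ m W i q) = z ∧ ND (Function.update Φ m W) q := by
      intro x hx q hq hq' hPq
      have e : (fun i => Function.update Φ m W i q) = z := by
        funext i
        by_cases hi : i = m
        · subst hi
          rw [Function.update_self]
          refine le_antisymm (not_lt.1 fun h => hq' ⟨hKU hq, h⟩) hq.2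
        · have h1 := congrFun hPq i
          have h2 := congrFun (ht1 x hx).1 i
          simp only [P, hi, if_false] at h1
          simp only [Function.update_of_ne hi] at h2 ⊢
          rw [h1, h2]
      exact ⟨hKU hq, e, hzND q (hKU hq) e⟩
    have hcard : (t.image e₁ ∪ t.image e₂).card = 2 * s.card := by
      rw [card_union_of_disjoint, card_image_of_injOn, card_image_of_injOn, ht, two_mul]
      · intro x hx x' hx' e
        exact (he₂ x (htO x hx)).2.2.2.2 x' (htO x' hx') e (by rw [htm x hx, htm x' hx'])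
      · intro x hx x' hx' e
        exact (he₁ x (htO x hx)).2.2.2.2 x' (htO x' hx') e (by rw [htm x hx, htm x' hx'])
      · refine disjoint_left.2 fun q h1 h2 => ?_
        obtain ⟨x, hx, rfl⟩ := mem_image.1 h1
        obtain ⟨x', hx', e⟩ := mem_image.1 h2
        have a1 := (he₁ x (htO x hx)).2.2.2.1
        have a2 := (he₂ x' (htO x' hx')).2.2.2.1
        rw [e, htm x' hx'] at a2
        rw [htm x hx] at a1
        linarith
    rw [← hcard]
    refine hB W hWpf z _ fun q hq => ?_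
    rcases mem_union.1 hq with hq | hq
    · obtain ⟨x, hx, rfl⟩ := mem_image.1 hq
      obtain ⟨a, b, c, -⟩ := he₁ x (htO x hx)
      exact hsol x hx _ a b c
    · obtain ⟨x, hx, rfl⟩ := mem_image.1 hq
      obtain ⟨a, b, c, -⟩ := he₂ x (htO x hx)
      exact hsol x hx _ a b c
  intro y s hs
  have hne : ∀ x ∈ s, (Gm x).det ≠ 0 := by
    intro x hx h0
    obtain ⟨M, hM, hM'⟩ := (hs x hx).2.2
    apply hM
    have : M = Matrix.of fun i n => ρ i x * Gm x i n := by
      ext i n
      exact congrFun (rowCLM_inj ((hM' i).hasFDerivAt.unique (hd i x (hs x hx).1).hasFDerivAt)) n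
    rw [this, Matrix.det_mul_column, h0, mul_zero]
  have h1 := claim 1 y (s.filter fun x => 0 < (Gm x).det) fun x hx => by
    obtain ⟨hx, hp⟩ := mem_filter.1 hx
    exact ⟨(hs x hx).1, (hs x hx).2.1, (hs x hx).2.2, by simpa using hp⟩
  have h2 := claim (-1) y (s.filter fun x => ¬ 0 < (Gm x).det) fun x hx => by
    obtain ⟨hx, hp⟩ := mem_filter.1 hx
    refine ⟨(hs x hx).1, (hs x hx).2.1, (hs x hx).2.2, ?_⟩
    have := lt_of_le_of_ne (not_lt.1 hp) (hne x hx)
    linarith
  have h3 := card_filter_add_card_filter_not (s := s) fun x => 0 < (Gm x).det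
  omega

lemma sum_two_pow_lt (l m : ℕ) (X : ℕ) :
    ∑ i : Fin l, (if (i : ℕ) < m then 2 ^ (i : ℕ) * X else 0) + X ≤ 2 ^ m * X := by
  have h1 : ∑ i : Fin l, (if (i : ℕ) < m then 2 ^ (i : ℕ) * X else 0) ≤
      ∑ i ∈ range m, 2 ^ i * X := by
    rw [Fin.sum_univ_eq_sum_range (fun i => if i < m then 2 ^ i * X else 0) l, ← sum_filter]
    exact sum_le_sum_of_subset fun i hi => mem_range.2 (mem_filter.1 hi).2
  have h2 : ∀ m, ∑ i ∈ range m, 2 ^ i * X + X = 2 ^ m * X := by
    intro m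
    induction m with
    | zero => simp
    | succ m ih => rw [sum_range_succ, pow_succ]; linarith
  linarith [h2 m]

theorem khovanskii_aux {E X : ℕ} (hX : l * E + (l + 1) ≤ X) (j : ℕ) :
    ∀ m, m + j = l → ∀ Φ : Fin l → (Fin l → ℝ) → ℝ,
      (∀ i : Fin l, (i : ℕ) < m → PF (2 ^ (i : ℕ) * X) (Φ i)) →
      (∀ i : Fin l, m ≤ (i : ℕ) → GP E (Φ i)) → Bd Φ (∏ i : Fin l, 2 ^ (i : ℕ) * X) := by
  classical
  induction j with
  | zero =>
    intro m hm Φ h1 _ y s hs
    exact bezout (fun i => by positivity [show 0 < X by omega])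
      (fun i => h1 i (by have := i.2; omega)) s fun x hx => ⟨(hs x hx).2.1, (hs x hx).2.2.nhds_le⟩
  | succ j ih =>
    intro m hm Φ h1 h2
    have hml : m < l := by omega
    refine step (E := fun i => if (i : ℕ) < m then 2 ^ (i : ℕ) * X else E) (fun i => ?_)
      ⟨m, hml⟩ fun W hW => ih (m + 1) (by omega) _ (fun i hi => ?_) (fun i hi => ?_)
    · split_ifs with hi
      · exact (h1 i hi).gp
      · exact h2 i (not_lt.1 hi)
    · by_cases e : i = ⟨m, hml⟩
      · subst e
        rw [Function.update_self]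
        refine hW.mono ?_
        have a1 : ∑ i : Fin l, (if (i : ℕ) < m then 2 ^ (i : ℕ) * X else E) ≤
            ∑ i : Fin l, ((if (i : ℕ) < m then 2 ^ (i : ℕ) * X else 0) + E) :=
          sum_le_sum fun i _ => by split_ifs <;> omega
        rw [sum_add_distrib] at a1
        have a2 := sum_two_pow_lt l m X
        simp only [sum_const, card_univ, Fintype.card_fin, smul_eq_mul] at a1
        simp only
        omega
      · rw [Function.update_of_ne e]
        refine h1 i (lt_of_le_of_ne (by omega) fun h => e (Fin.ext h))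
    · have e : i ≠ ⟨m, hml⟩ := fun h => by rw [h] at hi; simp at hi
      rw [Function.update_of_ne e]
      exact h2 i (by omega)

theorem khovanskii {E : ℕ} {Φ : Fin l → (Fin l → ℝ) → ℝ} (h : ∀ i, GP E (Φ i)) :
    Bd Φ (2 ^ l.choose 2 * (l * E + (l + 1)) ^ l) := by
  have := khovanskii_aux (E := E) le_rfl l 0 (zero_add l) Φ (fun i hi => absurd hi (by omega))
    fun i _ => h i
  rwa [prod_mul_distrib, prod_pow_eq_pow_sum, prod_const, card_univ, Fintype.card_fin,
    Fin.sum_univ_eq_sum_range (fun i => i) l, sum_range_id, ← Nat.choose_two_right] at this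

end Pool.Agent.Lib.MP_1f4710_co.Upper
end

-- part Pool.Agent.Lib.MP_1f4710_co.UGauss
section

/-!
Reduction of the critical point equations of a Gaussian mixture to the ridgeline simplex.
-/

namespace Pool.Agent.Lib.MP_1f4710_co.Upper

open Topology Filter Finset Matrix

lemma persist_max {Z E : Type*} [TopologicalSpace Z] [NormedAddCommGroup E] [ProperSpace E]
    {F : Z → E → ℝ} (hF : Continuous fun z : Z × E => F z.1 z.2) {z₀ : Z} (s : Finset E)
    (hs : ∀ x ∈ s, ∀ᶠ y in 𝓝[≠] x, F z₀ y < F z₀ x) :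
    ∀ᶠ z in 𝓝 z₀, ∃ t : Finset E, t.card = s.card ∧ ∀ x ∈ t, IsLocalMax (F z) x := by
  classical
  obtain ⟨U, hU, hdisj⟩ := s.finite_toSet.t2_separation
  have h1 : ∀ᶠ z in 𝓝 z₀, ∀ x ∈ s, ∃ x' ∈ U x, IsLocalMax (F z) x' := by
    rw [Filter.eventually_all_finset]
    intro x hx
    have h2 := (eventually_nhdsWithin_iff.1 (hs x hx)).and ((hU x).2.mem_nhds (hU x).1)
    obtain ⟨r, hr, hball⟩ := Metric.nhds_basis_closedBall.eventually_iff.1 h2
    have h3 : ∀ᶠ z in 𝓝 z₀, ∀ y ∈ Metric.sphere x r, F z y < F z x := by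
      refine (isCompact_sphere x r).eventually_forall_of_forall_eventually fun y hy => ?_
      have hyx : y ≠ x := by
        rintro rfl
        simp at hy
        exact hr.ne' hy.symm
      have hlt := (hball (Metric.sphere_subset_closedBall hy)).1 hyx
      have hc : Continuous fun z : Z × E => F z.1 x :=
        hF.comp (continuous_fst.prodMk continuous_const)
      exact hF.continuousAt.eventually_lt hc.continuousAt hlt
    filter_upwards [h3] with z hz
    have hc : Continuous (F z) := hF.comp (continuous_const.prodMk continuous_id)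
    obtain ⟨x', hx', hmax⟩ := (isCompact_closedBall x r).exists_isMaxOn
      ⟨x, Metric.mem_closedBall_self hr.le⟩ hc.continuousOn
    refine ⟨x', (hball hx').2, hmax.isLocalMax ?_⟩
    have hlt : dist x' x < r := by
      refine lt_of_le_of_ne hx' fun e => ?_
      exact absurd (hmax (Metric.mem_closedBall_self hr.le)) (not_le.2 (hz x' e))
    exact mem_of_superset (Metric.isOpen_ball.mem_nhds hlt) Metric.ball_subset_closedBall
  filter_upwards [h1] with z hz
  choose! e he using hz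
  refine ⟨s.image e, card_image_of_injOn fun x hx x' hx' h => ?_, fun x' hx' => ?_⟩
  · by_contra hne
    exact Set.disjoint_left.1 (hdisj hx hx' hne) (he x hx).1 (h ▸ (he x' hx').1)
  · obtain ⟨x, hx, rfl⟩ := mem_image.1 hx'
    exact (he x hx).2

variable {d l : ℕ}

/-- The exponent of a Gaussian with precision matrix `A`. -/
noncomputable def qf (A : Matrix (Fin d) (Fin d) ℝ) (μ x : Fin d → ℝ) : ℝ :=
  -(1 / 2) * ((x - μ) ⬝ᵥ (A *ᵥ (x - μ)))

lemma continuous_qf (A : Matrix (Fin d) (Fin d) ℝ) (μ : Fin d → ℝ) : Continuous (qf A μ) := by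
  unfold qf
  simp only [dotProduct, mulVec]
  fun_prop

lemma hasDerivAt_qf {A : Matrix (Fin d) (Fin d) ℝ} (hA : A.IsHermitian) (μ x v : Fin d → ℝ) :
    HasDerivAt (fun t : ℝ => qf A μ (x + t • v)) (-(v ⬝ᵥ (A *ᵥ (x - μ)))) 0 := by
  have hs : (x - μ) ⬝ᵥ (A *ᵥ v) = v ⬝ᵥ (A *ᵥ (x - μ)) := by
    have hT : Aᵀ = A := by simpa using hA.eq
    rw [dotProduct_mulVec, dotProduct_comm, ← mulVec_transpose, hT]
  have e : (fun t : ℝ => qf A μ (x + t • v)) = fun t => qf A μ x - t * (v ⬝ᵥ (A *ᵥ (x - μ))) -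
      t ^ 2 * ((1 / 2) * (v ⬝ᵥ (A *ᵥ v))) := by
    funext t
    have : x + t • v - μ = (x - μ) + t • v := by abel
    simp only [qf, this, mulVec_add, mulVec_smul, add_dotProduct, dotProduct_add,
      smul_dotProduct, dotProduct_smul, smul_eq_mul, hs]
    ring
  rw [e]
  have h := ((hasDerivAt_const (0 : ℝ) (qf A μ x)).fun_sub
    ((hasDerivAt_id' (0 : ℝ)).mul_const (v ⬝ᵥ (A *ᵥ (x - μ))))).fun_sub
    ((hasDerivAt_pow 2 (0 : ℝ)).mul_const ((1 / 2) * (v ⬝ᵥ (A *ᵥ v))))
  simpa using h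

lemma crit_eq {k : ℕ} {A : Fin k → Matrix (Fin d) (Fin d) ℝ} (hA : ∀ i, (A i).IsHermitian)
    (μ : Fin k → Fin d → ℝ) (c : Fin k → ℝ) {x : Fin d → ℝ}
    (h : IsLocalMax (fun x => ∑ i, Real.exp (c i + qf (A i) (μ i) x)) x) :
    ∑ i, Real.exp (c i + qf (A i) (μ i) x) • (A i *ᵥ (x - μ i)) = 0 := by
  set u := ∑ i, Real.exp (c i + qf (A i) (μ i) x) • (A i *ᵥ (x - μ i)) with hu
  have h1 : IsLocalMax (fun t : ℝ => ∑ i, Real.exp (c i + qf (A i) (μ i) (x + t • u))) 0 := by
    have h' : IsLocalMax (fun x => ∑ i, Real.exp (c i + qf (A i) (μ i) x))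
        ((fun t : ℝ => x + t • u) 0) := by simpa using h
    exact h'.comp_continuous (g := fun t : ℝ => x + t • u) (by fun_prop)
  have h2 : HasDerivAt (fun t : ℝ => ∑ i, Real.exp (c i + qf (A i) (μ i) (x + t • u)))
      (∑ i, Real.exp (c i + qf (A i) (μ i) (x + (0 : ℝ) • u)) *
        -(u ⬝ᵥ (A i *ᵥ (x - μ i)))) 0 :=
    HasDerivAt.fun_sum fun i _ => ((hasDerivAt_qf (hA i) (μ i) x u).const_add (c i)).exp
  have h3 := h1.hasDerivAt_eq_zero h2
  have h4 : u ⬝ᵥ u = 0 := by
    nth_rewrite 2 [hu]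
    rw [dotProduct_sum]
    simp only [dotProduct_smul, smul_eq_mul]
    simp only [zero_smul, add_zero, mul_neg, sum_neg_distrib, neg_eq_zero] at h3
    exact h3
  exact dotProduct_self_eq_zero.1 h4

/-- Barycentric coordinates. -/
def bary (p : Fin l → ℝ) : Fin (l + 1) → ℝ := Fin.cons (1 - ∑ i, p i) p

lemma pf_bary (i : Fin (l + 1)) : PF 1 fun p : Fin l → ℝ => bary p i := by
  refine Fin.cases ?_ (fun j => ?_) i
  · simpa [bary] using pf_last
  · simpa [bary] using PF.coord j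

lemma bary_pos {p : Fin l → ℝ} (hp : p ∈ US l) (i : Fin (l + 1)) : 0 < bary p i := by
  refine Fin.cases ?_ (fun j => ?_) i
  · simpa [bary] using hp.2
  · simpa [bary] using hp.1 j

variable (A : Fin (l + 1) → Matrix (Fin d) (Fin d) ℝ) (μ : Fin (l + 1) → Fin d → ℝ)

/-- The averaged precision matrix. -/
def Am (p : Fin l → ℝ) : Matrix (Fin d) (Fin d) ℝ := ∑ i, bary p i • A i

/-- The averaged precision-weighted mean. -/
def bv (p : Fin l → ℝ) : Fin d → ℝ := ∑ i, bary p i • (A i *ᵥ μ i)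

/-- Numerator of the `i`-th exponent along the ridgeline. -/
noncomputable def rr (i : Fin (l + 1)) (p : Fin l → ℝ) : ℝ :=
  -(1 / 2) * ((cramer (Am A p) (bv A μ p) - (Am A p).det • μ i) ⬝ᵥ
    (A i *ᵥ (cramer (Am A p) (bv A μ p) - (Am A p).det • μ i)))

/-- The ridgeline system. -/
noncomputable def Psi (i : Fin l) (p : Fin l → ℝ) : ℝ :=
  Real.log (p i) - Real.log (1 - ∑ j, p j) -
    (rr A μ i.succ p - rr A μ 0 p) * ((Am A p).det ^ 2)⁻¹

lemma pf_Am (a b : Fin d) : PF 1 fun p : Fin l → ℝ => Am A p a b := by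
  refine (PF.sum univ fun i _ => (pf_bary i).cmul (A i a b)).congr fun p => ?_
  simp [Am, Matrix.sum_apply, mul_comm]

lemma pf_bv (a : Fin d) : PF 1 fun p : Fin l → ℝ => bv A μ p a := by
  refine (PF.sum univ fun i _ => (pf_bary i).cmul ((A i *ᵥ μ i) a)).congr fun p => ?_
  simp [bv, Finset.sum_apply, mul_comm]

lemma pf_det : PF d fun p : Fin l → ℝ => (Am A p).det := by
  simpa using PF.det (Dg := fun _ => 1) (pf_Am A)

lemma pf_cramer (a : Fin d) : PF d fun p : Fin l → ℝ => cramer (Am A p) (bv A μ p) a := by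
  have : PF (∑ _i : Fin d, 1) fun p : Fin l → ℝ => ((Am A p).updateCol a (bv A μ p)).det := by
    refine PF.det fun i j => ?_
    by_cases h : j = a
    · simpa [h] using pf_bv A μ i
    · simpa [updateCol_ne h] using pf_Am A i j
  simpa [cramer_apply] using this

lemma pf_rr (i : Fin (l + 1)) : PF (d + d) (rr A μ i) := by
  have h : ∀ a, PF d fun p : Fin l → ℝ =>
      cramer (Am A p) (bv A μ p) a - μ i a * (Am A p).det :=
    fun a => (pf_cramer A μ a).sub ((pf_det A).cmul _)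
  refine ((PF.sum univ fun a _ => (h a).mul
    (PF.sum univ fun b _ => (h b).cmul (A i a b))).cmul (-(1 / 2))).congr fun p => ?_
  simp [rr, dotProduct, mulVec, mul_comm]

variable {A}

lemma posDef_Am (hA : ∀ i, (A i).PosDef) {p : Fin l → ℝ} (hp : p ∈ US l) : (Am A p).PosDef := by
  refine PosDef.of_dotProduct_mulVec_pos ?_ fun x hx => ?_
  · unfold Am
    rw [IsHermitian, conjTranspose_sum]
    refine sum_congr rfl fun i _ => ?_
    rw [conjTranspose_smul, (hA i).isHermitian.eq]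
    simp
  · unfold Am
    rw [sum_mulVec, dotProduct_sum]
    refine sum_pos (fun i _ => ?_) univ_nonempty
    rw [smul_mulVec, dotProduct_smul, smul_eq_mul]
    exact mul_pos (bary_pos hp i) ((hA i).dotProduct_mulVec_pos hx)

lemma gp_Psi (hA : ∀ i, (A i).PosDef) (hd : 1 ≤ d) (i : Fin l) : GP (3 * d + 1) (Psi A μ i) := by
  classical
  have hR := (pf_rr A μ i.succ).sub (pf_rr A μ 0)
  have hΔ := pf_det A
  obtain ⟨R', hR', dR⟩ := hR.exists_deriv
  obtain ⟨Δ', hΔ', dΔ⟩ := hΔ.exists_deriv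
  have hpos : ∀ p ∈ US l, 0 < (Am A p).det := fun p hp => (posDef_Am hA hp).det_pos
  have h3 := hΔ.pow 3
  refine ⟨fun p => (p i * (1 - ∑ j, p j) * (Am A p).det ^ 3)⁻¹,
    fun n p => (if n = i then 1 else 0) * ((1 - ∑ j, p j) * (Am A p).det ^ 3) +
      p i * (Am A p).det ^ 3 - p i * (1 - ∑ j, p j) *
        ((Am A p).det * R' n p - 2 * ((rr A μ i.succ p - rr A μ 0 p) * Δ' n p)), ?_, ?_, ?_, ?_⟩
  · refine ContinuousOn.inv₀ (((PF.coord i).mul pf_last).mul h3).continuous.continuousOn ?_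
    intro p hp
    exact (mul_pos (mul_pos (hp.1 i) (sub_pos.2 hp.2)) (pow_pos (hpos p hp) 3)).ne'
  · intro p hp
    exact inv_pos.2 (mul_pos (mul_pos (hp.1 i) (sub_pos.2 hp.2)) (pow_pos (hpos p hp) 3))
  · intro n
    refine (((pf_last.mul' h3 (by omega)).cmul _).add ((PF.coord i).mul' h3 (by omega))).sub ?_
    refine ((PF.coord i).mul pf_last).mul' (D' := 3 * d - 1) (PF.sub ?_ (PF.cmul _ ?_)) (by omega)
    · exact hΔ.mul' (hR' n) (by omega)
    · exact hR.mul' (hΔ' n) (by omega)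
  · intro p hp
    have a1 := hp.1 i
    have a2 := sub_pos.2 hp.2
    have a3 := hpos p hp
    have d1 := (hasStrictFDerivAt_apply (𝕜 := ℝ) i p).log a1.ne'
    have d0 : HasStrictFDerivAt (fun p : Fin l → ℝ => 1 - ∑ j, p j) (rowCLM fun _ => -1) p :=
      sd_congr ((HasStrictFDerivAt.fun_sum (u := univ)
        fun j _ => hasStrictFDerivAt_apply (𝕜 := ℝ) j p).const_sub 1) fun v => by simp
    have d2 := d0.log a2.ne'
    have d4 : HasStrictFDerivAt (fun p : Fin l → ℝ => (Am A p).det ^ 2)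
        ((2 * (Am A p).det) • rowCLM fun n => Δ' n p) p := by
      have := (hasStrictDerivAt_pow 2 (Am A p).det).comp_hasStrictFDerivAt p (dΔ p)
      exact sd_congr this fun v => by simp
    have d3 := (hasStrictDerivAt_inv (pow_pos a3 2).ne').comp_hasStrictFDerivAt p d4
    refine sd_congr ((d1.fun_sub d2).fun_sub ((dR p).fun_mul d3)) fun v => ?_
    have e1 : v i = ∑ n, (if n = i then 1 else 0) * v n := by simp
    simp only [rowCLM_apply, _root_.sub_apply, _root_.add_apply, _root_.smul_apply, smul_eq_mul,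
      ContinuousLinearMap.proj_apply]
    rw [e1]
    generalize 1 - ∑ j, p j = p0 at a2 ⊢
    simp only [mul_sum, ← sum_sub_distrib, ← sum_add_distrib]
    refine sum_congr rfl fun n _ => ?_
    field_simp
    ring

lemma crit_to_simplex (hA : ∀ i, (A i).PosDef) (c₀ : ℝ) (z : Fin l → ℝ) {x : Fin d → ℝ}
    (h : IsLocalMax (fun x => ∑ i, Real.exp ((Fin.cons c₀ (fun j => c₀ + z j) : Fin (l + 1) → ℝ) i +
      qf (A i) (μ i) x)) x) :
    ∃ p ∈ US l, (fun i => Psi A μ i p) = z ∧
      x = ((Am A p).det)⁻¹ • cramer (Am A p) (bv A μ p) := by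
  set c : Fin (l + 1) → ℝ := Fin.cons c₀ (fun j => c₀ + z j) with hc
  have h1 := crit_eq (fun i => (hA i).isHermitian) μ c h
  set e : Fin (l + 1) → ℝ := fun i => Real.exp (c i + qf (A i) (μ i) x) with he
  have epos : ∀ i, 0 < e i := fun i => Real.exp_pos _
  set S := ∑ i, e i with hS
  have Spos : 0 < S := sum_pos (fun i _ => epos i) univ_nonempty
  set p : Fin l → ℝ := fun j => e j.succ / S with hp
  have hlast : 1 - ∑ j, p j = e 0 / S := by
    simp only [hp]
    rw [← sum_div, eq_div_iff Spos.ne', sub_mul, div_mul_cancel₀ _ Spos.ne', hS, Fin.sum_univ_succ]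
    ring
  have hb : ∀ i, bary p i = e i / S := by
    intro i
    refine Fin.cases ?_ (fun j => ?_) i
    · simpa [bary] using hlast
    · simp [bary, hp]
  have hpU : p ∈ US l := by
    refine ⟨fun j => div_pos (epos _) Spos, ?_⟩
    have := div_pos (epos 0) Spos
    linarith
  have hAx : Am A p *ᵥ x = bv A μ p := by
    rw [← sub_eq_zero]
    have : Am A p *ᵥ x - bv A μ p = S⁻¹ • ∑ i, e i • (A i *ᵥ (x - μ i)) := by
      rw [Am, bv, sum_mulVec, ← sum_sub_distrib, smul_sum]
      refine sum_congr rfl fun i _ => ?_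
      rw [hb, smul_mulVec, mulVec_sub, smul_smul, smul_sub, div_eq_inv_mul]
    rw [this, h1, smul_zero]
  have hpd := posDef_Am hA hpU
  have hdet := hpd.det_pos
  have hcr : cramer (Am A p) (bv A μ p) = (Am A p).det • x := by
    rw [cramer_eq_adjugate_mulVec, ← hAx, mulVec_mulVec, adjugate_mul, smul_mulVec, one_mulVec]
  have hrr : ∀ i, rr A μ i p = qf (A i) (μ i) x * (Am A p).det ^ 2 := by
    intro i
    rw [rr, qf, hcr, ← smul_sub, mulVec_smul, smul_dotProduct, dotProduct_smul]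
    simp only [smul_eq_mul]
    ring
  refine ⟨p, hpU, ?_, by rw [hcr, smul_smul, inv_mul_cancel₀ hdet.ne', one_smul]⟩
  funext i
  rw [Psi, hlast, hrr, hrr, ← sub_mul, mul_assoc, mul_inv_cancel₀ (pow_pos hdet 2).ne', mul_one]
  simp only [hp]
  rw [Real.log_div (epos _).ne' Spos.ne', Real.log_div (epos _).ne' Spos.ne']
  simp only [he, Real.log_exp, hc, Fin.cons_succ, Fin.cons_zero]
  ring

theorem card_modes_le (hA : ∀ i, (A i).PosDef) (hd : 1 ≤ d) (c : Fin (l + 1) → ℝ)
    (s : Finset (Fin d → ℝ))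
    (hs : ∀ x ∈ s, x ∈ modes fun x => ∑ i, Real.exp (c i + qf (A i) (μ i) x)) :
    s.card ≤ 2 ^ l.choose 2 * (l * (3 * d + 1) + (l + 1)) ^ l := by
  classical
  let F : (Fin l → ℝ) → (Fin d → ℝ) → ℝ := fun z x =>
    ∑ i, Real.exp ((Fin.cons (c 0) (fun j => c 0 + z j) : Fin (l + 1) → ℝ) i + qf (A i) (μ i) x)
  have hF : Continuous fun z : (Fin l → ℝ) × (Fin d → ℝ) => F z.1 z.2 := by
    refine continuous_finsetSum _ fun i _ => Real.continuous_exp.comp
      (Continuous.add ?_ ((continuous_qf _ _).comp continuous_snd))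
    refine Fin.cases ?_ (fun j => ?_) i
    · simpa using continuous_const
    · simp only [Fin.cons_succ]
      fun_prop
  have h0 : F (fun j => c j.succ - c 0) = fun x => ∑ i, Real.exp (c i + qf (A i) (μ i) x) := by
    funext x
    refine sum_congr rfl fun i _ => ?_
    refine Fin.cases ?_ (fun j => ?_) i <;> simp
  have hper := persist_max hF (z₀ := fun j => c j.succ - c 0) s fun x hx => by
    rw [h0]; exact hs x hx
  obtain ⟨z, ⟨t, ht, ht'⟩, hz⟩ := sard (fun i => gp_Psi μ hA hd i) hper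
  choose! p hp using fun x hx => crit_to_simplex μ hA (c 0) z (ht' x hx)
  rw [← ht, ← card_image_of_injOn (f := p) fun x hx x' hx' h => by
    rw [(hp x hx).2.2, (hp x' hx').2.2, h]]
  refine khovanskii (fun i => gp_Psi μ hA hd i) z _ fun q hq => ?_
  obtain ⟨x, hx, rfl⟩ := mem_image.1 hq
  exact ⟨(hp x hx).1, (hp x hx).2.1, hz _ (hp x hx).1 (hp x hx).2.1⟩

theorem maxModes_le (hd : 1 ≤ d) (l : ℕ) :
    maxModes d (l + 1) ≤ (2 ^ l.choose 2 * (l * (3 * d + 1) + (l + 1)) ^ l : ℕ) := by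
  refine iSup_le fun w => iSup_le fun μ => iSup_le fun S => iSup_le fun ⟨hw, _, hS⟩ => ?_
  have e : (fun x => ∑ i, w i * gaussian (μ i) (S i) x) = fun x => ∑ i,
      Real.exp (Real.log (w i * ((2 * Real.pi) ^ (-(d : ℝ) / 2) * (S i).det ^ (-(1 : ℝ) / 2))) +
        qf (S i)⁻¹ (μ i) x) := by
    funext x
    refine sum_congr rfl fun i _ => ?_
    have := (hS i).det_pos
    have := hw i
    rw [Real.exp_add, Real.exp_log (by positivity), gaussian, qf]
    ring
  rw [e]
  by_contra hlt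
  obtain ⟨t, ht, hcard⟩ := Set.exists_subset_encard_eq (Order.add_one_le_of_lt (not_le.1 hlt))
  have hfin : t.Finite := Set.finite_of_encard_eq_coe (by exact_mod_cast hcard)
  have h := card_modes_le μ (fun i => (hS i).inv) hd _ hfin.toFinset
    fun x hx => ht (hfin.mem_toFinset.1 hx)
  rw [hfin.encard_eq_coe_toFinset_card] at hcard
  have : hfin.toFinset.card = 2 ^ l.choose 2 * (l * (3 * d + 1) + (l + 1)) ^ l + 1 := by
    exact_mod_cast hcard
  omega

end Pool.Agent.Lib.MP_1f4710_co.Upper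
end
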