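import Mathlib

-- part Pool.Agent.Lib.MP_1f4710_co.HAlg
section

/-!
Algebraic and elementary inequalities for homoscedastic mixtures.
-/

namespace Pool.Agent.Lib.MP_1f4710_co.Hom

open Set

/-- The basic convex function. -/
noncomputable def g (u : ℝ) : ℝ := u - 1 - Real.log u

lemma g_nonneg {u : ℝ} (hu : 0 < u) : 0 ≤ g u := by
  have := Real.log_le_sub_one_of_pos hu
  unfold g; linarith

lemma hasDerivAt_g {u : ℝ} (hu : 0 < u) : HasDerivAt g (1 - u⁻¹) u := by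
  unfold g
  exact ((hasDerivAt_id' u).sub_const 1).sub (Real.hasDerivAt_log hu.ne')

lemma g_anti : StrictAntiOn g (Ioc 0 1) := by
  refine strictAntiOn_of_deriv_neg (convex_Ioc 0 1)
    (fun u hu => (hasDerivAt_g hu.1).continuousAt.continuousWithinAt) fun u hu => ?_
  rw [interior_Ioc] at hu
  rw [(hasDerivAt_g hu.1).deriv]
  have := (one_lt_inv₀ hu.1).2 hu.2
  linarith

lemma g_mono : StrictMonoOn g (Ici 1) := by
  refine strictMonoOn_of_deriv_pos (convex_Ici 1)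
    (fun u hu => (hasDerivAt_g (lt_of_lt_of_le one_pos hu)).continuousAt.continuousWithinAt)
    fun u hu => ?_
  rw [interior_Ici] at hu
  rw [(hasDerivAt_g (lt_trans one_pos hu)).deriv]
  have := inv_lt_one_of_one_lt₀ (show 1 < u from hu)
  linarith

lemma g_one : g 1 = 0 := by simp [g]

lemma aux_T1 {x : ℝ} (h0 : 0 ≤ x) (h3 : x < 3) : g (1 + x) ≤ g ((3 - x) / (3 + 2 * x)) := by
  set D : ℝ → ℝ := fun x => g ((3 - x) / (3 + 2 * x)) - g (1 + x) with hD
  have hd : ∀ y : ℝ, 0 ≤ y → y < 3 → HasDerivAt D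
      (4 * y ^ 4 / ((3 + 2 * y) ^ 2 * (3 - y) * (1 + y))) y := by
    intro y hy0 hy3
    have h1 : 0 < 3 + 2 * y := by linarith
    have h2 : 0 < 3 - y := by linarith
    have h4 : 0 < 1 + y := by linarith
    have a : HasDerivAt (fun x : ℝ => (3 - x) / (3 + 2 * x))
        (((-1) * (3 + 2 * y) - (3 - y) * (2 * 1)) / (3 + 2 * y) ^ 2) y :=
      ((hasDerivAt_id' y).const_sub 3).div (((hasDerivAt_id' y).const_mul 2).const_add 3) h1.ne'
    have b := (hasDerivAt_g (div_pos h2 h1)).comp y a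
    have c := (hasDerivAt_g h4).comp y ((hasDerivAt_id' y).const_add 1)
    refine (b.sub c).congr_deriv ?_
    field_simp
    ring
  have hm : MonotoneOn D (Icc 0 x) := by
    refine monotoneOn_of_deriv_nonneg (convex_Icc 0 x)
      (fun y hy => (hd y hy.1 (hy.2.trans_lt h3)).continuousAt.continuousWithinAt)
      (fun y hy => ?_) fun y hy => ?_
    · rw [interior_Icc] at hy
      exact (hd y hy.1.le (hy.2.trans h3)).differentiableAt.differentiableWithinAt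
    · rw [interior_Icc] at hy
      rw [(hd y hy.1.le (hy.2.trans h3)).deriv]
      have h2 : 0 < 3 - y := by linarith [hy.2]
      have := hy.1
      positivity
  have := hm ⟨le_rfl, h0⟩ ⟨h0, le_rfl⟩ h0
  simp only [hD] at this
  norm_num at this
  linarith

/-- Lower bound for the small branch in terms of the large branch. -/
lemma T1 {s L : ℝ} (h0 : 0 < s) (h1 : s < 1) (hL : 1 < L) (h : g s ≤ g L) :
    (L - 1)⁻¹ + 2 / 3 ≤ (1 - s)⁻¹ := by
  have hx : 0 < L - 1 := by linarith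
  have hs : 0 < 1 - s := by linarith
  by_cases h3 : L - 1 < 3
  · have a := aux_T1 hx.le h3
    rw [show 1 + (L - 1) = L by ring] at a
    have h2 : 0 < 3 + 2 * (L - 1) := by linarith
    have hm : (3 - (L - 1)) / (3 + 2 * (L - 1)) ∈ Ioc (0 : ℝ) 1 :=
      ⟨div_pos (by linarith) h2, (div_le_one h2).2 (by linarith)⟩
    have b : (3 - (L - 1)) / (3 + 2 * (L - 1)) ≤ s := by
      by_contra hc
      push Not at hc
      have := g_anti ⟨h0, h1.le⟩ hm hc
      linarith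
    rw [div_le_iff₀ h2] at b
    rw [show (L - 1)⁻¹ + 2 / 3 = (3 + 2 * (L - 1)) / (3 * (L - 1)) by field_simp,
      inv_eq_one_div, div_le_div_iff₀ (by positivity) hs]
    nlinarith
  · push Not at h3
    have a : (L - 1)⁻¹ ≤ 1 / 3 := by
      rw [inv_eq_one_div]; exact one_div_le_one_div_of_le (by norm_num) h3
    have b : 1 ≤ (1 - s)⁻¹ := (one_le_inv₀ hs).2 (by linarith)
    linarith

lemma aux_T2 {t : ℝ} (h1 : 1 ≤ t) :
    3 * Real.log t ≤ (1 + t) * (t ^ 3 - 1) / (t * (t ^ 2 + 1)) := by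
  set D : ℝ → ℝ := fun t => (1 + t) * (t ^ 3 - 1) / (t * (t ^ 2 + 1)) - 3 * Real.log t with hD
  have hd : ∀ y : ℝ, 1 ≤ y → HasDerivAt D
      ((y - 1) ^ 4 * (y ^ 2 + y + 1) / (y * (y ^ 2 + 1)) ^ 2) y := by
    intro y hy
    have h0 : 0 < y := by linarith
    have a : HasDerivAt (fun t : ℝ => (1 + t) * (t ^ 3 - 1))
        (1 * (y ^ 3 - 1) + (1 + y) * (3 * y ^ 2)) y :=
      (((hasDerivAt_id' y).const_add 1).fun_mul ((hasDerivAt_pow 3 y).sub_const 1)).congr_deriv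
        (by norm_num)
    have b : HasDerivAt (fun t : ℝ => t * (t ^ 2 + 1)) (1 * (y ^ 2 + 1) + y * (2 * y)) y :=
      ((hasDerivAt_id' y).fun_mul ((hasDerivAt_pow 2 y).add_const 1)).congr_deriv (by norm_num)
    have c := (a.div b (by positivity)).sub ((Real.hasDerivAt_log h0.ne').const_mul 3)
    refine c.congr_deriv ?_
    field_simp
    ring
  have hm : MonotoneOn D (Icc 1 t) := by
    refine monotoneOn_of_deriv_nonneg (convex_Icc 1 t)
      (fun y hy => (hd y hy.1).continuousAt.continuousWithinAt) (fun y hy => ?_) fun y hy => ?_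
    · rw [interior_Icc] at hy
      exact (hd y hy.1.le).differentiableAt.differentiableWithinAt
    · rw [interior_Icc] at hy
      rw [(hd y hy.1.le).deriv]
      have : 0 < y := by linarith [hy.1]
      positivity
  have := hm ⟨le_rfl, h1⟩ ⟨h1, le_rfl⟩ h1
  simp only [hD] at this
  norm_num at this
  linarith

/-- Upper bound for the small branch in terms of the large branch. -/
lemma T2 {s L : ℝ} (h0 : 0 < s) (h1 : s < 1) (hL : 1 < L) (h : g L ≤ g s) :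
    (1 - s)⁻¹ ^ 2 * ((1 - s)⁻¹ - 1) ≤ (L - 1)⁻¹ ^ 2 * ((L - 1)⁻¹ + 1) := by
  have hx : 0 < L - 1 := by linarith
  have hs : 0 < 1 - s := by linarith
  have hr : 1 < L / s := (one_lt_div h0).2 (by linarith)
  obtain ⟨t, ht1, ht⟩ : ∃ t : ℝ, 1 < t ∧ t ^ 3 = L / s := by
    refine ⟨(L / s) ^ ((3 : ℕ)⁻¹ : ℝ), Real.one_lt_rpow hr (by norm_num), ?_⟩
    exact Real.rpow_inv_natCast_pow (by linarith) (by norm_num)
  have hLe : L = t ^ 3 * s := by rw [ht]; field_simp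
  have ht0 : 0 < t := by linarith
  have hlog : Real.log L = 3 * Real.log t + Real.log s := by
    rw [hLe, Real.log_mul (by positivity) h0.ne', Real.log_pow]; norm_num
  have a := aux_T2 ht1.le
  have ht3 : 0 < t ^ 3 - 1 := by nlinarith [mul_pos ht0 ht0]
  have b : s * (t ^ 3 - 1) ≤ (1 + t) * (t ^ 3 - 1) / (t * (t ^ 2 + 1)) := by
    unfold g at h
    nlinarith
  rw [le_div_iff₀ (by positivity)] at b
  have c : s * (t * (t ^ 2 + 1)) ≤ 1 + t := by
    by_contra hc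
    push Not at hc
    nlinarith
  have d : L - 1 ≤ t * (1 - s) := by rw [hLe]; nlinarith
  have e : (L - 1) ^ 3 ≤ (t * (1 - s)) ^ 3 := pow_le_pow_left₀ hx.le d 3
  rw [show (1 - s)⁻¹ ^ 2 * ((1 - s)⁻¹ - 1) = s / (1 - s) ^ 3 by field_simp; ring,
    show (L - 1)⁻¹ ^ 2 * ((L - 1)⁻¹ + 1) = L / (L - 1) ^ 3 by field_simp; ring,
    div_le_div_iff₀ (by positivity) (by positivity)]
  calc s * (L - 1) ^ 3 ≤ s * (t * (1 - s)) ^ 3 := by gcongr
    _ = L * (1 - s) ^ 3 := by rw [hLe]; ring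

/-- First coefficient. -/
def a0 (p q : ℝ) : ℝ := q ^ 2 - p ^ 2

/-- Second coefficient. -/
def a1 (p q : ℝ) : ℝ := 3 * p ^ 4 - 2 * p ^ 3 - p ^ 2 * q ^ 2 - 2 * q ^ 4 - 2 * q ^ 3

/-- Third coefficient. -/
def a2 (p q : ℝ) : ℝ :=
  -15 * p ^ 6 + 20 * p ^ 5 + 3 * p ^ 4 * q ^ 2 - 6 * p ^ 4 - 2 * p ^ 3 * q ^ 2 + 4 * p ^ 2 * q ^ 4
    + 4 * p ^ 2 * q ^ 3 + 8 * q ^ 6 + 14 * q ^ 5 + 6 * q ^ 4

lemma cert1 {p q : ℝ} (hp : 1 ≤ p) (hq : 0 < q) (h : p ^ 2 * (p - 1) ≤ q ^ 2 * (q + 1)) :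
    a1 p q + (2 * q ^ 2 + 2 * q + 2) * a0 p q < 0 := by
  unfold a1 a0
  rcases le_or_gt p q with hpq | hpq
  · have h1 : 0 ≤ q ^ 2 - p ^ 2 := by nlinarith
    have h2 : (q ^ 2 - p ^ 2) * (2 * q + 2 - 3 * p ^ 2) ≤ (q ^ 2 - p ^ 2) * (2 * q) := by
      apply mul_le_mul_of_nonneg_left _ h1
      nlinarith
    have h3 : 0 < p ^ 2 * q := by positivity
    have h4 : 0 < p ^ 3 := by positivity
    nlinarith
  · obtain ⟨d, rfl⟩ : ∃ d, p = q + d := ⟨p - q, by ring⟩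
    have hd : 0 < d := by linarith
    have h1 : (3 * d - 2) * ((q + d) * q) ≤ d ^ 2 * (1 - d) := by nlinarith
    have key : (3 * d - 2) * ((q + d) * q) + 3 * (q + d) * d ^ 2 - 2 * q * d - 2 * d - 2 * d ^ 2 < 0 := by
      rcases le_or_gt (3 * d - 2) 0 with h2 | h2
      · have h3 : (3 * d - 2) * (q * d) ≤ 0 := mul_nonpos_of_nonpos_of_nonneg h2 (by positivity)
        have h4 : (3 * d - 2) * ((q + d) * q) ≤ 0 :=
          mul_nonpos_of_nonpos_of_nonneg h2 (by positivity)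
        have h5 : d * (3 * d ^ 2 - 2 * d - 2) < 0 := mul_neg_of_pos_of_neg hd (by nlinarith)
        nlinarith
      · have h3 : 0 < (3 * d - 2) * ((q + d) * q) := by positivity
        have hd1 : d < 1 := by
          by_contra hc
          push Not at hc
          nlinarith [mul_nonneg (sq_nonneg d) (sub_nonneg.2 hc)]
        have h4 : (3 * d - 2) * q ≤ d ^ 2 * (1 - d) := by
          have : (3 * d - 2) * q * 1 ≤ (3 * d - 2) * q * (q + d) :=
            mul_le_mul_of_nonneg_left hp (by positivity)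
          nlinarith
        have h5 : d * ((3 * d - 2) * q) ≤ d * (d ^ 2 * (1 - d)) := by gcongr
        have h6 : d * (3 * d ^ 2 - d ^ 3 - d - 2) < 0 :=
          mul_neg_of_pos_of_neg hd (by nlinarith [mul_pos hd hd])
        nlinarith
    have h7 : 0 < q + d + q := by linarith
    nlinarith [mul_neg_of_pos_of_neg h7 key]

lemma cert2 {p q : ℝ} (hp : 1 ≤ p) (hq : 0 < q) :
    a2 p q + (9 * q ^ 2 + 20 / 3 * q + 1) * a1 p q +
      (10 * q ^ 4 + 52 / 3 * q ^ 3 + 13 * q ^ 2 + 61 / 9 * q + 34 / 27) * a0 p q < 0 := by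
  have h1 : 0 ≤ (p + q) ^ 2 * (15 * p ^ 2 - 11 / 3) - 26 / 9 * p - 35 / 9 * q - 26 / 27 := by
    have a : 11 ≤ 15 * p ^ 2 - 11 / 3 := by nlinarith
    have b : p + q ≤ (p + q) ^ 2 := by nlinarith
    nlinarith
  have h2 := mul_nonneg (sq_nonneg (p - q - 2 / 3)) h1
  have h3 : 0 < 4 * q ^ 3 + 176 / 27 * q ^ 2 + 244 / 81 * q + 104 / 243 := by positivity
  unfold a2 a1 a0
  nlinarith

lemma two_A {p q r : ℝ} : (p ^ 2 - q ^ 2) * a1 r q + (q ^ 2 - r ^ 2) * a1 p q =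
    (p - r) * (p + q) * (q + r) * (3 * (p + r) * (p - q) * (q - r) - 2 * (p * q + q * r - p * r)) := by
  unfold a1; ring

lemma aux_bind {d q r : ℝ} (hp : 1 ≤ q + d) (hq : 0 < q) (hr : 0 < r) (hrq : r < q) (hd : 0 < d)
    (h1 : (3 * d - 2) * ((q + d) * q) ≤ d ^ 2 * (1 - d))
    (h2 : r * d * (3 * r + 3 * d - 2) ≤ (3 * d - 2) * ((q + d) * q))
    (h7 : (1 - r) * (q - r) ≤ (q + d - 1) * d) : False := by
  have hE : 0 < (q + d) * q - r * d := by nlinarith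
  have h3 : 0 < 3 * d - 2 := by
    by_contra hc
    push Not at hc
    have : (3 * d - 2) * ((q + d) * q - r * d) ≤ 0 := mul_nonpos_of_nonpos_of_nonneg hc hE.le
    have : 0 < r * r * d := by positivity
    nlinarith
  have h4 : 0 < (3 * d - 2) * ((q + d) * q) := by positivity
  have hd1 : d < 1 := by
    by_contra hc
    push Not at hc
    nlinarith [mul_nonneg (sq_nonneg d) (sub_nonneg.2 hc)]
  have h5 : r * (3 * r + 3 * d - 2) ≤ d * (1 - d) := by
    by_contra hc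
    push Not at hc
    nlinarith [mul_lt_mul_of_pos_left hc hd]
  have h6 : r < 1 - d := by
    by_contra hc
    push Not at hc
    have a : r * 1 ≤ r * (3 * r + 3 * d - 2) := mul_le_mul_of_nonneg_left (by linarith) hr.le
    have b : d * (1 - d) < 1 * (1 - d) := mul_lt_mul_of_pos_right hd1 (by linarith)
    linarith
  have a := mul_pos (sub_pos.2 h6) (show 0 < 1 - r by linarith)
  have b := mul_nonneg (sub_nonneg.2 hp) (sub_pos.2 h6).le
  nlinarith

lemma between {p q r Na Nb : ℝ} (hq : 0 < q) (hr : 0 < r) (hrp : r < p) (hNa : 0 < Na)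
    (hNb : 0 < Nb) (h : Nb * (q ^ 2 - r ^ 2) = Na * (p ^ 2 - q ^ 2)) : r < q ∧ q < p := by
  have hrp2 : r ^ 2 < p ^ 2 := by nlinarith
  constructor
  · by_contra hc
    push Not at hc
    have : q ^ 2 ≤ r ^ 2 := by nlinarith
    nlinarith [mul_nonneg hNb.le (sub_nonneg.2 this), mul_pos hNa (sub_pos.2 (this.trans_lt hrp2))]
  · by_contra hc
    push Not at hc
    have : p ^ 2 ≤ q ^ 2 := by nlinarith
    nlinarith [mul_nonneg hNa.le (sub_nonneg.2 this), mul_pos hNb (sub_pos.2 (hrp2.trans_le this))]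

/-- Two small branches, one of which may come from a nonpositive coefficient. -/
lemma alg_bind2 {p q r Na Nb : ℝ} (hp : 1 ≤ p) (hq : 0 < q) (hr : 0 < r) (hr1 : r ≤ 1)
    (hNa : 0 < Na) (hNb : 0 < Nb) (h : p ^ 2 * (p - 1) ≤ q ^ 2 * (q + 1))
    (hc : (1 - r) * (q + p) * Na ≤ (p - 1) * (q + r) * Nb)
    (hJ : Na * a0 p q + Nb * a0 r q = 0) : Na * a1 p q + Nb * a1 r q < 0 := by
  unfold a0 at hJ
  rcases eq_or_lt_of_le (hr1.trans hp) with hpr | hpr
  · subst hpr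
    have h1 : (Na + Nb) * (q ^ 2 - r ^ 2) = 0 := by linarith
    have h2 : q ^ 2 - r ^ 2 = 0 := (mul_eq_zero.1 h1).resolve_left (by positivity)
    have h3 : q = r := by
      have : (q - r) * (q + r) = 0 := by linarith
      linarith [(mul_eq_zero.1 this).resolve_right (by positivity)]
    subst h3
    have : a1 q q = -(4 * q ^ 3) := by unfold a1; ring
    rw [this]
    have : 0 < (Na + Nb) * (4 * q ^ 3) := by positivity
    linarith
  have e0 : Nb * (q ^ 2 - r ^ 2) = Na * (p ^ 2 - q ^ 2) := by linarith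
  obtain ⟨hrq, hqp⟩ := between hq hr hpr hNa hNb e0
  have hA : 3 * (p + r) * (p - q) * (q - r) - 2 * (p * q + q * r - p * r) < 0 := by
    by_contra hA
    push Not at hA
    obtain ⟨d, rfl⟩ : ∃ d, p = q + d := ⟨p - q, by ring⟩
    have hd : 0 < d := by linarith
    refine aux_bind hp hq hr hrq hd (by linarith) (by linarith) ?_
    have e : (q + d - 1) * (q + r) * Nb * (q - r) = (q + d - 1) * d * ((q + (q + d)) * Na) := by
      linear_combination (q + d - 1) * e0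
    have e2 := mul_le_mul_of_nonneg_right hc (sub_nonneg.2 hrq.le)
    rw [e] at e2
    have hpos : 0 < (q + (q + d)) * Na := by positivity
    exact le_of_mul_le_mul_right (by linarith) hpos
  have e : (Na * a1 p q + Nb * a1 r q) * (q ^ 2 - r ^ 2) = Na * ((p - r) * (p + q) * (q + r) *
      (3 * (p + r) * (p - q) * (q - r) - 2 * (p * q + q * r - p * r))) := by
    rw [← two_A]
    linear_combination (a1 r q) * e0
  have hneg : Na * ((p - r) * (p + q) * (q + r) *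
      (3 * (p + r) * (p - q) * (q - r) - 2 * (p * q + q * r - p * r))) < 0 :=
    mul_neg_of_pos_of_neg hNa (mul_neg_of_pos_of_neg
      (mul_pos (mul_pos (sub_pos.2 hpr) (by linarith)) (by linarith)) hA)
  rw [← e] at hneg
  by_contra hc
  push Not at hc
  have : 0 ≤ q ^ 2 - r ^ 2 := by nlinarith
  linarith [mul_nonneg hc this]

lemma aux_poly {x r y : ℝ} (hx : 0 < x) (hxr : x ≤ r) (hm : r + x ≤ 3 / 14) (hy : 0 < y) :
    2 / 3 * y * (4 / 3 - x + 2 * y) + 2 * r * (2 / 3 + x) * (r + x) ≤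
      2 * (1 - r) * (1 / 3 - r - x + y) * (1 / 3 - x + r + y) := by
  have h1 : r * (2 / 3 + x) * (r + x) ≤ r * (2 / 3 + 3 / 28) * (3 / 14) := by
    have : 0 < r := by linarith
    gcongr
    linarith
  nlinarith [mul_pos hx hy, mul_nonneg hy.le (sub_nonneg.2 hm), sq_nonneg (y - 1 / 10),
    mul_nonneg (sub_nonneg.2 hxr) (sub_nonneg.2 hm), mul_pos hx hx,
    mul_nonneg hx.le (sub_nonneg.2 hm), mul_nonneg (mul_pos hy hy).le (sub_nonneg.2 hm),
    mul_nonneg (mul_nonneg (sub_nonneg.2 hxr) (sub_nonneg.2 hm)) (sub_nonneg.2 hm),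
    mul_nonneg (mul_nonneg hx.le (sub_nonneg.2 hm)) (sub_nonneg.2 hxr),
    mul_nonneg (mul_pos hx hy).le (sub_nonneg.2 hxr)]

lemma aux_three {q r x : ℝ} (hp : 1 < q + 2 / 3 + x) (hq : 0 < q) (hr : 0 < r) (hrq : r < q)
    (h3 : 0 ≤ x) (E : ℝ) (hEdef : E = (q + 2 / 3 + x) * q + q * r - (q + 2 / 3 + x) * r)
    (hm : (r + x) * E = (q + 2 / 3 + x) * q * r)
    (hS : 0 ≤ 4 * E ^ 2 - 90 * ((q + 2 / 3 + x) * q * r) ^ 2) :
    r < 1 / 3 ∧ (q + 2 / 3 + x - 1) * ((q + 2 / 3 + x) ^ 2 - q ^ 2) <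
      2 * (1 - r) * (q ^ 2 - r ^ 2) := by
  have hE : 0 < E := by
    have := mul_pos (show 0 < q + 2 / 3 + x by linarith) (sub_pos.2 hrq)
    have := mul_pos hq hr
    linarith
  have hx0 : x * E = r ^ 2 * (2 / 3 + x) := by
    rw [hEdef] at hm ⊢
    linear_combination hm
  have hx : 0 < x := by
    have : 0 < x * E := by rw [hx0]; positivity
    exact (pos_iff_pos_of_mul_pos this).2 hE
  have hm2 : r + x ≤ 3 / 14 := by
    rw [← hm] at hS
    by_contra hc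
    push Not at hc
    have a : 4 < 90 * (r + x) ^ 2 := by nlinarith
    have b := mul_pos (sub_pos.2 a) (mul_pos hE hE)
    linarith [show (90 * (r + x) ^ 2 - 4) * (E * E) = -(4 * E ^ 2 - 90 * ((r + x) * E) ^ 2) by ring]
  have hx1 : x * ((q + 2 / 3 + x) * q) = r * (2 / 3 + x) * (r + x) := by
    rw [hEdef] at hx0
    linear_combination hx0
  have hxr : x ≤ r := by
    by_contra hc
    push Not at hc
    have a : r * (2 / 3 + x) * (r + x) ≤ r * (2 / 3 + 3 / 14) * (3 / 14) := by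
      gcongr; linarith
    have b : x * (1 * q) ≤ x * ((q + 2 / 3 + x) * q) := by gcongr
    have c : x * (1 / 3 - x) < x * q := by gcongr; linarith
    have d : r * (1 / 3 - x) < x * (1 / 3 - x) := by gcongr; linarith
    nlinarith
  refine ⟨by linarith, ?_⟩
  have k2 := aux_poly hx hxr hm2 (show 0 < q + 2 / 3 + x - 1 by linarith)
  have k3 : x * ((q + 2 / 3 + x - 1) * (q + 2 / 3 + x + q)) < x * (2 * ((q + 2 / 3 + x) * q)) := by
    refine mul_lt_mul_of_pos_left ?_ hx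
    have a : (q + 2 / 3 + x - 1) * (q + 2 / 3 + x + q) ≤ q * (q + 2 / 3 + x + q) :=
      mul_le_mul_of_nonneg_right (by linarith) (by linarith)
    have b : q * q < q * (q + 2 / 3 + x) := mul_lt_mul_of_pos_left (by linarith) hq
    linarith
  nlinarith

/-- Third order condition for two small branches. -/
lemma alg_three2 {p q r c θ Nb : ℝ} (hp : 1 < p) (hq : 0 < q) (hr : 0 < r) (hr1 : r ≤ 1)
    (hpq : q + 2 / 3 ≤ p) (hc : 0 < c) (hθ : 0 < θ) (hθ1 : θ ≤ 1) (hNb : 0 < Nb)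
    (hs : r < 1 / 3 → 2 * c * (1 - r) ≤ Nb)
    (h0 : θ * (c * (p - 1) * a0 p q) + Nb * a0 r q = 0)
    (h1 : θ * (c * (p - 1) * a1 p q) + Nb * a1 r q = 0) :
    θ * (c * (p - 1) * a2 p q) + Nb * a2 r q < 0 := by
  by_contra h2
  push Not at h2
  unfold a0 at h0
  obtain ⟨Na, hNa⟩ : ∃ Na, Na = θ * (c * (p - 1)) := ⟨_, rfl⟩
  have hcp : 0 < c * (p - 1) := mul_pos hc (by linarith)
  have hNa0 : 0 < Na := hNa ▸ mul_pos hθ hcp
  have e0 : Nb * (q ^ 2 - r ^ 2) = Na * (p ^ 2 - q ^ 2) := by rw [hNa]; linarith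
  obtain ⟨hrq, hqp⟩ := between hq hr (by linarith) hNa0 hNb e0
  have hqp2 : 0 < p ^ 2 - q ^ 2 := by nlinarith
  have hrq2 : 0 < q ^ 2 - r ^ 2 := by nlinarith
  have hpos : 0 < (p - r) * (p + q) * (q + r) :=
    mul_pos (mul_pos (by linarith) (by linarith)) (by linarith)
  have hA : 3 * (p + r) * (p - q) * (q - r) - 2 * (p * q + q * r - p * r) = 0 := by
    have e : Na * ((p - r) * (p + q) * (q + r) *
        (3 * (p + r) * (p - q) * (q - r) - 2 * (p * q + q * r - p * r))) = 0 := by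
      rw [← two_A]
      rw [hNa] at e0 ⊢
      linear_combination (q ^ 2 - r ^ 2) * h1 - (a1 r q) * e0
    exact (mul_eq_zero.1 ((mul_eq_zero.1 e).resolve_left hNa0.ne')).resolve_left hpos.ne'
  have hE : 0 < p * q + q * r - p * r := by
    have := mul_pos (show 0 < p by linarith) (sub_pos.2 hrq)
    have := mul_pos hq hr
    linarith
  have hX : 0 ≤ (p ^ 2 - q ^ 2) * a2 r q + (q ^ 2 - r ^ 2) * a2 p q := by
    have e : Na * ((p ^ 2 - q ^ 2) * a2 r q + (q ^ 2 - r ^ 2) * a2 p q) =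
        (q ^ 2 - r ^ 2) * (θ * (c * (p - 1) * a2 p q) + Nb * a2 r q) := by
      rw [hNa] at e0 ⊢
      linear_combination (-(a2 r q)) * e0
    exact (mul_nonneg_iff_of_pos_left hNa0).1 (e ▸ mul_nonneg hrq2.le h2)
  have hS : 0 ≤ 4 * (p * q + q * r - p * r) ^ 2 - 90 * (p * q * r) ^ 2 := by
    have e : (p - r) * (p + q) * (q + r) *
        (4 * (p * q + q * r - p * r) ^ 2 - 90 * (p * q * r) ^ 2) =
        9 * (p * q + q * r - p * r) * ((p ^ 2 - q ^ 2) * a2 r q + (q ^ 2 - r ^ 2) * a2 p q) := by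
      unfold a2
      linear_combination (-((p - r) * (p + q) * (q + r) * (-45 * p ^ 3 * q + 45 * p ^ 3 * r
        - 45 * p ^ 2 * q * r + 30 * p ^ 2 * q - 30 * p ^ 2 * r - 36 * p * q ^ 3
        + 36 * p * q ^ 2 * r - 30 * p * q ^ 2 - 45 * p * q * r ^ 2 + 60 * p * q * r + 2 * p * q
        + 45 * p * r ^ 3 - 30 * p * r ^ 2 - 2 * p * r - 36 * q ^ 3 * r - 30 * q ^ 2 * r
        - 45 * q * r ^ 3 + 30 * q * r ^ 2 + 2 * q * r))) * hA
    exact (mul_nonneg_iff_of_pos_left hpos).1 (e ▸ mul_nonneg (by linarith) hX)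
  obtain ⟨x, rfl⟩ : ∃ x, p = q + 2 / 3 + x := ⟨p - q - 2 / 3, by ring⟩
  obtain ⟨k0, k1⟩ := aux_three hp hq hr hrq (by linarith) _ rfl
    (by linear_combination (1 / 3) * hA) hS
  have a := mul_le_mul_of_nonneg_right (hs k0) hrq2.le
  have b : Na ≤ c * (q + 2 / 3 + x - 1) := by rw [hNa]; nlinarith
  have b2 := mul_le_mul_of_nonneg_right b hqp2.le
  have c2 := mul_lt_mul_of_pos_left k1 hc
  linarith

lemma alg_K {q T W c G : ℝ} (hq : 0 < q) (hT : 0 ≤ T)
    (h1 : 1 < q → 2 / 3 * (q - 1 / 3) * W < T * (q ^ 2 - 1)) (h0 : 0 < T * (q ^ 2 - 1))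
    (h2 : (c + G) * (q + 1) < T + W) : 2 / 3 * (c + G) < T := by
  have hq1 : 1 < q := by
    by_contra hc
    push Not at hc
    nlinarith [mul_nonneg hT (show 0 ≤ 1 - q ^ 2 by nlinarith)]
  have h3 : 2 / 3 * W < T * (q + 1 / 3) := by
    by_contra hc
    push Not at hc
    have := mul_le_mul_of_nonneg_left hc (show 0 ≤ q - 1 / 3 by linarith)
    nlinarith [h1 hq1]
  by_contra hc
  push Not at hc
  nlinarith [mul_le_mul_of_nonneg_right hc (show 0 ≤ q + 1 by linarith)]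

end Pool.Agent.Lib.MP_1f4710_co.Hom
end

-- part Pool.Agent.Lib.MP_1f4710_co.HOde
section

/-!
One-variable analysis along a solution branch.
-/

namespace Pool.Agent.Lib.MP_1f4710_co.Hom

open Set Filter Topology

lemma last_le {F : ℝ → ℝ} {a b K : ℝ} (hab : a ≤ b) (hc : ContinuousOn F (Icc a b))
    (ha : F a ≤ K) (hb : K < F b) :
    ∃ t ∈ Ico a b, F t = K ∧ ∀ u ∈ Ioc t b, K < F u := by
  set A : Set ℝ := Icc a b ∩ F ⁻¹' Iic K with hA
  have hcl : IsClosed A := hc.preimage_isClosed_of_isClosed isClosed_Icc isClosed_Iic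
  have hne : A.Nonempty := ⟨a, ⟨le_rfl, hab⟩, ha⟩
  have hbd : BddAbove A := ⟨b, fun x hx => hx.1.2⟩
  have hm := hcl.csSup_mem hne hbd
  have hgt : ∀ u ∈ Ioc (sSup A) b, K < F u := by
    intro u hu
    by_contra h
    exact absurd (le_csSup hbd ⟨⟨hm.1.1.trans hu.1.le, hu.2⟩, not_lt.1 h⟩) (not_le.2 hu.1)
  have hlt : sSup A < b := lt_of_le_of_ne hm.1.2 fun e => absurd hm.2 (by
    rw [e]; exact not_le.2 hb)
  obtain ⟨x, hx, hxK⟩ := intermediate_value_Icc hlt.le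
    (hc.mono (Icc_subset_Icc_left hm.1.1)) ⟨hm.2, hb.le⟩
  refine ⟨sSup A, ⟨hm.1.1, hlt⟩, ?_, hgt⟩
  rcases eq_or_lt_of_le hx.1 with e | e
  · rw [e]; exact hxK
  · exact absurd hxK (hgt x ⟨e, hx.2⟩).ne'

lemma neg_right {F : ℝ → ℝ} {F' w : ℝ} (h : HasDerivAt F F' w) (hF : F' < 0) :
    ∀ᶠ t in 𝓝[>] w, F t < F w := by
  have h1 := (hasDerivAt_iff_tendsto_slope_left_right.1 h).2
  filter_upwards [h1.eventually (gt_mem_nhds hF), self_mem_nhdsWithin] with t ht htw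
  rw [slope_def_field] at ht
  have := (div_neg_iff.1 ht).resolve_left fun h => absurd h.2 (not_lt.2 (sub_pos.2 htw).le)
  linarith [this.1]

lemma pos_left {F : ℝ → ℝ} {F' w : ℝ} (h : HasDerivAt F F' w) (hF : 0 < F') :
    ∀ᶠ t in 𝓝[<] w, F t < F w := by
  have h1 := (hasDerivAt_iff_tendsto_slope_left_right.1 h).1
  filter_upwards [h1.eventually (lt_mem_nhds hF), self_mem_nhdsWithin] with t ht htw
  rw [slope_def_field] at ht
  have := (div_pos_iff.1 ht).resolve_left fun h => absurd h.2 (not_lt.2 (sub_neg.2 htw).le)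
  linarith [this.1]

lemma barrier {F F1 : ℝ → ℝ} {a b : ℝ} (hab : a ≤ b) (hd : ∀ t ∈ Icc a b, HasDerivAt F (F1 t) t)
    (hb : 0 < F b) (h : ∀ t ∈ Icc a b, F t = 0 → F1 t < 0) : 0 < F a := by
  by_contra ha
  obtain ⟨t, ht, h0, hgt⟩ := last_le hab
    (fun t ht => (hd t ht).continuousAt.continuousWithinAt) (not_lt.1 ha) hb
  have h1 := neg_right (hd t (Ico_subset_Icc_self ht)) (h t (Ico_subset_Icc_self ht) h0)
  obtain ⟨u, hu1, hu2⟩ := (h1.and (Ioc_mem_nhdsGT ht.2)).exists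
  linarith [hgt u hu2]

lemma min2 {f F : ℝ → ℝ} {w F' : ℝ} (hm : IsLocalMin f w) (hf : ∀ᶠ t in 𝓝 w, HasDerivAt f (F t) t)
    (hF : HasDerivAt F F' w) : F w = 0 ∧ 0 ≤ F' := by
  have h0 : F w = 0 := hm.hasDerivAt_eq_zero hf.self_of_nhds
  refine ⟨h0, not_lt.1 fun hneg => ?_⟩
  have h1 := neg_right hF hneg
  rw [h0] at h1
  have h2 := (h1.and (nhdsWithin_le_nhds hf)).and (nhdsWithin_le_nhds hm)
  obtain ⟨u, hu, hs⟩ := mem_nhdsGT_iff_exists_Ioc_subset.1 h2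
  obtain ⟨c, hc, e⟩ := exists_hasDerivAt_eq_slope f F hu (fun t ht => by
    rcases eq_or_lt_of_le ht.1 with e | e
    · rw [← e]; exact hf.self_of_nhds.continuousAt.continuousWithinAt
    · exact (hs ⟨e, ht.2⟩).1.2.continuousAt.continuousWithinAt)
    fun t ht => (hs ⟨ht.1, ht.2.le⟩).1.2
  have h3 := (hs ⟨hc.1, hc.2.le⟩).1.1
  have h4 := (hs ⟨hu, le_rfl⟩).2
  rw [e] at h3
  exact absurd h3 (not_lt.2 (div_nonneg (sub_nonneg.2 h4) (sub_pos.2 hu).le))

lemma zero_of_const {f F : ℝ → ℝ} {a b K : ℝ} (hd : ∀ t ∈ Ioo a b, HasDerivAt f (F t) t)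
    (hc : ∀ t ∈ Ioo a b, f t = K) : ∀ t ∈ Ioo a b, F t = 0 := by
  intro t ht
  refine (hd t ht).unique ((hasDerivAt_const t K).congr_of_eventuallyEq ?_)
  filter_upwards [Ioo_mem_nhds ht.1 ht.2] with u hu using hc u hu

lemma deriv_zero {Φ D : ℝ → ℝ} {a b : ℝ} (hc : ContinuousOn Φ (Icc a b))
    (hd : ∀ t ∈ Ioo a b, HasDerivAt Φ (D t) t) (h0 : ∀ t ∈ Ioo a b, 0 ≤ D t) (h : Φ b ≤ Φ a) :
    ∀ t ∈ Ioo a b, D t = 0 := by
  have hm : MonotoneOn Φ (Icc a b) := by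
    refine monotoneOn_of_deriv_nonneg (convex_Icc a b) hc (fun y hy => ?_) fun y hy => ?_
    · rw [interior_Icc] at hy
      exact (hd y hy).differentiableAt.differentiableWithinAt
    · rw [interior_Icc] at hy
      rw [(hd y hy).deriv]
      exact h0 y hy
  refine zero_of_const (K := Φ a) hd fun t ht => le_antisymm ?_ ?_
  · exact (hm (Ioo_subset_Icc_self ht) ⟨(ht.1.trans ht.2).le, le_rfl⟩ ht.2.le).trans h
  · exact hm ⟨le_rfl, (ht.1.trans ht.2).le⟩ (Ioo_subset_Icc_self ht) ht.1.le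

variable {ι : Type*}

/-- One large branch and a family of small branches. -/
structure Sys (t0 : ℝ) (s : Finset ι) (c : ℝ) (L q : ℝ → ℝ) (S N p : ι → ℝ → ℝ) : Prop where
  hL : ∀ t, t0 < t → HasDerivAt L (c * (q t + 1)) t
  hq : ∀ t, t0 < t → HasDerivAt q (-(q t ^ 2 * (q t + 1))) t
  q0 : ∀ t, t0 < t → 0 < q t
  hS : ∀ i ∈ s, ∀ t, t0 < t → HasDerivAt (S i) (-N i t) t
  hN : ∀ i ∈ s, ∀ t, t0 < t → HasDerivAt (N i) (-(N i t * p i t ^ 2)) t
  hp : ∀ i ∈ s, ∀ t, t0 < t → HasDerivAt (p i) (-(p i t ^ 2 * (p i t - 1))) t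

/-- Weighted sums. -/
def JJ (a : ℝ → ℝ → ℝ) (s : Finset ι) (w : ι → ℝ) (q : ℝ → ℝ) (N p : ι → ℝ → ℝ) (t : ℝ) : ℝ :=
  ∑ i ∈ s, w i * (N i t * a (p i t) (q t))

/-- The ratio that is compared with the weight of the large branch. -/
noncomputable def HH (s : Finset ι) (q : ℝ → ℝ) (N : ι → ℝ → ℝ) (t : ℝ) : ℝ :=
  (∑ i ∈ s, N i t) / (q t + 1)

/-- The total mass. -/
def PH (s : Finset ι) (L : ℝ → ℝ) (S : ι → ℝ → ℝ) (t : ℝ) : ℝ := L t + ∑ i ∈ s, S i t

namespace Sys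

variable {t0 : ℝ} {s : Finset ι} {c : ℝ} {L q : ℝ → ℝ} {S N p : ι → ℝ → ℝ}
  (h : Sys t0 s c L q S N p)
include h

lemma dJ0 (w : ι → ℝ) {t : ℝ} (ht : t0 < t) :
    HasDerivAt (JJ a0 s w q N p) (JJ a1 s w q N p t) t := by
  unfold JJ
  refine HasDerivAt.fun_sum fun i hi => ?_
  unfold a0 a1
  refine (((h.hN i hi t ht).fun_mul (((h.hq t ht).fun_pow 2).fun_sub
    ((h.hp i hi t ht).fun_pow 2))).const_mul (w i)).congr_deriv ?_
  norm_num
  left
  ring

lemma dJ1 (w : ι → ℝ) {t : ℝ} (ht : t0 < t) :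
    HasDerivAt (JJ a1 s w q N p) (JJ a2 s w q N p t) t := by
  unfold JJ
  refine HasDerivAt.fun_sum fun i hi => ?_
  unfold a1 a2
  have hp := h.hp i hi t ht
  have hq := h.hq t ht
  refine (((h.hN i hi t ht).fun_mul ((((((hp.fun_pow 4).const_mul 3).fun_sub
    ((hp.fun_pow 3).const_mul 2)).fun_sub ((hp.fun_pow 2).fun_mul (hq.fun_pow 2))).fun_sub
    ((hq.fun_pow 4).const_mul 2)).fun_sub ((hq.fun_pow 3).const_mul 2))).const_mul
    (w i)).congr_deriv ?_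
  norm_num
  left
  ring

lemma dH {t : ℝ} (ht : t0 < t) :
    HasDerivAt (HH s q N) (JJ a0 s 1 q N p t / (q t + 1)) t := by
  have hq0 := h.q0 t ht
  unfold HH
  refine ((HasDerivAt.fun_sum fun i hi => h.hN i hi t ht).fun_div ((h.hq t ht).add_const 1)
    (by positivity)).congr_deriv ?_
  unfold JJ a0
  simp only [Pi.one_apply, one_mul, mul_sub, Finset.sum_sub_distrib, Finset.sum_neg_distrib,
    ← Finset.sum_mul]
  field_simp
  ring

lemma dP {t : ℝ} (ht : t0 < t) :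
    HasDerivAt (PH s L S) ((q t + 1) * (c - HH s q N t)) t := by
  have hq0 := h.q0 t ht
  unfold PH HH
  refine ((h.hL t ht).fun_add (HasDerivAt.fun_sum fun i hi => h.hS i hi t ht)).congr_deriv ?_
  simp only [Finset.sum_neg_distrib]
  field_simp
  ring

lemma flat {a b : ℝ} (ha : t0 ≤ a) (hab : a < b) (hc : ContinuousOn (PH s L S) (Icc a b))
    (hH : ∀ t ∈ Ioo a b, HH s q N t ≤ c) (hP : PH s L S b ≤ PH s L S a) :
    ∃ w ∈ Ioo a b, HH s q N w = c ∧ JJ a0 s 1 q N p w = 0 ∧ JJ a1 s 1 q N p w = 0 ∧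
      JJ a2 s 1 q N p w = 0 := by
  have h1 := deriv_zero hc (fun t ht => h.dP (ha.trans_lt ht.1))
    (fun t ht => mul_nonneg (by linarith [h.q0 t (ha.trans_lt ht.1)]) (sub_nonneg.2 (hH t ht))) hP
  have h2 : ∀ t ∈ Ioo a b, HH s q N t = c := fun t ht => by
    have := (mul_eq_zero.1 (h1 t ht)).resolve_left (by linarith [h.q0 t (ha.trans_lt ht.1)])
    linarith
  have h3 : ∀ t ∈ Ioo a b, JJ a0 s 1 q N p t = 0 := fun t ht =>
    (div_eq_zero_iff.1 (zero_of_const (fun t ht => h.dH (ha.trans_lt ht.1)) h2 t ht)).resolve_right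
      (by linarith [h.q0 t (ha.trans_lt ht.1)])
  have h4 := zero_of_const (fun t ht => h.dJ0 1 (ha.trans_lt ht.1)) h3
  have h5 := zero_of_const (fun t ht => h.dJ1 1 (ha.trans_lt ht.1)) h4
  have hm : (a + b) / 2 ∈ Ioo a b := ⟨by linarith, by linarith⟩
  exact ⟨_, hm, h2 _ hm, h3 _ hm, h4 _ hm, h5 _ hm⟩

lemma early {a b : ℝ} (hb : t0 < b) (hba : b < a) (hP : PH s L S a ≤ PH s L S b)
    (hH : HH s q N b ≤ c)
    (hn : ∀ w ∈ Ioo b a, HH s q N w = c → JJ a0 s 1 q N p w = 0 → JJ a1 s 1 q N p w = 0 →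
      JJ a2 s 1 q N p w = 0 → False) :
    ∃ z ∈ Ioo b a, c < HH s q N z ∧ 0 < JJ a0 s 1 q N p z := by
  have hx : ∃ x ∈ Ioo b a, c < HH s q N x := by
    by_contra hc
    push Not at hc
    obtain ⟨w, hw, h1, h2, h3, h4⟩ := h.flat hb.le hba
      (fun t ht => (h.dP (hb.trans_le ht.1)).continuousAt.continuousWithinAt) hc hP
    exact hn w hw h1 h2 h3 h4
  obtain ⟨x, hx, hxc⟩ := hx
  obtain ⟨t, ht, h1, h2⟩ := last_le hx.1.le
    (fun t ht => (h.dH (hb.trans_le ht.1)).continuousAt.continuousWithinAt) hH hxc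
  obtain ⟨z, hz, e⟩ := exists_hasDerivAt_eq_slope (HH s q N) _ ht.2
    (fun u hu => (h.dH (hb.trans_le (ht.1.trans hu.1))).continuousAt.continuousWithinAt)
    fun u hu => h.dH (hb.trans_le (ht.1.trans hu.1.le))
  refine ⟨z, ⟨ht.1.trans_lt hz.1, hz.2.trans hx.2⟩, h2 z ⟨hz.1, hz.2.le⟩, ?_⟩
  have h3 : 0 < JJ a0 s 1 q N p z / (q z + 1) := by
    rw [e, h1]; exact div_pos (sub_pos.2 hxc) (sub_pos.2 ht.2)
  exact (div_pos_iff_of_pos_right (by linarith [h.q0 z (hb.trans_le (ht.1.trans hz.1.le))])).1 h3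

lemma bind_le (hJ : ∀ w, t0 < w → HH s q N w ≤ c → JJ a0 s 1 q N p w = 0 → JJ a1 s 1 q N p w < 0)
    {b z : ℝ} (hbz : b ≤ z) (hH : HH s q N b ≤ c) (hz : 0 < JJ a0 s 1 q N p z) {t : ℝ}
    (ht : t0 < t) (htb : t ≤ b) : HH s q N t ≤ c := by
  by_contra hc
  push Not at hc
  obtain ⟨w, hw, hmin⟩ := (isCompact_Icc (a := t) (b := z)).exists_isMinOn
    ⟨b, htb, hbz⟩ fun u hu => (h.dH (ht.trans_le hu.1)).continuousAt.continuousWithinAt
  have hwb : HH s q N w ≤ c := (hmin ⟨htb, hbz⟩).trans hH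
  have htw : t < w := lt_of_le_of_ne hw.1 fun e => by rw [← e] at hwb; linarith
  have hw0 := ht.trans htw
  have hq := h.q0 w hw0
  rcases eq_or_lt_of_le hw.2 with e | e
  · rw [← e] at hz
    obtain ⟨u, hu1, hu2⟩ := ((pos_left (h.dH hw0) (div_pos hz (by linarith))).and
      (Ico_mem_nhdsLT htw)).exists
    exact absurd (hmin ⟨hu2.1, hu2.2.le.trans hw.2⟩) (not_le.2 hu1)
  · have hl : IsLocalMin (HH s q N) w := hmin.isLocalMin (Icc_mem_nhds htw e)
    obtain ⟨h1, h2⟩ := min2 hl ((eventually_gt_nhds hw0).mono fun u hu => h.dH hu)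
      ((h.dJ0 1 hw0).fun_div ((h.hq w hw0).add_const 1) (by positivity))
    have h3 := (div_eq_zero_iff.1 h1).resolve_right (by positivity)
    have h4 := hJ w hw0 hwb h3
    rw [h3, zero_mul, sub_zero] at h2
    have : JJ a1 s 1 q N p w * (q w + 1) / (q w + 1) ^ 2 < 0 :=
      div_neg_of_neg_of_pos (mul_neg_of_neg_of_pos h4 (by positivity)) (by positivity)
    linarith

lemma bind_lt (hJ : ∀ w, t0 < w → HH s q N w ≤ c → JJ a0 s 1 q N p w = 0 → JJ a1 s 1 q N p w < 0)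
    {b z : ℝ} (hbz : b ≤ z) (hH : HH s q N b ≤ c) (hz : 0 < JJ a0 s 1 q N p z) {t : ℝ}
    (ht : t0 ≤ t) (htb : t < b) (hc : ContinuousOn (PH s L S) (Icc t b)) :
    PH s L S t < PH s L S b := by
  by_contra hP
  obtain ⟨w, hw, h1, h2, h3, -⟩ := h.flat ht htb hc
    (fun u hu => h.bind_le hJ hbz hH hz (ht.trans_lt hu.1) hu.2.le) (not_lt.1 hP)
  exact (hJ w (ht.trans_lt hw.1) h1.le h2).ne h3

lemma three (E : ι → ℝ) {m b a : ℝ} (hm : t0 < m) (hmb : m < b) (hba : b < a)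
    (hP1 : PH s L S b ≤ PH s L S m) (hP2 : PH s L S a ≤ PH s L S b) (hH1 : HH s q N m ≤ c)
    (hH2 : HH s q N b ≤ c)
    (hE : ∀ t, m < t → JJ a0 s E q N p t = 0 → JJ a1 s E q N p t < 0)
    (hL : ∀ t, m < t → JJ a0 s (1 - E) q N p t ≤ 0)
    (hG : ∀ t, m < t → ∀ θ : ℝ, 0 < θ → θ ≤ 1 → JJ a0 s (E + θ • (1 - E)) q N p t = 0 →
      JJ a1 s (E + θ • (1 - E)) q N p t = 0 → JJ a2 s (E + θ • (1 - E)) q N p t < 0) : False := by
  have e1 : E + (1 : ℝ) • (1 - E) = 1 := by simp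
  have hn : ∀ w, m < w → JJ a0 s 1 q N p w = 0 → JJ a1 s 1 q N p w = 0 →
      JJ a2 s 1 q N p w = 0 → False := fun w hw h1 h2 h3 => by
    have := hG w hw 1 one_pos le_rfl
    rw [e1] at this
    exact (this h1 h2).ne h3
  have hsplit : ∀ (θ t : ℝ), JJ a0 s (E + θ • (1 - E)) q N p t =
      JJ a0 s E q N p t + θ * JJ a0 s (1 - E) q N p t := fun θ t => by
    unfold JJ
    rw [Finset.mul_sum, ← Finset.sum_add_distrib]
    refine Finset.sum_congr rfl fun i _ => ?_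
    simp only [Pi.add_apply, Pi.smul_apply, smul_eq_mul]
    ring
  have hs1 : ∀ t, JJ a0 s 1 q N p t = JJ a0 s E q N p t + JJ a0 s (1 - E) q N p t := fun t => by
    rw [← one_mul (JJ a0 s (1 - E) q N p t), ← hsplit, e1]
  obtain ⟨τ1, hτ1, hH, hJ1⟩ := h.early hm hmb hP1 hH1 fun w hw _ => hn w hw.1
  obtain ⟨τ3, hτ3, -, hJ3⟩ := h.early (hm.trans hmb) hba hP2 hH2
    fun w hw _ => hn w (hmb.trans hw.1)
  have h1 := hm.trans hτ1.1
  obtain ⟨τ2, hτ2, e⟩ := exists_hasDerivAt_eq_slope (HH s q N) _ hτ1.2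
    (fun u hu => (h.dH (h1.trans_le hu.1)).continuousAt.continuousWithinAt)
    fun u hu => h.dH (h1.trans hu.1)
  have hJ2 : JJ a0 s 1 q N p τ2 < 0 := by
    have h3 : JJ a0 s 1 q N p τ2 / (q τ2 + 1) < 0 := by
      rw [e]; exact div_neg_of_neg_of_pos (by linarith) (sub_pos.2 hτ1.2)
    by_contra hc
    exact absurd h3 (not_lt.2 (div_nonneg (not_lt.1 hc) (by linarith [h.q0 τ2 (h1.trans hτ2.1)])))
  have h23 : τ2 < τ3 := hτ2.2.trans hτ3.1
  have hEpos : ∀ t ∈ Icc τ1 τ3, 0 < JJ a0 s E q N p t := fun t ht =>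
    barrier ht.2 (fun u hu => h.dJ0 E (h1.trans_le (ht.1.trans hu.1)))
      (by linarith [hs1 τ3, hL τ3 (hmb.trans hτ3.1)])
      fun u hu => hE u (hτ1.1.trans_le (ht.1.trans hu.1))
  set R : ℝ → ℝ := fun t => -JJ a0 s (1 - E) q N p t / JJ a0 s E q N p t with hR
  have m1 : τ1 ∈ Icc τ1 τ3 := ⟨le_rfl, (hτ2.1.trans h23).le⟩
  have m2 : τ2 ∈ Icc τ1 τ3 := ⟨hτ2.1.le, h23.le⟩
  have m3 : τ3 ∈ Icc τ1 τ3 := ⟨m1.2, le_rfl⟩
  obtain ⟨w, hw, hmax⟩ := (isCompact_Icc (a := τ1) (b := τ3)).exists_isMaxOn (f := R) ⟨τ1, m1⟩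
    fun u hu => (((h.dJ0 (1 - E) (h1.trans_le hu.1)).continuousAt.neg).div
      (h.dJ0 E (h1.trans_le hu.1)).continuousAt (hEpos u hu).ne').continuousWithinAt
  have hR2 : 1 < R w :=
    lt_of_lt_of_le ((one_lt_div (hEpos τ2 m2)).2 (by linarith [hs1 τ2])) (hmax m2)
  have hw1 : τ1 < w := lt_of_le_of_ne hw.1 fun e => by
    have : R τ1 < 1 := (div_lt_one (hEpos τ1 m1)).2 (by linarith [hs1 τ1])
    rw [← e] at hR2; linarith
  have hw3 : w < τ3 := lt_of_le_of_ne hw.2 fun e => by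
    have : R τ3 < 1 := (div_lt_one (hEpos τ3 m3)).2 (by linarith [hs1 τ3])
    rw [e] at hR2; linarith
  have hRw : 0 < R w := by linarith
  have hG0 : ∀ t ∈ Icc τ1 τ3, JJ a0 s (E + (R w)⁻¹ • (1 - E)) q N p t =
      JJ a0 s E q N p t * (1 - (R w)⁻¹ * R t) := fun t ht => by
    have := (hEpos t ht).ne'
    rw [hsplit]
    generalize (R w)⁻¹ = θ
    simp only [hR]
    field_simp
    ring
  have hz : JJ a0 s (E + (R w)⁻¹ • (1 - E)) q N p w = 0 := by
    rw [hG0 w hw, inv_mul_cancel₀ hRw.ne', sub_self, mul_zero]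
  have hl : IsLocalMin (JJ a0 s (E + (R w)⁻¹ • (1 - E)) q N p) w := by
    filter_upwards [Icc_mem_nhds hw1 hw3] with t ht
    rw [hz, hG0 t ht]
    refine mul_nonneg (hEpos t ht).le (sub_nonneg.2 ?_)
    rw [inv_mul_le_iff₀ hRw, mul_one]
    exact hmax ht
  have hw0 := h1.trans hw1
  obtain ⟨k1, k2⟩ := min2 hl ((eventually_gt_nhds hw0).mono fun u hu => h.dJ0 _ hu) (h.dJ1 _ hw0)
  exact absurd (hG w (hτ1.1.trans hw1) _ (inv_pos.2 hRw) (inv_le_one_of_one_le₀ hR2.le) hz k1)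
    (not_lt.2 k2)

end Sys

end Pool.Agent.Lib.MP_1f4710_co.Hom
end

-- part Pool.Agent.Lib.MP_1f4710_co.HBr
section

/-!
The small and the large solution branch of `β a - log a + c = t`.
-/

namespace Pool.Agent.Lib.MP_1f4710_co.Hom

open Set Filter Topology

lemma inv_cont {Y : Type*} [LinearOrder Y] [TopologicalSpace Y] [OrderTopology Y] {η : ℝ → Y}
    {I : Set ℝ} {S : Y → ℝ} {D : Set Y} (hI : I.OrdConnected) (hη : StrictMonoOn η I)
    (hS : ∀ y ∈ D, S y ∈ I ∧ η (S y) = y) : ContinuousOn S D := by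
  intro y hy
  rw [ContinuousWithinAt, tendsto_order]
  refine ⟨fun a ha => ?_, fun a ha => ?_⟩
  · by_cases h : a ∈ I
    · have h1 : η a < y := (hS y hy).2 ▸ hη h (hS y hy).1 ha
      filter_upwards [nhdsWithin_le_nhds (lt_mem_nhds h1), self_mem_nhdsWithin] with z hz hzD
      exact (hη.lt_iff_lt h (hS z hzD).1).1 ((hS z hzD).2.symm ▸ hz)
    · filter_upwards [self_mem_nhdsWithin] with z hzD
      exact not_le.1 fun hc => h (hI.out (hS z hzD).1 (hS y hy).1 ⟨hc, ha.le⟩)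
  · by_cases h : a ∈ I
    · have h1 : y < η a := (hS y hy).2 ▸ hη (hS y hy).1 h ha
      filter_upwards [nhdsWithin_le_nhds (gt_mem_nhds h1), self_mem_nhdsWithin] with z hz hzD
      exact (hη.lt_iff_lt (hS z hzD).1 h).1 ((hS z hzD).2.symm ▸ hz)
    · filter_upwards [self_mem_nhdsWithin] with z hzD
      exact not_le.1 fun hc => h (hI.out (hS y hy).1 (hS z hzD).1 ⟨ha.le, hc⟩)

/-- The function whose level sets describe critical points. -/
noncomputable def eta (β c a : ℝ) : ℝ := β * a - Real.log a + c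

lemma hasDerivAt_eta (β c : ℝ) {a : ℝ} (ha : 0 < a) : HasDerivAt (eta β c) (β - a⁻¹) a := by
  unfold eta
  simpa using (((hasDerivAt_id' a).const_mul β).fun_sub (Real.hasDerivAt_log ha.ne')).add_const c

lemma convex_I (β : ℝ) : Convex ℝ {a : ℝ | 0 < a ∧ β * a ≤ 1} := by
  intro x hx y hy a b ha hb hab
  refine ⟨(convex_Ioi (0 : ℝ)) hx.1 hy.1 ha hb hab, ?_⟩
  simp only [smul_eq_mul]
  nlinarith [mul_le_mul_of_nonneg_left hx.2 ha, mul_le_mul_of_nonneg_left hy.2 hb]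

lemma eta_anti (β c : ℝ) : StrictAntiOn (eta β c) {a : ℝ | 0 < a ∧ β * a ≤ 1} := by
  intro x hx y hy hxy
  have h1 := Real.one_sub_inv_le_log_of_pos (div_pos hy.1 hx.1)
  have h2 := Real.add_one_lt_exp (x := Real.log (x / y)) (by
    rw [Ne, Real.log_eq_zero]
    have := div_pos hx.1 hy.1
    have := (div_lt_one hy.1).2 hxy
    rintro (h | h | h) <;> linarith)
  rw [Real.exp_log (div_pos hx.1 hy.1), Real.log_div hx.1.ne' hy.1.ne'] at h2
  have h3 : β * (y - x) ≤ 1 - x / y := by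
    rw [show 1 - x / y = (y - x) / y by field_simp [hy.1.ne'], le_div_iff₀ hy.1]
    nlinarith [mul_le_mul_of_nonneg_right hy.2 (sub_pos.2 hxy).le]
  unfold eta
  linarith

/-- Domain of the small branch. -/
def Dom (β c t : ℝ) : Prop := ∃ a, (0 < a ∧ β * a ≤ 1) ∧ eta β c a = t

/-- The small branch. -/
noncomputable def sm (β c t : ℝ) : ℝ :=
  Classical.epsilon fun a => (0 < a ∧ β * a ≤ 1) ∧ eta β c a = t

lemma sm_spec {β c t : ℝ} (h : Dom β c t) :
    (0 < sm β c t ∧ β * sm β c t ≤ 1) ∧ eta β c (sm β c t) = t :=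
  Classical.epsilon_spec h

lemma sm_eq {β c a : ℝ} (ha : 0 < a) (h1 : β * a ≤ 1) : sm β c (eta β c a) = a :=
  have h := sm_spec (⟨a, ⟨ha, h1⟩, rfl⟩ : Dom β c (eta β c a))
  (eta_anti β c).injOn h.1 ⟨ha, h1⟩ h.2

lemma sm_anti {β c t u : ℝ} (ht : Dom β c t) (hu : Dom β c u) (h : t ≤ u) :
    sm β c u ≤ sm β c t :=
  ((eta_anti β c).le_iff_ge (sm_spec ht).1 (sm_spec hu).1).1
    (by rw [(sm_spec ht).2, (sm_spec hu).2]; exact h)

lemma Dom.mono {β c t u : ℝ} (h : Dom β c t) (htu : t ≤ u) : Dom β c u := by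
  obtain ⟨a, ha, rfl⟩ := h
  set M := |u - c + abs β * a| + |Real.log a| with hM
  have h1 : Real.exp (-M) ≤ a := by
    rw [← Real.le_log_iff_exp_le ha.1]
    linarith [abs_nonneg (u - c + abs β * a), neg_abs_le (Real.log a)]
  have h0 := Real.exp_pos (-M)
  have h2 : u ≤ eta β c (Real.exp (-M)) := by
    unfold eta
    rw [Real.log_exp]
    have : -(abs β * a) ≤ β * Real.exp (-M) := by
      nlinarith [neg_abs_le β, abs_nonneg β, mul_le_mul_of_nonneg_left h1 (abs_nonneg β)]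
    linarith [le_abs_self (u - c + abs β * a), abs_nonneg (Real.log a)]
  obtain ⟨x, hx, e⟩ := intermediate_value_Icc' h1 (fun x hx =>
    (hasDerivAt_eta β c (h0.trans_le hx.1)).continuousAt.continuousWithinAt) ⟨htu, h2⟩
  refine ⟨x, ⟨h0.trans_le hx.1, ?_⟩, e⟩
  rcases le_total 0 β with hβ | hβ
  · exact (mul_le_mul_of_nonneg_left hx.2 hβ).trans ha.2
  · linarith [mul_nonpos_of_nonpos_of_nonneg hβ (h0.trans_le hx.1).le]

lemma dom_of_nonpos {β : ℝ} (hβ : β ≤ 0) (c t : ℝ) : Dom β c t := by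
  have h0 := Real.exp_pos (c - t)
  refine Dom.mono ⟨Real.exp (c - t), ⟨h0, ?_⟩, rfl⟩ ?_
  · linarith [mul_nonpos_of_nonpos_of_nonneg hβ h0.le]
  · unfold eta
    rw [Real.log_exp]
    linarith [mul_nonpos_of_nonpos_of_nonneg hβ h0.le]

lemma eta_eq_g {β : ℝ} (hβ : 0 < β) (c : ℝ) {a : ℝ} (ha : 0 < a) :
    eta β c a = g (β * a) + (1 + Real.log β + c) := by
  unfold eta g
  rw [Real.log_mul hβ.ne' ha.ne']
  ring

lemma dom_of_pos {β c t : ℝ} (hβ : 0 < β) (h : 1 + Real.log β + c ≤ t) : Dom β c t := by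
  refine Dom.mono ⟨β⁻¹, ⟨inv_pos.2 hβ, (mul_inv_cancel₀ hβ.ne').le⟩, rfl⟩ ?_
  rw [eta_eq_g hβ c (inv_pos.2 hβ), mul_inv_cancel₀ hβ.ne', g_one]
  linarith

lemma sm_cont (β c : ℝ) : ContinuousOn (sm β c) {t | Dom β c t} :=
  inv_cont (Y := ℝᵒᵈ) (η := eta β c) (S := sm β c) (convex_I β).ordConnected (eta_anti β c)
    fun _ hy => sm_spec hy

/-- Auxiliary function of the small branch. -/
noncomputable def sP (β c t : ℝ) : ℝ := (1 - β * sm β c t)⁻¹

/-- Minus the derivative of the small branch. -/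
noncomputable def sN (β c t : ℝ) : ℝ := sm β c t * sP β c t

lemma sm_deriv {β c t : ℝ} (h : ∀ᶠ u in 𝓝 t, Dom β c u) (h1 : β * sm β c t < 1) :
    HasDerivAt (sm β c) (-sN β c t) t ∧ HasDerivAt (sN β c) (-(sN β c t * sP β c t ^ 2)) t ∧
      HasDerivAt (sP β c) (-(sP β c t ^ 2 * (sP β c t - 1))) t := by
  have h0 := (sm_spec h.self_of_nhds).1.1
  have h2 : 1 - β * sm β c t ≠ 0 := (sub_pos.2 h1).ne'
  have h3 : β * sm β c t - 1 ≠ 0 := (sub_neg.2 h1).ne
  have hne : β - (sm β c t)⁻¹ ≠ 0 := by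
    rw [show β - (sm β c t)⁻¹ = (β * sm β c t - 1) / sm β c t by field_simp]
    exact div_ne_zero h3 h0.ne'
  have a : HasDerivAt (sm β c) (-sN β c t) t := by
    refine (HasDerivAt.of_local_left_inverse ((sm_cont β c).continuousAt h) (hasDerivAt_eta β c h0)
      hne (h.mono fun u hu => (sm_spec hu).2)).congr_deriv ?_
    unfold sN sP
    rw [show β - (sm β c t)⁻¹ = (β * sm β c t - 1) / sm β c t by field_simp]
    field_simp
    ring
  have b : HasDerivAt (sP β c) (-(sP β c t ^ 2 * (sP β c t - 1))) t := by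
    refine (((a.const_mul β).const_sub 1).fun_inv h2).congr_deriv ?_
    unfold sN sP
    field_simp
    ring
  refine ⟨a, (a.fun_mul b).congr_deriv ?_, b⟩
  unfold sN
  ring

/-- The normalized small branch. -/
noncomputable def s1 (y : ℝ) : ℝ := sm 1 (-1) y

/-- The normalized large branch. -/
noncomputable def l1 (y : ℝ) : ℝ := Classical.epsilon fun a => 1 ≤ a ∧ g a = y

/-- Auxiliary function of the normalized small branch. -/
noncomputable def p1 (y : ℝ) : ℝ := (1 - s1 y)⁻¹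

/-- Auxiliary function of the normalized large branch. -/
noncomputable def q1 (y : ℝ) : ℝ := (l1 y - 1)⁻¹

lemma eta_one (a : ℝ) : eta 1 (-1) a = g a := by unfold eta g; ring

lemma dom_one {y : ℝ} (hy : 0 ≤ y) : Dom 1 (-1) y := dom_of_pos one_pos (by simpa using hy)

lemma s1_spec {y : ℝ} (hy : 0 ≤ y) : 0 < s1 y ∧ s1 y ≤ 1 ∧ g (s1 y) = y := by
  have h := sm_spec (dom_one hy)
  rw [eta_one, one_mul] at h
  exact ⟨h.1.1, h.1.2, h.2⟩

lemma s1_eq {a : ℝ} (ha : 0 < a) (h1 : a ≤ 1) : s1 (g a) = a := by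
  rw [← eta_one]; exact sm_eq ha (by linarith)

lemma s1_lt {y : ℝ} (hy : 0 < y) : s1 y < 1 :=
  lt_of_le_of_ne (s1_spec hy.le).2.1 fun e => by
    have := (s1_spec hy.le).2.2
    rw [e, g_one] at this
    linarith

lemma s1_anti {y z : ℝ} (hy : 0 ≤ y) (h : y ≤ z) : s1 z ≤ s1 y :=
  sm_anti (dom_one hy) (dom_one (hy.trans h)) h

lemma s1_cont : ContinuousOn s1 (Ici 0) := (sm_cont 1 (-1)).mono fun _ hy => dom_one hy

lemma p1_gt {y : ℝ} (hy : 0 < y) : 1 < p1 y :=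
  (one_lt_inv₀ (sub_pos.2 (s1_lt hy))).2 (by linarith [(s1_spec hy.le).1])

lemma p1_anti {y z : ℝ} (hy : 0 < y) (h : y ≤ z) : p1 z ≤ p1 y :=
  inv_anti₀ (sub_pos.2 (s1_lt hy)) (by linarith [s1_anti hy.le h])

lemma s1_deriv {y : ℝ} (hy : 0 < y) : HasDerivAt s1 (-(p1 y - 1)) y ∧
    HasDerivAt p1 (-(p1 y ^ 2 * (p1 y - 1))) y := by
  have h := sm_deriv ((eventually_ge_nhds hy).mono fun u hu => dom_one hu)
    (by simpa [s1] using s1_lt hy)
  have e : sP 1 (-1) = p1 := by funext u; simp [sP, p1, s1]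
  rw [e] at h
  refine ⟨h.1.congr_deriv ?_, h.2.2⟩
  have := (sub_pos.2 (s1_lt hy)).ne'
  unfold sN
  rw [e]
  change -(s1 y * p1 y) = _
  unfold p1
  field_simp
  ring

lemma l1_spec {y : ℝ} (hy : 0 ≤ y) : 1 ≤ l1 y ∧ g (l1 y) = y := by
  refine Classical.epsilon_spec (p := fun a => 1 ≤ a ∧ g a = y) ?_
  have h1 : (1 : ℝ) ≤ 2 * y + 2 := by linarith
  have h2 : y ≤ g (2 * y + 2) := by
    have a := Real.log_le_sub_one_of_pos (show 0 < y + 1 by linarith)
    have b : Real.log (2 * y + 2) = Real.log 2 + Real.log (y + 1) := by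
      rw [← Real.log_mul (by norm_num) (by linarith)]; ring_nf
    have c := Real.log_le_sub_one_of_pos (show (0 : ℝ) < 2 by norm_num)
    unfold g
    linarith
  obtain ⟨x, hx, e⟩ := intermediate_value_Icc h1 (fun x hx =>
    (hasDerivAt_g (one_pos.trans_le hx.1)).continuousAt.continuousWithinAt)
    ⟨by rw [g_one]; exact hy, h2⟩
  exact ⟨x, hx.1, e⟩

lemma l1_eq {a : ℝ} (h1 : 1 ≤ a) : l1 (g a) = a :=
  have h := l1_spec (g_nonneg (one_pos.trans_le h1))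
  g_mono.injOn h.1 h1 h.2

lemma l1_gt {y : ℝ} (hy : 0 < y) : 1 < l1 y :=
  lt_of_le_of_ne (l1_spec hy.le).1 fun e => by
    have := (l1_spec hy.le).2
    rw [← e, g_one] at this
    linarith

lemma l1_mono {y z : ℝ} (hy : 0 ≤ y) (h : y ≤ z) : l1 y ≤ l1 z :=
  (g_mono.le_iff_le (l1_spec hy).1 (l1_spec (hy.trans h)).1).1
    (by rw [(l1_spec hy).2, (l1_spec (hy.trans h)).2]; exact h)

lemma l1_cont : ContinuousOn l1 (Ici 0) :=
  inv_cont ordConnected_Ici g_mono fun _ hy => l1_spec hy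

lemma q1_pos {y : ℝ} (hy : 0 < y) : 0 < q1 y := inv_pos.2 (sub_pos.2 (l1_gt hy))

lemma l1_deriv {y : ℝ} (hy : 0 < y) : HasDerivAt l1 (q1 y + 1) y ∧
    HasDerivAt q1 (-(q1 y ^ 2 * (q1 y + 1))) y := by
  have h1 := l1_gt hy
  have h2 : l1 y - 1 ≠ 0 := (sub_pos.2 h1).ne'
  have h0 : 0 < l1 y := by linarith
  have e : 1 - (l1 y)⁻¹ = (l1 y - 1) / l1 y := by field_simp
  have a : HasDerivAt l1 (q1 y + 1) y := by
    refine (HasDerivAt.of_local_left_inverse (l1_cont.continuousAt (Ici_mem_nhds hy))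
      (hasDerivAt_g h0) (by rw [e]; exact div_ne_zero h2 h0.ne')
      ((eventually_ge_nhds hy).mono fun u hu => (l1_spec hu).2)).congr_deriv ?_
    unfold q1
    rw [e]
    field_simp
    ring
  refine ⟨a, ((a.sub_const 1).fun_inv h2).congr_deriv ?_⟩
  unfold q1
  field_simp

lemma T1' {y z : ℝ} (hy : 0 < y) (h : y ≤ z) : q1 z + 2 / 3 ≤ p1 y :=
  T1 (s1_spec hy.le).1 (s1_lt hy) (l1_gt (hy.trans_le h))
    (by rw [(s1_spec hy.le).2.2, (l1_spec (hy.le.trans h)).2]; exact h)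

lemma T2' {y z : ℝ} (hz : 0 < z) (h : z ≤ y) :
    p1 y ^ 2 * (p1 y - 1) ≤ q1 z ^ 2 * (q1 z + 1) :=
  T2 (s1_spec (hz.le.trans h)).1 (s1_lt (hz.trans_le h)) (l1_gt hz)
    (by rw [(s1_spec (hz.le.trans h)).2.2, (l1_spec hz.le).2]; exact h)

end Pool.Agent.Lib.MP_1f4710_co.Hom
end
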