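import Mathlib
import Pool.Agent.Lib.MP_1f4710_co.Defs

/-!
Definitions used in the statements on homoscedastic mixtures for MP_1f4710_co.
-/

namespace Pool.Agent.Lib.MP_1f4710_co

open Matrix

/-- The supremum of the number of modes over all mixtures of `k` normal densities on `ℝ ^ d`
that share one covariance matrix. -/
noncomputable def homModes (d k : ℕ) : ℕ∞ :=
  ⨆ (w : Fin k → ℝ) (μ : Fin k → Fin d → ℝ) (S : Matrix (Fin d) (Fin d) ℝ)
    (_ : (∀ i, 0 < w i) ∧ ∑ i, w i = 1 ∧ S.PosDef),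
    (modes fun x => ∑ i, w i * gaussian (μ i) S x).encard

/-- The same supremum over the mixtures whose means have squared Mahalanobis distances
`β i + β j` for some positive numbers `β i`. -/
noncomputable def orthoModes (d k : ℕ) : ℕ∞ :=
  ⨆ (w : Fin k → ℝ) (μ : Fin k → Fin d → ℝ) (S : Matrix (Fin d) (Fin d) ℝ)
    (_ : (∀ i, 0 < w i) ∧ ∑ i, w i = 1 ∧ S.PosDef ∧ ∃ β : Fin k → ℝ, (∀ i, 0 < β i) ∧
      ∀ i j, i ≠ j → (μ i - μ j) ⬝ᵥ (S⁻¹ *ᵥ (μ i - μ j)) = β i + β j),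
    (modes fun x => ∑ i, w i * gaussian (μ i) S x).encard

end Pool.Agent.Lib.MP_1f4710_co
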