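import Mathlib
import Pool.Agent.Lib.MP_1f4710_co.HBr
import Pool.Agent.Lib.MP_1f4710_co.HDefs

-- part Pool.Agent.Lib.MP_1f4710_co.HAcute
section

/-!
The separable model with positive coefficients has at most `k + 1` local maxima.
-/

namespace Pool.Agent.Lib.MP_1f4710_co.Hom

open Set Filter Topology Finset

variable {ι : Type*}

lemma sum_neg_of {s : Finset ι} {w N F : ι → ℝ} (hw : ∀ i ∈ s, 0 ≤ w i) (hN : ∀ i ∈ s, 0 < N i)
    (hF : ∀ i ∈ s, 0 < w i → F i < 0) (hne : ∃ i ∈ s, 0 < w i) :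
    ∑ i ∈ s, w i * (N i * F i) < 0 := by
  obtain ⟨j, hj, hwj⟩ := hne
  rw [← Finset.sum_const_zero (s := s)]
  refine Finset.sum_lt_sum (fun i hi => ?_)
    ⟨j, hj, mul_neg_of_pos_of_neg hwj (mul_neg_of_pos_of_neg (hN j hj) (hF j hj hwj))⟩
  rcases eq_or_lt_of_le (hw i hi) with e | e
  · rw [← e, zero_mul]
  · exact (mul_neg_of_pos_of_neg e (mul_neg_of_pos_of_neg (hN i hi) (hF i hi e))).le

lemma cert1_sum {s : Finset ι} {w : ι → ℝ} {q : ℝ → ℝ} {N p : ι → ℝ → ℝ} {t : ℝ}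
    (hw : ∀ i ∈ s, 0 ≤ w i) (hN : ∀ i ∈ s, 0 < N i t) (hq : 0 < q t)
    (hp : ∀ i ∈ s, 0 < w i → 1 ≤ p i t ∧ p i t ^ 2 * (p i t - 1) ≤ q t ^ 2 * (q t + 1))
    (hne : ∃ i ∈ s, 0 < w i) (h0 : JJ a0 s w q N p t = 0) : JJ a1 s w q N p t < 0 := by
  have h := sum_neg_of hw hN (fun i hi h => cert1 (hp i hi h).1 hq (hp i hi h).2) hne
  have e : ∑ i ∈ s, w i * (N i t * (a1 (p i t) (q t) + (2 * q t ^ 2 + 2 * q t + 2) *
      a0 (p i t) (q t))) = JJ a1 s w q N p t + (2 * q t ^ 2 + 2 * q t + 2) * JJ a0 s w q N p t := by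
    unfold JJ
    rw [Finset.mul_sum, ← Finset.sum_add_distrib]
    exact Finset.sum_congr rfl fun i _ => by ring
  rw [e, h0] at h
  linarith

lemma cert2_sum {s : Finset ι} {w : ι → ℝ} {q : ℝ → ℝ} {N p : ι → ℝ → ℝ} {t : ℝ}
    (hw : ∀ i ∈ s, 0 ≤ w i) (hN : ∀ i ∈ s, 0 < N i t) (hq : 0 < q t)
    (hp : ∀ i ∈ s, 1 ≤ p i t) (hne : ∃ i ∈ s, 0 < w i) (h0 : JJ a0 s w q N p t = 0)
    (h1 : JJ a1 s w q N p t = 0) : JJ a2 s w q N p t < 0 := by
  have h := sum_neg_of hw hN (fun i hi _ => cert2 (hp i hi) hq) hne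
  have e : ∑ i ∈ s, w i * (N i t * (a2 (p i t) (q t) +
      (9 * q t ^ 2 + 20 / 3 * q t + 1) * a1 (p i t) (q t) +
      (10 * q t ^ 4 + 52 / 3 * q t ^ 3 + 13 * q t ^ 2 + 61 / 9 * q t + 34 / 27) *
      a0 (p i t) (q t))) = JJ a2 s w q N p t + (9 * q t ^ 2 + 20 / 3 * q t + 1) * JJ a1 s w q N p t
      + (10 * q t ^ 4 + 52 / 3 * q t ^ 3 + 13 * q t ^ 2 + 61 / 9 * q t + 34 / 27) *
      JJ a0 s w q N p t := by
    unfold JJ
    rw [Finset.mul_sum, Finset.mul_sum, ← Finset.sum_add_distrib, ← Finset.sum_add_distrib]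
    exact Finset.sum_congr rfl fun i _ => by ring
  rw [e, h0, h1] at h
  linarith

/-- Large branch. -/
noncomputable def Lf (c l t : ℝ) : ℝ := c * l1 (t - l)
/-- Auxiliary function of the large branch. -/
noncomputable def qf (l t : ℝ) : ℝ := q1 (t - l)
/-- Small branches. -/
noncomputable def Sf (γ o : ι → ℝ) (i : ι) (t : ℝ) : ℝ := γ i * s1 (t - o i)
/-- Slopes of the small branches. -/
noncomputable def Nf (γ o : ι → ℝ) (i : ι) (t : ℝ) : ℝ := γ i * (p1 (t - o i) - 1)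
/-- Auxiliary functions of the small branches. -/
noncomputable def pf (o : ι → ℝ) (i : ι) (t : ℝ) : ℝ := p1 (t - o i)

lemma Lf_deriv (c : ℝ) {l t : ℝ} (h : l < t) : HasDerivAt (Lf c l) (c * (qf l t + 1)) t :=
  ((l1_deriv (sub_pos.2 h)).1.comp_sub_const t l).const_mul c

lemma qf_deriv {l t : ℝ} (h : l < t) : HasDerivAt (qf l) (-(qf l t ^ 2 * (qf l t + 1))) t :=
  (l1_deriv (sub_pos.2 h)).2.comp_sub_const t l

lemma Lf_cont (c : ℝ) {l a b : ℝ} (h : l ≤ a) : ContinuousOn (Lf c l) (Set.Icc a b) :=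
  continuousOn_const.mul (l1_cont.comp (by fun_prop) fun _ ht => sub_nonneg.2 (h.trans ht.1))

lemma sys (γ o : ι → ℝ) (c : ℝ) {s : Finset ι} {l t0 : ℝ} (ho : ∀ i ∈ s, o i ≤ t0) (hl : l ≤ t0) :
    Sys t0 s c (Lf c l) (qf l) (Sf γ o) (Nf γ o) (pf o) where
  hL _ ht := Lf_deriv c (hl.trans_lt ht)
  hq _ ht := qf_deriv (hl.trans_lt ht)
  q0 _ ht := q1_pos (sub_pos.2 (hl.trans_lt ht))
  hS i hi t ht := (((s1_deriv (sub_pos.2 ((ho i hi).trans_lt ht))).1.comp_sub_const t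
    (o i)).const_mul (γ i)).congr_deriv (by unfold Nf; ring)
  hN i hi t ht := ((((s1_deriv (sub_pos.2 ((ho i hi).trans_lt ht))).2.comp_sub_const t
    (o i)).sub_const 1).const_mul (γ i)).congr_deriv (by unfold Nf pf; ring)
  hp i hi t ht := (s1_deriv (sub_pos.2 ((ho i hi).trans_lt ht))).2.comp_sub_const t (o i)

variable [Fintype ι] [DecidableEq ι]

/-- Normalized necessary conditions for a local maximum. -/
structure Md (γ l u : ι → ℝ) (t : ℝ) : Prop where
  pos : ∀ i, 0 < u i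
  sum : ∑ i, γ i * u i = 1
  eq : ∀ i, g (u i) = t - l i
  big : ∀ j, 1 < u j → (∀ i, i ≠ j → u i < 1) ∧
    ∑ i ∈ univ.erase j, γ i * ((1 - u i)⁻¹ - 1) ≤ γ j * ((u j - 1)⁻¹ + 1)

variable {γ l u v : ι → ℝ} {a b t : ℝ} {i j : ι}

lemma Md.le (h : Md γ l u t) (i : ι) : l i ≤ t := by linarith [h.eq i, g_nonneg (h.pos i)]

lemma Md.small (h : Md γ l u t) (hi : u i ≤ 1) : s1 (t - l i) = u i := by
  rw [← h.eq i, s1_eq (h.pos i) hi]

lemma Md.large (h : Md γ l u t) (hi : 1 ≤ u i) : l1 (t - l i) = u i := by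
  rw [← h.eq i, l1_eq hi]

lemma Md.lt (h : Md γ l u t) (hj : 1 < u j) (i : ι) : l i < t := by
  refine lt_of_le_of_ne (h.le i) fun e => ?_
  have h0 : g (u i) = g 1 := by rw [h.eq i, e, sub_self, g_one]
  by_cases hij : i = j
  · rw [hij] at h0
    exact hj.ne' (g_mono.injOn hj.le self_mem_Ici h0)
  · have := (h.big j hj).1 i hij
    exact this.ne (g_anti.injOn ⟨h.pos i, this.le⟩ ⟨one_pos, le_rfl⟩ h0)

lemma Md.ge (h : Md γ l u t) (i : ι) : s1 (t - l i) ≤ u i := by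
  rcases le_total (u i) 1 with hi | hi
  · exact (h.small hi).le
  · exact (s1_spec (sub_nonneg.2 (h.le i))).2.1.trans hi

lemma Md.le_l1 (h : Md γ l u t) (i : ι) : u i ≤ l1 (t - l i) := by
  rcases le_total (u i) 1 with hi | hi
  · exact hi.trans (l1_spec (sub_nonneg.2 (h.le i))).1
  · exact (h.large hi).ge

lemma Md.sumN (h : Md γ l u t) (hj : 1 < u j) :
    ∑ i ∈ univ.erase j, Nf γ l i t ≤ γ j * (qf (l j) t + 1) := by
  convert (h.big j hj).2 using 1
  · refine Finset.sum_congr rfl fun i hi => ?_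
    unfold Nf p1
    rw [h.small ((h.big j hj).1 i (ne_of_mem_erase hi)).le]
  · unfold qf q1
    rw [h.large hj.le]

lemma Md.HH_le (h : Md γ l u t) (hj : 1 < u j) :
    HH (univ.erase j) (qf (l j)) (Nf γ l) t ≤ γ j :=
  (div_le_iff₀ (by linarith [q1_pos (sub_pos.2 (h.lt hj j)), show qf (l j) t = q1 (t - l j)
    from rfl])).2 (h.sumN hj)

lemma Md.PH_eq (h : Md γ l u t) (hj : 1 < u j) :
    PH (univ.erase j) (Lf (γ j) (l j)) (Sf γ l) t = 1 := by
  rw [← h.sum, ← Finset.add_sum_erase _ _ (mem_univ j)]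
  unfold PH Lf Sf
  rw [h.large hj.le]
  congr 1
  exact Finset.sum_congr rfl fun i hi => by
    rw [h.small ((h.big j hj).1 i (ne_of_mem_erase hi)).le]

lemma Md.exists_t0 (h : Md γ l u t) (hj : 1 < u j) : ∃ t0, t0 < t ∧ ∀ i, l i ≤ t0 :=
  ⟨univ.sup' ⟨j, mem_univ j⟩ l, (Finset.sup'_lt_iff _).2 fun i _ => h.lt hj i,
    fun i => Finset.le_sup' l (mem_univ i)⟩

omit [Fintype ι] [DecidableEq ι] in
lemma Nf_pos (hγ : ∀ i, 0 < γ i) {o : ι → ℝ} (h : o i < t) : 0 < Nf γ o i t :=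
  mul_pos (hγ i) (sub_pos.2 (p1_gt (sub_pos.2 h)))

lemma early_z (hγ : ∀ i, 0 < γ i) (hu : Md γ l u b) (hv : Md γ l v a) (huj : 1 < u j)
    (hvj : 1 < v j) (hba : b < a) : ∃ z, b < z ∧ γ j < HH (univ.erase j) (qf (l j)) (Nf γ l) z ∧
      0 < JJ a0 (univ.erase j) 1 (qf (l j)) (Nf γ l) (pf l) z := by
  obtain ⟨t0, ht0, hl⟩ := hu.exists_t0 huj
  obtain ⟨z, hz, h1, h2⟩ := (sys γ l (γ j) (s := univ.erase j) (fun i _ => hl i) (hl j)).early ht0 hba
    (by rw [hu.PH_eq huj, hv.PH_eq hvj]) (hu.HH_le huj) fun w hw h0 h1 h2 h3 => by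
      have hw' : ∀ i, l i < w := fun i => (hu.lt huj i).trans hw.1
      refine (cert2_sum (q := qf (l j)) (N := Nf γ l) (p := pf l) (fun _ _ => zero_le_one)
        (fun i _ => Nf_pos hγ (hw' i))
        (q1_pos (sub_pos.2 (hw' j))) (fun i _ => (p1_gt (sub_pos.2 (hw' i))).le) ?_ h1 h2).ne h3
      by_contra hc
      have : univ.erase j = ∅ := Finset.eq_empty_of_forall_notMem fun i hi => hc ⟨i, hi, one_pos⟩
      rw [this] at h0
      simp [HH] at h0
      exact (hγ j).ne h0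
  exact ⟨z, hz.1, h1, h2⟩

lemma hat_facts (hγ : ∀ i, 0 < γ i) (hu : Md γ l u b) (huj : 1 < u j) {z : ℝ} (hbz : b < z)
    (hz : 0 < JJ a0 (univ.erase j) 1 (qf (l j)) (Nf γ l) (pf l) z) :
    (∀ t, l j < t → t ≤ b →
      ∑ i ∈ univ.erase j, Nf γ (fun i => min (l i) (l j)) i t ≤ γ j * (qf (l j) t + 1)) ∧
    ∀ t, l j ≤ t → t < b →
      PH (univ.erase j) (Lf (γ j) (l j)) (Sf γ fun i => min (l i) (l j)) t < 1 := by
  set o : ι → ℝ := fun i => min (l i) (l j) with ho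
  have hoj : ∀ i, o i ≤ l j := fun i => min_le_right _ _
  have hoi : ∀ i, o i ≤ l i := fun i => min_le_left _ _
  have hS := sys γ o (γ j) (s := univ.erase j) (fun i _ => hoj i) le_rfl
  have hzi : ∀ i, 0 < z - l i := fun i => sub_pos.2 ((hu.lt huj i).trans hbz)
  have hz' : 0 < JJ a0 (univ.erase j) 1 (qf (l j)) (Nf γ o) (pf o) z := by
    refine hz.trans_le (Finset.sum_le_sum fun i _ => ?_)
    rcases le_total (l i) (l j) with h | h
    · simp only [Nf, pf, ho, min_eq_left h, le_refl]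
    · simp only [Nf, pf, ho, min_eq_right h, Pi.one_apply, one_mul, qf, a0, mul_assoc]
      refine mul_le_mul_of_nonneg_left ?_ (hγ i).le
      have h1 := p1_anti (hzi i) (show z - l i ≤ z - l j by linarith)
      have h2 := T1' (hzi j) le_rfl
      have h3 := p1_gt (hzi j)
      have h4 := q1_pos (hzi j)
      have h5 : p1 (z - l j) ^ 2 - q1 (z - l j) ^ 2 ≤ p1 (z - l i) ^ 2 - q1 (z - l j) ^ 2 := by
        nlinarith
      have h6 : 0 ≤ p1 (z - l j) ^ 2 - q1 (z - l j) ^ 2 := by nlinarith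
      linarith [mul_le_mul (sub_le_sub_right h1 1) h5 h6 (by linarith)]
  have hne : ∃ i ∈ univ.erase j, 0 < (1 : ι → ℝ) i := by
    by_contra hc
    have : univ.erase j = ∅ := Finset.eq_empty_of_forall_notMem fun i hi => hc ⟨i, hi, one_pos⟩
    rw [this] at hz
    simp [JJ] at hz
  have hJ : ∀ w, l j < w → HH (univ.erase j) (qf (l j)) (Nf γ o) w ≤ γ j →
      JJ a0 (univ.erase j) 1 (qf (l j)) (Nf γ o) (pf o) w = 0 →
      JJ a1 (univ.erase j) 1 (qf (l j)) (Nf γ o) (pf o) w < 0 := fun w hw _ h0 =>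
    cert1_sum (fun _ _ => zero_le_one) (fun i _ => Nf_pos hγ ((hoj i).trans_lt hw))
      (q1_pos (sub_pos.2 hw)) (fun i _ _ => ⟨(p1_gt (sub_pos.2 ((hoj i).trans_lt hw))).le,
        T2' (sub_pos.2 hw) (sub_le_sub_left (hoj i) w)⟩) hne h0
  have hH : HH (univ.erase j) (qf (l j)) (Nf γ o) b ≤ γ j := by
    refine le_trans ?_ (hu.HH_le huj)
    refine div_le_div_of_nonneg_right (Finset.sum_le_sum fun i _ => ?_)
      (by linarith [hS.q0 b (hu.lt huj j)])
    exact mul_le_mul_of_nonneg_left (sub_le_sub_right (p1_anti (sub_pos.2 (hu.lt huj i))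
      (sub_le_sub_left (hoi i) b)) 1) (hγ i).le
  refine ⟨fun t ht htb => (div_le_iff₀ (by linarith [hS.q0 t ht])).1
    (hS.bind_le hJ hbz.le hH hz' ht htb), fun t ht htb => ?_⟩
  refine (hS.bind_lt hJ hbz.le hH hz' ht htb ?_).trans_le ?_
  · refine (Lf_cont _ ht).add (continuousOn_finsetSum _ fun i _ => continuousOn_const.mul ?_)
    exact s1_cont.comp (by fun_prop) fun x hx => sub_nonneg.2 ((hoj i).trans (ht.trans hx.1))
  · rw [← hu.PH_eq huj]
    refine add_le_add le_rfl (Finset.sum_le_sum fun i _ => ?_)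
    exact mul_le_mul_of_nonneg_left (s1_anti (sub_nonneg.2 (hu.le i))
      (sub_le_sub_left (hoi i) b)) (hγ i).le

lemma K_facts (hγ : ∀ i, 0 < γ i) (hu : Md γ l u b) (huj : 1 < u j) {z : ℝ} (hbz : b < z)
    (hH : γ j < HH (univ.erase j) (qf (l j)) (Nf γ l) z)
    (hz : 0 < JJ a0 (univ.erase j) 1 (qf (l j)) (Nf γ l) (pf l) z) :
    2 / 3 * (γ j + ∑ i ∈ (univ.erase j).filter fun i => ¬l i < l j, γ i) <
      ∑ i ∈ (univ.erase j).filter fun i => l i < l j, Nf γ l i b ∧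
    ∑ i ∈ (univ.erase j).filter fun i => ¬l i < l j, γ i < γ j := by
  set sE := (univ.erase j).filter fun i => l i < l j
  set sL := (univ.erase j).filter fun i => ¬l i < l j
  have hL : ∀ i ∈ sL, l j ≤ l i := fun i hi => not_lt.1 (mem_filter.1 hi).2
  have hbi : ∀ i, l i < b := hu.lt huj
  have hzi : ∀ i, l i < z := fun i => (hbi i).trans hbz
  have hq : 0 < qf (l j) z := q1_pos (sub_pos.2 (hzi j))
  have hT : ∀ t, (∀ i, l i < t) → ∀ i ∈ sL, qf (l j) t + 2 / 3 ≤ pf l i t := fun t ht i hi =>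
    T1' (sub_pos.2 (ht i)) (sub_le_sub_left (hL i hi) t)
  have e1 : ∑ i ∈ sE, Nf γ l i z * a0 (pf l i z) (qf (l j) z) ≤
      (∑ i ∈ sE, Nf γ l i z) * (qf (l j) z ^ 2 - 1) := by
    rw [Finset.sum_mul]
    refine Finset.sum_le_sum fun i _ => mul_le_mul_of_nonneg_left ?_ (Nf_pos hγ (hzi i)).le
    have : 1 < pf l i z := p1_gt (sub_pos.2 (hzi i))
    unfold a0
    nlinarith
  have e0 : 0 < ∑ i ∈ sE, Nf γ l i z * a0 (pf l i z) (qf (l j) z) +
      ∑ i ∈ sL, Nf γ l i z * a0 (pf l i z) (qf (l j) z) := by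
    rw [Finset.sum_filter_add_sum_filter_not]
    simpa [JJ] using hz
  have e2 : ∑ i ∈ sL, Nf γ l i z * a0 (pf l i z) (qf (l j) z) ≤ 0 :=
    Finset.sum_nonpos fun i hi => mul_nonpos_of_nonneg_of_nonpos (Nf_pos hγ (hzi i)).le (by
      have := hT z hzi i hi
      unfold a0
      nlinarith)
  have e3 : 1 < qf (l j) z → ∑ i ∈ sL, Nf γ l i z * a0 (pf l i z) (qf (l j) z) ≤
      -(2 / 3 * (qf (l j) z - 1 / 3) * ∑ i ∈ sL, γ i * (pf l i z + qf (l j) z)) := fun hq1 => by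
    rw [Finset.mul_sum, ← Finset.sum_neg_distrib]
    refine Finset.sum_le_sum fun i hi => ?_
    have h1 := hT z hzi i hi
    have h2 : (qf (l j) z - 1 / 3) * (2 / 3) ≤ (pf l i z - 1) * (pf l i z - qf (l j) z) :=
      mul_le_mul (by linarith) (by linarith) (by norm_num) (by linarith)
    have h3 := mul_le_mul_of_nonneg_left h2
      (mul_nonneg (hγ i).le (show 0 ≤ pf l i z + qf (l j) z by linarith))
    change γ i * (pf l i z - 1) * _ ≤ _
    unfold a0
    linarith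
  have e4 : (γ j + ∑ i ∈ sL, γ i) * (qf (l j) z + 1) <
      ∑ i ∈ sE, Nf γ l i z + ∑ i ∈ sL, γ i * (pf l i z + qf (l j) z) := by
    unfold HH at hH
    rw [lt_div_iff₀ (by linarith), ← Finset.sum_filter_add_sum_filter_not _ fun i => l i < l j]
      at hH
    have : ∑ i ∈ sL, γ i * (pf l i z + qf (l j) z) =
        ∑ i ∈ sL, Nf γ l i z + (∑ i ∈ sL, γ i) * (qf (l j) z + 1) := by
      rw [Finset.sum_mul, ← Finset.sum_add_distrib]
      exact Finset.sum_congr rfl fun i _ => by unfold Nf pf; ring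
    linarith
  have k := alg_K hq (Finset.sum_nonneg fun i _ => (Nf_pos hγ (hzi i)).le)
    (fun hq1 => by linarith [e3 hq1]) (by linarith) e4
  have k1 : ∑ i ∈ sE, Nf γ l i z ≤ ∑ i ∈ sE, Nf γ l i b := Finset.sum_le_sum fun i _ =>
    mul_le_mul_of_nonneg_left (sub_le_sub_right (p1_anti (sub_pos.2 (hbi i))
      (sub_le_sub_right hbz.le _)) 1) (hγ i).le
  refine ⟨k.trans_le k1, ?_⟩
  have k2 := hu.sumN huj
  rw [← Finset.sum_filter_add_sum_filter_not _ fun i => l i < l j] at k2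
  have k3 : (∑ i ∈ sL, γ i) * (qf (l j) b - 1 / 3) ≤ ∑ i ∈ sL, Nf γ l i b := by
    rw [Finset.sum_mul]
    exact Finset.sum_le_sum fun i hi => mul_le_mul_of_nonneg_left
      (by linarith [hT b hbi i hi, show pf l i b = p1 (b - l i) from rfl]) (hγ i).le
  have hqb : 0 < qf (l j) b := q1_pos (sub_pos.2 (hbi j))
  exact lt_of_mul_lt_mul_right (a := qf (l j) b + 1 / 3) (by linarith) (by linarith)

lemma low_false (hγ : ∀ i, 0 < γ i) (hu : Md γ l u b) (huj : 1 < u j) {x : ι → ℝ}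
    (hx : Md γ l x a) (hxj : 1 < x j) (hba : b < a) (hv : Md γ l v t) (htb : t ≤ b)
    (hvj : v j ≤ 1) (hvE : ∀ i, l i < l j → v i ≤ 1) : False := by
  obtain ⟨z, hbz, hH, hz⟩ := early_z hγ hu hx huj hxj hba
  obtain ⟨-, hK⟩ := K_facts hγ hu huj hbz hH hz
  have hP := (hat_facts hγ hu huj hbz hz).2
  have hy : 0 ≤ t - l j := sub_nonneg.2 (hv.le j)
  have key : 1 + (γ j - ∑ i ∈ (univ.erase j).filter fun i => ¬l i < l j, γ i) *
      (l1 (t - l j) - s1 (t - l j)) ≤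
      PH (univ.erase j) (Lf (γ j) (l j)) (Sf γ fun i => min (l i) (l j)) t := by
    rw [← hv.sum, ← Finset.add_sum_erase _ _ (mem_univ j)]
    unfold PH Lf
    rw [← Finset.sum_filter_add_sum_filter_not _ fun i => l i < l j,
      ← Finset.sum_filter_add_sum_filter_not (univ.erase j) (fun i => l i < l j) (Sf _ _ · t)]
    have e1 : ∑ i ∈ (univ.erase j).filter fun i => l i < l j, γ i * v i =
        ∑ i ∈ (univ.erase j).filter fun i => l i < l j, Sf γ (fun i => min (l i) (l j)) i t :=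
      Finset.sum_congr rfl fun i hi => by
        have := (mem_filter.1 hi).2
        simp only [Sf, min_eq_left this.le, hv.small (hvE i this)]
    have e2 : ∑ i ∈ (univ.erase j).filter fun i => ¬l i < l j, γ i * v i ≤
        ∑ i ∈ (univ.erase j).filter fun i => ¬l i < l j, Sf γ (fun i => min (l i) (l j)) i t +
        (∑ i ∈ (univ.erase j).filter fun i => ¬l i < l j, γ i) * (l1 (t - l j) - s1 (t - l j)) := by
      rw [Finset.sum_mul, ← Finset.sum_add_distrib]
      refine Finset.sum_le_sum fun i hi => ?_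
      have := not_lt.1 (mem_filter.1 hi).2
      have h1 := (hv.le_l1 i).trans (l1_mono (sub_nonneg.2 (hv.le i)) (sub_le_sub_left this t))
      simp only [Sf, min_eq_right this]
      linarith [mul_le_mul_of_nonneg_left h1 (hγ i).le]
    rw [← hv.small hvj]
    linarith
  rcases eq_or_lt_of_le htb with e | e
  · subst e
    have h1 : 0 < l1 (t - l j) - s1 (t - l j) := by
      rw [hu.large huj.le, hv.small hvj]; linarith
    have h2 := mul_pos (sub_pos.2 hK) h1
    have h3 : PH (univ.erase j) (Lf (γ j) (l j)) (Sf γ fun i => min (l i) (l j)) t ≤ 1 := by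
      rw [← hu.PH_eq huj]
      refine add_le_add le_rfl (Finset.sum_le_sum fun i _ => ?_)
      exact mul_le_mul_of_nonneg_left (s1_anti (sub_nonneg.2 (hu.le i))
        (sub_le_sub_left (min_le_left _ _) t)) (hγ i).le
    linarith
  · have h1 : 0 ≤ l1 (t - l j) - s1 (t - l j) := by
      linarith [(l1_spec hy).1, (s1_spec hy).2.1]
    linarith [hP t (hv.le j) e, mul_nonneg (sub_pos.2 hK).le h1]

lemma high_false (hγ : ∀ i, 0 < γ i) (hu : Md γ l u b) (huj : 1 < u j) {x y : ι → ℝ}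
    (hx : Md γ l x a) (hxj : 1 < x j) (hba : b < a) (hv : Md γ l v t) (htb : b ≤ t)
    (hvi : 1 < v i) {a' : ℝ} (hy : Md γ l y a') (hyi : 1 < y i) (hta : t < a') (hij : i ≠ j)
    (hl : l j ≤ l i) : False := by
  obtain ⟨z, hbz, hH, hz⟩ := early_z hγ hu hx huj hxj hba
  obtain ⟨hK, -⟩ := K_facts hγ hu huj hbz hH hz
  obtain ⟨z', hbz', -, hz'⟩ := early_z hγ hv hy hvi hyi hta
  have h1 := (hat_facts hγ hv hvi hbz' hz').1 b (hu.lt huj i) htb
  have h2 := hu.sumN huj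
  have hbi : ∀ i, l i < b := hu.lt huj
  set sE := (univ.erase j).filter fun i => l i < l j with hsE
  have hjE : j ∉ sE := by simp [hsE]
  have hiE : i ∉ sE := by simp [hsE, hl]
  have k1 : Nf γ l j b + ∑ k ∈ sE, Nf γ l k b ≤
      ∑ k ∈ univ.erase i, Nf γ (fun k => min (l k) (l i)) k b := by
    rw [← Finset.sum_insert (f := fun k => Nf γ l k b) hjE]
    have e : ∑ k ∈ insert j sE, Nf γ l k b =
        ∑ k ∈ insert j sE, Nf γ (fun k => min (l k) (l i)) k b :=
      Finset.sum_congr rfl fun k hk => by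
        have : l k ≤ l i := by
          rcases mem_insert.1 hk with e | e
          · rw [e]; exact hl
          · exact (mem_filter.1 e).2.le.trans hl
        simp only [Nf, min_eq_left this]
    rw [e]
    refine Finset.sum_le_sum_of_subset_of_nonneg (fun k hk => ?_)
      fun k _ _ => (Nf_pos hγ ((min_le_left _ _).trans_lt (hbi k))).le
    refine mem_erase.2 ⟨?_, mem_univ _⟩
    rintro rfl
    exact (mem_insert.1 hk).elim hij hiE
  have k2 : Nf γ l i b + ∑ k ∈ sE, Nf γ l k b ≤ ∑ k ∈ univ.erase j, Nf γ l k b := by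
    rw [← Finset.sum_insert (f := fun k => Nf γ l k b) hiE]
    refine Finset.sum_le_sum_of_subset_of_nonneg (fun k hk => ?_)
      fun k _ _ => (Nf_pos hγ (hbi k)).le
    rcases mem_insert.1 hk with e | e
    · rw [e]; exact mem_erase.2 ⟨hij, mem_univ _⟩
    · exact (mem_filter.1 e).1
  have k3 : γ i ≤ ∑ k ∈ (univ.erase j).filter fun i => ¬l i < l j, γ k :=
    Finset.single_le_sum (fun k _ => (hγ k).le)
      (mem_filter.2 ⟨mem_erase.2 ⟨hij, mem_univ _⟩, not_lt.2 hl⟩)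
  have k4 := mul_le_mul_of_nonneg_left (T1' (sub_pos.2 (hbi i)) le_rfl) (hγ i).le
  have k5 := mul_le_mul_of_nonneg_left (T1' (sub_pos.2 (hbi j)) le_rfl) (hγ j).le
  unfold Nf qf at *
  linarith

lemma three_false (hγ : ∀ i, 0 < γ i) (hu : Md γ l u b) (huj : 1 < u j) {x : ι → ℝ}
    (hx : Md γ l x a) (hxj : 1 < x j) (hba : b < a) (hv : Md γ l v t) (htb : t < b)
    (hvj : 1 < v j) : False := by
  obtain ⟨z, hbz, -, hz⟩ := early_z hγ hu hx huj hxj hba
  obtain ⟨t0, ht0, hl⟩ := hv.exists_t0 hvj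
  have hti : ∀ i, l i < t := hv.lt hvj
  set E : ι → ℝ := fun i => if l i ≤ l j then 1 else 0 with hE
  have hL : ∀ w, t < w → ∀ i, l j ≤ l i → a0 (pf l i w) (qf (l j) w) < 0 := fun w hw i hi => by
    have h1 : qf (l j) w + 2 / 3 ≤ pf l i w :=
      T1' (sub_pos.2 ((hti i).trans hw)) (sub_le_sub_left hi w)
    have h2 : 0 < qf (l j) w := q1_pos (sub_pos.2 ((hti j).trans hw))
    unfold a0
    nlinarith
  have hne : ∃ i ∈ univ.erase j, l i ≤ l j := by
    by_contra hc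
    push Not at hc
    refine absurd hz (not_lt.2 (Finset.sum_nonpos fun i hi => ?_))
    have := mul_neg_of_pos_of_neg (Nf_pos hγ ((hti i).trans (htb.trans hbz)))
      (hL z (htb.trans hbz) i (hc i hi).le)
    simpa using this.le
  obtain ⟨i0, hi0, hi0l⟩ := hne
  refine (sys γ l (γ j) (fun i _ => hl i) (hl j)).three E ht0 htb hba
    (by rw [hu.PH_eq huj, hv.PH_eq hvj]) (by rw [hu.PH_eq huj, hx.PH_eq hxj]) (hv.HH_le hvj)
    (hu.HH_le huj) (fun w hw h0 => ?_) (fun w hw => ?_) fun w hw θ hθ _ h0 h1 => ?_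
  · refine cert1_sum (fun i _ => ?_) (fun i _ => Nf_pos hγ ((hti i).trans hw))
      (q1_pos (sub_pos.2 ((hti j).trans hw))) (fun i _ hi => ⟨(p1_gt (sub_pos.2
        ((hti i).trans hw))).le, T2' (sub_pos.2 ((hti j).trans hw)) (sub_le_sub_left ?_ w)⟩)
      ⟨i0, hi0, by simp [hE, hi0l]⟩ h0
    · simp only [hE]; split_ifs <;> norm_num
    · by_contra hc
      simp [hE, hc] at hi
  · refine Finset.sum_nonpos fun i _ => ?_
    by_cases hi : l i ≤ l j
    · simp [hE, hi]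
    · have := mul_neg_of_pos_of_neg (Nf_pos hγ ((hti i).trans hw)) (hL w hw i (not_le.1 hi).le)
      simpa [hE, hi] using this.le
  · refine cert2_sum (fun i _ => ?_) (fun i _ => Nf_pos hγ ((hti i).trans hw))
      (q1_pos (sub_pos.2 ((hti j).trans hw)))
      (fun i _ => (p1_gt (sub_pos.2 ((hti i).trans hw))).le) ⟨i0, hi0, by simp [hE, hi0l]⟩ h0 h1
    by_cases hi : l i ≤ l j <;> simp [hE, hi, hθ.le]

lemma small_le (hγ : ∀ i, 0 < γ i) (hu : Md γ l u b) (hv : Md γ l v t) (hs : ∀ i, v i ≤ 1)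
    (h : b ≤ t) : u = v := by
  have h1 : ∀ i, v i ≤ u i := fun i => by
    rw [← hv.small (hs i)]
    exact (s1_anti (sub_nonneg.2 (hu.le i)) (sub_le_sub_right h _)).trans (hu.ge i)
  have h2 := (Finset.sum_eq_sum_iff_of_le (s := univ) fun i _ =>
    mul_le_mul_of_nonneg_left (h1 i) (hγ i).le).1 (hv.sum.trans hu.sum.symm)
  exact funext fun i => (mul_left_cancel₀ (hγ i).ne' (h2 i (mem_univ i))).symm

lemma same_eq (hu : Md γ l u t) (hv : Md γ l v t) (huj : 1 < u j) (hvj : 1 < v j) : u = v := by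
  funext i
  by_cases h : i = j
  · rw [h, ← hu.large huj.le, ← hv.large hvj.le]
  · rw [← hu.small ((hu.big j huj).1 i h).le, ← hv.small ((hv.big j hvj).1 i h).le]

/-- A local maximum that is followed by another one on its branch. -/
def Early (γ l u : ι → ℝ) (b : ℝ) : Prop :=
  (∀ i, u i ≤ 1) ∨ ∃ j x a, 1 < u j ∧ Md γ l x a ∧ 1 < x j ∧ b < a

lemma early_unique (hγ : ∀ i, 0 < γ i) (hu : Md γ l u b) (hv : Md γ l v t)
    (eu : Early γ l u b) (ev : Early γ l v t) : u = v := by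
  have A : ∀ {u v : ι → ℝ} {b t : ℝ}, Md γ l u b → Md γ l v t → Early γ l u b → (∀ i, v i ≤ 1) →
      u = v := by
    intro u v b t hu hv eu hs
    rcases le_total b t with h | h
    · exact small_le hγ hu hv hs h
    · rcases eu with eu | ⟨j, x, a, huj, hx, hxj, hba⟩
      · exact (small_le hγ hv hu eu h).symm
      · exact (low_false hγ hu huj hx hxj hba hv h (hs j) fun i _ => hs i).elim
  have B : ∀ {u v x y : ι → ℝ} {b t a a' : ℝ} {i j : ι}, Md γ l u b → Md γ l v t → 1 < u j →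
      Md γ l x a → 1 < x j → b < a → 1 < v i → Md γ l y a' → 1 < y i → t < a' → i ≠ j →
      l j ≤ l i → False := by
    intro u v x y b t a a' i j hu hv huj hx hxj hba hvi hy hyi hta hij hl
    rcases le_total b t with h | h
    · exact high_false hγ hu huj hx hxj hba hv h hvi hy hyi hta hij hl
    · refine low_false hγ hu huj hx hxj hba hv h ((hv.big i hvi).1 j hij.symm).le fun k hk => ?_
      refine ((hv.big i hvi).1 k ?_).le
      rintro rfl
      linarith
  rcases ev with ev | ⟨i, y, a', hvi, hy, hyi, hta⟩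
  · exact A hu hv eu ev
  rcases eu with eu | ⟨j, x, a, huj, hx, hxj, hba⟩
  · exact (A hv hu (Or.inr ⟨i, y, a', hvi, hy, hyi, hta⟩) eu).symm
  by_cases hij : i = j
  · subst hij
    rcases lt_trichotomy b t with h | h | h
    · exact (three_false hγ hv hvi hy hyi hta hu h huj).elim
    · subst h; exact same_eq hu hv huj hvi
    · exact (three_false hγ hu huj hx hxj hba hv h hvi).elim
  · rcases le_total (l j) (l i) with h | h
    · exact (B hu hv huj hx hxj hba hvi hy hyi hta hij h).elim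
    · exact (B hv hu hvi hy hyi hta huj hx hxj hba (Ne.symm hij) h).elim

theorem encard_Md (hγ : ∀ i, 0 < γ i) (l : ι → ℝ) :
    {u | ∃ t, Md γ l u t}.encard ≤ (Fintype.card ι + 1 : ℕ) := by
  classical
  have h : ∀ u : {u | ∃ t, Md γ l u t}, ∃ o : Option ι, ∃ t, Md γ l u t ∧
      (o = none → Early γ l u t) ∧ ∀ j, o = some j → ¬Early γ l u t ∧ 1 < u.1 j := by
    rintro ⟨u, t, hu⟩
    by_cases e : Early γ l u t
    · exact ⟨none, t, hu, fun _ => e, fun j hj => by simp at hj⟩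
    · have : ∃ j, 1 < u j := by
        by_contra hc
        push Not at hc
        exact e (Or.inl hc)
      obtain ⟨j, hj⟩ := this
      exact ⟨some j, t, hu, fun h => by simp at h, fun k hk => by
        obtain rfl := Option.some.inj hk
        exact ⟨e, hj⟩⟩
  choose f hf using h
  have hinj : Function.Injective f := by
    intro u v huv
    obtain ⟨b, hu, hu1, hu2⟩ := hf u
    obtain ⟨t, hv, hv1, hv2⟩ := hf v
    refine Subtype.ext ?_
    rcases ho : f u with _ | j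
    · exact early_unique hγ hu hv (hu1 ho) (hv1 (huv ▸ ho))
    · obtain ⟨eu, huj⟩ := hu2 j ho
      obtain ⟨ev, hvj⟩ := hv2 j (huv ▸ ho)
      rcases lt_trichotomy b t with h | h | h
      · exact (eu (Or.inr ⟨j, v, t, huj, hv, hvj, h⟩)).elim
      · subst h; exact same_eq hu hv huj hvj
      · exact (ev (Or.inr ⟨j, u, b, hvj, hu, huj, h⟩)).elim
  have := ENat.card_le_card_of_injective hinj
  rwa [ENat.card_eq_coe_fintype_card (α := Option ι), Fintype.card_option] at this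

end Pool.Agent.Lib.MP_1f4710_co.Hom
end

-- part Pool.Agent.Lib.MP_1f4710_co.HObt
section

/-!
The separable model with three components, one of which has a nonpositive coefficient.
-/

namespace Pool.Agent.Lib.MP_1f4710_co.Hom

open Set Filter Topology

/-- Necessary conditions for a local maximum with three components. -/
structure M3 (βj βi βe cj ci ce x y z t : ℝ) : Prop where
  px : 0 < x
  py : 0 < y
  pz : 0 < z
  sum : x + y + z = 1
  ex : eta βj cj x = t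
  ey : eta βi ci y = t
  ez : eta βe ce z = t
  bx : 1 < βj * x → βi * y < 1 ∧
    βj * (y * (1 - βi * y)⁻¹ + z * (1 - βe * z)⁻¹) ≤ (βj * x - 1)⁻¹ + 1
  by' : 1 < βi * y → βj * x < 1 ∧
    βi * (x * (1 - βj * x)⁻¹ + z * (1 - βe * z)⁻¹) ≤ (βi * y - 1)⁻¹ + 1

variable {βj βi βe cj ci ce x y z t x' y' z' t' x'' y'' z'' t'' : ℝ}

lemma M3.swap (h : M3 βj βi βe cj ci ce x y z t) : M3 βi βj βe ci cj ce y x z t :=
  ⟨h.py, h.px, h.pz, by linarith [h.sum], h.ey, h.ex, h.ez, h.by', h.bx⟩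

lemma sm_le {β c a : ℝ} (ha : 0 < a) : Dom β c (eta β c a) ∧ sm β c (eta β c a) ≤ a := by
  rcases le_total (β * a) 1 with h | h
  · exact ⟨⟨a, ⟨ha, h⟩, rfl⟩, (sm_eq ha h).le⟩
  · have hβ : 0 < β := (pos_iff_pos_of_mul_pos (one_pos.trans_le h)).2 ha
    have hd : Dom β c (eta β c a) := dom_of_pos hβ (by
      rw [eta_eq_g hβ c ha]; linarith [g_nonneg (mul_pos hβ ha)])
    exact ⟨hd, le_of_mul_le_mul_left ((sm_spec hd).1.2.trans h) hβ⟩

lemma le_of_eta {β c a a' : ℝ} (ha : 0 < a) (ha' : 0 < a') (h1 : β * a' ≤ 1)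
    (h : eta β c a ≤ eta β c a') : a' ≤ a := by
  rw [← sm_eq (c := c) ha' h1]
  exact (sm_anti (sm_le ha).1 (sm_le ha').1 h).trans (sm_le ha).2

lemma M3.small_le (he : βe ≤ 0) (hu : M3 βj βi βe cj ci ce x y z t)
    (hv : M3 βj βi βe cj ci ce x' y' z' t') (h1 : βj * x' ≤ 1) (h2 : βi * y' ≤ 1) (h : t ≤ t') :
    x = x' ∧ y = y' ∧ z = z' := by
  have a := le_of_eta (c := cj) hu.px hv.px h1 (by rw [hu.ex, hv.ex]; exact h)
  have b := le_of_eta (c := ci) hu.py hv.py h2 (by rw [hu.ey, hv.ey]; exact h)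
  have c := le_of_eta (c := ce) hu.pz hv.pz
    ((mul_nonpos_of_nonpos_of_nonneg he hv.pz.le).trans zero_le_one) (by rw [hu.ez, hv.ez]; exact h)
  refine ⟨?_, ?_, ?_⟩ <;> linarith [hu.sum, hv.sum]

lemma M3.same (he : βe ≤ 0) (hu : M3 βj βi βe cj ci ce x y z t)
    (hv : M3 βj βi βe cj ci ce x' y' z' t) (h1 : 1 < βj * x) (h2 : 1 < βj * x') :
    x = x' ∧ y = y' ∧ z = z' := by
  have b : y = y' := (eta_anti βi ci).injOn ⟨hu.py, (hu.bx h1).1.le⟩ ⟨hv.py, (hv.bx h2).1.le⟩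
    (hu.ey.trans hv.ey.symm)
  have c : z = z' := (eta_anti βe ce).injOn
    ⟨hu.pz, (mul_nonpos_of_nonpos_of_nonneg he hu.pz.le).trans zero_le_one⟩
    ⟨hv.pz, (mul_nonpos_of_nonpos_of_nonneg he hv.pz.le).trans zero_le_one⟩
    (hu.ez.trans hv.ez.symm)
  exact ⟨by linarith [hu.sum, hv.sum], b, c⟩

/-- A small branch that is regular after the time `t0`. -/
def Reg (β c t0 : ℝ) : Prop := β ≤ 0 ∨ 0 < β ∧ 1 + Real.log β + c ≤ t0

lemma Reg.dom {β c t0 t : ℝ} (h : Reg β c t0) (ht : t0 ≤ t) : Dom β c t :=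
  h.elim (fun h => dom_of_nonpos h c t) fun h => dom_of_pos h.1 (h.2.trans ht)

lemma g_sm {β c t : ℝ} (hβ : 0 < β) (h : Dom β c t) :
    g (β * sm β c t) = t - (1 + Real.log β + c) := by
  have := (sm_spec h).2
  rw [eta_eq_g hβ c (sm_spec h).1.1] at this
  linarith

lemma Reg.lt {β c t0 t : ℝ} (h : Reg β c t0) (ht : t0 < t) : β * sm β c t < 1 := by
  have h1 := sm_spec (h.dom ht.le)
  rcases h with h | h
  · linarith [mul_nonpos_of_nonpos_of_nonneg h h1.1.1.le]
  · refine lt_of_le_of_ne h1.1.2 fun e => ?_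
    have := g_sm h.1 (Reg.dom (Or.inr h) ht.le)
    rw [e, g_one] at this
    linarith [h.2]

lemma Reg.deriv {β c t0 t : ℝ} (h : Reg β c t0) (ht : t0 < t) :
    HasDerivAt (sm β c) (-sN β c t) t ∧ HasDerivAt (sN β c) (-(sN β c t * sP β c t ^ 2)) t ∧
      HasDerivAt (sP β c) (-(sP β c t ^ 2 * (sP β c t - 1))) t :=
  sm_deriv ((eventually_ge_nhds ht).mono fun _ hu => h.dom hu) (h.lt ht)

lemma Reg.pos {β c t0 t : ℝ} (h : Reg β c t0) (ht : t0 < t) :
    0 < sP β c t ∧ 0 < sN β c t ∧ β * sN β c t = sP β c t - 1 := by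
  have h1 := sub_pos.2 (h.lt ht)
  have h2 := (sm_spec (h.dom ht.le)).1.1
  refine ⟨inv_pos.2 h1, mul_pos h2 (inv_pos.2 h1), ?_⟩
  unfold sN sP
  field_simp
  ring

lemma sys3 (c : ℝ) {l t0 : ℝ} (hi : Reg βi ci t0) (he : Reg βe ce t0) (hl : l ≤ t0) :
    Sys t0 Finset.univ c (Lf c l) (qf l) ![sm βi ci, sm βe ce] ![sN βi ci, sN βe ce]
      ![sP βi ci, sP βe ce] where
  hL _ ht := Lf_deriv c (hl.trans_lt ht)
  hq _ ht := qf_deriv (hl.trans_lt ht)
  q0 _ ht := q1_pos (sub_pos.2 (hl.trans_lt ht))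
  hS k _ t ht := by fin_cases k; exacts [(hi.deriv ht).1, (he.deriv ht).1]
  hN k _ t ht := by fin_cases k; exacts [(hi.deriv ht).2.1, (he.deriv ht).2.1]
  hp k _ t ht := by fin_cases k; exacts [(hi.deriv ht).2.2, (he.deriv ht).2.2]

lemma M3.gx (hj : 0 < βj) (h : M3 βj βi βe cj ci ce x y z t) :
    g (βj * x) = t - (1 + Real.log βj + cj) := by
  rw [← h.ex, eta_eq_g hj cj h.px]; ring

lemma M3.facts (he : βe ≤ 0) (hj : 0 < βj) (h : M3 βj βi βe cj ci ce x y z t) (h1 : 1 < βj * x) :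
    1 + Real.log βj + cj < t ∧
    βj * (sN βi ci t + sN βe ce t) ≤ qf (1 + Real.log βj + cj) t + 1 ∧
    HH Finset.univ (qf (1 + Real.log βj + cj)) ![sN βi ci, sN βe ce] t ≤ βj⁻¹ ∧
    PH Finset.univ (Lf βj⁻¹ (1 + Real.log βj + cj)) ![sm βi ci, sm βe ce] t = 1 := by
  have a : l1 (t - (1 + Real.log βj + cj)) = βj * x := by rw [← h.gx hj, l1_eq h1.le]
  have b : sm βi ci t = y := by rw [← h.ey, sm_eq h.py (h.bx h1).1.le]
  have c : sm βe ce t = z := by
    rw [← h.ez, sm_eq h.pz ((mul_nonpos_of_nonpos_of_nonneg he h.pz.le).trans zero_le_one)]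
  have d : 1 + Real.log βj + cj < t := by
    have := g_mono self_mem_Ici h1.le h1
    rw [g_one, h.gx hj] at this
    linarith
  have e : βj * (sN βi ci t + sN βe ce t) ≤ qf (1 + Real.log βj + cj) t + 1 := by
    unfold sN sP qf q1
    rw [a, b, c]
    exact (h.bx h1).2
  have hq : 0 < qf (1 + Real.log βj + cj) t := q1_pos (sub_pos.2 d)
  refine ⟨d, e, ?_, ?_⟩
  · simp only [HH, Fin.sum_univ_two, Matrix.cons_val_zero, Matrix.cons_val_one]
    rw [div_le_iff₀ (by linarith), inv_mul_eq_div, le_div_iff₀ hj]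
    linarith
  · simp only [PH, Lf, Fin.sum_univ_two, Matrix.cons_val_zero, Matrix.cons_val_one]
    rw [a, b, c, inv_mul_cancel_left₀ hj.ne']
    linarith [h.sum]

lemma sP_le {β c t : ℝ} (h : β ≤ 0) : sP β c t ≤ 1 :=
  inv_le_one_of_one_le₀ (by
    linarith [mul_nonpos_of_nonpos_of_nonneg h (sm_spec (dom_of_nonpos h c t)).1.1.le])

lemma bind3 (he : βe ≤ 0) (hj : 0 < βj) (hie : 0 ≤ βi + βe) (hp : 0 ≤ βj * βi + βj * βe + βi * βe)
    (hi : Reg βi ci (1 + Real.log βj + cj)) (hu : M3 βj βi βe cj ci ce x y z t) (h1 : 1 < βj * x)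
    (hv : M3 βj βi βe cj ci ce x' y' z' t') (h2 : 1 < βj * x') (htt : t < t')
    (hw : M3 βj βi βe cj ci ce x'' y'' z'' t'') (h3 : βi * y'' ≤ 1) (ht : t'' < t) : False := by
  set l := 1 + Real.log βj + cj with hl
  have hE : Reg βe ce l := Or.inl he
  have hS := sys3 βj⁻¹ hi hE le_rfl
  have hJ : ∀ w, l < w → HH Finset.univ (qf l) ![sN βi ci, sN βe ce] w ≤ βj⁻¹ →
      JJ a0 Finset.univ 1 (qf l) ![sN βi ci, sN βe ce] ![sP βi ci, sP βe ce] w = 0 →
      JJ a1 Finset.univ 1 (qf l) ![sN βi ci, sN βe ce] ![sP βi ci, sP βe ce] w < 0 := by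
    intro w hw hH h0
    have hq := hS.q0 w hw
    obtain ⟨i1, i2, i3⟩ := hi.pos hw
    obtain ⟨e1, e2, e3⟩ := hE.pos hw
    simp only [HH, JJ, Fin.sum_univ_two, Matrix.cons_val_zero, Matrix.cons_val_one, Pi.one_apply,
      one_mul] at hH h0 ⊢
    rw [div_le_iff₀ (by linarith), inv_mul_eq_div, le_div_iff₀ hj] at hH
    have hp1 : 1 ≤ sP βi ci w := by linarith [mul_nonneg (show 0 ≤ βi by linarith) i2.le]
    refine alg_bind2 hp1 hq e1 (sP_le he) i2 e2 ?_ ?_ h0
    · rcases hi with h | h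
      · rw [le_antisymm (sP_le h) hp1]
        simp only [sub_self, mul_zero]
        positivity
      · have hd := Reg.dom (Or.inr h) hw.le
        exact T2 (mul_pos h.1 (sm_spec hd).1.1) (Reg.lt (Or.inr h) hw) (l1_gt (sub_pos.2 hw)) (by
          rw [g_sm h.1 hd, (l1_spec (sub_pos.2 hw).le).2]; linarith [h.2])
    · have hNN := mul_pos i2 e2
      have k1 := mul_nonneg hp hNN.le
      have k2 := mul_nonneg hie hNN.le
      generalize sN βi ci w = Na at *
      generalize sN βe ce w = Nb at *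
      have ep : sP βi ci w = βi * Na + 1 := by linarith
      have er : sP βe ce w = βe * Nb + 1 := by linarith
      rw [ep, er]
      have k3 := mul_le_mul_of_nonneg_right hH k2
      have k4 := mul_nonneg k1 (add_pos i2 e2).le
      linarith
  obtain ⟨u1, -, u3, u4⟩ := hu.facts he hj h1
  obtain ⟨-, -, -, v4⟩ := hv.facts he hj h2
  obtain ⟨ζ, hζ, -, hz⟩ := hS.early u1 htt (by rw [u4, v4]) u3
    fun w hw h0 h1 h2 _ => (hJ w (u1.trans hw.1) h0.le h1).ne h2
  have hlt : l ≤ t'' := by linarith [hw.gx hj, g_nonneg (mul_pos hj hw.px)]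
  have k := hS.bind_lt hJ hζ.1.le u3 hz hlt ht (by
    refine (Lf_cont _ hlt).add (continuousOn_finsetSum _ fun k _ => ?_)
    fin_cases k
    · exact (sm_cont βi ci).mono fun w hw => hi.dom (hlt.trans hw.1)
    · exact (sm_cont βe ce).mono fun w hw => hE.dom (hlt.trans hw.1))
  rw [u4] at k
  simp only [PH, Lf, Fin.sum_univ_two, Matrix.cons_val_zero, Matrix.cons_val_one] at k
  have b : sm βi ci t'' = y'' := by rw [← hw.ey, sm_eq hw.py h3]
  have c : sm βe ce t'' = z'' := by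
    rw [← hw.ez, sm_eq hw.pz ((mul_nonpos_of_nonpos_of_nonneg he hw.pz.le).trans zero_le_one)]
  have a : βj * x'' ≤ l1 (t'' - l) := by
    rcases le_total (βj * x'') 1 with h | h
    · exact h.trans (l1_spec (sub_nonneg.2 hlt)).1
    · rw [← hw.gx hj, l1_eq h]
  rw [b, c] at k
  have := mul_le_mul_of_nonneg_left a (inv_pos.2 hj).le
  rw [inv_mul_cancel_left₀ hj.ne'] at this
  linarith [hw.sum]

lemma three3 (he : βe ≤ 0) (hj : 0 < βj) (hi0 : 0 < βi) (hp : 0 ≤ βj * βi + βj * βe + βi * βe)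
    (hl : 1 + Real.log βj + cj ≤ 1 + Real.log βi + ci)
    (hu : M3 βj βi βe cj ci ce x y z t) (h1 : 1 < βj * x)
    (hv : M3 βj βi βe cj ci ce x' y' z' t') (h2 : 1 < βj * x') (htt : t < t')
    (hw : M3 βj βi βe cj ci ce x'' y'' z'' t'') (h3 : 1 < βj * x'') (ht : t'' < t) : False := by
  set l := 1 + Real.log βj + cj with hl'
  have hi : Reg βi ci (1 + Real.log βi + ci) := Or.inr ⟨hi0, le_rfl⟩
  have hE : Reg βe ce (1 + Real.log βi + ci) := Or.inl he
  have hS := sys3 βj⁻¹ hi hE hl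
  obtain ⟨-, -, u3, u4⟩ := hu.facts he hj h1
  obtain ⟨-, -, -, v4⟩ := hv.facts he hj h2
  obtain ⟨-, w2, w3, w4⟩ := hw.facts he hj h3
  have hm : 1 + Real.log βi + ci < t'' := by
    have := g_anti ⟨mul_pos hi0 hw.py, (hw.bx h3).1.le⟩ ⟨one_pos, le_rfl⟩ (hw.bx h3).1
    rw [g_one, hw.swap.gx hi0] at this
    linarith
  have hT : ∀ w, t'' ≤ w → qf l w + 2 / 3 ≤ sP βi ci w := fun w hw => by
    have hw' := hm.trans_le hw
    have hd := hi.dom hw'.le
    exact T1 (mul_pos hi0 (sm_spec hd).1.1) (hi.lt hw') (l1_gt (sub_pos.2 (hl.trans_lt hw'))) (by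
      rw [g_sm hi0 hd, (l1_spec (sub_pos.2 (hl.trans_lt hw')).le).2]; linarith)
  have hN : ∀ w, t'' ≤ w → (1 - sP βe ce w) * (βj + βi) ≤ βj * βi * sN βe ce w := fun w hw => by
    obtain ⟨-, e2, e3⟩ := hE.pos (hm.trans_le hw)
    have := mul_nonneg hp e2.le
    rw [show sP βe ce w = βe * sN βe ce w + 1 by linarith]
    linarith
  refine hS.three ![0, 1] hm ht htt (by rw [u4, w4]) (by rw [u4, v4]) w3 u3 (fun w hw h0 => ?_)
    (fun w hw => ?_) fun w hw θ hθ hθ1 h0 h1 => ?_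
  · obtain ⟨e1, e2, -⟩ := hE.pos (hm.trans hw)
    have hq := hS.q0 w (hm.trans hw)
    simp only [JJ, Fin.sum_univ_two, Matrix.cons_val_zero, Matrix.cons_val_one, zero_mul, zero_add,
      one_mul] at h0 ⊢
    have k := (mul_eq_zero.1 h0).resolve_left e2.ne'
    unfold a0 at k
    have k2 : qf l w = sP βe ce w := by
      have : (qf l w - sP βe ce w) * (qf l w + sP βe ce w) = 0 := by linarith
      linarith [(mul_eq_zero.1 this).resolve_right (by positivity)]
    rw [k2, show a1 (sP βe ce w) (sP βe ce w) = -(4 * sP βe ce w ^ 3) by unfold a1; ring]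
    exact mul_neg_of_pos_of_neg e2 (neg_neg_of_pos (by positivity))
  · obtain ⟨-, i2, -⟩ := hi.pos (hm.trans hw)
    have hq := hS.q0 w (hm.trans hw)
    have := hT w hw.le
    simp only [JJ, Fin.sum_univ_two, Matrix.cons_val_zero, Matrix.cons_val_one, Pi.sub_apply,
      Pi.one_apply, sub_zero, sub_self, zero_mul, add_zero, one_mul]
    exact mul_nonpos_of_nonneg_of_nonpos i2.le (by unfold a0; nlinarith)
  · obtain ⟨-, i2, i3⟩ := hi.pos (hm.trans hw)
    obtain ⟨e1, e2, -⟩ := hE.pos (hm.trans hw)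
    have hq := hS.q0 w (hm.trans hw)
    have ei : sN βi ci w = βi⁻¹ * (sP βi ci w - 1) := by
      rw [← i3, inv_mul_cancel_left₀ hi0.ne']
    simp only [JJ, Fin.sum_univ_two, Matrix.cons_val_zero, Matrix.cons_val_one, Pi.sub_apply,
      Pi.one_apply, Pi.add_apply, Pi.smul_apply, smul_eq_mul, sub_zero, sub_self, mul_zero, mul_one,
      zero_add, add_zero, one_mul, ei] at h0 h1 ⊢
    refine alg_three2 (by linarith [mul_pos hi0 i2]) hq e1 (sP_le he) (hT w hw.le) (inv_pos.2 hi0)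
      hθ hθ1 e2 (fun hr => ?_) h0 h1
    obtain ⟨-, j2, j3⟩ := hi.pos hm
    obtain ⟨f1, f2, -⟩ := hE.pos hm
    have hq' := hS.q0 t'' hm
    have hr' : sP βe ce t'' ≤ sP βe ce w := inv_anti₀ (sub_pos.2 (hE.lt (hm.trans hw))) (by
      have := sm_anti (hE.dom hm.le) (hE.dom (hm.trans hw).le) hw.le
      nlinarith)
    have hji : βj ≤ βi := by
      have k1 := hN t'' le_rfl
      have k2 := hT t'' le_rfl
      have k3 := mul_le_mul_of_nonneg_left w2 hi0.le
      have k4 : βi * (βj * sN βi ci t'') = βj * (sP βi ci t'' - 1) := by rw [← j3]; ring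
      by_contra hc
      push Not at hc
      have k5 := mul_lt_mul_of_pos_right hc (add_pos hq' f1)
      have k6 := mul_le_mul_of_nonneg_left
        (show qf l t'' + sP βe ce t'' ≤ sP βi ci t'' - sP βe ce t'' by linarith) hj.le
      linarith
    have k1 := hN w hw.le
    have k2 := mul_le_mul_of_nonneg_left hji (show 0 ≤ 1 - sP βe ce w by linarith)
    rw [show 2 * βi⁻¹ * (1 - sP βe ce w) = 2 * (1 - sP βe ce w) / βi by ring, div_le_iff₀ hi0]
    exact le_of_mul_le_mul_left (by linarith) hj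

lemma encard_le_two {X : Type*} {A : Set X} (E : X → Prop)
    (h1 : ∀ x ∈ A, ∀ y ∈ A, E x → E y → x = y) (h2 : ∀ x ∈ A, ∀ y ∈ A, ¬E x → ¬E y → x = y) :
    A.encard ≤ 2 := by
  have e : A = {x ∈ A | E x} ∪ {x ∈ A | ¬E x} := by
    ext x
    by_cases h : E x <;> simp [h]
  rw [e]
  refine (encard_union_le _ _).trans (le_of_le_of_eq (add_le_add ?_ ?_) one_add_one_eq_two)
  · exact encard_le_one_iff_subsingleton.2 fun x hx y hy => h1 x hx.1 y hy.1 hx.2 hy.2
  · exact encard_le_one_iff_subsingleton.2 fun x hx y hy => h2 x hx.1 y hy.1 hx.2 hy.2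

theorem encard_M3 {X : Type*} {A : Set X} (f1 f2 f3 T : X → ℝ)
    (hext : ∀ a b, f1 a = f1 b ∧ f2 a = f2 b ∧ f3 a = f3 b → a = b)
    (hM : ∀ a ∈ A, M3 βj βi βe cj ci ce (f1 a) (f2 a) (f3 a) (T a)) (he : βe ≤ 0)
    (hie : 0 ≤ βi + βe) (hp : 0 ≤ βj * βi + βj * βe + βi * βe)
    (hi : βi ≤ 0 ∨ 0 < βj ∧ 0 < βi ∧ 1 + Real.log βi + ci ≤ 1 + Real.log βj + cj) :
    A.encard ≤ 4 := by
  have e : A = {a ∈ A | βi * f2 a ≤ 1} ∪ {a ∈ A | 1 < βi * f2 a} := by
    ext a
    rcases le_or_gt (βi * f2 a) 1 with h | h <;> simp [h]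
  have hR : Reg βi ci (1 + Real.log βj + cj) := hi.imp_right fun h => h.2
  rw [e]
  refine (encard_union_le _ _).trans (le_of_le_of_eq (add_le_add ?_ ?_) two_add_two_eq_four)
  · refine encard_le_two (fun a => βj * f1 a ≤ 1 ∨ ∃ b ∈ A, 1 < βj * f1 b ∧ T a < T b) ?_ ?_
    · have B : ∀ a ∈ A, ∀ b ∈ A, βi * f2 a ≤ 1 → βi * f2 b ≤ 1 →
          (βj * f1 b ≤ 1 ∨ ∃ c ∈ A, 1 < βj * f1 c ∧ T b < T c) → T a ≤ T b → a = b := by
        intro a ha b hb h1 h2 eb hab
        rcases le_or_gt (βj * f1 b) 1 with h | h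
        · exact hext a b ((hM a ha).small_le he (hM b hb) h h2 hab)
        · obtain ⟨c, hc, hc1, hc2⟩ := eb.resolve_left (not_le.2 h)
          rcases eq_or_lt_of_le hab with e | e
          · rcases le_or_gt (βj * f1 a) 1 with h' | h'
            · exact (hext b a ((hM b hb).small_le he (hM a ha) h' h1 e.ge)).symm
            · exact hext a b ((hM a ha).same he (e ▸ hM b hb) h' h)
          · exact (bind3 he ((pos_iff_pos_of_mul_pos (one_pos.trans h)).2 (hM b hb).px) hie hp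
              hR (hM b hb) h (hM c hc) hc1 hc2 (hM a ha) h1 e).elim
      intro a ha b hb ea eb
      rcases le_total (T a) (T b) with h | h
      · exact B a ha.1 b hb.1 ha.2 hb.2 eb h
      · exact (B b hb.1 a ha.1 hb.2 ha.2 ea h).symm
    · intro a ha b hb ea eb
      push Not at ea eb
      have e : T a = T b := le_antisymm (eb.2 a ha.1 ea.1) (ea.2 b hb.1 eb.1)
      exact hext a b ((hM a ha.1).same he (e ▸ hM b hb.1) ea.1 eb.1)
  · have S : ∀ a ∈ A, ∀ b ∈ A, 1 < βi * f2 a → 1 < βi * f2 b → T a = T b → a = b := by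
      intro a ha b hb h1 h2 e
      obtain ⟨k1, k2, k3⟩ := (hM a ha).swap.same he (e ▸ (hM b hb).swap) h1 h2
      exact hext a b ⟨k2, k1, k3⟩
    refine encard_le_two (fun a => ∃ b ∈ A, 1 < βi * f2 b ∧ T a < T b) ?_ ?_
    · have B : ∀ a ∈ A, ∀ b ∈ A, 1 < βi * f2 a → 1 < βi * f2 b →
          (∃ c ∈ A, 1 < βi * f2 c ∧ T b < T c) → ¬T a < T b := by
        rintro a ha b hb h1 h2 ⟨c, hc, hc1, hc2⟩ hab
        have hi0 := (pos_iff_pos_of_mul_pos (one_pos.trans h1)).2 (hM a ha).py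
        obtain ⟨k1, -, k2⟩ := hi.resolve_left (not_le.2 hi0)
        exact three3 he hi0 k1 (by linarith) k2 (hM b hb).swap h2 (hM c hc).swap hc1 hc2
          (hM a ha).swap h1 hab
      intro a ha b hb ea eb
      exact S a ha.1 b hb.1 ha.2 hb.2 (le_antisymm (not_lt.1 (B b hb.1 a ha.1 hb.2 ha.2 ea))
        (not_lt.1 (B a ha.1 b hb.1 ha.2 hb.2 eb)))
    · intro a ha b hb ea eb
      push Not at ea eb
      exact S a ha.1 b hb.1 ha.2 hb.2 (le_antisymm (eb a ha.1 ha.2) (ea b hb.1 hb.2))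

end Pool.Agent.Lib.MP_1f4710_co.Hom
end

-- part Pool.Agent.Lib.MP_1f4710_co.HModel
section

/-!
The separable model and the bounds for the number of its local maxima.
-/

namespace Pool.Agent.Lib.MP_1f4710_co.Hom

open Set Finset

variable {ι : Type*} [Fintype ι]

/-- First and second order necessary conditions in the separable model. -/
def IsM (β c α : ι → ℝ) : Prop :=
  (∀ i, 0 < α i) ∧ ∑ i, α i = 1 ∧ (∃ t, ∀ i, eta (β i) (c i) (α i) = t) ∧
    ∀ δ : ι → ℝ, ∑ i, δ i = 0 → ∑ i, β i * δ i ^ 2 ≤ ∑ i, δ i ^ 2 / α i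

variable [DecidableEq ι] {β c α : ι → ℝ}

lemma sum_pair (F : ι → ℝ → ℝ) (hF : ∀ k, F k 0 = 0) {i j : ι} (h : i ≠ j) (x y : ℝ) :
    ∑ k, F k (if k = i then x else if k = j then y else 0) = F i x + F j y := by
  rw [Fintype.sum_eq_add i j h fun k hk => by simp [hk.1, hk.2, hF]]
  simp [h.symm]

lemma IsM.big (h : IsM β c α) {j : ι} (hj : 1 < β j * α j) : (∀ i, i ≠ j → β i * α i < 1) ∧
    β j * ∑ i ∈ univ.erase j, α i * (1 - β i * α i)⁻¹ ≤ (β j * α j - 1)⁻¹ + 1 := by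
  obtain ⟨h0, -, -, h2⟩ := h
  have A : ∀ i, i ≠ j → β i * α i < 1 := by
    intro i hij
    have k := h2 (fun k => if k = i then 1 else if k = j then -1 else 0)
      (by rw [sum_pair (fun _ x => x) (fun _ => rfl) hij]; ring)
    rw [sum_pair (fun k x => β k * x ^ 2) (by simp) hij,
      sum_pair (fun k x => x ^ 2 / α k) (by simp) hij] at k
    have k1 : 1 / α j < β j := (div_lt_iff₀ (h0 j)).2 hj
    exact (lt_div_iff₀ (h0 i)).1 (by norm_num at k k1 ⊢; linarith)
  refine ⟨A, ?_⟩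
  set T := ∑ i ∈ univ.erase j, α i * (1 - β i * α i)⁻¹ with hT
  have hs : ∀ F : ι → ℝ → ℝ, ∑ k, F k (if k = j then -T else α k * (1 - β k * α k)⁻¹) =
      F j (-T) + ∑ k ∈ univ.erase j, F k (α k * (1 - β k * α k)⁻¹) := fun F => by
    rw [← Finset.add_sum_erase _ _ (mem_univ j), if_pos rfl]
    congr 1
    exact Finset.sum_congr rfl fun k hk => by rw [if_neg (ne_of_mem_erase hk)]
  have k := h2 (fun k => if k = j then -T else α k * (1 - β k * α k)⁻¹)
    (by rw [hs fun _ x => x]; ring)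
  rw [hs fun k x => β k * x ^ 2, hs fun k x => x ^ 2 / α k] at k
  have e : ∑ k ∈ univ.erase j, (α k * (1 - β k * α k)⁻¹) ^ 2 / α k =
      ∑ k ∈ univ.erase j, β k * (α k * (1 - β k * α k)⁻¹) ^ 2 + T := by
    rw [hT, ← Finset.sum_add_distrib]
    refine Finset.sum_congr rfl fun k hk => ?_
    have := (sub_pos.2 (A k (ne_of_mem_erase hk))).ne'
    have := (h0 k).ne'
    field_simp
    ring
  have hT0 : 0 ≤ T := Finset.sum_nonneg fun k hk =>
    mul_nonneg (h0 k).le (inv_pos.2 (sub_pos.2 (A k (ne_of_mem_erase hk)))).le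
  have hb : 0 < β j := (pos_iff_pos_of_mul_pos (one_pos.trans hj)).2 (h0 j)
  have k1 : β j * T ^ 2 ≤ T ^ 2 / α j + T := by
    rw [e, neg_sq] at k; linarith
  rw [div_add' _ _ _ (h0 j).ne', le_div_iff₀ (h0 j)] at k1
  have hx := sub_pos.2 hj
  rw [show (β j * α j - 1)⁻¹ + 1 = β j * (α j / (β j * α j - 1)) by field_simp; ring]
  refine mul_le_mul_of_nonneg_left ((le_div_iff₀ hx).2 ?_) hb.le
  rcases eq_or_lt_of_le hT0 with e0 | e0
  · rw [← e0, zero_mul]; exact (h0 j).le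
  · exact le_of_mul_le_mul_left (by linarith) e0

theorem encard_pos (hβ : ∀ i, 0 < β i) (c : ι → ℝ) :
    {α | IsM β c α}.encard ≤ (Fintype.card ι + 1 : ℕ) := by
  refine le_trans (encard_le_encard_of_injOn (f := fun α i => β i * α i) (fun α hα => ?_)
    fun α _ α' _ e => funext fun i => mul_left_cancel₀ (hβ i).ne' (congrFun e i))
    (encard_Md (γ := fun i => (β i)⁻¹) (fun i => inv_pos.2 (hβ i))
      fun i => 1 + Real.log (β i) + c i)
  obtain ⟨t, ht⟩ := hα.2.2.1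
  refine ⟨t, fun i => mul_pos (hβ i) (hα.1 i), ?_, fun i => ?_, fun j hj => ?_⟩
  · rw [← hα.2.1]
    exact Finset.sum_congr rfl fun i _ => inv_mul_cancel_left₀ (hβ i).ne' _
  · rw [← ht i, eta_eq_g (hβ i) _ (hα.1 i)]; ring
  · obtain ⟨h1, h2⟩ := IsM.big hα hj
    refine ⟨h1, ?_⟩
    rw [inv_mul_eq_div, le_div_iff₀ (hβ j), mul_comm]
    refine le_of_eq_of_le ?_ h2
    congr 1
    refine Finset.sum_congr rfl fun k hk => ?_
    have := (sub_pos.2 (h1 k (ne_of_mem_erase hk))).ne'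
    have := (hβ k).ne'
    field_simp
    ring

lemma fin3 : ∀ j i e : Fin 3, j ≠ i → j ≠ e → i ≠ e →
    Finset.univ = ({j, i, e} : Finset (Fin 3)) ∧ Finset.univ.erase j = {i, e} ∧
      Finset.univ.erase i = {j, e} := by
  decide

lemma encard_obt {β : Fin 3 → ℝ} (c : Fin 3 → ℝ)
    (hp : ∀ δ : Fin 3 → ℝ, ∑ i, δ i = 0 → 0 ≤ ∑ i, β i * δ i ^ 2) {j i e : Fin 3} (hji : j ≠ i)
    (hje : j ≠ e) (hie : i ≠ e) (he : β e ≤ 0)
    (hi : β i ≤ 0 ∨ 0 < β j ∧ 0 < β i ∧ 1 + Real.log (β i) + c i ≤ 1 + Real.log (β j) + c j) :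
    {α | IsM β c α}.encard ≤ 4 := by
  classical
  obtain ⟨h1, h2, h3⟩ := fin3 j i e hji hje hie
  have hs : ∀ F : Fin 3 → ℝ, ∑ k, F k = F j + F i + F e := fun F => by
    rw [h1, Finset.sum_insert (by simp [hji, hje]), Finset.sum_pair hie, add_assoc]
  have hq : ∀ x y : ℝ, 0 ≤ β j * x ^ 2 + β i * y ^ 2 + β e * (x + y) ^ 2 := fun x y => by
    have := hp (fun k => if k = j then x else if k = i then y else -(x + y))
      (by rw [hs]; simp [hji.symm, hje.symm, hie.symm])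
    rw [hs] at this
    simpa [hji.symm, hje.symm, hie.symm, neg_sq, -neg_add_rev] using this
  have k1 : 0 ≤ β i + β e := by simpa using hq 0 1
  have k2 : 0 ≤ β j + β e := by simpa using hq 1 0
  have k3 : 0 ≤ β j * β i + β j * β e + β i * β e := by
    have a := hq (β i + β e) (-β e)
    have b := hq (-β e) (β j + β e)
    have c := hq (β e) (-β e)
    by_contra hc
    push Not at hc
    have a' : β i + β e = 0 := by
      by_contra h
      nlinarith [mul_pos (lt_of_le_of_ne k1 (Ne.symm h)) (neg_pos.2 hc)]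
    have b' : β j + β e = 0 := by
      by_contra h
      nlinarith [mul_pos (lt_of_le_of_ne k2 (Ne.symm h)) (neg_pos.2 hc)]
    have d := hq 1 1
    have ei : β i = -β e := by linarith
    have ej : β j = -β e := by linarith
    have e0 : β e = 0 := by linarith
    rw [ei, ej, e0] at hc
    simp at hc
  refine encard_M3 (ce := c e) (fun α => α j) (fun α => α i) (fun α => α e)
    (fun α => eta (β j) (c j) (α j)) (fun a b h => funext fun k => ?_) (fun α hα => ?_) he k1 k3 hi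
  · have : k ∈ ({j, i, e} : Finset (Fin 3)) := h1 ▸ Finset.mem_univ k
    simp only [Finset.mem_insert, Finset.mem_singleton] at this
    rcases this with rfl | rfl | rfl
    exacts [h.1, h.2.1, h.2.2]
  · obtain ⟨t, ht⟩ := hα.2.2.1
    refine ⟨hα.1 j, hα.1 i, hα.1 e, (hs α).symm.trans hα.2.1, rfl, (ht i).trans (ht j).symm,
      (ht e).trans (ht j).symm, fun h => ?_, fun h => ?_⟩
    · obtain ⟨a, b⟩ := IsM.big hα h
      rw [h2, Finset.sum_pair hie] at b
      exact ⟨a i hji.symm, b⟩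
    · obtain ⟨a, b⟩ := IsM.big hα h
      rw [h3, Finset.sum_pair hje] at b
      exact ⟨a j hji, b⟩

theorem encard_three {β : Fin 3 → ℝ} (c : Fin 3 → ℝ)
    (hp : ∀ δ : Fin 3 → ℝ, ∑ i, δ i = 0 → 0 ≤ ∑ i, β i * δ i ^ 2) :
    {α | IsM β c α}.encard ≤ 4 := by
  by_cases h : ∀ i, 0 < β i
  · simpa using encard_pos h c
  push Not at h
  obtain ⟨e, he⟩ := h
  obtain ⟨j, i, hji, hje, hie⟩ : ∃ j i : Fin 3, j ≠ i ∧ j ≠ e ∧ i ≠ e := by
    clear he; revert e; decide
  rcases le_or_gt (β i) 0 with hi | hi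
  · exact encard_obt c hp hji hje hie he (Or.inl hi)
  rcases le_or_gt (β j) 0 with hj | hj
  · exact encard_obt c hp hji.symm hie hje he (Or.inl hj)
  rcases le_total (1 + Real.log (β i) + c i) (1 + Real.log (β j) + c j) with h | h
  · exact encard_obt c hp hji hje hie he (Or.inr ⟨hj, hi, h⟩)
  · exact encard_obt c hp hji.symm hie hje he (Or.inr ⟨hi, hj, h⟩)

end Pool.Agent.Lib.MP_1f4710_co.Hom
end

-- part Pool.Agent.Lib.MP_1f4710_co.HLink
section

/-!
Modes of homoscedastic mixtures and the separable model.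
-/

namespace Pool.Agent.Lib.MP_1f4710_co.Hom

open Set Filter Topology Matrix

variable {d : ℕ} {ι : Type*} [Fintype ι]

/-- One weighted component. -/
noncomputable def cmp (B : (Fin d → ℝ) →ₗ[ℝ] (Fin d → ℝ) →ₗ[ℝ] ℝ) (w : ℝ) (μ x : Fin d → ℝ) : ℝ :=
  w * Real.exp (-(1 / 2) * B (x - μ) (x - μ))

/-- The Gram form of the means is diagonal on vectors with zero sum. -/
def Gram (B : (Fin d → ℝ) →ₗ[ℝ] (Fin d → ℝ) →ₗ[ℝ] ℝ) (μ : ι → Fin d → ℝ) (β : ι → ℝ) : Prop :=
  ∀ δ : ι → ℝ, ∑ i, δ i = 0 → B (∑ i, δ i • μ i) (∑ i, δ i • μ i) = ∑ i, β i * δ i ^ 2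

variable {B : (Fin d → ℝ) →ₗ[ℝ] (Fin d → ℝ) →ₗ[ℝ] ℝ} {w β α : ι → ℝ} {μ : ι → Fin d → ℝ}

lemma cmp_shift (hB : ∀ x y, B x y = B y x) (w : ℝ) (μ x v : Fin d → ℝ) :
    cmp B w μ (x + v) = cmp B w μ x * Real.exp (-B v (x - μ) - B v v / 2) := by
  unfold cmp
  rw [mul_assoc, ← Real.exp_add, show x + v - μ = (x - μ) + v by abel]
  simp only [map_add, LinearMap.add_apply, hB (x - μ) v]
  congr 2
  ring

lemma sum_smul_sub (δ : ι → ℝ) (x : Fin d → ℝ) :
    ∑ i, δ i • (x - μ i) = (∑ i, δ i) • x - ∑ i, δ i • μ i := by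
  simp only [smul_sub, Finset.sum_sub_distrib, Finset.sum_smul]

lemma B_sum (v x : Fin d → ℝ) (δ : ι → ℝ) :
    ∑ i, δ i * B v (x - μ i) = B v ((∑ i, δ i) • x - ∑ i, δ i • μ i) := by
  rw [← sum_smul_sub, map_sum]
  simp only [map_smul, smul_eq_mul]

lemma Gram.at_bary (hG : Gram B μ β) (h1 : ∑ i, α i = 1) (i : ι) :
    B (∑ j, α j • μ j - μ i) (∑ j, α j • μ j - μ i) =
      ∑ j, β j * α j ^ 2 - 2 * (β i * α i) + β i := by
  classical
  have h := hG (fun j => α j - if j = i then 1 else 0) (by simp [h1])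
  simp only [sub_smul, Finset.sum_sub_distrib, ite_smul, one_smul, zero_smul,
    Finset.sum_ite_eq', Finset.mem_univ, if_true] at h
  rw [h]
  have : ∀ j, β j * (α j - if j = i then 1 else 0) ^ 2 =
      β j * α j ^ 2 - if j = i then 2 * (β i * α i) - β i else 0 := fun j => by
    split_ifs with e
    · rw [e]; ring
    · ring
  simp only [this, Finset.sum_sub_distrib, Finset.sum_ite_eq', Finset.mem_univ, if_true]
  ring

lemma Gram.cmp_eq (hG : Gram B μ β) (hw : ∀ i, 0 < w i) (h0 : ∀ i, 0 < α i) (h1 : ∑ i, α i = 1)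
    (i : ι) : cmp B (w i) (μ i) (∑ j, α j • μ j) = α i * Real.exp
      (eta (β i) (Real.log (w i) - β i / 2) (α i) - (∑ j, β j * α j ^ 2) / 2) := by
  unfold cmp eta
  rw [hG.at_bary h1, ← Real.exp_log (hw i), ← Real.exp_log (h0 i), ← Real.exp_add, ← Real.exp_add,
    Real.log_exp, Real.log_exp, Real.exp_log (h0 i)]
  congr 1
  ring

lemma line_cond (hB : ∀ x y, B x y = B y x) {x : Fin d → ℝ}
    (hx : x ∈ modes fun x => ∑ i, cmp B (w i) (μ i) x) (v : Fin d → ℝ) :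
    ∑ i, cmp B (w i) (μ i) x * B v (x - μ i) = 0 ∧
      ∑ i, cmp B (w i) (μ i) x * B v (x - μ i) ^ 2 ≤ (∑ i, cmp B (w i) (μ i) x) * B v v := by
  have h1 : IsLocalMax (fun x => ∑ i, cmp B (w i) (μ i) x) ((fun t : ℝ => x + t • v) 0) := by
    simp only [zero_smul, add_zero]
    filter_upwards [eventually_nhdsWithin_iff.1 hx] with y hy
    by_cases e : y = x
    · rw [e]
    · exact (hy e).le
  have h2 := (h1.comp_continuous (g := fun t : ℝ => x + t • v) (by fun_prop)).neg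
  have e : (fun t : ℝ => -((fun x => ∑ i, cmp B (w i) (μ i) x) ∘ fun t : ℝ => x + t • v) t) =
      fun t => -∑ i, cmp B (w i) (μ i) x * Real.exp (-(t * B v (x - μ i)) - t ^ 2 * B v v / 2) := by
    funext t
    simp only [Function.comp, cmp_shift hB, map_smul, LinearMap.smul_apply, smul_eq_mul]
    congr 1
    exact Finset.sum_congr rfl fun i _ => by congr 2; ring
  rw [e] at h2
  have hd : ∀ (a t : ℝ), HasDerivAt (fun t : ℝ => -(t * a) - t ^ 2 * B v v / 2)
      (-a - t * B v v) t := fun a t =>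
    ((((hasDerivAt_id' t).mul_const a).fun_neg).fun_sub
      (((hasDerivAt_pow 2 t).mul_const (B v v)).div_const 2)).congr_deriv (by norm_num; ring)
  obtain ⟨k1, k2⟩ := min2 h2 (Eventually.of_forall fun t => (HasDerivAt.fun_sum
      fun i (_ : i ∈ Finset.univ) => ((hd (B v (x - μ i)) t).exp.const_mul
        (cmp B (w i) (μ i) x))).fun_neg)
    (HasDerivAt.fun_sum fun i (_ : i ∈ Finset.univ) => (((hd (B v (x - μ i)) 0).exp.fun_mul
      (((hasDerivAt_id' (0 : ℝ)).mul_const (B v v)).const_sub (-B v (x - μ i)))).const_mul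
        (cmp B (w i) (μ i) x))).fun_neg
  simp only [zero_mul, neg_zero, ne_eq, OfNat.ofNat_ne_zero, not_false_eq_true, zero_pow,
    zero_div, sub_zero, Real.exp_zero, one_mul, mul_neg, Finset.sum_neg_distrib,
    neg_mul, neg_neg, Left.nonneg_neg_iff] at k1 k2
  refine ⟨k1, ?_⟩
  rw [Finset.sum_mul, ← sub_nonpos, ← Finset.sum_sub_distrib]
  exact le_of_eq_of_le (Finset.sum_congr rfl fun i _ => by ring) k2

lemma necessary [Nonempty ι] (hB : ∀ x y, B x y = B y x) (hpos : ∀ v, v ≠ 0 → 0 < B v v)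
    (hG : Gram B μ β) (hw : ∀ i, 0 < w i) {x : Fin d → ℝ}
    (hx : x ∈ modes fun x => ∑ i, cmp B (w i) (μ i) x) :
    ∃ α, IsM β (fun i => Real.log (w i) - β i / 2) α ∧ x = ∑ i, α i • μ i := by
  have hW : ∀ i, 0 < cmp B (w i) (μ i) x := fun i => mul_pos (hw i) (Real.exp_pos _)
  have hZ : 0 < ∑ i, cmp B (w i) (μ i) x := Finset.sum_pos (fun i _ => hW i) Finset.univ_nonempty
  set Z := ∑ i, cmp B (w i) (μ i) x with hZdef
  set α : ι → ℝ := fun i => cmp B (w i) (μ i) x / Z with hα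
  have h0 : ∀ i, 0 < α i := fun i => div_pos (hW i) hZ
  have h1 : ∑ i, α i = 1 := by rw [← Finset.sum_div, div_self hZ.ne']
  have c1 : ∀ v, ∑ i, α i * B v (x - μ i) = 0 := fun v => by
    simp only [hα, div_mul_eq_mul_div, ← Finset.sum_div, (line_cond hB hx v).1, zero_div]
  have c2 : ∀ v, ∑ i, α i * B v (x - μ i) ^ 2 ≤ B v v := fun v => by
    simp only [hα, div_mul_eq_mul_div, ← Finset.sum_div]
    rw [div_le_iff₀ hZ, mul_comm]
    exact (line_cond hB hx v).2
  have hxe : x = ∑ i, α i • μ i := by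
    by_contra hc
    have := c1 (x - ∑ i, α i • μ i)
    rw [B_sum, h1, one_smul] at this
    exact (hpos _ (sub_ne_zero.2 hc)).ne' this
  refine ⟨α, ⟨h0, h1, ⟨Real.log Z + (∑ j, β j * α j ^ 2) / 2, fun i => ?_⟩, fun δ hδ => ?_⟩, hxe⟩
  · have h2 := hG.cmp_eq hw h0 h1 i
    rw [← hxe, show cmp B (w i) (μ i) x = α i * Z by simp only [hα]; field_simp] at h2
    rw [mul_left_cancel₀ (h0 i).ne' h2, Real.log_exp]
    ring
  · have h2 := c2 (∑ i, δ i • μ i)
    have h3 := B_sum (B := B) (μ := μ) (∑ i, δ i • μ i) x δ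
    rw [hδ, zero_smul, zero_sub, map_neg, hG δ hδ] at h3
    rw [hG δ hδ] at h2
    have h4 : ∑ i, -(2 * (δ i * B (∑ i, δ i • μ i) (x - μ i))) ≤
        ∑ i, (δ i ^ 2 / α i + α i * B (∑ i, δ i • μ i) (x - μ i) ^ 2) :=
      Finset.sum_le_sum fun i _ => by
        have := h0 i
        generalize B (∑ i, δ i • μ i) (x - μ i) = a
        have e : δ i ^ 2 / α i + α i * a ^ 2 + 2 * (δ i * a) = (δ i + α i * a) ^ 2 / α i := by
          field_simp; ring
        have : 0 ≤ (δ i + α i * a) ^ 2 / α i := by positivity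
        linarith
    rw [Finset.sum_neg_distrib, ← Finset.mul_sum, h3, Finset.sum_add_distrib] at h4
    linarith

lemma encard_modes_le [Nonempty ι] (hB : ∀ x y, B x y = B y x) (hpos : ∀ v, v ≠ 0 → 0 < B v v)
    (hG : Gram B μ β) (hw : ∀ i, 0 < w i) :
    (modes fun x => ∑ i, cmp B (w i) (μ i) x).encard ≤
      {α | IsM β (fun i => Real.log (w i) - β i / 2) α}.encard := by
  refine le_trans (encard_le_encard fun x hx => ?_) (encard_image_le (fun α => ∑ i, α i • μ i) _)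
  obtain ⟨α, h1, h2⟩ := necessary hB hpos hG hw hx
  exact ⟨α, h1, h2.symm⟩

lemma exp_le_quad {z η : ℝ} (h : |z| ≤ η) (h1 : η ≤ 1) :
    Real.exp z ≤ 1 + z + z ^ 2 * (1 / 2 + 2 / 9 * η) := by
  have h2 := (abs_le.1 (Real.exp_bound (h.trans h1) (n := 3) (by norm_num))).2
  simp only [Finset.sum_range_succ, Finset.range_zero, Finset.sum_empty, Nat.factorial] at h2
  norm_num at h2
  have h3 : |z| ^ 3 ≤ z ^ 2 * η := by
    rw [pow_succ, sq_abs]
    exact mul_le_mul_of_nonneg_left h (sq_nonneg z)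
  linarith

lemma sufficient (hB : ∀ x y, B x y = B y x) (hpos : ∀ v, v ≠ 0 → 0 < B v v)
    (hG : Gram B μ β) (hw : ∀ i, 0 < w i) (h0 : ∀ i, 0 < α i) (h1 : ∑ i, α i = 1) {t θ : ℝ}
    (ht : ∀ i, eta (β i) (Real.log (w i) - β i / 2) (α i) = t) (hθ : 0 < θ) (hθ1 : θ < 1)
    (h2 : ∀ δ : ι → ℝ, ∑ i, δ i = 0 → ∑ i, β i * δ i ^ 2 ≤ θ * ∑ i, δ i ^ 2 / α i) :
    (∑ i, α i • μ i) ∈ modes fun x => ∑ i, cmp B (w i) (μ i) x := by
  set x := ∑ i, α i • μ i with hx
  have hW : ∀ i, cmp B (w i) (μ i) x = α i * Real.exp (t - (∑ j, β j * α j ^ 2) / 2) :=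
    fun i => by rw [hG.cmp_eq hw h0 h1, ht]
  have c1 : ∀ v, ∑ i, α i * B v (x - μ i) = 0 := fun v => by
    rw [B_sum, h1, one_smul, sub_self, map_zero]
  have c2 : ∀ v, ∑ i, α i * B v (x - μ i) ^ 2 ≤ θ * B v v := fun v => by
    set δ : ι → ℝ := fun i => α i * B v (x - μ i) with hδ
    set m := ∑ i, δ i • μ i with hm
    have e1 : B v m = -∑ i, α i * B v (x - μ i) ^ 2 := by
      have := B_sum (B := B) (μ := μ) v x δ
      rw [c1 v, zero_smul, zero_sub, map_neg] at this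
      rw [← neg_neg (B v m), ← this]
      exact congrArg _ (Finset.sum_congr rfl fun i _ => by simp only [hδ]; ring)
    have e2 : B m m ≤ θ * ∑ i, α i * B v (x - μ i) ^ 2 := by
      rw [hG δ (c1 v)]
      refine (h2 δ (c1 v)).trans_eq (congrArg _ (Finset.sum_congr rfl fun i _ => ?_))
      have := (h0 i).ne'
      simp only [hδ]
      field_simp
    have e3 : 0 ≤ B (θ • v + m) (θ • v + m) := by
      by_cases e : θ • v + m = 0
      · rw [e]; simp
      · exact (hpos _ e).le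
    simp only [map_add, map_smul, LinearMap.add_apply, LinearMap.smul_apply, smul_eq_mul, hB m v,
      e1] at e3
    exact le_of_mul_le_mul_left (by linarith) hθ
  have hev : ∀ᶠ y in 𝓝 x, ∀ i, |B (y - x) (x - μ i)| ≤ 1 - θ := by
    refine eventually_all.2 fun i => ?_
    have hc : Continuous fun y => |B (y - x) (x - μ i)| :=
      ((B.flip (x - μ i)).continuous_of_finiteDimensional.comp
        (continuous_id.sub continuous_const)).abs
    exact (hc.continuousAt.eventually_lt continuousAt_const (by simpa using hθ1)).mono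
      fun y hy => hy.le
  filter_upwards [nhdsWithin_le_nhds hev, self_mem_nhdsWithin] with y hy hyx
  obtain ⟨v, rfl⟩ : ∃ v, y = x + v := ⟨y - x, by abel⟩
  have hb := hpos v fun e => hyx (by simp [e])
  simp only [add_sub_cancel_left] at hy
  have k1 : ∑ i, α i * Real.exp (-B v (x - μ i)) < Real.exp (B v v / 2) := by
    have a : ∑ i, α i * Real.exp (-B v (x - μ i)) ≤ ∑ i, (α i - α i * B v (x - μ i) +
        α i * B v (x - μ i) ^ 2 * (1 / 2 + 2 / 9 * (1 - θ))) := Finset.sum_le_sum fun i _ => by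
      have := mul_le_mul_of_nonneg_left
        (exp_le_quad (z := -B v (x - μ i)) (η := 1 - θ) (by rw [abs_neg]; exact hy i)
          (by linarith)) (h0 i).le
      linarith
    rw [Finset.sum_add_distrib, Finset.sum_sub_distrib, h1, c1, ← Finset.sum_mul] at a
    have b := mul_le_mul_of_nonneg_right (c2 v) (show 0 ≤ 1 / 2 + 2 / 9 * (1 - θ) by linarith)
    have c := Real.add_one_le_exp (B v v / 2)
    have e : θ * (1 / 2 + 2 / 9 * (1 - θ)) < 1 / 2 := by nlinarith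
    nlinarith
  simp only [cmp_shift hB, hW]
  have hZ := Real.exp_pos (t - (∑ j, β j * α j ^ 2) / 2)
  generalize Real.exp (t - (∑ j, β j * α j ^ 2) / 2) = Z at hZ ⊢
  rw [← Finset.sum_mul, h1, one_mul]
  calc _ = Z * ((∑ i, α i * Real.exp (-B v (x - μ i))) / Real.exp (B v v / 2)) := by
        rw [Finset.sum_div, Finset.mul_sum]
        exact Finset.sum_congr rfl fun i _ => by rw [Real.exp_sub (-B v (x - μ i))]; ring
    _ < _ := mul_lt_of_lt_one_right hZ ((div_lt_one (Real.exp_pos _)).2 k1)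

lemma gram_of_dist (hB : ∀ x y, B x y = B y x)
    (h : ∀ i j, i ≠ j → B (μ i - μ j) (μ i - μ j) = β i + β j) : Gram B μ β := by
  classical
  intro δ hδ
  have e : ∀ i j, B (μ i) (μ j) = (B (μ i) (μ i) - β i) / 2 + (B (μ j) (μ j) - β j) / 2 +
      if j = i then β i else 0 := fun i j => by
    split_ifs with hij
    · rw [hij]; ring
    · have := h i j (Ne.symm hij)
      simp only [map_sub, LinearMap.sub_apply, hB (μ j) (μ i)] at this
      linarith
  simp only [map_sum, map_smul, LinearMap.sum_apply, LinearMap.smul_apply, smul_eq_mul]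
  obtain ⟨a, ha⟩ : ∃ a : ι → ℝ, ∀ i j, B (μ i) (μ j) = a i + a j + if j = i then β i else 0 :=
    ⟨fun i => (B (μ i) (μ i) - β i) / 2, e⟩
  have e2 : ∀ j, ∑ i, δ i * B (μ i) (μ j) = ∑ i, δ i * a i + δ j * β j := fun j => by
    simp only [ha, mul_add, Finset.sum_add_distrib, ← Finset.sum_mul, hδ, mul_ite,
      mul_zero, Finset.sum_ite_eq, Finset.mem_univ, if_true, zero_mul, add_zero]
  simp only [e2, mul_add, Finset.sum_add_distrib, ← Finset.sum_mul, hδ, zero_mul, zero_add]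
  exact Finset.sum_congr rfl fun i _ => by ring

lemma mix_eq {S : Matrix (Fin d) (Fin d) ℝ} (w : ι → ℝ) (μ : ι → Fin d → ℝ) :
    (fun x => ∑ i, w i * gaussian (μ i) S x) = fun x => ∑ i, cmp (toBilin' S⁻¹)
      (w i * ((2 * Real.pi) ^ (-(d : ℝ) / 2) * S.det ^ (-(1 : ℝ) / 2))) (μ i) x := by
  funext x
  refine Finset.sum_congr rfl fun i _ => ?_
  unfold cmp gaussian
  rw [toBilin'_apply']
  ring

lemma bilin_symm {A : Matrix (Fin d) (Fin d) ℝ} (hA : A.PosDef) (x y : Fin d → ℝ) :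
    toBilin' A x y = toBilin' A y x := by
  have hT : Aᵀ = A := by simpa using hA.1.eq
  rw [toBilin'_apply', toBilin'_apply', dotProduct_mulVec, dotProduct_comm, ← mulVec_transpose, hT]

lemma bilin_pos {A : Matrix (Fin d) (Fin d) ℝ} (hA : A.PosDef) (v : Fin d → ℝ) (hv : v ≠ 0) :
    0 < toBilin' A v v := by
  rw [toBilin'_apply']
  simpa using hA.dotProduct_mulVec_pos hv

lemma const_pos {S : Matrix (Fin d) (Fin d) ℝ} (hS : S.PosDef) :
    0 < (2 * Real.pi) ^ (-(d : ℝ) / 2) * S.det ^ (-(1 : ℝ) / 2) :=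
  mul_pos (Real.rpow_pos_of_pos (by positivity) _) (Real.rpow_pos_of_pos hS.det_pos _)

theorem homModes_le (d : ℕ) : homModes d 3 ≤ 4 := by
  refine iSup_le fun w => iSup_le fun μ => iSup_le fun S => iSup_le fun h => ?_
  obtain ⟨hw, -, hS⟩ := h
  have hB := bilin_symm hS.inv
  set B := toBilin' S⁻¹
  have hG : Gram B μ ![B (μ 0 - μ 1) (μ 0 - μ 2), B (μ 1 - μ 0) (μ 1 - μ 2),
      B (μ 2 - μ 0) (μ 2 - μ 1)] := gram_of_dist hB fun i j hij => by
    fin_cases i <;> fin_cases j <;>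
      first
      | exact absurd rfl hij
      | simp [hB (μ 1) (μ 0), hB (μ 2) (μ 0), hB (μ 2) (μ 1)]; ring
  rw [mix_eq]
  refine (encard_modes_le hB (bilin_pos hS.inv) hG fun i => mul_pos (hw i) (const_pos hS)).trans
    (encard_three _ fun δ hδ => ?_)
  rw [← hG δ hδ]
  by_cases e : ∑ i, δ i • μ i = 0
  · rw [e]; simp
  · exact (bilin_pos hS.inv _ e).le

theorem orthoModes_le (d k : ℕ) (hk : 1 ≤ k) : orthoModes d k ≤ (k + 1 : ℕ) := by
  refine iSup_le fun w => iSup_le fun μ => iSup_le fun S => iSup_le fun h => ?_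
  obtain ⟨hw, -, hS, β, hβ, hD⟩ := h
  have hB := bilin_symm hS.inv
  have : Nonempty (Fin k) := ⟨⟨0, hk⟩⟩
  rw [mix_eq]
  refine (encard_modes_le hB (bilin_pos hS.inv) (gram_of_dist (β := β) hB fun i j hij => ?_)
    fun i => mul_pos (hw i) (const_pos hS)).trans ?_
  · rw [toBilin'_apply']; exact hD i j hij
  · simpa using encard_pos hβ _

end Pool.Agent.Lib.MP_1f4710_co.Hom
end
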