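import Mathlib
import Pool.Agent.Lib.MP_1f4710_co.HLink

/-!
The regular simplex with `k + 1` modes.
-/

namespace Pool.Agent.Lib.MP_1f4710_co.Hom

open Set Matrix

/-- Barycentric coordinates of the modes. -/
noncomputable def al (n : ℕ) : Option (Fin (n + 1)) → Fin (n + 1) → ℝ
  | none => fun _ => 1 / (n + 1)
  | some j => fun i => if i = j then n / (n + 1) else 1 / (n * (n + 1))

lemma sum_ite' {n : ℕ} (j : Fin (n + 1)) (F : Fin (n + 1) → ℝ → ℝ) (x y : ℝ) :
    ∑ i, F i (if i = j then x else y) = F j x + ∑ i ∈ Finset.univ.erase j, F i y := by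
  rw [← Finset.add_sum_erase _ _ (Finset.mem_univ j), if_pos rfl]
  congr 1
  exact Finset.sum_congr rfl fun k hk => by rw [if_neg (Finset.ne_of_mem_erase hk)]

lemma al_inj {n : ℕ} (hn : 2 ≤ n) : Function.Injective (al n) := by
  have h2 : (2 : ℝ) ≤ n := by exact_mod_cast hn
  have A : ∀ j, al n none ≠ al n (some j) := fun j h => by
    have := congrFun h j
    simp only [al, if_true] at this
    rw [div_left_inj' (by positivity)] at this
    linarith
  rintro (_ | i) (_ | j) h
  · rfl
  · exact (A j h).elim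
  · exact (A i h.symm).elim
  · by_contra hc
    have hij : i ≠ j := fun e => hc (congrArg _ e)
    have := congrFun h i
    simp only [al, if_true, if_neg hij] at this
    field_simp at this
    nlinarith

lemma example_modes {d n : ℕ} (hn : 2 ≤ n) {B : (Fin d → ℝ) →ₗ[ℝ] (Fin d → ℝ) →ₗ[ℝ] ℝ}
    {μ : Fin (n + 1) → Fin d → ℝ} (hB : ∀ x y, B x y = B y x) (hpos : ∀ v, v ≠ 0 → 0 < B v v)
    (hG : Gram B μ fun _ => 2 * n * Real.log n / (n - 1)) {w : ℝ} (hw : 0 < w) :
    ((n + 2 : ℕ) : ℕ∞) ≤ (modes fun x => ∑ i, cmp B w (μ i) x).encard := by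
  have h2 : (2 : ℝ) ≤ n := by exact_mod_cast hn
  have hn1 : (0 : ℝ) < n - 1 := by linarith
  have hn0 : (0 : ℝ) < n := by linarith
  have hlog : 0 < Real.log n := Real.log_pos (by linarith)
  set β : ℝ := 2 * n * Real.log n / (n - 1) with hβ
  have hβ0 : 0 < β := by positivity
  have hβ1 : β / (n + 1) < 1 := by
    have := Real.self_lt_sinh_iff.2 hlog
    rw [Real.sinh_log hn0, show ((n : ℝ) - (n : ℝ)⁻¹) / 2 = (n ^ 2 - 1) / (2 * n) by field_simp,
      lt_div_iff₀ (by positivity)] at this
    rw [div_lt_one (by positivity), hβ, div_lt_iff₀ hn1]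
    linarith
  have h0 : ∀ o i, 0 < al n o i := by
    rintro (_ | j) i
    · simp only [al]; positivity
    · simp only [al]; split_ifs <;> positivity
  have h1 : ∀ o, ∑ i, al n o i = 1 := by
    rintro (_ | j)
    · simp only [al, Finset.sum_const, Finset.card_univ, Fintype.card_fin, nsmul_eq_mul]
      push_cast
      field_simp
    · simp only [al]
      rw [sum_ite' j fun _ x => x]
      simp only [Finset.sum_const, Finset.card_erase_of_mem (Finset.mem_univ j), Finset.card_univ,
        Fintype.card_fin, nsmul_eq_mul, Nat.add_sub_cancel]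
      field_simp
  have hm : ∀ o, (∑ i, al n o i • μ i) ∈ modes fun x => ∑ i, cmp B w (μ i) x := by
    rintro (_ | j)
    · refine sufficient (w := fun _ => w) (t := eta β (Real.log w - β / 2) (1 / (n + 1))) hB hpos hG
        (fun _ => hw) (h0 _) (h1 _) (fun _ => rfl) (by positivity) hβ1 fun δ _ => le_of_eq ?_
      rw [Finset.mul_sum]
      refine Finset.sum_congr rfl fun i _ => ?_
      simp only [al]
      field_simp
    · refine sufficient (w := fun _ => w) (t := eta β (Real.log w - β / 2) (n / (n + 1))) hB hpos hG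
        (fun _ => hw) (h0 _) (h1 _) (fun i => ?_) (by positivity) hβ1 fun δ hδ => ?_
      · simp only [al]
        split_ifs
        · rfl
        · unfold eta
          rw [Real.log_div hn0.ne' (by positivity), Real.log_div one_ne_zero (by positivity),
            Real.log_mul hn0.ne' (by positivity), Real.log_one]
          have : β * (n / (n + 1)) - β * (1 / (n * (n + 1))) = 2 * Real.log n := by
            rw [hβ]; field_simp; ring
          linarith
      · simp only [al]
        rw [sum_ite' j fun i x => δ i ^ 2 / x, ← Finset.add_sum_erase _ _ (Finset.mem_univ j)]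
        rw [← Finset.add_sum_erase _ _ (Finset.mem_univ j)] at hδ
        have c := sq_sum_le_card_mul_sum_sq (s := Finset.univ.erase j) (f := δ)
        simp only [Finset.card_erase_of_mem (Finset.mem_univ j), Finset.card_univ,
          Fintype.card_fin, Nat.add_sub_cancel] at c
        rw [show ∑ i ∈ Finset.univ.erase j, δ i = -δ j by linarith, neg_sq] at c
        rw [← Finset.mul_sum, ← Finset.sum_div]
        generalize ∑ i ∈ Finset.univ.erase j, δ i ^ 2 = T at c ⊢
        have e : β / (n + 1) * (δ j ^ 2 / (n / (n + 1)) + T / (1 / (n * (n + 1)))) =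
            β * δ j ^ 2 + β * T + β * ((n - 1) / n) * (n * T - δ j ^ 2) := by
          field_simp; ring
        rw [e]
        have : 0 ≤ β * ((n - 1) / n) * (n * T - δ j ^ 2) :=
          mul_nonneg (by positivity) (sub_nonneg.2 c)
        linarith
  have hinj : Function.Injective fun o => ∑ i, al n o i • μ i := by
    intro o o' h
    refine al_inj hn (funext fun i => ?_)
    have k := hG (fun i => al n o i - al n o' i) (by rw [Finset.sum_sub_distrib, h1, h1, sub_self])
    simp only [sub_smul, Finset.sum_sub_distrib] at k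
    rw [sub_eq_zero.2 h, map_zero, eq_comm,
      Finset.sum_eq_zero_iff_of_nonneg fun i _ => by positivity] at k
    exact sub_eq_zero.1 (pow_eq_zero_iff two_ne_zero |>.1
      ((mul_eq_zero.1 (k i (Finset.mem_univ i))).resolve_left hβ0.ne'))
  refine le_trans ?_ (hinj.encard_range.trans (encard_le_encard (range_subset_iff.2 hm)))
  simp [add_assoc, one_add_one_eq_two]

lemma exists_simplex {d n : ℕ} (hd : n ≤ d) {β : ℝ} (hβ : 0 < β) :
    ∃ (μ : Fin (n + 1) → Fin d → ℝ) (S : Matrix (Fin d) (Fin d) ℝ), S.PosDef ∧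
      ∀ i j, i ≠ j → (μ i - μ j) ⬝ᵥ (S⁻¹ *ᵥ (μ i - μ j)) = β + β := by
  set e : Fin n → Fin d → ℝ := fun i => Pi.single (Fin.castLE hd i) 1 with he
  set u : Fin d → ℝ := ∑ i, e i with hu
  have hA : (β • (1 + vecMulVec u u)).PosDef :=
    (PosDef.one.add_posSemidef (by simpa using posSemidef_vecMulVec_self_star u)).smul hβ
  have hee : ∀ i j, e i ⬝ᵥ e j = if i = j then 1 else 0 := fun i j => by
    simp [he, Pi.single_apply, Fin.ext_iff, eq_comm]
  have hue : ∀ j, u ⬝ᵥ e j = 1 := fun j => by simp [hu, sum_dotProduct, hee]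
  have hq : ∀ v : Fin d → ℝ, v ⬝ᵥ ((β • (1 + vecMulVec u u)) *ᵥ v) =
      β * (v ⬝ᵥ v + (u ⬝ᵥ v) ^ 2) := fun v => by
    simp only [smul_mulVec, add_mulVec, one_mulVec, vecMulVec_mulVec, dotProduct_smul,
      dotProduct_add, smul_eq_mul, op_smul_eq_smul, dotProduct_comm v u]
    ring
  refine ⟨Fin.cons 0 e, _, hA.inv, fun i j hij => ?_⟩
  rw [nonsing_inv_nonsing_inv _ hA.det_pos.ne'.isUnit, hq]
  induction i using Fin.cases <;> induction j using Fin.cases
  · exact absurd rfl hij
  · simp [hee, hue]; ring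
  · simp [hee, hue]; ring
  · rename_i i j
    have : i ≠ j := fun h => hij (congrArg _ h)
    simp [hee, hue, this, this.symm]; ring

theorem le_orthoModes {d n : ℕ} (hn : 2 ≤ n) (hd : n ≤ d) :
    ((n + 2 : ℕ) : ℕ∞) ≤ orthoModes d (n + 1) := by
  have h2 : (2 : ℝ) ≤ n := by exact_mod_cast hn
  have hβ : 0 < 2 * n * Real.log n / (n - 1) :=
    div_pos (mul_pos (by linarith) (Real.log_pos (by linarith))) (by linarith)
  obtain ⟨μ, S, hS, hD⟩ := exists_simplex hd hβ
  refine le_iSup_of_le (fun _ => 1 / (n + 1)) (le_iSup_of_le μ (le_iSup_of_le S (le_iSup_of_le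
    ⟨fun _ => by positivity, ?_, hS, _, fun _ => hβ, hD⟩ ?_)))
  · simp only [Finset.sum_const, Finset.card_univ, Fintype.card_fin, nsmul_eq_mul]
    push_cast
    field_simp
  · rw [mix_eq]
    exact example_modes hn (bilin_symm hS.inv) (bilin_pos hS.inv) (gram_of_dist (bilin_symm hS.inv)
      fun i j hij => by rw [toBilin'_apply']; exact hD i j hij)
      (mul_pos (by positivity) (const_pos hS))

lemma ortho_le_hom (d k : ℕ) : orthoModes d k ≤ homModes d k :=
  iSup_mono fun _ => iSup_mono fun _ => iSup_mono fun _ => iSup_le fun h =>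
    le_iSup_of_le ⟨h.1, h.2.1, h.2.2.1⟩ le_rfl

end Pool.Agent.Lib.MP_1f4710_co.Hom
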