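import Mathlib

/-! Orthogonal arrays of strength four with `4 ^ m` rows and `2 ^ m - 1` columns
(the dual of the two-error-correcting BCH code). -/

namespace Pool.Agent.Lib.MP_1f4710_co.Iso

open Finset

/-- A sign matrix whose rows have the same moments up to order four as the full cube. -/
structure OA {ι κ : Type} [Fintype ι] [DecidableEq κ] (c : ι → κ → ℝ) : Prop where
  sq : ∀ i x, c i x * c i x = 1
  m1 : ∀ x, ∑ i, c i x = 0
  m2 : ∀ x y, ∑ i, c i x * c i y = if x = y then (Fintype.card ι : ℝ) else 0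
  m3 : ∀ x y z, ∑ i, c i x * c i y * c i z = 0
  m4 : ∀ x y z w, ∑ i, c i x * c i y * c i z * c i w =
    if (x = y ∧ z = w) ∨ (x = z ∧ y = w) ∨ (x = w ∧ y = z) then (Fintype.card ι : ℝ) else 0

theorem OA.reindex {ι κ ι' κ' : Type} [Fintype ι] [DecidableEq κ] [Fintype ι'] [DecidableEq κ']
    {c : ι → κ → ℝ} (h : OA c) (e : ι' ≃ ι) (f : κ' ≃ κ) : OA fun i x => c (e i) (f x) where
  sq i x := h.sq _ _
  m1 x := by rw [e.sum_comp fun i => c i (f x), h.m1]
  m2 x y := by
    rw [e.sum_comp fun i => c i (f x) * c i (f y), h.m2, Fintype.card_congr e]; simp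
  m3 x y z := by rw [e.sum_comp fun i => c i (f x) * c i (f y) * c i (f z), h.m3]
  m4 x y z w := by
    rw [e.sum_comp fun i => c i (f x) * c i (f y) * c i (f z) * c i (f w), h.m4,
      Fintype.card_congr e]; simp

theorem OA.flip {ι κ : Type} [Fintype ι] [DecidableEq κ] {c : ι → κ → ℝ} (h : OA c)
    (s : κ → ℝ) (hs : ∀ x, s x * s x = 1) : OA fun i x => s x * c i x where
  sq i x := by linear_combination (c i x * c i x) * hs x + h.sq i x
  m1 x := by rw [← mul_sum, h.m1, mul_zero]
  m2 x y := by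
    have : ∀ i, s x * c i x * (s y * c i y) = s x * s y * (c i x * c i y) := fun i => by ring
    simp only [this]
    rw [← mul_sum, h.m2]
    split_ifs with e
    · rw [e, hs, one_mul]
    · rw [mul_zero]
  m3 x y z := by
    have : ∀ i, s x * c i x * (s y * c i y) * (s z * c i z) =
        s x * s y * s z * (c i x * c i y * c i z) := fun i => by ring
    simp only [this]
    rw [← mul_sum, h.m3, mul_zero]
  m4 x y z w := by
    have : ∀ i, s x * c i x * (s y * c i y) * (s z * c i z) * (s w * c i w) =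
        s x * s y * s z * s w * (c i x * c i y * c i z * c i w) := fun i => by ring
    simp only [this]
    rw [← mul_sum, h.m4]
    split_ifs with e
    · have : s x * s y * s z * s w = 1 := by
        rcases e with ⟨rfl, rfl⟩ | ⟨rfl, rfl⟩ | ⟨rfl, rfl⟩
        · linear_combination (s z * s z) * hs x + hs z
        · linear_combination (s y * s y) * hs x + hs y
        · linear_combination (s y * s y) * hs x + hs y
      rw [this, one_mul]
    · rw [mul_zero]

theorem exists_char (F : Type) [Field F] [Finite F] [CharP F 2] :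
    ∃ ψ : AddChar F ℝ, ψ.IsPrimitive := by
  have : Fact (Nat.Prime 2) := ⟨Nat.prime_two⟩
  let : Algebra (ZMod 2) F := ZMod.algebra F 2
  have hz : (-1 : ℝ) ^ 2 = 1 := by norm_num
  obtain ⟨b, hb⟩ : ∃ b : F, Algebra.trace (ZMod 2) F b ≠ 0 := by
    by_contra h
    push Not at h
    exact Algebra.trace_ne_zero (ZMod 2) F (LinearMap.ext h)
  refine ⟨(AddChar.zmodChar 2 hz).compAddMonoidHom (Algebra.trace (ZMod 2) F).toAddMonoidHom,
    AddChar.IsPrimitive.of_ne_one fun h => ?_⟩
  have h1 := DFunLike.congr_fun h b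
  have h2 : Algebra.trace (ZMod 2) F b = 1 := by
    have : ∀ t : ZMod 2, t ≠ 0 → t = 1 := by
      clear * -
      intro t
      fin_cases t
      · exact fun h => absurd rfl h
      · exact fun _ => rfl
    exact this _ hb
  simp only [AddChar.compAddMonoidHom_apply, LinearMap.toAddMonoidHom_coe, h2,
    AddChar.zmodChar_apply, AddChar.one_apply] at h1
  have h3 : (1 : ZMod 2).val = 1 := rfl
  rw [h3] at h1
  norm_num at h1

theorem oa_field (F : Type) [Field F] [Fintype F] [DecidableEq F] [CharP F 2] :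
    ∃ c : F × F → {x : F // x ≠ 0} → ℝ, OA c := by
  obtain ⟨ψ, hψ⟩ := exists_char F
  have two : (2 : F) = 0 := by exact_mod_cast CharP.cast_eq_zero F 2
  have key : ∀ u v : F, ∑ p : F × F, ψ (p.1 * u + p.2 * v) =
      if u = 0 ∧ v = 0 then (Fintype.card (F × F) : ℝ) else 0 := by
    intro u v
    simp only [AddChar.map_add_eq_mul]
    rw [Fintype.sum_prod_type' (fun a b => ψ (a * u) * ψ (b * v)), ← sum_mul_sum,
      AddChar.sum_mulShift u hψ, AddChar.sum_mulShift v hψ]
    by_cases hu : u = 0 <;> by_cases hv : v = 0 <;> simp [hu, hv]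
  refine ⟨fun p x => ψ (p.1 * x + p.2 * x ^ 3), fun p x => ?_, fun x => ?_, fun x y => ?_,
    fun x y z => ?_, fun x y z w => ?_⟩
  · rw [← AddChar.map_add_eq_mul, ← two_mul, two, zero_mul, AddChar.map_zero_eq_one]
  · rw [key, if_neg fun h => x.2 h.1]
  · have : ∀ p : F × F, ψ (p.1 * x + p.2 * x ^ 3) * ψ (p.1 * y + p.2 * y ^ 3) =
        ψ (p.1 * (x + y) + p.2 * (x ^ 3 + y ^ 3)) := fun p => by
      rw [← AddChar.map_add_eq_mul]; congr 1; ring
    simp only [this]
    rw [key]
    refine if_congr ⟨fun h => Subtype.ext ?_, fun h => ?_⟩ rfl rfl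
    · linear_combination h.1 - y * two
    · rw [h]
      exact ⟨by linear_combination (y : F) * two, by linear_combination (y : F) ^ 3 * two⟩
  · have : ∀ p : F × F, ψ (p.1 * x + p.2 * x ^ 3) * ψ (p.1 * y + p.2 * y ^ 3) *
        ψ (p.1 * z + p.2 * z ^ 3) = ψ (p.1 * (x + y + z) + p.2 * (x ^ 3 + y ^ 3 + z ^ 3)) :=
      fun p => by rw [← AddChar.map_add_eq_mul, ← AddChar.map_add_eq_mul]; congr 1; ring
    simp only [this]
    rw [key, if_neg]
    rintro ⟨h1, h2⟩
    have : (x : F) * y * z = 0 := by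
      linear_combination h2 - ((x : F) ^ 2 + y ^ 2 + z ^ 2 - x * y - y * z - x * z) * h1 -
        (x : F) * y * z * two
    exact mul_ne_zero (mul_ne_zero x.2 y.2) z.2 this
  · have : ∀ p : F × F, ψ (p.1 * x + p.2 * x ^ 3) * ψ (p.1 * y + p.2 * y ^ 3) *
        ψ (p.1 * z + p.2 * z ^ 3) * ψ (p.1 * w + p.2 * w ^ 3) =
        ψ (p.1 * (x + y + z + w) + p.2 * (x ^ 3 + y ^ 3 + z ^ 3 + w ^ 3)) :=
      fun p => by
        rw [← AddChar.map_add_eq_mul, ← AddChar.map_add_eq_mul, ← AddChar.map_add_eq_mul]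
        congr 1; ring
    simp only [this]
    rw [key]
    refine if_congr ⟨fun ⟨h1, h2⟩ => ?_, fun h => ?_⟩ rfl rfl
    · have hw : (w : F) = -(x + y + z) := by linear_combination h1
      have h3 : ((x : F) + y) * (x + z) * (y + z) = 0 := by
        rw [hw] at h2
        linear_combination -h2 - ((x : F) + y) * (x + z) * (y + z) * two
      rcases mul_eq_zero.1 h3 with h4 | h4
      · rcases mul_eq_zero.1 h4 with h5 | h5
        · exact Or.inl ⟨Subtype.ext (by linear_combination h5 - y * two),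
            Subtype.ext (by linear_combination h1 - h5 - w * two)⟩
        · exact Or.inr (Or.inl ⟨Subtype.ext (by linear_combination h5 - z * two),
            Subtype.ext (by linear_combination h1 - h5 - w * two)⟩)
      · exact Or.inr (Or.inr ⟨Subtype.ext (by linear_combination h1 - h4 - w * two),
          Subtype.ext (by linear_combination h4 - z * two)⟩)
    · rcases h with ⟨rfl, rfl⟩ | ⟨rfl, rfl⟩ | ⟨rfl, rfl⟩
      · exact ⟨by linear_combination ((x : F) + z) * two,
          by linear_combination ((x : F) ^ 3 + z ^ 3) * two⟩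
      · exact ⟨by linear_combination ((x : F) + y) * two,
          by linear_combination ((x : F) ^ 3 + y ^ 3) * two⟩
      · exact ⟨by linear_combination ((x : F) + y) * two,
          by linear_combination ((x : F) ^ 3 + y ^ 3) * two⟩

theorem exists_oa (m : ℕ) (hm : m ≠ 0) : ∃ c : Fin (4 ^ m) → Fin (2 ^ m - 1) → ℝ, OA c := by
  classical
  have : Fact (Nat.Prime 2) := ⟨Nat.prime_two⟩
  let : Fintype (GaloisField 2 m) := Fintype.ofFinite _
  have hc : Fintype.card (GaloisField 2 m) = 2 ^ m := by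
    rw [← Nat.card_eq_fintype_card, GaloisField.card 2 m hm]
  obtain ⟨c, h⟩ := oa_field (GaloisField 2 m)
  refine ⟨_, h.reindex (Fintype.equivFinOfCardEq ?_).symm (Fintype.equivFinOfCardEq ?_).symm⟩
  · rw [Fintype.card_prod, hc, ← mul_pow]; norm_num
  · rw [Fintype.card_subtype_compl, hc]; simp

end Pool.Agent.Lib.MP_1f4710_co.Iso
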