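import Pool.Agent.Lib.MP_1f4710_co.IsoMom

/-! A strict local maximum of `log Z(y) - ρ |y|² / 2` in a small box of the positive orthant. -/

namespace Pool.Agent.Lib.MP_1f4710_co.Iso

open Finset Matrix Topology Filter

variable {ι κ : Type} [Fintype ι] [Fintype κ]

noncomputable def Zf (c : ι → κ → ℝ) (y : κ → ℝ) : ℝ := ∑ i, Real.exp (c i ⬝ᵥ y)

noncomputable def Bf (c : ι → κ → ℝ) (u y : κ → ℝ) : ℝ := ∑ i, (c i ⬝ᵥ u) * Real.exp (c i ⬝ᵥ y)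

noncomputable def Af (c : ι → κ → ℝ) (u y : κ → ℝ) : ℝ :=
  ∑ i, (c i ⬝ᵥ u) * ((c i ⬝ᵥ u) * Real.exp (c i ⬝ᵥ y))

noncomputable def gf (c : ι → κ → ℝ) (ρ : ℝ) (y : κ → ℝ) : ℝ :=
  Real.log (Zf c y) - ρ / 2 * (y ⬝ᵥ y)

noncomputable def d1 (c : ι → κ → ℝ) (ρ : ℝ) (u y : κ → ℝ) : ℝ :=
  Bf c u y / Zf c y - ρ * (y ⬝ᵥ u)

noncomputable def d2 (c : ι → κ → ℝ) (ρ : ℝ) (u y : κ → ℝ) : ℝ :=
  (Af c u y * Zf c y - Bf c u y * Bf c u y) / Zf c y ^ 2 - ρ * (u ⬝ᵥ u)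

variable {c : ι → κ → ℝ}

theorem Zf_pos [Nonempty ι] (y : κ → ℝ) : 0 < Zf c y :=
  sum_pos (fun _ _ => Real.exp_pos _) univ_nonempty

theorem line_dot (a y u : κ → ℝ) (t : ℝ) :
    HasDerivAt (fun t : ℝ => a ⬝ᵥ (y + t • u)) (a ⬝ᵥ u) t := by
  simp only [dotProduct_add, dotProduct_smul, smul_eq_mul]
  simpa using ((hasDerivAt_id t).mul_const (a ⬝ᵥ u)).const_add (a ⬝ᵥ y)

theorem line_exp (a y u : κ → ℝ) (t : ℝ) :
    HasDerivAt (fun t : ℝ => Real.exp (a ⬝ᵥ (y + t • u)))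
      ((a ⬝ᵥ u) * Real.exp (a ⬝ᵥ (y + t • u))) t := by
  rw [mul_comm]; exact (line_dot a y u t).exp

theorem line_Z (y u : κ → ℝ) (t : ℝ) :
    HasDerivAt (fun t : ℝ => Zf c (y + t • u)) (Bf c u (y + t • u)) t :=
  HasDerivAt.fun_sum fun i _ => line_exp (c i) y u t

theorem line_B (y u : κ → ℝ) (t : ℝ) :
    HasDerivAt (fun t : ℝ => Bf c u (y + t • u)) (Af c u (y + t • u)) t :=
  HasDerivAt.fun_sum fun i _ => (line_exp (c i) y u t).const_mul _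

theorem line_g [Nonempty ι] (ρ : ℝ) (y u : κ → ℝ) (t : ℝ) :
    HasDerivAt (fun t : ℝ => gf c ρ (y + t • u)) (d1 c ρ u (y + t • u)) t := by
  have h1 := (line_Z (c := c) y u t).log (Zf_pos _).ne'
  have h2 : HasDerivAt (fun t : ℝ => (y + t • u) ⬝ᵥ (y + t • u)) (2 * ((y + t • u) ⬝ᵥ u)) t := by
    have e : ∀ t : ℝ, (y + t • u) ⬝ᵥ (y + t • u) =
        y ⬝ᵥ y + t * (2 * (y ⬝ᵥ u)) + t ^ 2 * (u ⬝ᵥ u) := fun t => by
      simp only [dotProduct_add, add_dotProduct, dotProduct_smul, smul_dotProduct, smul_eq_mul,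
        dotProduct_comm u y]
      ring
    simp only [e, add_dotProduct, smul_dotProduct, smul_eq_mul]
    refine ((((hasDerivAt_id t).mul_const (2 * (y ⬝ᵥ u))).const_add (y ⬝ᵥ y)).add
      ((hasDerivAt_pow 2 t).mul_const (u ⬝ᵥ u))).congr_deriv ?_
    simp; ring
  refine (h1.sub (h2.const_mul (ρ / 2))).congr_deriv ?_
  unfold d1; ring

theorem line_d1 [Nonempty ι] (ρ : ℝ) (y u : κ → ℝ) (t : ℝ) :
    HasDerivAt (fun t : ℝ => d1 c ρ u (y + t • u)) (d2 c ρ u (y + t • u)) t := by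
  have h1 := (line_B (c := c) y u t).div (line_Z (c := c) y u t) (Zf_pos _).ne'
  have h2 : HasDerivAt (fun t : ℝ => (y + t • u) ⬝ᵥ u) (u ⬝ᵥ u) t := by
    simp only [dotProduct_comm _ u]; exact line_dot u y u t
  exact h1.sub (h2.const_mul ρ)

variable [DecidableEq κ]

/-- the box -/
def Box (τ : ℝ) : Set (κ → ℝ) := {y | ∀ j, 3 / 4 * τ ≤ y j ∧ y j ≤ 5 / 4 * τ}

omit [Fintype κ] in
theorem OA.abs_eq (h : OA c) (i : ι) (x : κ) : |c i x| = 1 := by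
  have := h.sq i x
  rcases mul_self_eq_one_iff.1 this with e | e <;> simp [e]

theorem OA.dot_le (h : OA c) {τ : ℝ} (hτ : 0 < τ) {y : κ → ℝ} (hy : y ∈ Box τ) (i : ι) :
    |c i ⬝ᵥ y| ≤ Fintype.card κ * (5 / 4 * τ) := by
  refine (abs_sum_le_sum_abs _ _).trans ?_
  rw [← nsmul_eq_mul, ← card_univ]
  refine sum_le_card_nsmul _ _ _ fun j _ => ?_
  rw [abs_mul, h.abs_eq, one_mul, abs_of_nonneg (by linarith [(hy j).1])]
  exact (hy j).2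

omit [DecidableEq κ] in
theorem box_sq {τ : ℝ} (hτ : 0 < τ) {y : κ → ℝ} (hy : y ∈ Box τ) (hn : (1 : ℝ) ≤ Fintype.card κ) :
    0 ≤ y ⬝ᵥ y ∧ y ⬝ᵥ y ≤ (Fintype.card κ * (5 / 4 * τ)) ^ 2 := by
  refine ⟨sum_nonneg fun j _ => mul_self_nonneg _, ?_⟩
  have h1 : y ⬝ᵥ y ≤ Fintype.card κ * (5 / 4 * τ) ^ 2 := by
    rw [← nsmul_eq_mul, ← card_univ]
    refine sum_le_card_nsmul _ _ _ fun j _ => ?_
    nlinarith [(hy j).1, (hy j).2]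
  refine h1.trans ?_
  rw [mul_pow (Fintype.card κ : ℝ)]
  exact mul_le_mul_of_nonneg_right (by nlinarith) (sq_nonneg _)

theorem OA.Z_est (h : OA c) {y : κ → ℝ} {s : ℝ} (hs : ∀ i, |c i ⬝ᵥ y| ≤ s) (h1 : s ≤ 1) :
    |Zf c y - Fintype.card ι * (1 + y ⬝ᵥ y / 2)| ≤ Fintype.card ι * s ^ 3 := by
  have e : (Fintype.card ι : ℝ) * (1 + y ⬝ᵥ y / 2) =
      ∑ i, (1 + c i ⬝ᵥ y + (c i ⬝ᵥ y) ^ 2 / 2) := by
    simp only [sum_add_distrib, h.mom1, ← sum_div, pow_two, h.mom2, sum_const, card_univ, nsmul_eq_mul]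
    ring
  rw [e, Zf, ← sum_sub_distrib]
  refine (abs_sum_le_sum_abs _ _).trans ?_
  rw [← nsmul_eq_mul, ← card_univ]
  exact sum_le_card_nsmul _ _ _ fun i _ => taylor3 (hs i) h1

theorem OA.B_est (h : OA c) {y : κ → ℝ} {s : ℝ} (hs : ∀ i, |c i ⬝ᵥ y| ≤ s) (h1 : s ≤ 1) (j : κ) :
    |Bf c (Pi.single j 1) y - Fintype.card ι * (y j + y ⬝ᵥ y * y j / 2 - y j ^ 3 / 3)| ≤
      Fintype.card ι * s ^ 4 := by
  set u : κ → ℝ := Pi.single j 1 with hu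
  have e0 : ∑ x, u x * y x * y x * y x = y j ^ 3 := by
    rw [sum_eq_single j] <;> simp +contextual [hu]
    ring
  have e1 : u ⬝ᵥ y = y j := by simp [hu]
  have e : (Fintype.card ι : ℝ) * (y j + y ⬝ᵥ y * y j / 2 - y j ^ 3 / 3) =
      ∑ i, (c i ⬝ᵥ u) * (1 + c i ⬝ᵥ y + (c i ⬝ᵥ y) ^ 2 / 2 + (c i ⬝ᵥ y) ^ 3 / 6) := by
    have : ∀ i, (c i ⬝ᵥ u) * (1 + c i ⬝ᵥ y + (c i ⬝ᵥ y) ^ 2 / 2 + (c i ⬝ᵥ y) ^ 3 / 6) =
        c i ⬝ᵥ u + (c i ⬝ᵥ u) * (c i ⬝ᵥ y) + (c i ⬝ᵥ u) * (c i ⬝ᵥ y) * (c i ⬝ᵥ y) / 2 +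
          (c i ⬝ᵥ u) * (c i ⬝ᵥ y) * (c i ⬝ᵥ y) * (c i ⬝ᵥ y) / 6 := fun i => by ring
    simp only [this, sum_add_distrib, h.mom1, ← sum_div, h.mom2, h.mom3, h.mom4, e0, e1]
    ring
  rw [e, Bf, ← sum_sub_distrib]
  refine (abs_sum_le_sum_abs _ _).trans ?_
  rw [← nsmul_eq_mul, ← card_univ]
  refine sum_le_card_nsmul _ _ _ fun i _ => ?_
  have e2 : c i ⬝ᵥ u = c i j := by simp [hu]
  rw [← mul_sub, abs_mul, e2, h.abs_eq, one_mul]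
  exact taylor4 (hs i) h1

theorem OA.W_est (h : OA c) {y : κ → ℝ} {s : ℝ} (hs : ∀ i, |c i ⬝ᵥ y| ≤ s) (h1 : s ≤ 1)
    (u : κ → ℝ) :
    ∑ i, (c i ⬝ᵥ u - u ⬝ᵥ y) ^ 2 * Real.exp (c i ⬝ᵥ y) ≤
      Fintype.card ι * (u ⬝ᵥ u + u ⬝ᵥ u * (y ⬝ᵥ y) / 2 - ∑ x, u x * u x * y x * y x +
        (u ⬝ᵥ y) ^ 2 * (y ⬝ᵥ y) / 2 + s ^ 3 * (u ⬝ᵥ u + (u ⬝ᵥ y) ^ 2)) := by
  set m := u ⬝ᵥ y with hm
  have e : (Fintype.card ι : ℝ) * (u ⬝ᵥ u + u ⬝ᵥ u * (y ⬝ᵥ y) / 2 - ∑ x, u x * u x * y x * y x +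
        m ^ 2 * (y ⬝ᵥ y) / 2 + s ^ 3 * (u ⬝ᵥ u + m ^ 2)) =
      ∑ i, (c i ⬝ᵥ u - m) ^ 2 * (1 + c i ⬝ᵥ y + (c i ⬝ᵥ y) ^ 2 / 2 + s ^ 3) := by
    have : ∀ i, (c i ⬝ᵥ u - m) ^ 2 * (1 + c i ⬝ᵥ y + (c i ⬝ᵥ y) ^ 2 / 2 + s ^ 3) =
        (1 + s ^ 3) * ((c i ⬝ᵥ u) * (c i ⬝ᵥ u)) + (c i ⬝ᵥ u) * (c i ⬝ᵥ u) * (c i ⬝ᵥ y) +
          (c i ⬝ᵥ u) * (c i ⬝ᵥ u) * (c i ⬝ᵥ y) * (c i ⬝ᵥ y) / 2 -
          2 * m * (1 + s ^ 3) * (c i ⬝ᵥ u) - 2 * m * ((c i ⬝ᵥ u) * (c i ⬝ᵥ y)) -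
          m * ((c i ⬝ᵥ u) * (c i ⬝ᵥ y) * (c i ⬝ᵥ y)) + m ^ 2 * (1 + s ^ 3) +
          m ^ 2 * (c i ⬝ᵥ y) + m ^ 2 / 2 * ((c i ⬝ᵥ y) * (c i ⬝ᵥ y)) := fun i => by ring
    simp only [this, sum_add_distrib, sum_sub_distrib, h.mom1, ← sum_div, ← mul_sum, h.mom2,
      h.mom3, h.mom4, ← hm, sum_const, card_univ, nsmul_eq_mul]
    ring
  rw [e]
  refine sum_le_sum fun i _ => mul_le_mul_of_nonneg_left ?_ (sq_nonneg _)
  linarith [(abs_le.1 (taylor3 (hs i) h1)).2]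

section box

variable [Nonempty ι] {τ : ℝ}

omit [DecidableEq κ] in
theorem s_small (hτ : 0 < τ) (hn : (1 : ℝ) ≤ Fintype.card κ)
    (hs : (Fintype.card κ : ℝ) ^ 4 * τ ≤ 1 / 100) :
    let s := Fintype.card κ * (5 / 4 * τ)
    0 < s ∧ s ≤ 1 / 50 ∧ τ ≤ s ∧ s ^ 3 ≤ τ ^ 2 / 50 ∧ s ^ 4 ≤ τ ^ 3 / 40 := by
  intro s
  set n : ℝ := (Fintype.card κ : ℝ)
  have h1 : n ≤ n ^ 4 := by simpa using pow_le_pow_right₀ hn (show 1 ≤ 4 by norm_num)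
  have h3 : n ^ 3 ≤ n ^ 4 := pow_le_pow_right₀ hn (by norm_num)
  have a1 : n * τ ≤ 1 / 100 := (mul_le_mul_of_nonneg_right h1 hτ.le).trans hs
  have a3 : n ^ 3 * τ ≤ 1 / 100 := (mul_le_mul_of_nonneg_right h3 hτ.le).trans hs
  refine ⟨by positivity, ?_, ?_, ?_, ?_⟩
  · simp only [s]; nlinarith
  · simp only [s]; nlinarith
  · have : s ^ 3 = 125 / 64 * (n ^ 3 * τ) * τ ^ 2 := by simp only [s]; ring
    rw [this]; nlinarith [sq_nonneg τ]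
  · have : s ^ 4 = 625 / 256 * (n ^ 4 * τ) * τ ^ 3 := by simp only [s]; ring
    rw [this]; nlinarith [pow_pos hτ 3]

theorem OA.d2_neg (h : OA c) (hτ : 0 < τ) (hn : (1 : ℝ) ≤ Fintype.card κ)
    (hs : (Fintype.card κ : ℝ) ^ 4 * τ ≤ 1 / 100) {y : κ → ℝ} (hy : y ∈ Box τ) {u : κ → ℝ}
    (hu : u ≠ 0) : d2 c (1 - τ ^ 2 / 3) u y < 0 := by
  obtain ⟨s0, s1, s2, s3, -⟩ := s_small hτ hn hs
  have hd := h.dot_le hτ hy
  obtain ⟨y0, y1⟩ := box_sq hτ hy hn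
  set s := Fintype.card κ * (5 / 4 * τ)
  have hZ := (abs_le.1 (h.Z_est hd (by linarith))).1
  have hW := h.W_est hd (by linarith) u
  have hK : (0 : ℝ) < Fintype.card ι := by exact_mod_cast Fintype.card_pos
  have hN : 0 < u ⬝ᵥ u := by
    refine lt_of_le_of_ne (sum_nonneg fun j _ => mul_self_nonneg _) fun e => hu ?_
    exact dotProduct_self_eq_zero.1 e.symm
  have hm : (u ⬝ᵥ y) ^ 2 ≤ u ⬝ᵥ u * (y ⬝ᵥ y) := by
    simpa only [dotProduct, pow_two] using sum_mul_sq_le_sq_mul_sq univ u y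
  have hq : 9 / 16 * τ ^ 2 * (u ⬝ᵥ u) ≤ ∑ x, u x * u x * y x * y x := by
    rw [dotProduct, mul_sum]
    refine sum_le_sum fun j _ => ?_
    have : 9 / 16 * τ ^ 2 ≤ y j * y j := by nlinarith [(hy j).1]
    nlinarith [mul_self_nonneg (u j)]
  have hZ0 : 0 < Zf c y := Zf_pos y
  have hv : Af c u y * Zf c y - Bf c u y * Bf c u y ≤
      (∑ i, (c i ⬝ᵥ u - u ⬝ᵥ y) ^ 2 * Real.exp (c i ⬝ᵥ y)) * Zf c y := by
    have : ∑ i, (c i ⬝ᵥ u - u ⬝ᵥ y) ^ 2 * Real.exp (c i ⬝ᵥ y) =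
        Af c u y - 2 * (u ⬝ᵥ y) * Bf c u y + (u ⬝ᵥ y) ^ 2 * Zf c y := by
      simp only [Af, Bf, Zf, mul_sum, ← sum_sub_distrib, ← sum_add_distrib]
      exact sum_congr rfl fun i _ => by ring
    rw [this]
    nlinarith [sq_nonneg (Bf c u y - u ⬝ᵥ y * Zf c y)]
  unfold d2
  rw [sub_neg, div_lt_iff₀ (by positivity)]
  refine hv.trans_lt ?_
  rw [pow_two (Zf c y), ← mul_assoc]
  refine mul_lt_mul_of_pos_right (hW.trans_lt ?_) hZ0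
  set N := u ⬝ᵥ u
  set Y := y ⬝ᵥ y
  set M := (u ⬝ᵥ y) ^ 2
  set Q := ∑ x, u x * u x * y x * y x
  set K : ℝ := (Fintype.card ι : ℝ)
  have t1 : τ ^ 2 ≤ 1 / 2500 := by nlinarith
  have Y1 : Y ≤ 1 / 2500 := by nlinarith
  have Y2 : Y * Y ≤ s ^ 3 := by
    have : Y * Y ≤ s ^ 2 * s ^ 2 := mul_le_mul y1 y1 y0 (sq_nonneg _)
    nlinarith [pow_pos s0 3]
  have p3 : 0 < s ^ 3 := pow_pos s0 3
  have b1 : M * Y ≤ N * s ^ 3 := by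
    calc M * Y ≤ N * Y * Y := mul_le_mul_of_nonneg_right hm y0
      _ = N * (Y * Y) := by ring
      _ ≤ N * s ^ 3 := mul_le_mul_of_nonneg_left Y2 hN.le
  have b2 : M ≤ N := hm.trans (by nlinarith)
  have b3 : s ^ 3 * (N + M) ≤ s ^ 3 * (2 * N) := mul_le_mul_of_nonneg_left (by linarith) p3.le
  have b4 : N + N * Y / 2 - Q + M * Y / 2 + s ^ 3 * (N + M) ≤
      N * (1 + Y / 2 - 9 / 16 * τ ^ 2 + 5 / 2 * s ^ 3) := by nlinarith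
  have b5 : 1 + Y / 2 - 9 / 16 * τ ^ 2 + 5 / 2 * s ^ 3 <
      (1 - τ ^ 2 / 3) * (1 + Y / 2 - s ^ 3) := by nlinarith [pow_pos hτ 2]
  have b6 : K * (1 + Y / 2 - s ^ 3) ≤ Zf c y := by linarith
  calc K * (N + N * Y / 2 - Q + M * Y / 2 + s ^ 3 * (N + M))
      ≤ K * (N * (1 + Y / 2 - 9 / 16 * τ ^ 2 + 5 / 2 * s ^ 3)) :=
        mul_le_mul_of_nonneg_left b4 hK.le
    _ < K * (N * ((1 - τ ^ 2 / 3) * (1 + Y / 2 - s ^ 3))) :=
        mul_lt_mul_of_pos_left (mul_lt_mul_of_pos_left b5 hN) hK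
    _ = (1 - τ ^ 2 / 3) * N * (K * (1 + Y / 2 - s ^ 3)) := by ring
    _ ≤ (1 - τ ^ 2 / 3) * N * Zf c y :=
        mul_le_mul_of_nonneg_left b6 (mul_nonneg (by linarith) hN.le)

theorem OA.d1_est (h : OA c) (hτ : 0 < τ) (hn : (1 : ℝ) ≤ Fintype.card κ)
    (hs : (Fintype.card κ : ℝ) ^ 4 * τ ≤ 1 / 100) {y : κ → ℝ} (hy : y ∈ Box τ) (j : κ) :
    (y j = 3 / 4 * τ → 0 < d1 c (1 - τ ^ 2 / 3) (Pi.single j 1) y) ∧
    (y j = 5 / 4 * τ → d1 c (1 - τ ^ 2 / 3) (Pi.single j 1) y < 0) := by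
  obtain ⟨s0, s1, s2, -, s4⟩ := s_small hτ hn hs
  have hd := h.dot_le hτ hy
  obtain ⟨y0, y1⟩ := box_sq hτ hy hn
  have hj : 5 / 4 * τ ≤ Fintype.card κ * (5 / 4 * τ) := by nlinarith
  set s := Fintype.card κ * (5 / 4 * τ)
  have hZ := abs_le.1 (h.Z_est hd (by linarith))
  have hB := abs_le.1 (h.B_est hd (by linarith) j)
  have hK : (0 : ℝ) < Fintype.card ι := by exact_mod_cast Fintype.card_pos
  have hZ0 : 0 < Zf c y := Zf_pos y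
  have e : d1 c (1 - τ ^ 2 / 3) (Pi.single j 1) y =
      (Bf c (Pi.single j 1) y - (1 - τ ^ 2 / 3) * y j * Zf c y) / Zf c y := by
    unfold d1
    rw [dotProduct_single, mul_one]
    field_simp
  rw [e]
  set Y := y ⬝ᵥ y
  set K : ℝ := (Fintype.card ι : ℝ)
  set B := Bf c (Pi.single j 1) y
  set Z := Zf c y
  have t1 : τ ^ 2 ≤ 1 / 2500 := by nlinarith
  have Y1 : Y ≤ 1 / 2500 := by nlinarith
  have p3 : 0 < s ^ 3 := pow_pos s0 3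
  have q3 : 0 < τ ^ 3 := pow_pos hτ 3
  have r0 : 0 ≤ (1 - τ ^ 2 / 3) * y j := mul_nonneg (by linarith) (by linarith [(hy j).1])
  have r1 : (1 - τ ^ 2 / 3) * y j ≤ s := by nlinarith [(hy j).1, (hy j).2, sq_nonneg τ]
  have r2 : (1 - τ ^ 2 / 3) * y j * s ^ 3 ≤ s ^ 4 := by
    rw [pow_succ' s 3]; exact mul_le_mul_of_nonneg_right r1 p3.le
  have q4 : 0 ≤ τ ^ 3 * Y := mul_nonneg q3.le y0
  have q5 : τ ^ 3 * Y ≤ τ ^ 3 * (1 / 2500) := mul_le_mul_of_nonneg_left Y1 q3.le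
  constructor
  · intro ej
    refine div_pos ?_ hZ0
    have a1 : (1 - τ ^ 2 / 3) * y j * Z ≤ (1 - τ ^ 2 / 3) * y j * (K * (1 + Y / 2) + K * s ^ 3) :=
      mul_le_mul_of_nonneg_left (by linarith [hZ.2]) r0
    have a2 : 0 < y j + Y * y j / 2 - y j ^ 3 / 3 - s ^ 4 -
        ((1 - τ ^ 2 / 3) * y j * (1 + Y / 2) + (1 - τ ^ 2 / 3) * y j * s ^ 3) := by
      have : y j + Y * y j / 2 - y j ^ 3 / 3 - (1 - τ ^ 2 / 3) * y j * (1 + Y / 2) =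
          7 / 64 * τ ^ 3 + 1 / 8 * (τ ^ 3 * Y) := by rw [ej]; ring
      linarith
    nlinarith [mul_pos hK a2, hB.1]
  · intro ej
    refine div_neg_of_neg_of_pos ?_ hZ0
    have a1 : (1 - τ ^ 2 / 3) * y j * (K * (1 + Y / 2) - K * s ^ 3) ≤ (1 - τ ^ 2 / 3) * y j * Z :=
      mul_le_mul_of_nonneg_left (by linarith [hZ.1]) r0
    have a2 : 0 < -(y j + Y * y j / 2 - y j ^ 3 / 3 + s ^ 4 -
        ((1 - τ ^ 2 / 3) * y j * (1 + Y / 2) - (1 - τ ^ 2 / 3) * y j * s ^ 3)) := by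
      have : y j + Y * y j / 2 - y j ^ 3 / 3 - (1 - τ ^ 2 / 3) * y j * (1 + Y / 2) =
          -(15 / 64) * τ ^ 3 + 5 / 24 * (τ ^ 3 * Y) := by rw [ej]; ring
      linarith
    nlinarith [mul_pos hK a2, hB.2]

theorem OA.exists_max (h : OA c) (hτ : 0 < τ) (hn : (1 : ℝ) ≤ Fintype.card κ)
    (hs : (Fintype.card κ : ℝ) ^ 4 * τ ≤ 1 / 100) :
    ∃ y : κ → ℝ, (∀ j, 0 < y j) ∧
      ∀ᶠ z in 𝓝[≠] y, gf c (1 - τ ^ 2 / 3) z < gf c (1 - τ ^ 2 / 3) y := by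
  set ρ := 1 - τ ^ 2 / 3
  have hB : Box τ = Set.pi Set.univ fun _ : κ => Set.Icc (3 / 4 * τ) (5 / 4 * τ) := by
    ext y; exact ⟨fun h j _ => h j, fun h j => h j trivial⟩
  have hc : IsCompact (Box τ : Set (κ → ℝ)) := hB ▸ isCompact_univ_pi fun _ => isCompact_Icc
  have hcv : Convex ℝ (Box τ : Set (κ → ℝ)) := hB ▸ convex_pi fun _ _ => convex_Icc _ _
  have hg : Continuous (gf c ρ) := by
    unfold gf
    refine Continuous.sub (Continuous.log ?_ fun y => (Zf_pos y).ne') (by fun_prop)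
    unfold Zf; fun_prop
  obtain ⟨y, hy, hmax⟩ := hc.exists_isMaxOn ⟨fun _ => τ, fun _ => ⟨by linarith, by linarith⟩⟩
    hg.continuousOn
  have up : ∀ u : κ → ℝ, (∀ᶠ t in 𝓝[>] (0 : ℝ), y + t • u ∈ Box τ) → d1 c ρ u y ≤ 0 := by
    intro u hu
    have hd := (line_g (c := c) ρ y u 0).tendsto_slope_zero_right
    simp only [zero_smul, add_zero, zero_add] at hd
    refine le_of_tendsto hd ?_
    filter_upwards [hu, self_mem_nhdsWithin] with t h1 h2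
    exact mul_nonpos_of_nonneg_of_nonpos (inv_nonneg.2 (le_of_lt h2)) (sub_nonpos.2 (hmax h1))
  have small : ∀ᶠ t in 𝓝[>] (0 : ℝ), t ∈ Set.Ioo 0 (τ / 2) := Ioo_mem_nhdsGT (by linarith)
  have hint : ∀ j, 3 / 4 * τ < y j ∧ y j < 5 / 4 * τ := by
    intro j
    obtain ⟨e1, e2⟩ := h.d1_est hτ hn hs hy j
    refine ⟨lt_of_le_of_ne (hy j).1 fun e => (e1 e.symm).not_ge (up _ ?_),
      lt_of_le_of_ne (hy j).2 fun e => ?_⟩
    · filter_upwards [small] with t ht l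
      by_cases el : l = j
      · subst el; simp only [Pi.add_apply, Pi.smul_apply, Pi.single_eq_same, smul_eq_mul, ← e]
        constructor <;> linarith [ht.1, ht.2]
      · simpa [el] using hy l
    · have h1 : d1 c ρ (-Pi.single j 1) y ≤ 0 := by
        refine up _ ?_
        filter_upwards [small] with t ht l
        by_cases el : l = j
        · subst el
          simp only [Pi.add_apply, Pi.smul_apply, Pi.neg_apply, Pi.single_eq_same, smul_eq_mul, e]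
          constructor <;> linarith [ht.1, ht.2]
        · simpa [el] using hy l
      have h2 : d1 c ρ (-Pi.single j 1) y = -d1 c ρ (Pi.single j 1) y := by
        simp only [d1, Bf, dotProduct_neg, neg_mul, sum_neg_distrib]; ring
      linarith [e2 e]
  refine ⟨y, fun j => by linarith [(hy j).1], ?_⟩
  have hnb : Box τ ∈ 𝓝 y := by
    rw [hB]; exact set_pi_mem_nhds Set.finite_univ fun j _ => Icc_mem_nhds (hint j).1 (hint j).2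
  filter_upwards [nhdsWithin_le_nhds hnb, self_mem_nhdsWithin] with z hz hne
  have hu : z - y ≠ 0 := sub_ne_zero.2 hne
  have hin : ∀ t ∈ Set.Icc (0 : ℝ) 1, y + t • (z - y) ∈ Box τ := fun t ht =>
    hcv.add_smul_sub_mem hy hz ht
  have h0 : d1 c ρ (z - y) y ≤ 0 := by
    refine up _ ?_
    filter_upwards [Ioo_mem_nhdsGT (show (0 : ℝ) < 1 by norm_num)] with t ht
    exact hin t ⟨ht.1.le, ht.2.le⟩
  obtain ⟨a, ha, e1⟩ := exists_hasDerivAt_eq_slope (fun t : ℝ => gf c ρ (y + t • (z - y))) _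
    (show (0 : ℝ) < 1 by norm_num)
    (fun t _ => (line_g ρ y (z - y) t).continuousAt.continuousWithinAt)
    (fun t _ => line_g ρ y (z - y) t)
  obtain ⟨b, hb, e2⟩ := exists_hasDerivAt_eq_slope (fun t : ℝ => d1 c ρ (z - y) (y + t • (z - y))) _
    ha.1 (fun t _ => (line_d1 ρ y (z - y) t).continuousAt.continuousWithinAt)
    (fun t _ => line_d1 ρ y (z - y) t)
  have h2 := h.d2_neg hτ hn hs (hin b ⟨hb.1.le, (hb.2.trans ha.2).le⟩) hu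
  simp only [one_smul, add_sub_cancel, zero_smul, add_zero, sub_zero, div_one] at e1 e2
  rw [e2, div_neg_iff] at h2
  rcases h2 with h2 | h2
  · linarith [h2.2, ha.1]
  · linarith [h2.1]

end box

end Pool.Agent.Lib.MP_1f4710_co.Iso
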