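import Pool.Agent.Lib.MP_1f4710_co.IsoModes
import Pool.Agent.Lib.MP_1f4710_co.Defs

/-! Counting the modes of the equal-weight unit-covariance mixture. -/

namespace Pool.Agent.Lib.MP_1f4710_co.Iso

open Finset Matrix Topology Filter

theorem OA.restrict {ι κ κ' : Type} [Fintype ι] [DecidableEq κ] [DecidableEq κ']
    {c : ι → κ → ℝ} (h : OA c) (f : κ' → κ) (hf : Function.Injective f) :
    OA fun i x => c i (f x) where
  sq i x := h.sq _ _
  m1 x := h.m1 _
  m2 x y := by rw [h.m2]; simp [hf.eq_iff]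
  m3 x y z := h.m3 _ _ _
  m4 x y z w := by rw [h.m4]; simp [hf.eq_iff]

theorem equal_weights (d m : ℕ) (hd : 1 ≤ d) (hm : d < 2 ^ m) :
    ∃ μ : Fin (4 ^ m) → Fin d → ℝ, ∀ a : ℝ, 0 < a →
      ((2 ^ d : ℕ) : ℕ∞) ≤ (modes fun x => ∑ i, a * gaussian (μ i) 1 x).encard := by
  have hm0 : m ≠ 0 := by rintro rfl; omega
  obtain ⟨c, h⟩ := exists_oa m hm0
  have h' := h.restrict (Fin.castLE (show d ≤ 2 ^ m - 1 by omega)) (Fin.castLE_injective _)
  have : Nonempty (Fin (4 ^ m)) := ⟨⟨0, by positivity⟩⟩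
  obtain ⟨β, hβ⟩ := h'.orthant (by simpa using hd)
  refine ⟨fun i => β • fun x => c i (Fin.castLE (show d ≤ 2 ^ m - 1 by omega) x), fun a ha => ?_⟩
  let sg : (Fin d → Bool) → Fin d → ℝ := fun s j => if s j then 1 else -1
  have hsg : ∀ s j, sg s j * sg s j = 1 := fun s j => by
    simp only [sg]; split_ifs <;> norm_num
  choose X hX hX' using fun s => hβ (sg s) (hsg s)
  have hinj : Function.Injective X := fun s t e => funext fun j => by
    have h1 := hX s j
    have h2 := hX t j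
    rw [e] at h1
    simp only [sg] at h1 h2
    cases hs : s j <;> cases ht : t j <;> simp [hs, ht] at h1 h2 ⊢ <;> linarith
  have hcard : ((2 ^ d : ℕ) : ℕ∞) ≤ (Set.range X).encard := by
    have := hinj.encard_range
    rwa [ENat.card_eq_coe_fintype_card, Fintype.card_fun, Fintype.card_bool,
      Fintype.card_fin] at this
  refine hcard.trans (Set.encard_le_encard ?_)
  rintro _ ⟨s, rfl⟩
  have hC : 0 < a * (2 * Real.pi) ^ (-(d : ℝ) / 2) := by positivity
  filter_upwards [hX' s] with z hz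
  simp only [gaussian, inv_one, one_mulVec, det_one, Real.one_rpow, mul_one, ← mul_assoc, ← mul_sum]
  exact mul_lt_mul_of_pos_left hz hC

theorem any_number (d m k : ℕ) (hd : 1 ≤ d) (hm : d < 2 ^ m) (hk : 4 ^ m ≤ k) :
    ∃ (w : Fin k → ℝ) (μ : Fin k → Fin d → ℝ), (∀ i, 0 < w i) ∧ ∑ i, w i = 1 ∧
      (k = 4 ^ m → ∀ i, w i = 1 / k) ∧
      ((2 ^ d : ℕ) : ℕ∞) ≤ (modes fun x => ∑ i, w i * gaussian (μ i) 1 x).encard := by
  obtain ⟨μ, hμ⟩ := equal_weights d m hd hm
  have hK : 0 < 4 ^ m := by positivity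
  have hK' : (0 : ℝ) < (4 ^ m : ℕ) := by exact_mod_cast hK
  rcases hk.eq_or_lt with rfl | hlt
  · refine ⟨fun _ => 1 / (4 ^ m : ℕ), μ, fun _ => by positivity, ?_, fun _ _ => rfl,
      hμ _ (by positivity)⟩
    rw [sum_const, card_univ, Fintype.card_fin, nsmul_eq_mul, mul_one_div_cancel hK'.ne']
  · let p : Fin k → Fin (4 ^ m) := fun i => ⟨i % 4 ^ m, Nat.mod_lt _ hK⟩
    let n : Fin (4 ^ m) → ℕ := fun j => #{i | p i = j}
    have hn : ∀ j, (0 : ℝ) < n j := fun j => by
      have : 0 < n j := card_pos.2 ⟨⟨j, j.2.trans hlt⟩, by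
        simp [p, Fin.ext_iff, Nat.mod_eq_of_lt j.2]⟩
      exact_mod_cast this
    have key : ∀ g : Fin (4 ^ m) → ℝ, ∑ i, 1 / (4 ^ m : ℕ) / n (p i) * g (p i) =
        ∑ j, 1 / (4 ^ m : ℕ) * g j := fun g => by
      rw [← sum_fiberwise univ p]
      refine sum_congr rfl fun j _ => ?_
      rw [sum_congr rfl fun i hi => by rw [(mem_filter.1 hi).2], sum_const, nsmul_eq_mul]
      have := (hn j).ne'
      change (n j : ℝ) * _ = _
      field_simp
    refine ⟨fun i => 1 / (4 ^ m : ℕ) / n (p i), fun i => μ (p i),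
      fun i => div_pos (by positivity) (hn _), ?_, fun e => absurd e hlt.ne', ?_⟩
    · have := key fun _ => 1
      simp only [mul_one] at this
      rw [this, sum_const, card_univ, Fintype.card_fin, nsmul_eq_mul, mul_one_div_cancel hK'.ne']
    · have e : (fun x => ∑ i, 1 / (4 ^ m : ℕ) / n (p i) * gaussian (μ (p i)) 1 x) =
          fun x => ∑ j, 1 / (4 ^ m : ℕ) * gaussian (μ j) 1 x :=
        funext fun x => key fun j => gaussian (μ j) 1 x
      rw [e]
      exact hμ _ (one_div_pos.2 hK')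

end Pool.Agent.Lib.MP_1f4710_co.Iso
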