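import Pool.Agent.Lib.MP_1f4710_co.IsoCore

/-! One mode in every orthant. -/

namespace Pool.Agent.Lib.MP_1f4710_co.Iso

open Finset Matrix Topology Filter

variable {ι κ : Type} [Fintype ι] [Fintype κ] [DecidableEq κ] [Nonempty ι] {c : ι → κ → ℝ}

theorem OA.orthant (h : OA c) (hn : (1 : ℝ) ≤ Fintype.card κ) :
    ∃ β : ℝ, ∀ s : κ → ℝ, (∀ j, s j * s j = 1) → ∃ x : κ → ℝ, (∀ j, 0 < s j * x j) ∧
      ∀ᶠ z in 𝓝[≠] x, ∑ i, Real.exp (-(1 / 2) * ((z - β • c i) ⬝ᵥ (z - β • c i))) <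
        ∑ i, Real.exp (-(1 / 2) * ((x - β • c i) ⬝ᵥ (x - β • c i))) := by
  set n : ℝ := (Fintype.card κ : ℝ) with hn'
  have n4 : 1 ≤ n ^ 4 := one_le_pow₀ hn
  set τ : ℝ := 1 / (100 * n ^ 4) with hτ'
  have hτ : 0 < τ := by positivity
  have hs : n ^ 4 * τ ≤ 1 / 100 := by rw [hτ']; field_simp; norm_num
  have t1 : τ ≤ 1 / 100 := by nlinarith
  have hρ : 0 < 1 - τ ^ 2 / 3 := by nlinarith
  set ρ := 1 - τ ^ 2 / 3 with hρ'
  set β := (Real.sqrt ρ)⁻¹ with hβ'
  have hβ : 0 < β := inv_pos.2 (Real.sqrt_pos.2 hρ)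
  have hβρ : ρ * β ^ 2 = 1 := by
    rw [hβ', inv_pow, Real.sq_sqrt hρ.le, mul_inv_cancel₀ hρ.ne']
  refine ⟨β, fun s hs1 => ?_⟩
  obtain ⟨y, hy0, hy⟩ := (h.flip s hs1).exists_max hτ hn hs
  let T : (κ → ℝ) → κ → ℝ := fun z j => β * s j * z j
  have hT : Continuous T := by fun_prop
  have s0 : ∀ j, β * s j ≠ 0 := fun j => mul_ne_zero hβ.ne' fun e => by simpa [e] using hs1 j
  have hinj : Function.Injective T := fun a b e => funext fun j =>
    mul_left_cancel₀ (s0 j) (congrFun e j)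
  let x : κ → ℝ := fun j => β⁻¹ * s j * y j
  have hx : T x = y := funext fun j => by
    have : β * β⁻¹ = 1 := mul_inv_cancel₀ hβ.ne'
    simp only [T, x]
    linear_combination (s j * s j * y j) * this + y j * hs1 j
  have key : ∀ z : κ → ℝ, ∑ i, Real.exp (-(1 / 2) * ((z - β • c i) ⬝ᵥ (z - β • c i))) =
      Real.exp (gf (fun i x => s x * c i x) ρ (T z) - β ^ 2 * n / 2) := by
    intro z
    have e1 : T z ⬝ᵥ T z = β ^ 2 * (z ⬝ᵥ z) := by
      simp only [dotProduct, mul_sum, T]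
      exact sum_congr rfl fun j _ => by linear_combination (β ^ 2 * z j * z j) * hs1 j
    have e2 : ∀ i, (fun x => s x * c i x) ⬝ᵥ T z = β * (c i ⬝ᵥ z) := fun i => by
      simp only [dotProduct, mul_sum, T]
      exact sum_congr rfl fun j _ => by linear_combination (β * c i j * z j) * hs1 j
    have e3 : ∀ i, c i ⬝ᵥ c i = n := fun i => by simp [dotProduct, h.sq, hn']
    rw [gf, sub_sub, Real.exp_sub, Real.exp_log (Zf_pos _), Zf, sum_div]
    refine sum_congr rfl fun i _ => ?_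
    rw [← Real.exp_sub, e1, e2]
    congr 1
    simp only [sub_dotProduct, dotProduct_sub, smul_dotProduct, dotProduct_smul, smul_eq_mul, e3,
      dotProduct_comm z (c i)]
    linear_combination (z ⬝ᵥ z / 2) * hβρ
  refine ⟨x, fun j => ?_, ?_⟩
  · have : s j * x j = β⁻¹ * y j := by
      simp only [x]; linear_combination (β⁻¹ * y j) * hs1 j
    rw [this]; exact mul_pos (inv_pos.2 hβ) (hy0 j)
  · have ht : Tendsto T (𝓝[≠] x) (𝓝[≠] y) := by
      rw [← hx]
      exact hT.continuousWithinAt.tendsto_nhdsWithin fun z hz e => hz (hinj e)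
    filter_upwards [ht.eventually hy] with z hz
    rw [key, key, hx]
    exact Real.exp_lt_exp.2 (by linarith)

end Pool.Agent.Lib.MP_1f4710_co.Iso
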