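import Pool.Agent.Lib.MP_1f4710_co.IsoCode

/-! Moment identities and Taylor estimates for an orthogonal array of strength four. -/

namespace Pool.Agent.Lib.MP_1f4710_co.Iso

open Finset Matrix

variable {ι κ : Type} [Fintype ι] [Fintype κ] [DecidableEq κ] {c : ι → κ → ℝ}

omit [DecidableEq κ] in
theorem contract (c : ι → κ → ℝ) (a : ι → ℝ) (u : κ → ℝ) :
    ∑ i, a i * (c i ⬝ᵥ u) = ∑ x, u x * ∑ i, a i * c i x := by
  simp only [dotProduct, mul_sum]
  rw [sum_comm]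
  exact sum_congr rfl fun x _ => sum_congr rfl fun i _ => by ring

theorem OA.mom1 (h : OA c) (u : κ → ℝ) : ∑ i, c i ⬝ᵥ u = 0 := by
  simpa [h.m1] using contract c (fun _ => 1) u

theorem OA.mom2' (h : OA c) (x : κ) (v : κ → ℝ) :
    ∑ i, c i x * (c i ⬝ᵥ v) = Fintype.card ι * v x := by
  rw [contract]; simp [h.m2, mul_comm]

theorem OA.mom2 (h : OA c) (u v : κ → ℝ) :
    ∑ i, (c i ⬝ᵥ u) * (c i ⬝ᵥ v) = Fintype.card ι * (u ⬝ᵥ v) := by
  rw [contract, dotProduct, mul_sum]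
  refine sum_congr rfl fun x _ => ?_
  simp only [mul_comm (c _ ⬝ᵥ u)]
  rw [h.mom2']; ring

theorem OA.mom3 (h : OA c) (u v w : κ → ℝ) :
    ∑ i, (c i ⬝ᵥ u) * (c i ⬝ᵥ v) * (c i ⬝ᵥ w) = 0 := by
  have s1 : ∀ x y, ∑ i, c i x * c i y * (c i ⬝ᵥ u) = 0 := fun x y => by
    rw [contract]; simp [h.m3]
  have s2 : ∀ x, ∑ i, c i x * (c i ⬝ᵥ u) * (c i ⬝ᵥ v) = 0 := fun x => by
    rw [contract]
    refine sum_eq_zero fun y _ => ?_
    rw [← mul_zero (v y), ← s1 x y]
    congr 1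
    exact sum_congr rfl fun i _ => by ring
  rw [contract]
  refine sum_eq_zero fun x _ => ?_
  rw [← mul_zero (w x), ← s2 x]
  congr 1
  exact sum_congr rfl fun i _ => by ring

theorem OA.mom4 (h : OA c) (u v w t : κ → ℝ) :
    ∑ i, (c i ⬝ᵥ u) * (c i ⬝ᵥ v) * (c i ⬝ᵥ w) * (c i ⬝ᵥ t) =
      Fintype.card ι * ((u ⬝ᵥ v) * (w ⬝ᵥ t) + (u ⬝ᵥ w) * (v ⬝ᵥ t) + (u ⬝ᵥ t) * (v ⬝ᵥ w) -
        2 * ∑ x, u x * v x * w x * t x) := by
  set K : ℝ := (Fintype.card ι : ℝ) with hK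
  have s0 : ∀ x y z a, ∑ i, c i x * c i y * c i z * c i a =
      K * ((if z = a then (if x = y then 1 else 0) else 0) +
        (if y = a then (if x = z then 1 else 0) else 0) +
        (if x = a then (if y = z then 1 else 0) else 0) -
        2 * (if x = a then (if y = z then (if x = y then 1 else 0) else 0) else 0)) := by
    intro x y z a
    rw [h.m4]
    by_cases h1 : x = y <;> by_cases h2 : x = z <;> by_cases h3 : x = a <;>
      by_cases h4 : y = z <;> by_cases h5 : y = a <;> by_cases h6 : z = a <;>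
      simp_all <;> norm_num
  have s1 : ∀ x y z, ∑ i, c i x * c i y * c i z * (c i ⬝ᵥ u) =
      K * ((if x = y then u z else 0) + (if x = z then u y else 0) + (if y = z then u x else 0) -
        2 * (if y = z then (if x = y then u x else 0) else 0)) := fun x y z => by
    rw [contract]
    simp only [s0, mul_add, mul_sub,
      sum_add_distrib, sum_sub_distrib, mul_ite, mul_one, mul_zero, sum_ite_eq, mem_univ, if_true]
    split_ifs <;> ring
  have s2 : ∀ x y, ∑ i, c i x * c i y * (c i ⬝ᵥ u) * (c i ⬝ᵥ v) =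
      K * ((if x = y then u ⬝ᵥ v else 0) + v x * u y + v y * u x -
        2 * (if x = y then u x * v x else 0)) := fun x y => by
    rw [contract]
    have : ∀ z, ∑ i, c i x * c i y * (c i ⬝ᵥ u) * c i z =
        ∑ i, c i x * c i y * c i z * (c i ⬝ᵥ u) := fun z => sum_congr rfl fun i _ => by ring
    simp only [this, s1, mul_left_comm (v _) K, ← mul_sum]
    congr 1
    simp only [mul_add, mul_sub, mul_left_comm (v _) 2,
      sum_add_distrib, sum_sub_distrib, mul_ite, mul_zero, sum_ite_eq, mem_univ, if_true]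
    by_cases e : x = y
    · subst e; simp [dotProduct, mul_comm]
    · simp [e]
  have s3 : ∀ x, ∑ i, c i x * (c i ⬝ᵥ u) * (c i ⬝ᵥ v) * (c i ⬝ᵥ w) =
      K * (w x * (u ⬝ᵥ v) + v x * (u ⬝ᵥ w) + u x * (v ⬝ᵥ w) - 2 * (u x * v x * w x)) :=
    fun x => by
    rw [contract]
    have : ∀ y, ∑ i, c i x * (c i ⬝ᵥ u) * (c i ⬝ᵥ v) * c i y =
        ∑ i, c i x * c i y * (c i ⬝ᵥ u) * (c i ⬝ᵥ v) := fun z => sum_congr rfl fun i _ => by ring
    simp only [this, s2, mul_left_comm (w _) K, ← mul_sum]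
    congr 1
    simp only [mul_add, mul_sub, mul_left_comm (w _) 2,
      sum_add_distrib, sum_sub_distrib, mul_ite, mul_zero, sum_ite_eq, mem_univ, if_true]
    have e1 : ∑ y, w y * (v x * u y) = v x * (u ⬝ᵥ w) := by
      rw [dotProduct, mul_sum]; exact sum_congr rfl fun i _ => by ring
    have e2 : ∑ y, w y * (v y * u x) = u x * (v ⬝ᵥ w) := by
      rw [dotProduct, mul_sum]; exact sum_congr rfl fun i _ => by ring
    rw [e1, e2]; ring
  rw [contract]
  have : ∀ x, ∑ i, (c i ⬝ᵥ u) * (c i ⬝ᵥ v) * (c i ⬝ᵥ w) * c i x =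
      ∑ i, c i x * (c i ⬝ᵥ u) * (c i ⬝ᵥ v) * (c i ⬝ᵥ w) := fun z => sum_congr rfl fun i _ => by ring
  simp only [this, s3, mul_left_comm (t _) K, ← mul_sum]
  congr 1
  have e : ∀ (p : κ → ℝ) (r : ℝ), ∑ x, t x * (p x * r) = r * (p ⬝ᵥ t) := fun p r => by
    rw [dotProduct, mul_sum]; exact sum_congr rfl fun i _ => by ring
  simp only [mul_add, mul_sub, sum_add_distrib, sum_sub_distrib, e]
  rw [mul_sum]
  have : ∑ x, t x * (2 * (u x * v x * w x)) = ∑ x, 2 * (u x * v x * w x * t x) :=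
    sum_congr rfl fun i _ => by ring
  rw [this]; ring

theorem taylor3 {x s : ℝ} (hx : |x| ≤ s) (hs : s ≤ 1) :
    |Real.exp x - (1 + x + x ^ 2 / 2)| ≤ s ^ 3 := by
  have h := Real.exp_bound (hx.trans hs) (n := 3) (by norm_num)
  have e : ∑ m ∈ range 3, x ^ m / m.factorial = 1 + x + x ^ 2 / 2 := by
    simp [sum_range_succ, Nat.factorial]
  rw [e] at h
  have h1 : |x| ^ 3 ≤ s ^ 3 := pow_le_pow_left₀ (abs_nonneg x) hx 3
  have h2 : 0 ≤ |x| ^ 3 := by positivity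
  norm_num [Nat.factorial] at h
  nlinarith

theorem taylor4 {x s : ℝ} (hx : |x| ≤ s) (hs : s ≤ 1) :
    |Real.exp x - (1 + x + x ^ 2 / 2 + x ^ 3 / 6)| ≤ s ^ 4 := by
  have h := Real.exp_bound (hx.trans hs) (n := 4) (by norm_num)
  have e : ∑ m ∈ range 4, x ^ m / m.factorial = 1 + x + x ^ 2 / 2 + x ^ 3 / 6 := by
    simp [sum_range_succ, Nat.factorial]
  rw [e] at h
  have h1 : |x| ^ 4 ≤ s ^ 4 := pow_le_pow_left₀ (abs_nonneg x) hx 4
  have h2 : 0 ≤ |x| ^ 4 := by positivity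
  norm_num [Nat.factorial] at h
  nlinarith

end Pool.Agent.Lib.MP_1f4710_co.Iso
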